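import Pool.Agent.Lib.MP_424d38_an.SpecB

/-!
# Block C: the conservation laws in null coordinates
-/

set_option autoImplicit false

open MeasureTheory Filter Topology Set
open scoped ENNReal ContDiff ComplexConjugate

noncomputable section

namespace Pool.Agent.Lib.MP424d38.TY

/-- EXT (the weak equation against `H¹` functions).  Hypotheses DEN, BYP.
Proof.  `Lin.eq` for `ψ_n → φ` of DEN; the time integrands converge uniformly on `[s,t]` because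
`v₂`, `N` are bounded on `[s,t]` (continuous on a compact interval) and
`|∫v₂(r)(d1ψ_n - φ₁)| ≤ ‖v₂ r‖‖d1ψ_n - φ₁‖`.  The second form: `∫ v₂ φ₁ = ∫ v₁ φ₂` by BYP. -/
def SpecEXT : Prop := ∀ (T : ℝ) (v v₁ v₂ N : ℝ → L2), Lin T v v₁ v₂ N →
  ∀ φ φ₁ φ₂ : L2, IsH1 φ φ₁ φ₂ → ∀ s t : ℝ, 0 ≤ s → s ≤ t → t < T →
    ((∫ x, v t x * φ x) - ∫ x, v s x * φ x
      = ∫ r in s..t, Complex.I * (-4 * (∫ x, v₂ r x * φ₁ x) + ∫ x, N r x * φ x)) ∧
    ((∫ x, v t x * φ x) - ∫ x, v s x * φ x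
      = ∫ r in s..t, Complex.I * (-4 * (∫ x, v₁ r x * φ₂ x) + ∫ x, N r x * φ x))

/-- BIL (the bilinear identity).  Hypotheses EXT, MUL, LIN (conjugation), BYP.
Proof.  Let `E(t) = ∫ β v̄(t) w(t)`.  It is continuous on `[0,T)`.  For `t ∈ (0,T)` and small `k`
`E(t+k) - E(t) = ∫ β conj(v(t+k)-v(t)) w(t+k) + ∫ β v̄(t)(w(t+k)-w(t))`.
First term: EXT (first form) for `v` with the `H¹` function `φ = β conj(w(t+k))` (MUL + LIN; `φ₁ = β conj(w₁) + β' conj(w)`,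
taken at time `t+k`), conjugated; after division by `k` it tends (everything is continuous in `L²`) to
`conj( i(-4∫ v₂(β w̄₁ + β' w̄) + ∫ N β w̄) ) = 4i∫ v̄₂(βw₁+β'w) - i∫βN̄w`.
Second term: EXT (second form!) for `w` with `φ = β v̄(t)`, `φ₂ = β v̄₂`: the limit is
`i(-4∫ w₁ β v̄₂ + ∫ N'βv̄)`.  The sum is `4i∫β'v̄₂w + i∫β(v̄N' - N̄w)`: so `E` is differentiable on `(0,T)` with this
derivative, which extends continuously to `[0,T)`; fundamental theorem of calculus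
(`intervalIntegral.integral_eq_sub_of_hasDerivAt_of_le` or
`integral_eq_of_hasDerivAt_of_le`).  (Alternatively: Riemann sums; or prove the identity
for the integrals directly by a uniform partition of `[s,t]`.) -/
def SpecBIL : Prop := ∀ (T : ℝ) (v v₁ v₂ N w w₁ w₂ N' : ℝ → L2), Lin T v v₁ v₂ N → Lin T w w₁ w₂ N' →
  ∀ β : ℝ → ℝ, Cb1 β → ∀ s t : ℝ, 0 ≤ s → s ≤ t → t < T →
    (∫ x : ℝ × ℝ, ((β x.1 : ℝ) : ℂ) * (conj (v t x) * w t x))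
      - (∫ x : ℝ × ℝ, ((β x.1 : ℝ) : ℂ) * (conj (v s x) * w s x))
    = ∫ r in s..t, (4 * Complex.I * (∫ x : ℝ × ℝ, ((deriv β x.1 : ℝ) : ℂ) * (conj (v₂ r x) * w r x))
        + Complex.I * ∫ x : ℝ × ℝ, ((β x.1 : ℝ) : ℂ) * (conj (v r x) * N' r x - conj (N r x) * w r x))

/-- DQL (the difference quotient solves the linear equation).  Hypotheses TRN, LIN.
Proof.  Translation and linearity: `Lin.eq` for `trn h v` tested with `ψ` is `Lin.eq` for `v` tested with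
`ψ(· - (0,h))`; then take the difference and multiply by `h⁻¹`. -/
def SpecDQL : Prop := ∀ (T : ℝ) (v v₁ v₂ N : ℝ → L2), Lin T v v₁ v₂ N → ∀ h : ℝ,
  Lin T (fun t => trn h (v t)) (fun t => trn h (v₁ t)) (fun t => trn h (v₂ t))
      (fun t => trn h (N t)) ∧
  Lin T (fun t => dq h (v t)) (fun t => dq h (v₁ t)) (fun t => dq h (v₂ t)) (fun t => dq h (N t))

/-- SHF (time shift).  Immediate from the definitions (change of variables in the time integral). -/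
def SpecSHF : Prop := ∀ (T t₁ : ℝ) (v v₁ v₂ N : ℝ → L2), 0 ≤ t₁ → t₁ < T → Lin T v v₁ v₂ N →
  Lin (T - t₁) (fun t => v (t₁ + t)) (fun t => v₁ (t₁ + t)) (fun t => v₂ (t₁ + t))
    (fun t => N (t₁ + t))

/-- RHL (law of the mass density, and conservation of mass).  Hypotheses BIL, DNS.
Proof.  BIL with `w = v`: real part.  `Re(4i ∫β' v̄₂ v) = -4 Im ∫β' v̄₂v = 4∫β' Im(v̄v₂)`; the nonlinear term is
`i·2i Im(∫β v̄N) = -2 ∫ β Im(|v|⁴) = 0`.  DNS (6) turns the integrals over `ℝ × ℝ` into integrals of densities.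
Mass: `β = 1` and DNS (1). -/
def SpecRHL : Prop := ∀ (T : ℝ) (v v₁ v₂ N : ℝ → L2), Nls T v v₁ v₂ N →
  (∀ β : ℝ → ℝ, Cb1 β → ∀ s t : ℝ, 0 ≤ s → s ≤ t → t < T →
    (∫ a, β a * rhoD (v t) a) - ∫ a, β a * rhoD (v s) a
      = ∫ r in s..t, 4 * ∫ a, deriv β a * momD (v r) (v₂ r) a) ∧
  (∀ t ∈ Ico 0 T, ‖v t‖ = ‖v 0‖)

/-- MML (law of the momentum density).  Hypotheses BIL, DQL, TRN, ZER, ZE2, DNS.
Proof.  BIL for `v` and `w = trn h v` (`N' = trn h N`), imaginary part, divided by `h ≠ 0`.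
Left side: `(1/h) Im ∫β v̄ trn_h v = Im ∫β v̄ dq_h v → Im∫βv̄v₂` (as `Im(v̄v) = 0`, TRN (3)).
Right side, first term: `(4/h) Re∫β'v̄₂ trn_hv = 4Re∫β'v̄₂ dq_hv + (4/h)Re∫β'v̄₂v`, the last integral is `0` (ZE2); it tends
to `4∫β'|v₂|²`, bounded by `4‖β'‖‖v₂‖²` (`‖dq_h v‖ ≤ ‖v₂‖`, TRN (2)).
Second term: `(1/h)Re∫β(v̄ trn_hN - N̄ trn_hv)`.  Translation invariance of the measure in `b` and of `β`:
`∫βv̄ trn_hN = ∫β conj(trn_{-h}v) N`, whose real part is `Re∫β N̄ trn_{-h}v`; so the term is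
`Re∫βN̄ (trn_{-h}v - trn_hv)/h = -Re∫βN̄(dq_{-h}v + dq_hv) → -2Re∫βN̄v₂ = 0` (ZER), bounded by `2‖β‖‖N‖‖v₂‖`.
Dominated convergence in time on `[s,t]` (the bounds are continuous in time), `h = 1/n → 0`. -/
def SpecMML : Prop := ∀ (T : ℝ) (v v₁ v₂ N : ℝ → L2), Nls T v v₁ v₂ N →
  ∀ β : ℝ → ℝ, Cb1 β → ∀ s t : ℝ, 0 ≤ s → s ≤ t → t < T →
    (∫ a, β a * momD (v t) (v₂ t) a) - ∫ a, β a * momD (v s) (v₂ s) a
      = ∫ r in s..t, 4 * ∫ a, deriv β a * rhoD (v₂ r) a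

/-- FLO (the flow of densities).  Hypotheses RHL, MML, DNS, RHB.
Proof.  `ρ t`, `p t`, `e t` are the `L1` classes of `rhoD (v t)`, `momD (v t)(v₂ t)`, `rhoD (v₂ t)` (DNS (1),(2));
continuity in `L¹` by DNS (4),(5); laws RHL, MML; positivity DNS (1),(3); `ρ ≤ ‖v t‖‖v₁ t‖` RHB; mass DNS (1), RHL. -/
def SpecFLO : Prop := ∀ (T : ℝ) (v v₁ v₂ N : ℝ → L2), Nls T v v₁ v₂ N → ∃ ρ p e : ℝ → L1,
  Flow T (‖v 0‖ ^ 2) (fun t => ‖v t‖ * ‖v₁ t‖) ρ p e ∧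
  ∀ t ∈ Ico 0 T, (∀ᵐ a : ℝ, ρ t a = rhoD (v t) a) ∧ (∀ᵐ a : ℝ, p t a = momD (v t) (v₂ t) a) ∧
    (∀ᵐ a : ℝ, e t a = rhoD (v₂ t) a) ∧ gF ρ p e t = gD (v t) (v₂ t) ∧
    ∫ a, e t a = ‖v₂ t‖ ^ 2

end Pool.Agent.Lib.MP424d38.TY
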