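import Pool.Agent.Lib.MP_424d38_an.SpecB

section
/-! # BYP: integration by parts between `H¹` functions -/
set_option autoImplicit false

open MeasureTheory Filter Topology Set
open scoped ENNReal ContDiff ComplexConjugate

noncomputable section

namespace Pool.Agent.Lib.MP424d38.TY

namespace BYPM

theorem integrable_mul' (F : L2) {φ : ℝ × ℝ → ℂ} (hm : MemLp φ 2 (volume : Measure (ℝ × ℝ))) :
    Integrable (fun x => F x * φ x) (volume : Measure (ℝ × ℝ)) :=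
  (Lp.memLp F).integrable_mul hm

theorem lim_le (F G : L2) {φ : ℝ × ℝ → ℂ} (hm : MemLp φ 2 (volume : Measure (ℝ × ℝ))) :
    eLpNorm (fun x => F x * φ x - F x * G x) 1 volume ≤
      eLpNorm F 2 volume * eLpNorm (fun x => φ x - G x) 2 volume := by
  have h1 : (fun x => F x * φ x - F x * G x) = (F : ℝ × ℝ → ℂ) • (fun x => φ x - G x) := by
    funext x
    simp only [Pi.smul_apply', smul_eq_mul]
    ring
  rw [h1]
  exact eLpNorm_smul_le_mul_eLpNorm (hm.1.sub (Lp.memLp G).1) (Lp.memLp F).1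

theorem lim (F G : L2) (φ : ℕ → ℝ × ℝ → ℂ) (hm : ∀ n, MemLp (φ n) 2 (volume : Measure (ℝ × ℝ)))
    (h : Tendsto (fun n => eLpNorm (fun x => φ n x - G x) 2 volume) atTop (𝓝 0)) :
    Tendsto (fun n => ∫ x, F x * φ n x) atTop (𝓝 (∫ x, F x * G x)) := by
  have hF : eLpNorm F 2 volume ≠ ⊤ := (Lp.memLp F).2.ne
  have hlim : Tendsto (fun n => eLpNorm F 2 volume *
      eLpNorm (fun x => φ n x - G x) 2 volume) atTop (𝓝 0) := by
    have := ENNReal.Tendsto.const_mul h (Or.inr hF)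
    rwa [mul_zero] at this
  have h2 : Tendsto (fun n => eLpNorm (fun x => F x * φ n x - F x * G x) 1 volume) atTop
      (𝓝 0) :=
    tendsto_of_tendsto_of_tendsto_of_le_of_le tendsto_const_nhds hlim
      (fun _ => zero_le) (fun n => lim_le F G (hm n))
  exact tendsto_integral_of_L1' (μ := (volume : Measure (ℝ × ℝ))) (fun x => F x * G x)
    (integrable_mul' F (Lp.memLp G)).1
    (Eventually.of_forall fun n => integrable_mul' F (hm n)) h2

theorem test_d {ψ : ℝ × ℝ → ℂ} (h : Test ψ) (v : ℝ × ℝ) : Test (fun x => fderiv ℝ ψ x v) :=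
  ⟨(h.1.fderiv_right (m := ∞) (by exact_mod_cast le_top)).clm_apply contDiff_const,
    h.2.fderiv_apply ℝ v⟩

theorem memLp_test {ψ : ℝ × ℝ → ℂ} (h : Test ψ) : MemLp ψ 2 (volume : Measure (ℝ × ℝ)) :=
  h.1.continuous.memLp_of_hasCompactSupport h.2

theorem symm {ψ : ℝ × ℝ → ℂ} (h : Test ψ) (x : ℝ × ℝ) : d1 (d2 ψ) x = d2 (d1 ψ) x := by
  have hs : IsSymmSndFDerivAt ℝ ψ x := h.1.contDiffAt.isSymmSndFDerivAt (by
    simp only [minSmoothness_of_isRCLikeNormedField]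
    exact WithTop.coe_le_coe.2 (le_top : (2 : ℕ∞) ≤ ⊤))
  have hd : DifferentiableAt ℝ (fderiv ℝ ψ) x :=
    ((h.1.fderiv_right (m := ∞) (by exact_mod_cast le_top)).differentiable
      (by exact_mod_cast ENat.top_ne_zero)) x
  have key : ∀ v w : ℝ × ℝ, fderiv ℝ (fun y => fderiv ℝ ψ y v) x w =
      fderiv ℝ (fderiv ℝ ψ) x w v := by
    intro v w
    rw [fderiv_clm_apply hd (differentiableAt_const v)]
    simp
  show fderiv ℝ (fun y => fderiv ℝ ψ y (0, 1)) x (1, 0) =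
    fderiv ℝ (fun y => fderiv ℝ ψ y (1, 0)) x (0, 1)
  rw [key, key]
  exact hs.eq (1, 0) (0, 1)

end BYPM

open BYPM in
theorem specBYP (hDEN : SpecDEN) : SpecBYP := by
  intro f F₁ F₂ g G₁ G₂ hf hg
  obtain ⟨ψ, hψ, l0, l1, l2⟩ := hDEN g G₁ G₂ hg
  have m0 : ∀ n, MemLp (ψ n) 2 (volume : Measure (ℝ × ℝ)) := fun n => memLp_test (hψ n)
  have m1 : ∀ n, MemLp (d1 (ψ n)) 2 (volume : Measure (ℝ × ℝ)) := fun n =>
    memLp_test (test_d (hψ n) (1, 0))
  have m2 : ∀ n, MemLp (d2 (ψ n)) 2 (volume : Measure (ℝ × ℝ)) := fun n =>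
    memLp_test (test_d (hψ n) (0, 1))
  refine ⟨?_, ?_, ?_⟩
  · have a := lim f G₁ _ m1 l1
    have b := (lim F₁ g _ m0 l0).neg
    refine tendsto_nhds_unique a (b.congr fun n => ?_)
    exact ((hf (ψ n) (hψ n)).1).symm
  · have a := lim f G₂ _ m2 l2
    have b := (lim F₂ g _ m0 l0).neg
    refine tendsto_nhds_unique a (b.congr fun n => ?_)
    exact ((hf (ψ n) (hψ n)).2).symm
  · have a := lim F₁ G₂ _ m2 l2
    have b := lim F₂ G₁ _ m1 l1
    refine tendsto_nhds_unique a (b.congr fun n => ?_)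
    have h1 := (hf (d2 (ψ n)) (test_d (hψ n) (0, 1))).1
    have h2 := (hf (d1 (ψ n)) (test_d (hψ n) (1, 0))).2
    have h3 : ∫ x, f x * d1 (d2 (ψ n)) x = ∫ x, f x * d2 (d1 (ψ n)) x := by
      refine integral_congr_ae (Eventually.of_forall fun x => ?_)
      simp only [symm (hψ n) x]
    rw [h1, h2] at h3
    exact (neg_injective h3).symm

end Pool.Agent.Lib.MP424d38.TY
end
end

section
/-!
# MP_424d38_an, block B, module CTN (continuity in time of nonlinear quantities)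
-/
set_option autoImplicit false

open MeasureTheory Filter Topology Set
open scoped ENNReal ContDiff ComplexConjugate

noncomputable section

namespace Pool.Agent.Lib.MP424d38.TY
namespace CTNM

lemma np_pow (p : ℕ) (hp : p ≠ 0) (f : ℝ × ℝ → ℂ) (hf : MemLp f p volume) :
    (eLpNorm f p volume).toReal ^ p = ∫ x, ‖f x‖ ^ p := by
  rw [hf.eLpNorm_eq_integral_rpow_norm (by exact_mod_cast hp) (by simp)]
  have h1 : ((p : ℝ≥0∞)).toReal = (p : ℝ) := by simp
  have h2 : ∫ x, ‖f x‖ ^ ((p : ℝ≥0∞)).toReal = ∫ x, ‖f x‖ ^ p := by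
    congr 1
    funext x
    rw [h1, Real.rpow_natCast]
  have h3 : 0 ≤ ∫ x, ‖f x‖ ^ p := integral_nonneg fun x => by positivity
  rw [h2, h1, ENNReal.toReal_ofReal (by positivity), Real.rpow_inv_natCast_pow h3 hp]

lemma sub_h1 (hLIN : SpecLIN) {f F₁ F₂ g G₁ G₂ : L2} (h : IsH1 f F₁ F₂) (h' : IsH1 g G₁ G₂) :
    IsH1 (f - g) (F₁ - G₁) (F₂ - G₂) := by
  obtain ⟨l1, l2, -⟩ := hLIN
  have a := l1 _ _ _ _ _ _ h (l2 (-1) _ _ _ h')
  rw [neg_one_smul, neg_one_smul, neg_one_smul, ← sub_eq_add_neg, ← sub_eq_add_neg,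
    ← sub_eq_add_neg] at a
  exact a

lemma sub_norm (p : ℝ≥0∞) (f g : L2) :
    eLpNorm (fun x => f x - g x) p volume = eLpNorm (⇑(f - g)) p volume :=
  eLpNorm_congr_ae (Lp.coeFn_sub f g).symm

lemma tri (p : ℕ) (hp : 1 ≤ p) (f g : L2) (hf : MemLp f p volume) (hg : MemLp g p volume) :
    (eLpNorm f p volume).toReal ≤
      (eLpNorm g p volume).toReal + (eLpNorm (⇑(f - g)) p volume).toReal := by
  have h1 : eLpNorm f p volume ≤ eLpNorm g p volume + eLpNorm (⇑(f - g)) p volume := by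
    rw [← sub_norm]
    have h2 : (⇑f : ℝ × ℝ → ℂ) = ⇑g + fun x => f x - g x := by
      funext x
      simp
    conv_lhs => rw [h2]
    exact eLpNorm_add_le hg.1 (hf.1.sub hg.1) (by exact_mod_cast hp)
  have h3 : eLpNorm (⇑(f - g)) p volume ≠ ⊤ := by
    rw [← sub_norm]
    exact (hf.sub hg).eLpNorm_ne_top
  rw [← ENNReal.toReal_add hg.eLpNorm_ne_top h3]
  exact ENNReal.toReal_mono (ENNReal.add_ne_top.2 ⟨hg.eLpNorm_ne_top, h3⟩) h1

/-- smallness of the powers gives smallness of the norms -/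
lemma tends {ι : Type*} {l : Filter ι} {n c : ι → ℝ} (p : ℕ) (hp : p ≠ 0) (hn : ∀ᶠ i in l, 0 ≤ n i)
    (h : ∀ᶠ i in l, n i ^ p ≤ c i) (hc : Tendsto c l (𝓝 0)) : Tendsto n l (𝓝 0) := by
  rw [Metric.tendsto_nhds]
  intro ε hε
  have h1 : ∀ᶠ i in l, c i < ε ^ p := hc.eventually_lt_const (by positivity)
  filter_upwards [hn, h, h1] with i a b d
  rw [Real.dist_eq, sub_zero, abs_of_nonneg a]
  exact lt_of_pow_lt_pow_left₀ p hε.le (b.trans_lt d)

end CTNM

open CTNM in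
theorem specCTN (hSOB : SpecSOB) (hCUB : SpecCUB) (hLIN : SpecLIN) : SpecCTN := by
  classical
  intro T v v₁ v₂ hH cv c1 c2
  obtain ⟨-, q2, q3⟩ := hCUB
  have m4 : ∀ t ∈ Ico 0 T, MemLp (v t) ((4 : ℕ) : ℝ≥0∞) volume := fun t ht => by
    have := (hSOB _ _ _ (hH t ht)).1
    exact_mod_cast this
  have m6 : ∀ t ∈ Ico 0 T, MemLp (v t) ((6 : ℕ) : ℝ≥0∞) volume := fun t ht => by
    have := (hSOB _ _ _ (hH t ht)).2.1
    exact_mod_cast this
  have hd : ∀ s ∈ Ico 0 T, ∀ t ∈ Ico 0 T, IsH1 (v s - v t) (v₁ s - v₁ t) (v₂ s - v₂ t) :=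
    fun s hs t ht => sub_h1 hLIN (hH s hs) (hH t ht)
  -- the differences
  have t0 : ∀ t ∈ Ico 0 T, Tendsto (fun s => ‖v s - v t‖) (𝓝[Ico 0 T] t) (𝓝 0) := fun t ht =>
    tendsto_iff_norm_sub_tendsto_zero.1 (cv t ht)
  have t1 : ∀ t ∈ Ico 0 T, Tendsto (fun s => ‖v₁ s - v₁ t‖) (𝓝[Ico 0 T] t) (𝓝 0) := fun t ht =>
    tendsto_iff_norm_sub_tendsto_zero.1 (c1 t ht)
  have t2 : ∀ t ∈ Ico 0 T, Tendsto (fun s => ‖v₂ s - v₂ t‖) (𝓝[Ico 0 T] t) (𝓝 0) := fun t ht =>
    tendsto_iff_norm_sub_tendsto_zero.1 (c2 t ht)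
  have d4 : ∀ t ∈ Ico 0 T, Tendsto (fun s => (eLpNorm (⇑(v s - v t)) ((4 : ℕ) : ℝ≥0∞)
      volume).toReal) (𝓝[Ico 0 T] t) (𝓝 0) := by
    intro t ht
    apply tends 4 (by norm_num) (c := fun s => ‖v s - v t‖ ^ 2 * ‖v₁ s - v₁ t‖ * ‖v₂ s - v₂ t‖)
    · exact Eventually.of_forall fun s => ENNReal.toReal_nonneg
    · filter_upwards [self_mem_nhdsWithin] with s hs
      obtain ⟨a1, -, -, -, -, -, a7, -⟩ := hSOB _ _ _ (hd s hs t ht)
      rw [np_pow 4 (by norm_num) _ (by exact_mod_cast a1)]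
      exact a7
    · have := (((t0 t ht).pow 2).mul (t1 t ht)).mul (t2 t ht)
      simpa using this
  have d6 : ∀ t ∈ Ico 0 T, Tendsto (fun s => (eLpNorm (⇑(v s - v t)) ((6 : ℕ) : ℝ≥0∞)
      volume).toReal) (𝓝[Ico 0 T] t) (𝓝 0) := by
    intro t ht
    apply tends 6 (by norm_num)
      (c := fun s => ‖v s - v t‖ * ‖v₁ s - v₁ t‖ * (‖v s - v t‖ * ‖v₁ s - v₁ t‖ * ‖v₂ s - v₂ t‖ ^ 2))
    · exact Eventually.of_forall fun s => ENNReal.toReal_nonneg
    · filter_upwards [self_mem_nhdsWithin] with s hs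
      obtain ⟨-, a2, -, -, a5, a6, -, -⟩ := hSOB _ _ _ (hd s hs t ht)
      rw [np_pow 6 (by norm_num) _ (by exact_mod_cast a2)]
      refine a6.trans ?_
      gcongr
    · have := ((t0 t ht).mul (t1 t ht)).mul (((t0 t ht).mul (t1 t ht)).mul ((t2 t ht).pow 2))
      simpa using this
  refine ⟨?_, ?_⟩
  · have hex : ∀ t, t ∈ Ico 0 T → ∃ N : L2, ∀ᵐ x : ℝ × ℝ, N x = ((‖v t x‖ ^ 2 : ℝ) : ℂ) * v t x :=
      fun t ht => q2 (v t) (by exact_mod_cast m6 t ht)
    let N : ℝ → L2 := fun t => if h : t ∈ Ico 0 T then Classical.choose (hex t h) else 0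
    have hN : ∀ t ∈ Ico 0 T, ∀ᵐ x : ℝ × ℝ, N t x = ((‖v t x‖ ^ 2 : ℝ) : ℂ) * v t x := by
      intro t ht
      have h := Classical.choose_spec (hex t ht)
      have e : N t = Classical.choose (hex t ht) := dif_pos ht
      rw [e]
      exact h
    refine ⟨N, ?_, hN⟩
    intro t ht
    unfold ContinuousWithinAt
    rw [tendsto_iff_norm_sub_tendsto_zero]
    set K := (eLpNorm (v t) ((6 : ℕ) : ℝ≥0∞) volume).toReal with hK
    have hlim : Tendsto (fun s => 2 * (2 * K + (eLpNorm (⇑(v s - v t)) ((6 : ℕ) : ℝ≥0∞)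
        volume).toReal) ^ 2 * (eLpNorm (⇑(v s - v t)) ((6 : ℕ) : ℝ≥0∞) volume).toReal)
        (𝓝[Ico 0 T] t) (𝓝 0) := by
      have := ((((d6 t ht).const_add (2 * K)).pow 2).const_mul 2).mul (d6 t ht)
      simpa using this
    refine squeeze_zero' (Eventually.of_forall fun s => norm_nonneg _) ?_ hlim
    filter_upwards [self_mem_nhdsWithin] with s hs
    have h1 := q3 (v s) (v t) (N s) (N t) (by exact_mod_cast m6 s hs) (by exact_mod_cast m6 t ht)
      (hN s hs) (hN t ht)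
    rw [sub_norm, sub_norm] at h1
    have e6 : (6 : ℝ≥0∞) = ((6 : ℕ) : ℝ≥0∞) := by norm_num
    rw [e6] at h1
    have f1 : eLpNorm (v s) ((6 : ℕ) : ℝ≥0∞) volume ≠ ⊤ := (m6 s hs).eLpNorm_ne_top
    have f2 : eLpNorm (v t) ((6 : ℕ) : ℝ≥0∞) volume ≠ ⊤ := (m6 t ht).eLpNorm_ne_top
    have f3 : eLpNorm (⇑(v s - v t)) ((6 : ℕ) : ℝ≥0∞) volume ≠ ⊤ := by
      rw [← sub_norm]
      exact ((m6 s hs).sub (m6 t ht)).eLpNorm_ne_top
    have h2 : ‖N s - N t‖ ≤ 2 * ((eLpNorm (v s) ((6 : ℕ) : ℝ≥0∞) volume).toReal + K) ^ 2 *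
        (eLpNorm (⇑(v s - v t)) ((6 : ℕ) : ℝ≥0∞) volume).toReal := by
      rw [Lp.norm_def]
      have h3 := ENNReal.toReal_mono (ENNReal.mul_ne_top (ENNReal.mul_ne_top (by norm_num)
        (ENNReal.pow_ne_top (ENNReal.add_ne_top.2 ⟨f1, f2⟩))) f3) h1
      rw [ENNReal.toReal_mul, ENNReal.toReal_mul, ENNReal.toReal_pow,
        ENNReal.toReal_add f1 f2, ENNReal.toReal_ofNat, ← hK] at h3
      exact h3
    have h4 := tri 6 (by norm_num) (v s) (v t) (m6 s hs) (m6 t ht)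
    rw [← hK] at h4
    refine h2.trans ?_
    have h5 : 0 ≤ (eLpNorm (⇑(v s - v t)) ((6 : ℕ) : ℝ≥0∞) volume).toReal :=
      ENNReal.toReal_nonneg
    have h6 : 0 ≤ (eLpNorm (v s) ((6 : ℕ) : ℝ≥0∞) volume).toReal := ENNReal.toReal_nonneg
    have h7 : 0 ≤ K := ENNReal.toReal_nonneg
    have h8 : (eLpNorm (v s) ((6 : ℕ) : ℝ≥0∞) volume).toReal + K ≤
        2 * K + (eLpNorm (⇑(v s - v t)) ((6 : ℕ) : ℝ≥0∞) volume).toReal := by linarith
    have h9 := pow_le_pow_left₀ (add_nonneg h6 h7) h8 2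
    exact mul_le_mul_of_nonneg_right (mul_le_mul_of_nonneg_left h9 (by norm_num)) h5
  · intro t ht
    have h1 : ∀ s ∈ Ico 0 T, ∫ x, ‖v s x‖ ^ 4 = (eLpNorm (v s) ((4 : ℕ) : ℝ≥0∞)
        volume).toReal ^ 4 := fun s hs => (np_pow 4 (by norm_num) _ (m4 s hs)).symm
    show Tendsto (fun s => ∫ x, ‖v s x‖ ^ 4) (𝓝[Ico 0 T] t) (𝓝 (∫ x, ‖v t x‖ ^ 4))
    rw [h1 t ht]
    have h2 : Tendsto (fun s => (eLpNorm (v s) ((4 : ℕ) : ℝ≥0∞) volume).toReal) (𝓝[Ico 0 T] t)
        (𝓝 (eLpNorm (v t) ((4 : ℕ) : ℝ≥0∞) volume).toReal) := by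
      rw [tendsto_iff_norm_sub_tendsto_zero]
      refine squeeze_zero' (Eventually.of_forall fun s => norm_nonneg _) ?_ (d4 t ht)
      filter_upwards [self_mem_nhdsWithin] with s hs
      have h3 := tri 4 (by norm_num) (v s) (v t) (m4 s hs) (m4 t ht)
      have h4 := tri 4 (by norm_num) (v t) (v s) (m4 t ht) (m4 s hs)
      have h5 : eLpNorm (⇑(v t - v s)) ((4 : ℕ) : ℝ≥0∞) volume =
          eLpNorm (⇑(v s - v t)) ((4 : ℕ) : ℝ≥0∞) volume := by
        rw [← sub_norm, ← sub_norm, ← eLpNorm_neg]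
        congr 1
        funext x
        simp
      rw [h5] at h4
      rw [Real.norm_eq_abs, abs_le]
      constructor <;> linarith
    refine (h2.pow 4).congr' ?_
    filter_upwards [self_mem_nhdsWithin] with s hs
    exact (h1 s hs).symm

end Pool.Agent.Lib.MP424d38.TY
end
end

section
set_option autoImplicit false

open MeasureTheory Filter Topology Set
open scoped ENNReal ContDiff ComplexConjugate

noncomputable section

namespace Pool.Agent.Lib.MP424d38.TY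

namespace CUBM

lemma pw (x y : ℂ) : ‖((‖x‖ ^ 2 : ℝ) : ℂ) * x - ((‖y‖ ^ 2 : ℝ) : ℂ) * y‖
    ≤ 3 / 2 * (‖x‖ ^ 2 + ‖y‖ ^ 2) * ‖x - y‖ := by
  have e : ((‖x‖ ^ 2 : ℝ) : ℂ) * x - ((‖y‖ ^ 2 : ℝ) : ℂ) * y
      = ((‖x‖ ^ 2 : ℝ) : ℂ) * (x - y) + ((‖x‖ ^ 2 - ‖y‖ ^ 2 : ℝ) : ℂ) * y := by
    push_cast
    ring
  rw [e]
  have h1 : ‖((‖x‖ ^ 2 : ℝ) : ℂ) * (x - y)‖ = ‖x‖ ^ 2 * ‖x - y‖ := by
    rw [norm_mul, Complex.norm_real, Real.norm_eq_abs, abs_of_nonneg (by positivity)]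
  have h2 : ‖((‖x‖ ^ 2 - ‖y‖ ^ 2 : ℝ) : ℂ) * y‖ ≤ ‖x - y‖ * (‖x‖ + ‖y‖) * ‖y‖ := by
    rw [norm_mul, Complex.norm_real, Real.norm_eq_abs]
    have : |‖x‖ ^ 2 - ‖y‖ ^ 2| ≤ ‖x - y‖ * (‖x‖ + ‖y‖) := by
      rw [show ‖x‖ ^ 2 - ‖y‖ ^ 2 = (‖x‖ - ‖y‖) * (‖x‖ + ‖y‖) by ring, abs_mul,
        abs_of_nonneg (by positivity : 0 ≤ ‖x‖ + ‖y‖)]
      gcongr
      exact abs_norm_sub_norm_le x y
    gcongr
  have h3 := norm_add_le (((‖x‖ ^ 2 : ℝ) : ℂ) * (x - y)) (((‖x‖ ^ 2 - ‖y‖ ^ 2 : ℝ) : ℂ) * y)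
  have h4 : 0 ≤ ‖x - y‖ * (‖x‖ - ‖y‖) ^ 2 := by positivity
  nlinarith

lemma ht1 : ENNReal.HolderTriple 6 6 3 := by
  refine ⟨?_⟩
  rw [← ENNReal.toReal_eq_toReal_iff' (by simp) (by simp),
    ENNReal.toReal_add (by simp) (by simp)]
  simp only [ENNReal.toReal_inv, ENNReal.toReal_ofNat]
  norm_num

lemma ht2 : ENNReal.HolderTriple 3 6 2 := by
  refine ⟨?_⟩
  rw [← ENNReal.toReal_eq_toReal_iff' (by simp) (by simp),
    ENNReal.toReal_add (by simp) (by simp)]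
  simp only [ENNReal.toReal_inv, ENNReal.toReal_ofNat]
  norm_num

end CUBM

open CUBM in
theorem specCUB : SpecCUB := by
  have := ht1
  have := ht2
  refine ⟨pw, ?_, ?_⟩
  · intro f hf
    have hn : MemLp (fun x => ‖f x‖) 6 volume := hf.norm
    have h2 : MemLp (fun x => ‖f x‖ * ‖f x‖) 3 volume := by
      have := MemLp.mul (hpqr := ht1) hn hn
      exact this
    have h3 : MemLp (fun x => (‖f x‖ * ‖f x‖) • f x) 2 volume := by
      have := MemLp.smul (hpqr := ht2) hf h2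
      exact this
    refine ⟨h3.toLp _, ?_⟩
    filter_upwards [h3.coeFn_toLp] with x hx
    rw [hx, Complex.real_smul]
    congr 2
    ring
  · intro f g N N' hf hg hN hN'
    have hh : MemLp (fun x => ‖f x‖ + ‖g x‖) 6 volume := hf.norm.add hg.norm
    have hd : MemLp (fun x => f x - g x) 6 volume := hf.sub hg
    have s1 : eLpNorm (fun x => N x - N' x) 2 volume
        ≤ eLpNorm (fun x => (2 : ℝ) * (((‖f x‖ + ‖g x‖) * (‖f x‖ + ‖g x‖)) * ‖f x - g x‖)) 2 volume := by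
      apply eLpNorm_mono_ae
      filter_upwards [hN, hN'] with x hx hx'
      rw [hx, hx']
      refine (pw (f x) (g x)).trans ?_
      rw [Real.norm_eq_abs, abs_of_nonneg (by positivity)]
      have h1 : 0 ≤ ‖f x‖ * ‖g x‖ := by positivity
      have h2 : 0 ≤ ‖f x‖ ^ 2 + ‖g x‖ ^ 2 := by positivity
      have : 3 / 2 * (‖f x‖ ^ 2 + ‖g x‖ ^ 2) ≤ 2 * ((‖f x‖ + ‖g x‖) * (‖f x‖ + ‖g x‖)) := by
        nlinarith
      calc 3 / 2 * (‖f x‖ ^ 2 + ‖g x‖ ^ 2) * ‖f x - g x‖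
          ≤ 2 * ((‖f x‖ + ‖g x‖) * (‖f x‖ + ‖g x‖)) * ‖f x - g x‖ := by gcongr
        _ = _ := by ring
    have s2 : eLpNorm (fun x => (2 : ℝ) * (((‖f x‖ + ‖g x‖) * (‖f x‖ + ‖g x‖)) * ‖f x - g x‖)) 2 volume
        ≤ 2 * eLpNorm (fun x => ((‖f x‖ + ‖g x‖) * (‖f x‖ + ‖g x‖)) * ‖f x - g x‖) 2 volume := by
      have := eLpNorm_const_smul_le (c := (2 : ℝ)) (p := 2) (μ := (volume : Measure (ℝ × ℝ)))
        (f := fun x => ((‖f x‖ + ‖g x‖) * (‖f x‖ + ‖g x‖)) * ‖f x - g x‖)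
      have e2 : ‖(2 : ℝ)‖ₑ = 2 := by
        rw [Real.enorm_eq_ofReal (by norm_num)]
        simp
      rw [e2] at this
      exact this
    have s3 : eLpNorm (fun x => ((‖f x‖ + ‖g x‖) * (‖f x‖ + ‖g x‖)) * ‖f x - g x‖) 2 volume
        ≤ eLpNorm (fun x => (‖f x‖ + ‖g x‖) * (‖f x‖ + ‖g x‖)) 3 volume
          * eLpNorm (fun x => ‖f x - g x‖) 6 volume := by
      have := eLpNorm_smul_le_mul_eLpNorm (p := 3) (q := 6) (r := 2)
        (μ := (volume : Measure (ℝ × ℝ))) (f := fun x => ‖f x - g x‖)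
        (φ := fun x => (‖f x‖ + ‖g x‖) * (‖f x‖ + ‖g x‖)) hd.norm.1 (hh.1.mul hh.1)
      exact this
    have s4 : eLpNorm (fun x => (‖f x‖ + ‖g x‖) * (‖f x‖ + ‖g x‖)) 3 volume
        ≤ eLpNorm (fun x => ‖f x‖ + ‖g x‖) 6 volume * eLpNorm (fun x => ‖f x‖ + ‖g x‖) 6 volume := by
      have := eLpNorm_smul_le_mul_eLpNorm (p := 6) (q := 6) (r := 3)
        (μ := (volume : Measure (ℝ × ℝ))) (f := fun x => ‖f x‖ + ‖g x‖)
        (φ := fun x => ‖f x‖ + ‖g x‖) hh.1 hh.1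
      exact this
    have s5 : eLpNorm (fun x => ‖f x‖ + ‖g x‖) 6 volume
        ≤ eLpNorm f 6 volume + eLpNorm g 6 volume := by
      have := eLpNorm_add_le (p := 6) (μ := (volume : Measure (ℝ × ℝ))) hf.norm.1 hg.norm.1
        (by norm_num)
      rw [eLpNorm_norm, eLpNorm_norm] at this
      exact this
    rw [eLpNorm_norm] at s3
    calc eLpNorm (fun x => N x - N' x) 2 volume
        ≤ 2 * eLpNorm (fun x => ((‖f x‖ + ‖g x‖) * (‖f x‖ + ‖g x‖)) * ‖f x - g x‖) 2 volume :=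
          s1.trans s2
      _ ≤ 2 * (((eLpNorm f 6 volume + eLpNorm g 6 volume) * (eLpNorm f 6 volume + eLpNorm g 6 volume))
          * eLpNorm (fun x => f x - g x) 6 volume) := by
          gcongr
          refine s3.trans ?_
          gcongr
          exact s4.trans (mul_le_mul' s5 s5)
      _ = _ := by ring

end Pool.Agent.Lib.MP424d38.TY
end
end

section
/-!
# MP_424d38_an, module CUT: cutoffs in `H¹`
-/
set_option autoImplicit false

open MeasureTheory Filter Topology Set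
open scoped ENNReal ContDiff ComplexConjugate

noncomputable section

namespace Pool.Agent.Lib.MP424d38.TY

namespace CUTM

/-! The one dimensional cutoff. -/

theorem hsmooth : ContDiff ℝ ∞ hc :=
  (Real.smoothTransition.contDiff.comp (contDiff_const.sub contDiff_id)).mul
    (Real.smoothTransition.contDiff.comp (contDiff_const.add contDiff_id))

theorem heq_abs (s : ℝ) : hc s = Real.smoothTransition (2 - |s|) := by
  rcases le_or_gt 0 s with h | h
  · rw [abs_of_nonneg h]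
    unfold hc
    rw [Real.smoothTransition.one_of_one_le (x := 2 + s) (by linarith), mul_one]
  · rw [abs_of_neg h]
    unfold hc
    rw [Real.smoothTransition.one_of_one_le (x := 2 - s) (by linarith), one_mul,
      show 2 - -s = 2 + s by ring]

theorem hzero (s : ℝ) (h : 2 ≤ |s|) : hc s = 0 := by
  rw [heq_abs]
  exact Real.smoothTransition.zero_of_nonpos (by linarith)

theorem hone (s : ℝ) (h : |s| ≤ 1) : hc s = 1 := by
  rw [heq_abs]
  exact Real.smoothTransition.one_of_one_le (by linarith)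

theorem h01 (s : ℝ) : 0 ≤ hc s ∧ hc s ≤ 1 := by
  rw [heq_abs]
  exact ⟨Real.smoothTransition.nonneg _, Real.smoothTransition.le_one _⟩

theorem hcpt : HasCompactSupport hc := by
  refine HasCompactSupport.of_support_subset_isCompact (isCompact_Icc (a := (-2 : ℝ)) (b := 2))
    fun s hs => ?_
  by_contra hcon
  refine hs (hzero s ?_)
  by_contra h2
  push Not at h2
  exact hcon ⟨(abs_lt.1 h2).1.le, (abs_lt.1 h2).2.le⟩

theorem hbound : ∃ C : ℝ, 1 ≤ C ∧ ∀ s, |deriv hc s| ≤ C := by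
  obtain ⟨C, hC⟩ := hcpt.deriv.exists_bound_of_continuous
    (contDiff_infty_iff_deriv.1 hsmooth).2.continuous
  exact ⟨max 1 C, le_max_left _ _, fun s => (hC s).trans (le_max_right _ _)⟩

/-! The cutoff in the plane, `n ≥ 0`, radius `n + 1`. -/

/-- real cutoff -/
def ct (n : ℕ) (x : ℝ × ℝ) : ℝ := hc (x.1 / (n + 1)) * hc (x.2 / (n + 1))

/-- its first derivative -/
def ct1 (n : ℕ) (x : ℝ × ℝ) : ℝ := deriv hc (x.1 / (n + 1)) / (n + 1) * hc (x.2 / (n + 1))

/-- its second derivative -/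
def ct2 (n : ℕ) (x : ℝ × ℝ) : ℝ := hc (x.1 / (n + 1)) * (deriv hc (x.2 / (n + 1)) / (n + 1))

theorem hder (n : ℕ) (s : ℝ) :
    HasDerivAt (fun s : ℝ => hc (s / (n + 1))) (deriv hc (s / (n + 1)) / (n + 1)) s := by
  have h1 : HasDerivAt hc (deriv hc (s / (n + 1))) (s / (n + 1)) :=
    (hsmooth.differentiable (by simp) _).hasDerivAt
  have h2 : HasDerivAt (fun s : ℝ => s / ((n : ℝ) + 1)) (1 / ((n : ℝ) + 1)) s :=
    (hasDerivAt_id s).div_const _
  have h3 := h1.comp s h2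
  rw [mul_one_div] at h3
  exact h3

theorem ct_smooth (n : ℕ) : ContDiff ℝ ∞ (ct n) :=
  (hsmooth.comp (contDiff_fst.div_const _)).mul (hsmooth.comp (contDiff_snd.div_const _))

theorem ct_fderiv (n : ℕ) (x : ℝ × ℝ) (v : ℝ × ℝ) :
    fderiv ℝ (ct n) x v = ct1 n x * v.1 + ct2 n x * v.2 := by
  have h1 : HasFDerivAt (fun x : ℝ × ℝ => hc (x.1 / (n + 1)))
      ((deriv hc (x.1 / (n + 1)) / (n + 1)) • ContinuousLinearMap.fst ℝ ℝ ℝ) x :=
    (hder n x.1).comp_hasFDerivAt x hasFDerivAt_fst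
  have h2 : HasFDerivAt (fun x : ℝ × ℝ => hc (x.2 / (n + 1)))
      ((deriv hc (x.2 / (n + 1)) / (n + 1)) • ContinuousLinearMap.snd ℝ ℝ ℝ) x :=
    (hder n x.2).comp_hasFDerivAt x hasFDerivAt_snd
  have h3 := (h1.mul h2).fderiv
  have h4 : ct n = (fun x : ℝ × ℝ => hc (x.1 / (n + 1)) * hc (x.2 / (n + 1))) := rfl
  rw [h4]
  erw [h3]
  simp only [ContinuousLinearMap.add_apply, ContinuousLinearMap.smul_apply,
    ContinuousLinearMap.coe_fst', ContinuousLinearMap.coe_snd', smul_eq_mul, ct1, ct2]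
  ring

theorem ct_cont (n : ℕ) : Continuous (ct n) := (ct_smooth n).continuous

theorem ct1_cont (n : ℕ) : Continuous (ct1 n) := by
  have h : Continuous (deriv hc) := (contDiff_infty_iff_deriv.1 hsmooth).2.continuous
  exact ((h.comp (continuous_fst.div_const _)).div_const _).mul
    (hsmooth.continuous.comp (continuous_snd.div_const _))

theorem ct2_cont (n : ℕ) : Continuous (ct2 n) := by
  have h : Continuous (deriv hc) := (contDiff_infty_iff_deriv.1 hsmooth).2.continuous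
  exact (hsmooth.continuous.comp (continuous_fst.div_const _)).mul
    ((h.comp (continuous_snd.div_const _)).div_const _)

theorem ct_abs (n : ℕ) (x : ℝ × ℝ) : |ct n x| ≤ 1 := by
  obtain ⟨a0, a1⟩ := h01 (x.1 / (n + 1))
  obtain ⟨b0, b1⟩ := h01 (x.2 / (n + 1))
  rw [ct, abs_of_nonneg (mul_nonneg a0 b0)]
  exact mul_le_one₀ a1 b0 b1

theorem ct1_abs {C : ℝ} (hC1 : 1 ≤ C) (hC : ∀ s, |deriv hc s| ≤ C) (n : ℕ) (x : ℝ × ℝ) :
    |ct1 n x| ≤ C / (n + 1) := by
  obtain ⟨b0, b1⟩ := h01 (x.2 / (n + 1))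
  have hn : (0 : ℝ) < (n : ℝ) + 1 := by positivity
  rw [ct1, abs_mul, abs_div, abs_of_pos hn, abs_of_nonneg b0]
  calc |deriv hc (x.1 / (n + 1))| / (n + 1) * hc (x.2 / (n + 1))
      ≤ C / (n + 1) * 1 := by gcongr; exact hC _
    _ = C / (n + 1) := mul_one _

theorem ct2_abs {C : ℝ} (hC1 : 1 ≤ C) (hC : ∀ s, |deriv hc s| ≤ C) (n : ℕ) (x : ℝ × ℝ) :
    |ct2 n x| ≤ C / (n + 1) := by
  obtain ⟨b0, b1⟩ := h01 (x.1 / (n + 1))
  have hn : (0 : ℝ) < (n : ℝ) + 1 := by positivity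
  rw [ct2, abs_mul, abs_div, abs_of_pos hn, abs_of_nonneg b0]
  calc hc (x.1 / (n + 1)) * (|deriv hc (x.2 / (n + 1))| / (n + 1))
      ≤ 1 * (C / (n + 1)) := by gcongr; exact hC _
    _ = C / (n + 1) := one_mul _

theorem ct_lim (x : ℝ × ℝ) : Tendsto (fun n : ℕ => ct n x - 1) atTop (𝓝 0) := by
  refine tendsto_const_nhds.congr' ?_
  obtain ⟨N, hN⟩ := exists_nat_ge (max |x.1| |x.2|)
  filter_upwards [eventually_ge_atTop N] with n hn
  have hn0 : (0 : ℝ) < (n : ℝ) + 1 := by positivity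
  have h1 : (N : ℝ) ≤ n := by exact_mod_cast hn
  have e1 : |x.1 / ((n : ℝ) + 1)| ≤ 1 := by
    rw [abs_div, abs_of_pos hn0, div_le_one hn0]
    linarith [le_max_left |x.1| |x.2|]
  have e2 : |x.2 / ((n : ℝ) + 1)| ≤ 1 := by
    rw [abs_div, abs_of_pos hn0, div_le_one hn0]
    linarith [le_max_right |x.1| |x.2|]
  rw [ct, hone _ e1, hone _ e2]
  norm_num

/-! `L²` facts. -/

theorem sq_norm (u : L2) : ‖u‖ ^ 2 = ∫ x, ‖u x‖ ^ 2 := by
  have h := (Lp.memLp u).eLpNorm_eq_integral_rpow_norm (by norm_num) (by norm_num)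
  rw [Lp.norm_def, h]
  simp only [ENNReal.toReal_ofNat, Real.rpow_ofNat]
  rw [ENNReal.toReal_ofReal (by positivity), ← Real.rpow_natCast, ← Real.rpow_mul (by positivity)]
  norm_num

theorem int_sq (u : L2) : Integrable (fun x => ‖u x‖ ^ 2) :=
  (Lp.memLp u).integrable_norm_pow (by norm_num)

theorem dct {a b : ℕ → ℝ × ℝ → ℝ} {C : ℝ} (ha : ∀ n, Continuous (a n)) (hb : ∀ n, Continuous (b n))
    (hCa : ∀ n x, |a n x| ≤ C) (hCb : ∀ n x, |b n x| ≤ C)
    (la : ∀ x, Tendsto (fun n => a n x) atTop (𝓝 0))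
    (lb : ∀ x, Tendsto (fun n => b n x) atTop (𝓝 0)) (u v : L2) (w : ℕ → L2)
    (hw : ∀ n, ∀ᵐ x : ℝ × ℝ, w n x = ((a n x : ℝ) : ℂ) * u x + ((b n x : ℝ) : ℂ) * v x) :
    Tendsto (fun n => ‖w n‖) atTop (𝓝 0) := by
  have h1 : Tendsto (fun n => ∫ x : ℝ × ℝ,
      ‖((a n x : ℝ) : ℂ) * u x + ((b n x : ℝ) : ℂ) * v x‖ ^ 2) atTop (𝓝 (∫ _x : ℝ × ℝ, (0 : ℝ))) := by
    refine tendsto_integral_of_dominated_convergence
      (fun x => 2 * C ^ 2 * ‖u x‖ ^ 2 + 2 * C ^ 2 * ‖v x‖ ^ 2) (fun n => ?_) ?_ (fun n => ?_) ?_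
    · have m1 : AEStronglyMeasurable (fun x : ℝ × ℝ => ((a n x : ℝ) : ℂ) * u x) volume :=
        (Complex.continuous_ofReal.comp (ha n)).aestronglyMeasurable.mul (Lp.aestronglyMeasurable u)
      have m2 : AEStronglyMeasurable (fun x : ℝ × ℝ => ((b n x : ℝ) : ℂ) * v x) volume :=
        (Complex.continuous_ofReal.comp (hb n)).aestronglyMeasurable.mul (Lp.aestronglyMeasurable v)
      exact ((m1.add m2).norm.pow 2)
    · exact ((int_sq u).const_mul _).add ((int_sq v).const_mul _)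
    · refine ae_of_all _ fun x => ?_
      rw [Real.norm_eq_abs, abs_of_nonneg (by positivity)]
      have e1 : ‖((a n x : ℝ) : ℂ) * u x‖ ≤ C * ‖u x‖ := by
        rw [norm_mul, Complex.norm_real, Real.norm_eq_abs]
        exact mul_le_mul_of_nonneg_right (hCa n x) (norm_nonneg _)
      have e2 : ‖((b n x : ℝ) : ℂ) * v x‖ ≤ C * ‖v x‖ := by
        rw [norm_mul, Complex.norm_real, Real.norm_eq_abs]
        exact mul_le_mul_of_nonneg_right (hCb n x) (norm_nonneg _)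
      have e3 := (norm_add_le (((a n x : ℝ) : ℂ) * u x) (((b n x : ℝ) : ℂ) * v x)).trans
        (add_le_add e1 e2)
      calc ‖((a n x : ℝ) : ℂ) * u x + ((b n x : ℝ) : ℂ) * v x‖ ^ 2
          ≤ (C * ‖u x‖ + C * ‖v x‖) ^ 2 := by gcongr
        _ ≤ 2 * C ^ 2 * ‖u x‖ ^ 2 + 2 * C ^ 2 * ‖v x‖ ^ 2 := by
          nlinarith [sq_nonneg (C * ‖u x‖ - C * ‖v x‖)]
    · refine ae_of_all _ fun x => ?_
      have e1 : Tendsto (fun n => ((a n x : ℝ) : ℂ) * u x + ((b n x : ℝ) : ℂ) * v x) atTop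
          (𝓝 (((0 : ℝ) : ℂ) * u x + ((0 : ℝ) : ℂ) * v x)) :=
        (((Complex.continuous_ofReal.tendsto 0).comp (la x)).mul_const _).add
          (((Complex.continuous_ofReal.tendsto 0).comp (lb x)).mul_const _)
      have e2 := (e1.norm.pow 2)
      simpa using e2
  have h2 : ∀ n, ‖w n‖ ^ 2 = ∫ x : ℝ × ℝ,
      ‖((a n x : ℝ) : ℂ) * u x + ((b n x : ℝ) : ℂ) * v x‖ ^ 2 := by
    intro n
    rw [sq_norm]
    refine integral_congr_ae ?_
    filter_upwards [hw n] with x hx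
    rw [hx]
  simp only [integral_zero] at h1
  have h3 : Tendsto (fun n => ‖w n‖ ^ 2) atTop (𝓝 0) := by
    simpa only [h2] using h1
  have h4 := (Real.continuous_sqrt.tendsto 0).comp h3
  simp only [Real.sqrt_zero] at h4
  refine h4.congr fun n => ?_
  simp only [Function.comp_apply]
  exact Real.sqrt_sq (norm_nonneg _)

/-! Multiplication of a test function by the cutoff. -/

/-- complex cutoff times `ψ` -/
def cm (n : ℕ) (ψ : ℝ × ℝ → ℂ) (x : ℝ × ℝ) : ℂ := ((ct n x : ℝ) : ℂ) * ψ x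

theorem cm_test (n : ℕ) {ψ : ℝ × ℝ → ℂ} (h : Test ψ) : Test (cm n ψ) :=
  ⟨(Complex.ofRealCLM.contDiff.comp (ct_smooth n)).mul h.1, h.2.mul_left⟩

theorem cm_fderiv (n : ℕ) {ψ : ℝ × ℝ → ℂ} (h : Test ψ) (x v : ℝ × ℝ) :
    fderiv ℝ (cm n ψ) x v = ((ct n x : ℝ) : ℂ) * fderiv ℝ ψ x v
      + ((fderiv ℝ (ct n) x v : ℝ) : ℂ) * ψ x := by
  have h1 : HasFDerivAt (fun x => ((ct n x : ℝ) : ℂ))
      (Complex.ofRealCLM.comp (fderiv ℝ (ct n) x)) x :=
    Complex.ofRealCLM.hasFDerivAt.comp x ((ct_smooth n).differentiable (by simp) x).hasFDerivAt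
  have h2 : HasFDerivAt ψ (fderiv ℝ ψ x) x := (h.1.differentiable (by simp) x).hasFDerivAt
  have h3 := (h1.mul h2).fderiv
  have h4 : cm n ψ = (fun x => ((ct n x : ℝ) : ℂ) * ψ x) := rfl
  rw [h4]
  erw [h3]
  simp only [ContinuousLinearMap.add_apply, ContinuousLinearMap.smul_apply,
    ContinuousLinearMap.comp_apply, Complex.ofRealCLM_apply, smul_eq_mul]
  ring

theorem int_mul (f : L2) {u : ℝ × ℝ → ℂ} (hu : Continuous u) (hc : HasCompactSupport u) :
    Integrable (fun x => f x * u x) := by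
  have h1 : MemLp u 2 (volume : Measure (ℝ × ℝ)) := hu.memLp_of_hasCompactSupport hc
  exact (Lp.memLp f).integrable_mul h1

theorem memLp_c {c : ℝ × ℝ → ℝ} {C : ℝ} (hc : Continuous c) (hC : ∀ x, |c x| ≤ C) (f : L2) :
    MemLp (fun x => ((c x : ℝ) : ℂ) * f x) 2 (volume : Measure (ℝ × ℝ)) := by
  refine (Lp.memLp f).of_le_mul (c := C)
    ((Complex.continuous_ofReal.comp hc).aestronglyMeasurable.mul (Lp.aestronglyMeasurable f))
    (ae_of_all _ fun x => ?_)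
  rw [norm_mul, Complex.norm_real, Real.norm_eq_abs]
  exact mul_le_mul_of_nonneg_right (hC x) (norm_nonneg _)

/-- one half of `IsH1` for the product -/
theorem half (n : ℕ) (f F : L2) {ψ : ℝ × ℝ → ℂ} (hψ : Test ψ) (v : ℝ × ℝ) {c' : ℝ × ℝ → ℝ}
    (hc' : Continuous c') (hv : ∀ x, fderiv ℝ (ct n) x v = c' x)
    (h : ∫ x, f x * fderiv ℝ (cm n ψ) x v = - ∫ x, F x * cm n ψ x) :
    ∫ x, (((ct n x : ℝ) : ℂ) * f x) * fderiv ℝ ψ x v
      = - ∫ x, (((ct n x : ℝ) : ℂ) * F x + ((c' x : ℝ) : ℂ) * f x) * ψ x := by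
  have c0 : Continuous (fun x => ((ct n x : ℝ) : ℂ)) := Complex.continuous_ofReal.comp (ct_cont n)
  have c1 : Continuous (fun x => ((c' x : ℝ) : ℂ)) := Complex.continuous_ofReal.comp hc'
  have cd : Continuous (fun x => fderiv ℝ ψ x v) :=
    (hψ.1.continuous_fderiv (by simp)).clm_apply continuous_const
  have sd : HasCompactSupport (fun x => fderiv ℝ ψ x v) := by
    refine (hψ.2.fderiv (𝕜 := ℝ)).mono' ?_
    intro x hx
    refine subset_tsupport _ ?_
    intro h0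
    apply hx
    simp only at h0 ⊢
    rw [h0]
    rfl
  have i1 : Integrable (fun x => f x * (((ct n x : ℝ) : ℂ) * fderiv ℝ ψ x v)) :=
    int_mul f (c0.mul cd) sd.mul_left
  have i2 : Integrable (fun x => f x * (((c' x : ℝ) : ℂ) * ψ x)) :=
    int_mul f (c1.mul hψ.1.continuous) hψ.2.mul_left
  have i3 : Integrable (fun x => F x * (((ct n x : ℝ) : ℂ) * ψ x)) :=
    int_mul F (c0.mul hψ.1.continuous) hψ.2.mul_left
  have e1 : ∫ x, f x * fderiv ℝ (cm n ψ) x v =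
      (∫ x, f x * (((ct n x : ℝ) : ℂ) * fderiv ℝ ψ x v)) + ∫ x, f x * (((c' x : ℝ) : ℂ) * ψ x) := by
    rw [← integral_add i1 i2]
    refine integral_congr_ae (ae_of_all _ fun x => ?_)
    simp only [cm_fderiv n hψ, hv]
    ring
  have e2 : ∫ x, (((ct n x : ℝ) : ℂ) * F x + ((c' x : ℝ) : ℂ) * f x) * ψ x =
      (∫ x, F x * (((ct n x : ℝ) : ℂ) * ψ x)) + ∫ x, f x * (((c' x : ℝ) : ℂ) * ψ x) := by
    rw [← integral_add i3 i2]
    refine integral_congr_ae (ae_of_all _ fun x => ?_)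
    simp only
    ring
  have e3 : ∫ x, (((ct n x : ℝ) : ℂ) * f x) * fderiv ℝ ψ x v =
      ∫ x, f x * (((ct n x : ℝ) : ℂ) * fderiv ℝ ψ x v) :=
    integral_congr_ae (ae_of_all _ fun x => by simp only; ring)
  have e4 : ∫ x, F x * cm n ψ x = ∫ x, F x * (((ct n x : ℝ) : ℂ) * ψ x) := rfl
  rw [e2, e3]
  rw [e1, e4] at h
  linear_combination h

end CUTM

open CUTM in
theorem specCUT : SpecCUT := by
  intro f F₁ F₂ hf ε hε
  obtain ⟨C, hC1, hC⟩ := hbound
  have hCn : ∀ n : ℕ, C / ((n : ℝ) + 1) ≤ C := fun n =>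
    div_le_self (by linarith) (by linarith [(Nat.cast_nonneg n : (0 : ℝ) ≤ n)])
  have b0 : ∀ (n : ℕ) x, |ct n x| ≤ C := fun n x => (ct_abs n x).trans hC1
  have b1 : ∀ (n : ℕ) x, |ct1 n x| ≤ C := fun n x => (ct1_abs hC1 hC n x).trans (hCn n)
  have b2 : ∀ (n : ℕ) x, |ct2 n x| ≤ C := fun n x => (ct2_abs hC1 hC n x).trans (hCn n)
  let g : ℕ → L2 := fun n => (memLp_c (ct_cont n) (b0 n) f).toLp _
  let G₁ : ℕ → L2 := fun n => (memLp_c (ct_cont n) (b0 n) F₁).toLp _ +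
    (memLp_c (ct1_cont n) (b1 n) f).toLp _
  let G₂ : ℕ → L2 := fun n => (memLp_c (ct_cont n) (b0 n) F₂).toLp _ +
    (memLp_c (ct2_cont n) (b2 n) f).toLp _
  have hg : ∀ n, ∀ᵐ x : ℝ × ℝ, g n x = ((ct n x : ℝ) : ℂ) * f x := fun n =>
    MemLp.coeFn_toLp (memLp_c (ct_cont n) (b0 n) f)
  have hG₁ : ∀ n, ∀ᵐ x : ℝ × ℝ, G₁ n x = ((ct n x : ℝ) : ℂ) * F₁ x + ((ct1 n x : ℝ) : ℂ) * f x := by
    intro n
    filter_upwards [Lp.coeFn_add ((memLp_c (ct_cont n) (b0 n) F₁).toLp _)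
      ((memLp_c (ct1_cont n) (b1 n) f).toLp _), MemLp.coeFn_toLp (memLp_c (ct_cont n) (b0 n) F₁),
      MemLp.coeFn_toLp (memLp_c (ct1_cont n) (b1 n) f)] with x h1 h2 h3
    simp only [G₁, h1, Pi.add_apply, h2, h3]
  have hG₂ : ∀ n, ∀ᵐ x : ℝ × ℝ, G₂ n x = ((ct n x : ℝ) : ℂ) * F₂ x + ((ct2 n x : ℝ) : ℂ) * f x := by
    intro n
    filter_upwards [Lp.coeFn_add ((memLp_c (ct_cont n) (b0 n) F₂).toLp _)
      ((memLp_c (ct2_cont n) (b2 n) f).toLp _), MemLp.coeFn_toLp (memLp_c (ct_cont n) (b0 n) F₂),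
      MemLp.coeFn_toLp (memLp_c (ct2_cont n) (b2 n) f)] with x h1 h2 h3
    simp only [G₂, h1, Pi.add_apply, h2, h3]
  have hH : ∀ n, IsH1 (g n) (G₁ n) (G₂ n) := by
    intro n ψ hψ
    have k := hf (cm n ψ) (cm_test n hψ)
    constructor
    · have := half n f F₁ hψ (1, 0) (ct1_cont n) (fun x => by rw [ct_fderiv]; simp) k.1
      calc ∫ x, g n x * d1 ψ x = ∫ x, (((ct n x : ℝ) : ℂ) * f x) * fderiv ℝ ψ x (1, 0) := by
            refine integral_congr_ae ?_
            filter_upwards [hg n] with x hx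
            rw [hx]; rfl
        _ = _ := this
        _ = - ∫ x, G₁ n x * ψ x := by
            congr 1
            refine integral_congr_ae ?_
            filter_upwards [hG₁ n] with x hx
            rw [hx]
    · have := half n f F₂ hψ (0, 1) (ct2_cont n) (fun x => by rw [ct_fderiv]; simp) k.2
      calc ∫ x, g n x * d2 ψ x = ∫ x, (((ct n x : ℝ) : ℂ) * f x) * fderiv ℝ ψ x (0, 1) := by
            refine integral_congr_ae ?_
            filter_upwards [hg n] with x hx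
            rw [hx]; rfl
        _ = _ := this
        _ = - ∫ x, G₂ n x * ψ x := by
            congr 1
            refine integral_congr_ae ?_
            filter_upwards [hG₂ n] with x hx
            rw [hx]
  have lim1 : ∀ x : ℝ × ℝ, Tendsto (fun n : ℕ => ct1 n x) atTop (𝓝 0) := by
    intro x
    have h1 : Tendsto (fun n : ℕ => C / ((n : ℝ) + 1)) atTop (𝓝 0) :=
      tendsto_const_nhds.div_atTop (tendsto_atTop_add_const_right _ _ tendsto_natCast_atTop_atTop)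
    exact squeeze_zero_norm (fun n => ct1_abs hC1 hC n x) h1
  have lim2 : ∀ x : ℝ × ℝ, Tendsto (fun n : ℕ => ct2 n x) atTop (𝓝 0) := by
    intro x
    have h1 : Tendsto (fun n : ℕ => C / ((n : ℝ) + 1)) atTop (𝓝 0) :=
      tendsto_const_nhds.div_atTop (tendsto_atTop_add_const_right _ _ tendsto_natCast_atTop_atTop)
    exact squeeze_zero_norm (fun n => ct2_abs hC1 hC n x) h1
  have bm : ∀ (n : ℕ) x, |ct n x - 1| ≤ 2 * C := fun n x => by
    calc |ct n x - 1| ≤ |ct n x| + |(1 : ℝ)| := abs_sub _ _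
      _ ≤ C + C := add_le_add (b0 n x) (by rw [abs_one]; exact hC1)
      _ = 2 * C := by ring
  have cm1 : ∀ n : ℕ, Continuous (fun x => ct n x - 1) := fun n => (ct_cont n).sub continuous_const
  have t0 : Tendsto (fun n => ‖g n - f‖) atTop (𝓝 0) := by
    refine dct (a := fun n x => ct n x - 1) (b := fun _ _ => 0) (C := 2 * C) cm1
      (fun _ => continuous_const) bm (fun _ _ => by rw [abs_zero]; linarith) ct_lim
      (fun _ => tendsto_const_nhds) f f _ fun n => ?_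
    filter_upwards [Lp.coeFn_sub (g n) f, hg n] with x h1 h2
    rw [h1, Pi.sub_apply, h2]
    push_cast
    ring
  have t1 : Tendsto (fun n => ‖G₁ n - F₁‖) atTop (𝓝 0) := by
    refine dct (a := fun n x => ct n x - 1) (b := fun n x => ct1 n x) (C := 2 * C) cm1
      ct1_cont bm (fun n x => (b1 n x).trans (by linarith)) ct_lim
      lim1 F₁ f _ fun n => ?_
    filter_upwards [Lp.coeFn_sub (G₁ n) F₁, hG₁ n] with x h1 h2
    rw [h1, Pi.sub_apply, h2]
    push_cast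
    ring
  have t2 : Tendsto (fun n => ‖G₂ n - F₂‖) atTop (𝓝 0) := by
    refine dct (a := fun n x => ct n x - 1) (b := fun n x => ct2 n x) (C := 2 * C) cm1
      ct2_cont bm (fun n x => (b2 n x).trans (by linarith)) ct_lim
      lim2 F₂ f _ fun n => ?_
    filter_upwards [Lp.coeFn_sub (G₂ n) F₂, hG₂ n] with x h1 h2
    rw [h1, Pi.sub_apply, h2]
    push_cast
    ring
  obtain ⟨n, k0, k1, k2⟩ := ((t0.eventually_lt_const hε).and
    ((t1.eventually_lt_const hε).and (t2.eventually_lt_const hε))).exists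
  refine ⟨g n, G₁ n, G₂ n, 2 * ((n : ℝ) + 1), hH n, ?_, k0, k1, k2⟩
  filter_upwards [hg n] with x hx hR
  have hn0 : (0 : ℝ) < (n : ℝ) + 1 := by positivity
  rw [hx]
  have : ct n x = 0 := by
    rw [Prod.norm_def] at hR
    rcases lt_max_iff.1 hR with h | h
    · rw [ct, hzero, zero_mul]
      rw [abs_div, abs_of_pos hn0, le_div_iff₀ hn0]
      exact h.le
    · rw [ct, hzero (x.2 / _), mul_zero]
      rw [abs_div, abs_of_pos hn0, le_div_iff₀ hn0]
      exact h.le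
  rw [this]
  simp

end Pool.Agent.Lib.MP424d38.TY
end
end

section
/-!
# MP_424d38_an, module DEN: density of test functions in `H¹`
-/
set_option autoImplicit false

open MeasureTheory Filter Topology Set
open scoped ENNReal ContDiff ComplexConjugate

noncomputable section

namespace Pool.Agent.Lib.MP424d38.TY

namespace DENM

theorem d1_cont {ψ : ℝ × ℝ → ℂ} (h : Test ψ) : Continuous (d1 ψ) :=
  (h.1.continuous_fderiv (by simp)).clm_apply continuous_const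

theorem d2_cont {ψ : ℝ × ℝ → ℂ} (h : Test ψ) : Continuous (d2 ψ) :=
  (h.1.continuous_fderiv (by simp)).clm_apply continuous_const

theorem tri {u : ℝ × ℝ → ℂ} (hu : Continuous u) (g f : L2) {ε : ℝ} (hε : 0 < ε)
    (h1 : eLpNorm (fun x => u x - g x) 2 volume ≤ ENNReal.ofReal ε) (h2 : ‖g - f‖ < ε) :
    eLpNorm (fun x => u x - f x) 2 volume ≤ ENNReal.ofReal (2 * ε) := by
  have h3 : eLpNorm (fun x => g x - f x) 2 volume ≤ ENNReal.ofReal ε := by
    have h4 : eLpNorm (fun x => g x - f x) 2 volume = ENNReal.ofReal ‖g - f‖ := by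
      rw [Lp.norm_def, ENNReal.ofReal_toReal (Lp.eLpNorm_ne_top _)]
      exact (eLpNorm_congr_ae (Lp.coeFn_sub g f)).symm
    rw [h4]
    exact ENNReal.ofReal_le_ofReal h2.le
  have h5 : (fun x => u x - f x) = (fun x => u x - g x) + fun x => g x - f x := by
    funext x
    simp
  rw [h5, show 2 * ε = ε + ε by ring, ENNReal.ofReal_add hε.le hε.le]
  refine (eLpNorm_add_le ?_ ?_ (by norm_num)).trans (add_le_add h1 h3)
  · exact hu.aestronglyMeasurable.sub (Lp.aestronglyMeasurable g)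
  · exact (Lp.aestronglyMeasurable g).sub (Lp.aestronglyMeasurable f)

end DENM

open DENM in
theorem specDEN (hCUT : SpecCUT) (hMOL : SpecMOL) : SpecDEN := by
  intro f F₁ F₂ hf
  have key : ∀ n : ℕ, ∃ ψ : ℝ × ℝ → ℂ, Test ψ ∧
      eLpNorm (fun x => ψ x - f x) 2 volume ≤ ENNReal.ofReal (2 * (1 / ((n : ℝ) + 1))) ∧
      eLpNorm (fun x => d1 ψ x - F₁ x) 2 volume ≤ ENNReal.ofReal (2 * (1 / ((n : ℝ) + 1))) ∧
      eLpNorm (fun x => d2 ψ x - F₂ x) 2 volume ≤ ENNReal.ofReal (2 * (1 / ((n : ℝ) + 1))) := by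
    intro n
    have hε : (0 : ℝ) < 1 / ((n : ℝ) + 1) := by positivity
    obtain ⟨g, G₁, G₂, R, hg, hR, h0, h1, h2⟩ := hCUT f F₁ F₂ hf _ hε
    obtain ⟨ψ, hψ, k0, k1, k2⟩ := hMOL g G₁ G₂ R hg hR _ hε
    exact ⟨ψ, hψ, tri hψ.1.continuous g f hε k0 h0, tri (d1_cont hψ) G₁ F₁ hε k1 h1,
      tri (d2_cont hψ) G₂ F₂ hε k2 h2⟩
  choose ψ hψ h0 h1 h2 using key
  have hlim : Tendsto (fun n : ℕ => ENNReal.ofReal (2 * (1 / ((n : ℝ) + 1)))) atTop (𝓝 0) := by
    have := (tendsto_one_div_add_atTop_nhds_zero_nat (𝕜 := ℝ)).const_mul 2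
    rw [mul_zero] at this
    rw [← ENNReal.ofReal_zero]
    exact ENNReal.tendsto_ofReal this
  refine ⟨ψ, hψ, ?_, ?_, ?_⟩
  · exact tendsto_of_tendsto_of_tendsto_of_le_of_le tendsto_const_nhds hlim (fun _ => zero_le)
      h0
  · exact tendsto_of_tendsto_of_tendsto_of_le_of_le tendsto_const_nhds hlim (fun _ => zero_le)
      h1
  · exact tendsto_of_tendsto_of_tendsto_of_le_of_le tendsto_const_nhds hlim (fun _ => zero_le)
      h2

end Pool.Agent.Lib.MP424d38.TY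
end
end

section
/-!
# MP_424d38_an, module DNS: densities
-/
set_option autoImplicit false

open MeasureTheory Filter Topology Set
open scoped ENNReal ContDiff ComplexConjugate

noncomputable section

namespace Pool.Agent.Lib.MP424d38.TY

namespace DNSM

theorem quad_nonneg (p q r t : ℝ) (hp : 0 ≤ p) (hq : 0 ≤ q) (h : r ^ 2 ≤ p * q) :
    0 ≤ p * (t * t) + (-2 * r) * t + q := by
  rcases hp.eq_or_lt with h0 | h0
  · subst h0
    have hr : r = 0 := by
      have : r ^ 2 ≤ 0 := by simpa using h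
      exact pow_eq_zero_iff (two_ne_zero) |>.1 (le_antisymm this (sq_nonneg r))
    rw [hr]
    simpa using hq
  · have h1 : 0 ≤ p * (p * (t * t) + (-2 * r) * t + q) := by nlinarith [sq_nonneg (p * t - r)]
    exact nonneg_of_mul_nonneg_right h1 h0

theorem CS {α : Type} [MeasurableSpace α] {μ : Measure α} (p q r : α → ℝ) (hp : Integrable p μ)
    (hq : Integrable q μ) (hr : Integrable r μ) (h0 : ∀ᵐ x ∂μ, 0 ≤ p x ∧ 0 ≤ q x ∧ r x ^ 2 ≤ p x * q x) :
    (∫ x, r x ∂μ) ^ 2 ≤ (∫ x, p x ∂μ) * ∫ x, q x ∂μ := by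
  have h1 : ∀ t : ℝ, 0 ≤ (∫ x, p x ∂μ) * (t * t) + (-2 * ∫ x, r x ∂μ) * t + ∫ x, q x ∂μ := by
    intro t
    have e : (∫ x, p x ∂μ) * (t * t) + (-2 * ∫ x, r x ∂μ) * t + ∫ x, q x ∂μ =
        ∫ x, (p x * (t * t) + (-2 * r x) * t + q x) ∂μ := by
      have i1 : Integrable (fun x => p x * (t * t)) μ := hp.mul_const _
      have i2 : Integrable (fun x => -2 * r x * t) μ := (hr.const_mul _).mul_const _
      have i3 : Integrable (fun x => p x * (t * t) + -2 * r x * t) μ := i1.add i2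
      rw [integral_add i3 hq, integral_add i1 i2, integral_mul_const, integral_mul_const, integral_const_mul]
    rw [e]
    apply integral_nonneg_of_ae
    filter_upwards [h0] with x hx
    exact quad_nonneg _ _ _ _ hx.1 hx.2.1 hx.2.2
  have h2 := discrim_le_zero h1
  unfold discrim at h2
  nlinarith

theorem isq (f : L2) : Integrable (fun x : ℝ × ℝ => ‖f x‖ ^ 2) := by
  have := (memLp_two_iff_integrable_sq_norm (Lp.aestronglyMeasurable f)).1 (Lp.memLp f)
  exact this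

theorem nsq (f : L2) : ∫ x : ℝ × ℝ, ‖f x‖ ^ 2 = ‖f‖ ^ 2 := by
  have h1 : (inner ℂ f f : ℂ) = ((‖f‖ : ℂ)) ^ 2 := inner_self_eq_norm_sq_to_K f
  rw [L2.inner_def] at h1
  have h2 : ∀ x : ℝ × ℝ, (inner ℂ (f x) (f x) : ℂ) = ((‖f x‖ ^ 2 : ℝ) : ℂ) := by
    intro x
    rw [inner_self_eq_norm_sq_to_K]
    push_cast
    rfl
  simp only [h2] at h1
  have h3 : ∫ x : ℝ × ℝ, ((‖f x‖ ^ 2 : ℝ) : ℂ) = ((∫ x : ℝ × ℝ, ‖f x‖ ^ 2 : ℝ) : ℂ) := integral_ofReal
  rw [h3] at h1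
  exact_mod_cast h1

theorem ipr (f g : L2) : Integrable (fun x : ℝ × ℝ => ‖f x‖ * ‖g x‖) := by
  refine Integrable.mono' (((isq f).add (isq g)).const_mul (1 / 2)) ?_ ?_
  · exact ((Lp.aestronglyMeasurable f).norm.mul (Lp.aestronglyMeasurable g).norm)
  · refine Eventually.of_forall fun x => ?_
    rw [Real.norm_eq_abs, abs_of_nonneg (by positivity)]
    simp only [Pi.add_apply]
    nlinarith [sq_nonneg (‖f x‖ - ‖g x‖)]

theorem cs2 (f g : L2) : ∫ x : ℝ × ℝ, ‖f x‖ * ‖g x‖ ≤ ‖f‖ * ‖g‖ := by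
  have h := CS (fun x : ℝ × ℝ => ‖f x‖ ^ 2) (fun x => ‖g x‖ ^ 2) (fun x => ‖f x‖ * ‖g x‖) (isq f) (isq g) (ipr f g)
    (Eventually.of_forall fun x => ⟨by positivity, by positivity, le_of_eq (by ring)⟩)
  rw [nsq, nsq, ← mul_pow] at h
  exact abs_le_of_sq_le_sq' h (by positivity) |>.2

theorem iim (f F : L2) : Integrable (fun x : ℝ × ℝ => (conj (f x) * F x).im) := by
  refine Integrable.mono' (ipr f F) ?_ ?_
  · exact Complex.continuous_im.comp_aestronglyMeasurable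
      ((Complex.continuous_conj.comp_aestronglyMeasurable (Lp.aestronglyMeasurable f)).mul (Lp.aestronglyMeasurable F))
  · refine Eventually.of_forall fun x => ?_
    rw [Real.norm_eq_abs]
    refine (Complex.abs_im_le_norm _).trans (le_of_eq ?_)
    rw [norm_mul, RCLike.norm_conj]

theorem slice (h : ℝ × ℝ → ℝ) (hh : Integrable h) : ∫ a : ℝ, |∫ b : ℝ, h (a, b)| ≤ ∫ x, |h x| := by
  have hh' : Integrable h ((volume : Measure ℝ).prod volume) := hh
  have e : ∫ x : ℝ × ℝ, |h x| = ∫ a : ℝ, ∫ b : ℝ, |h (a, b)| :=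
    integral_prod (μ := (volume : Measure ℝ)) (ν := (volume : Measure ℝ)) (fun x => |h x|) hh'.abs
  rw [e]
  refine integral_mono hh'.integral_prod_left.abs hh'.abs.integral_prod_left ?_
  intro a
  exact abs_integral_le_integral_abs

theorem sub_ae (f g : L2) : ∀ᵐ x : ℝ × ℝ, (f - g : L2) x = f x - g x := Lp.coeFn_sub f g

end DNSM

open DNSM in
theorem specDNS : SpecDNS := by
  have hsl : ∀ f : L2, Integrable (fun x : ℝ × ℝ => ‖f x‖ ^ 2) ((volume : Measure ℝ).prod volume) := isq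
  have hil : ∀ f F : L2, Integrable (fun x : ℝ × ℝ => (conj (f x) * F x).im) ((volume : Measure ℝ).prod volume) := iim
  have hrI : ∀ f : L2, Integrable (rhoD f) := fun f => (hsl f).integral_prod_left
  have hmI : ∀ f F : L2, Integrable (momD f F) := fun f F => (hil f F).integral_prod_left
  refine ⟨?_, hmI, ?_, ?_, ?_, ?_⟩
  · intro f
    refine ⟨hrI f, fun a => integral_nonneg fun b => by positivity, ?_⟩
    rw [← nsq f]
    exact (integral_prod (μ := (volume : Measure ℝ)) (ν := (volume : Measure ℝ)) _ (hsl f)).symm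
  · intro f F
    filter_upwards [(hsl f).prod_right_ae, (hsl F).prod_right_ae, (hil f F).prod_right_ae] with a h1 h2 h3
    refine CS (fun b => ‖f (a, b)‖ ^ 2) (fun b => ‖F (a, b)‖ ^ 2) (fun b => (conj (f (a, b)) * F (a, b)).im) h1 h2 h3
      (Eventually.of_forall fun b => ⟨by positivity, by positivity, ?_⟩)
    have : |(conj (f (a, b)) * F (a, b)).im| ≤ ‖f (a, b)‖ * ‖F (a, b)‖ := by
      refine (Complex.abs_im_le_norm _).trans (le_of_eq ?_)
      rw [norm_mul, RCLike.norm_conj]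
    rw [← mul_pow, ← sq_abs]
    exact pow_le_pow_left₀ (abs_nonneg _) this 2
  · intro f g
    have h1 : ∫ a, |rhoD f a - rhoD g a| = ∫ a : ℝ, |∫ b : ℝ, (fun x : ℝ × ℝ => ‖f x‖ ^ 2 - ‖g x‖ ^ 2) (a, b)| := by
      apply integral_congr_ae
      filter_upwards [(hsl f).prod_right_ae, (hsl g).prod_right_ae] with a h1 h2
      have := integral_sub h1 h2
      simp only [rhoD]
      rw [← this]
    rw [h1]
    refine (slice _ ((isq f).sub (isq g))).trans ?_
    have h2 : ∫ x : ℝ × ℝ, |‖f x‖ ^ 2 - ‖g x‖ ^ 2| ≤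
        ∫ x : ℝ × ℝ, (‖(f - g : L2) x‖ * ‖f x‖ + ‖(f - g : L2) x‖ * ‖g x‖) := by
      refine integral_mono_ae ((isq f).sub (isq g)).abs ((ipr (f - g) f).add (ipr (f - g) g)) ?_
      filter_upwards [sub_ae f g] with x hx
      rw [hx]
      have e1 : |‖f x‖ - ‖g x‖| ≤ ‖f x - g x‖ := abs_norm_sub_norm_le _ _
      have e2 : ‖f x‖ ^ 2 - ‖g x‖ ^ 2 = (‖f x‖ - ‖g x‖) * (‖f x‖ + ‖g x‖) := by ring
      have e3 : 0 ≤ ‖f x‖ + ‖g x‖ := by positivity
      rw [e2, abs_mul, abs_of_nonneg e3, ← mul_add]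
      exact mul_le_mul_of_nonneg_right e1 e3
    refine h2.trans ?_
    rw [integral_add (ipr (f - g) f) (ipr (f - g) g), mul_add]
    exact add_le_add (cs2 _ _) (cs2 _ _)
  · intro f F g G
    have h1 : ∫ a, |momD f F a - momD g G a| =
        ∫ a : ℝ, |∫ b : ℝ, (fun x : ℝ × ℝ => (conj (f x) * F x).im - (conj (g x) * G x).im) (a, b)| := by
      apply integral_congr_ae
      filter_upwards [(hil f F).prod_right_ae, (hil g G).prod_right_ae] with a h1 h2
      have := integral_sub h1 h2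
      simp only [momD]
      rw [← this]
    rw [h1]
    refine (slice _ ((iim f F).sub (iim g G))).trans ?_
    have h2 : ∫ x : ℝ × ℝ, |(conj (f x) * F x).im - (conj (g x) * G x).im| ≤
        ∫ x : ℝ × ℝ, (‖(f - g : L2) x‖ * ‖F x‖ + ‖g x‖ * ‖(F - G : L2) x‖) := by
      refine integral_mono_ae ((iim f F).sub (iim g G)).abs ((ipr (f - g) F).add (ipr g (F - G))) ?_
      filter_upwards [sub_ae f g, sub_ae F G] with x hx hy
      rw [hx, hy, ← Complex.sub_im]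
      refine (Complex.abs_im_le_norm _).trans ?_
      have e : conj (f x) * F x - conj (g x) * G x = conj (f x - g x) * F x + conj (g x) * (F x - G x) := by
        rw [map_sub]; ring
      rw [e]
      refine (norm_add_le _ _).trans (le_of_eq ?_)
      rw [norm_mul, norm_mul, RCLike.norm_conj, RCLike.norm_conj]
    refine h2.trans ?_
    rw [integral_add (ipr (f - g) F) (ipr g (F - G))]
    exact add_le_add (cs2 _ _) (cs2 _ _)
  · intro β f F hβ ⟨C, hC⟩
    have hbm : AEStronglyMeasurable (fun x : ℝ × ℝ => β x.1) ((volume : Measure ℝ).prod volume) :=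
      (hβ.comp continuous_fst).aestronglyMeasurable
    have hbd : ∀ᵐ x : ℝ × ℝ ∂((volume : Measure ℝ).prod volume), ‖β x.1‖ ≤ C :=
      Eventually.of_forall fun x => by rw [Real.norm_eq_abs]; exact hC x.1
    constructor
    · have hI : Integrable (fun x : ℝ × ℝ => β x.1 * ‖f x‖ ^ 2) ((volume : Measure ℝ).prod volume) :=
        (hsl f).bdd_mul hbm hbd
      have e := integral_prod (μ := (volume : Measure ℝ)) (ν := (volume : Measure ℝ)) _ hI
      refine Eq.trans ?_ e.symm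
      apply integral_congr_ae
      refine Eventually.of_forall fun a => ?_
      simp only [rhoD]
      rw [integral_const_mul]
    · have hI : Integrable (fun x : ℝ × ℝ => β x.1 * (conj (f x) * F x).im) ((volume : Measure ℝ).prod volume) :=
        (hil f F).bdd_mul hbm hbd
      have e := integral_prod (μ := (volume : Measure ℝ)) (ν := (volume : Measure ℝ)) _ hI
      refine Eq.trans ?_ e.symm
      apply integral_congr_ae
      refine Eventually.of_forall fun a => ?_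
      simp only [momD]
      rw [integral_const_mul]

end Pool.Agent.Lib.MP424d38.TY
end
end

section
/-!
# Module GN1: one dimensional Gagliardo-Nirenberg inequality with momentum
-/
set_option autoImplicit false

open MeasureTheory Filter Topology Set
open scoped ENNReal ContDiff ComplexConjugate

noncomputable section

namespace Pool.Agent.Lib.MP424d38.TY

namespace GN1M

theorem integrable_of {f : ℝ → ℝ} (hf : Continuous f) {K : Set ℝ} (hK : IsCompact K)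
    (h0 : ∀ x, x ∉ K → f x = 0) : Integrable f := by
  refine hf.integrable_of_hasCompactSupport ?_
  refine HasCompactSupport.intro hK ?_
  intro x hx
  exact h0 x hx

theorem int3 {f g k : ℝ → ℝ} (hf : Integrable f) (hg : Integrable g) (hk : Integrable k)
    (a b c : ℝ) : ∫ s, (a * f s - b * g s + c * k s) = a * (∫ s, f s) - b * (∫ s, g s)
      + c * ∫ s, k s := by
  have h1 : ∫ s, (a * f s - b * g s + c * k s) = (∫ s, (a * f s - b * g s)) + ∫ s, c * k s :=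
    integral_add ((hf.const_mul a).sub (hg.const_mul b)) (hk.const_mul c)
  have h2 : ∫ s, (a * f s - b * g s) = (∫ s, a * f s) - ∫ s, b * g s :=
    integral_sub (hf.const_mul a) (hg.const_mul b)
  rw [h1, h2, integral_const_mul, integral_const_mul, integral_const_mul]

/-- `|f(b)| ≤ (1/2) ∫ |f'|` for a `C¹` function with compact support. -/
theorem half {f : ℝ → ℝ} (hf : ContDiff ℝ 1 f) (hc : HasCompactSupport f) (b : ℝ) :
    2 * f b ≤ ∫ x, |deriv f x| := by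
  have hcd : Continuous (deriv f) := hf.continuous_deriv le_rfl
  have hi : Integrable (deriv f) := hcd.integrable_of_hasCompactSupport hc.deriv
  have h1 := hc.integral_Iic_deriv_eq hf b
  have h2 := hc.integral_Ioi_deriv_eq hf b
  have h3 : ∫ x, |deriv f x| = (∫ x in Iic b, |deriv f x|) + ∫ x in Ioi b, |deriv f x| := by
    rw [← setIntegral_union (Iic_disjoint_Ioi le_rfl) measurableSet_Ioi hi.abs.integrableOn
      hi.abs.integrableOn, Iic_union_Ioi, setIntegral_univ]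
  have h4 : (∫ x in Iic b, deriv f x) ≤ ∫ x in Iic b, |deriv f x| :=
    integral_mono hi.integrableOn hi.abs.integrableOn (fun x => le_abs_self _)
  have h5 : -(∫ x in Ioi b, deriv f x) ≤ ∫ x in Ioi b, |deriv f x| := by
    rw [← integral_neg]
    exact integral_mono hi.integrableOn.neg hi.abs.integrableOn (fun x => neg_le_abs _)
  rw [h3]
  linarith

theorem main (h : ℝ → ℂ) (hs : ContDiff ℝ ∞ h) (hc : HasCompactSupport h) (c b : ℝ)
    (hρ : 0 < ∫ s, ‖h s‖ ^ 2) :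
    ‖h b‖ ^ 4 ≤ (∫ s, ‖h s‖ ^ 2) * ((∫ s, ‖deriv h s‖ ^ 2)
      - 2 * c * (∫ s, (conj (h s) * deriv h s).im) + c ^ 2 * ∫ s, ‖h s‖ ^ 2) := by
  have hcont : Continuous h := hs.continuous
  have hdc : Continuous (deriv h) := hs.continuous_deriv (by simp)
  have hd : Differentiable ℝ h := hs.differentiable (by simp)
  obtain ⟨K, hK, hK0⟩ : ∃ K : Set ℝ, IsCompact K ∧ ∀ x, x ∉ K → h x = 0 ∧ deriv h x = 0 := by
    refine ⟨tsupport h, hc, fun x hx => ⟨image_eq_zero_of_notMem_tsupport hx, ?_⟩⟩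
    have : x ∉ Function.support (deriv h) := fun hx' => hx (support_deriv_subset hx')
    simpa using this
  set G : ℝ → ℂ := fun s => deriv h s - Complex.I * (c : ℂ) * h s with hG
  have hGc : Continuous G := hdc.sub (continuous_const.mul hcont)
  -- the function `‖h‖²`
  set f : ℝ → ℝ := fun s => ‖h s‖ ^ 2 with hf
  have hfc : ContDiff ℝ 1 f := (hs.norm_sq ℝ).of_le (by simp)
  have hfs : HasCompactSupport f := by
    refine HasCompactSupport.intro hK fun x hx => ?_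
    simp [hf, (hK0 x hx).1]
  have hfd : ∀ s, deriv f s = 2 * (conj (h s) * deriv h s).re := by
    intro s
    have h1 : HasDerivAt h (deriv h s) s := (hd s).hasDerivAt
    have h2 := h1.norm_sq
    rw [h2.deriv]
    simp [Complex.inner]
    ring
  have hfG : ∀ s, |deriv f s| ≤ 2 * (‖h s‖ * ‖G s‖) := by
    intro s
    have h1 : (conj (h s) * deriv h s).re = (conj (h s) * G s).re := by
      simp only [hG, mul_sub, Complex.sub_re]
      have : (conj (h s) * (Complex.I * (c : ℂ) * h s)).re = 0 := by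
        simp [Complex.mul_re, Complex.mul_im]
        ring
      rw [this, sub_zero]
    rw [hfd, h1, abs_mul, abs_of_pos (by norm_num : (0 : ℝ) < 2)]
    refine mul_le_mul_of_nonneg_left ?_ (by norm_num)
    refine (Complex.abs_re_le_norm _).trans ?_
    rw [norm_mul, Complex.norm_conj]
  have hI : Integrable fun s => ‖h s‖ * ‖G s‖ := by
    refine integrable_of (hcont.norm.mul hGc.norm) hK fun x hx => ?_
    simp [(hK0 x hx).1]
  have hh2 : Integrable fun s => ‖h s‖ ^ 2 := by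
    refine integrable_of (hcont.norm.pow 2) hK fun x hx => ?_
    simp [(hK0 x hx).1]
  have hd2 : Integrable fun s => ‖deriv h s‖ ^ 2 := by
    refine integrable_of (hdc.norm.pow 2) hK fun x hx => ?_
    simp [(hK0 x hx).2]
  have hG2 : Integrable fun s => ‖G s‖ ^ 2 := by
    refine integrable_of (hGc.norm.pow 2) hK fun x hx => ?_
    simp [hG, (hK0 x hx).1, (hK0 x hx).2]
  have him : Integrable fun s => (conj (h s) * deriv h s).im := by
    refine integrable_of (Complex.continuous_im.comp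
      ((Complex.continuous_conj.comp hcont).mul hdc)) hK fun x hx => ?_
    simp [(hK0 x hx).1]
  -- `∫ |G|²`
  have hGe : ∫ s, ‖G s‖ ^ 2 = (∫ s, ‖deriv h s‖ ^ 2)
      - 2 * c * (∫ s, (conj (h s) * deriv h s).im) + c ^ 2 * ∫ s, ‖h s‖ ^ 2 := by
    have hp : ∀ s, ‖G s‖ ^ 2 = ‖deriv h s‖ ^ 2 - 2 * c * (conj (h s) * deriv h s).im
        + c ^ 2 * ‖h s‖ ^ 2 := by
      intro s
      simp only [hG, Complex.sq_norm, Complex.normSq_apply]
      simp [Complex.mul_re, Complex.mul_im]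
      ring
    have h5 := int3 hd2 him hh2 1 (2 * c) (c ^ 2)
    rw [one_mul] at h5
    rw [← h5]
    exact integral_congr_ae (Eventually.of_forall fun s => by simp only [hp]; ring)
  -- pointwise bound
  set I : ℝ := ∫ s, ‖h s‖ * ‖G s‖ with hIdef
  have h1 : ‖h b‖ ^ 2 ≤ I := by
    have h2 := half hfc hfs b
    have h3 : (∫ x, |deriv f x|) ≤ ∫ s, 2 * (‖h s‖ * ‖G s‖) := by
      refine integral_mono ?_ (hI.const_mul 2) hfG
      exact ((hfc.continuous_deriv le_rfl).integrable_of_hasCompactSupport hfs.deriv).abs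
    rw [integral_const_mul] at h3
    have : 2 * ‖h b‖ ^ 2 ≤ 2 * I := le_trans h2 h3
    linarith
  -- Cauchy-Schwarz
  set ρ : ℝ := ∫ s, ‖h s‖ ^ 2 with hρd
  set E : ℝ := ∫ s, ‖G s‖ ^ 2 with hE
  have hCS : I ^ 2 ≤ ρ * E := by
    have hq : ∀ x : ℝ, 0 ≤ x ^ 2 * ρ - 2 * x * I + E := by
      intro x
      have h5 : ∫ s, (x * ‖h s‖ - ‖G s‖) ^ 2 = x ^ 2 * ρ - 2 * x * I + E := by
        have hp : ∀ s, (x * ‖h s‖ - ‖G s‖) ^ 2
            = x ^ 2 * ‖h s‖ ^ 2 - 2 * x * (‖h s‖ * ‖G s‖) + ‖G s‖ ^ 2 := fun s => by ring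
        have h5 := int3 hh2 hI hG2 (x ^ 2) (2 * x) 1
        rw [one_mul] at h5
        rw [← h5]
        exact integral_congr_ae (Eventually.of_forall fun s => by simp only [hp]; ring)
      rw [← h5]
      exact integral_nonneg fun s => sq_nonneg _
    have h6 := hq (I / ρ)
    have h7 : (I / ρ) ^ 2 * ρ - 2 * (I / ρ) * I + E = E - I ^ 2 / ρ := by
      field_simp
      ring
    rw [h7] at h6
    have h8 : I ^ 2 / ρ ≤ E := by linarith
    rw [div_le_iff₀ hρ] at h8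
    linarith
  have h9 : ‖h b‖ ^ 4 ≤ I ^ 2 := by
    have : ‖h b‖ ^ 4 = (‖h b‖ ^ 2) ^ 2 := by ring
    rw [this]
    exact pow_le_pow_left₀ (by positivity) h1 2
  calc ‖h b‖ ^ 4 ≤ I ^ 2 := h9
    _ ≤ ρ * E := hCS
    _ = _ := by rw [hGe]

end GN1M

theorem specGN1 : SpecGN1 := by
  intro h hs hc b
  have hh2 : Integrable fun s => ‖h s‖ ^ 2 := by
    refine GN1M.integrable_of (hs.continuous.norm.pow 2) hc fun x hx => ?_
    simp [image_eq_zero_of_notMem_tsupport hx]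
  rcases (integral_nonneg (μ := volume) (f := fun s => ‖h s‖ ^ 2)
    (fun s => sq_nonneg _)).eq_or_lt with h0 | hρ
  · -- `h = 0`
    have h1 : (fun s => ‖h s‖ ^ 2) =ᵐ[volume] 0 :=
      (integral_eq_zero_iff_of_nonneg (fun s => sq_nonneg _) hh2).1 h0.symm
    have h2 : (fun s => ‖h s‖ ^ 2) = 0 :=
      (Continuous.ae_eq_iff_eq volume (hs.continuous.norm.pow 2) continuous_zero).1 h1
    have h3 : ∀ s, h s = 0 := fun s => by simpa using congrFun h2 s
    simp [h3]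
  · have h1 := GN1M.main h hs hc ((∫ s, (conj (h s) * deriv h s).im) / ∫ s, ‖h s‖ ^ 2) b hρ
    refine h1.trans (le_of_eq ?_)
    have hne : (∫ s, ‖h s‖ ^ 2) ≠ 0 := hρ.ne'
    field_simp
    ring

end Pool.Agent.Lib.MP424d38.TY
end
end

section
/-!
# MP_424d38_an, block TY, module LIN (linearity, closedness, uniqueness, conjugation)
-/
set_option autoImplicit false

open MeasureTheory Filter Topology Set
open scoped ENNReal ContDiff ComplexConjugate

noncomputable section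

namespace Pool.Agent.Lib.MP424d38.TY

namespace LINM

/-- the pairing with a function in `L²` is an inner product -/
theorem pair {χ : ℝ × ℝ → ℂ} (hχ : MemLp χ 2 (volume : Measure (ℝ × ℝ))) :
    ∃ w : L2, ∀ f : L2, ∫ x, f x * χ x = inner ℂ w f := by
  have h1 : MemLp (fun x => conj (χ x)) 2 (volume : Measure (ℝ × ℝ)) := by
    have := hχ.star
    exact this
  refine ⟨h1.toLp _, fun f => ?_⟩
  rw [MeasureTheory.L2.inner_def]
  apply integral_congr_ae
  filter_upwards [h1.coeFn_toLp] with x hx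
  rw [hx]
  simp [RCLike.inner_apply]

theorem memLp_test {ψ : ℝ × ℝ → ℂ} (h : Test ψ) : MemLp ψ 2 (volume : Measure (ℝ × ℝ)) :=
  h.1.continuous.memLp_of_hasCompactSupport h.2

theorem d1_cont {ψ : ℝ × ℝ → ℂ} (h : Test ψ) : Continuous (d1 ψ) :=
  (h.1.continuous_fderiv (by simp)).clm_apply continuous_const

theorem d2_cont {ψ : ℝ × ℝ → ℂ} (h : Test ψ) : Continuous (d2 ψ) :=
  (h.1.continuous_fderiv (by simp)).clm_apply continuous_const

theorem d1_supp {ψ : ℝ × ℝ → ℂ} (h : Test ψ) : HasCompactSupport (d1 ψ) :=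
  h.2.fderiv_apply (𝕜 := ℝ) (1, 0)

theorem d2_supp {ψ : ℝ × ℝ → ℂ} (h : Test ψ) : HasCompactSupport (d2 ψ) :=
  h.2.fderiv_apply (𝕜 := ℝ) (0, 1)

theorem memLp_d1 {ψ : ℝ × ℝ → ℂ} (h : Test ψ) : MemLp (d1 ψ) 2 (volume : Measure (ℝ × ℝ)) :=
  (d1_cont h).memLp_of_hasCompactSupport (d1_supp h)

theorem memLp_d2 {ψ : ℝ × ℝ → ℂ} (h : Test ψ) : MemLp (d2 ψ) 2 (volume : Measure (ℝ × ℝ)) :=
  (d2_cont h).memLp_of_hasCompactSupport (d2_supp h)

theorem test_conj {ψ : ℝ × ℝ → ℂ} (h : Test ψ) : Test (fun x => conj (ψ x)) := by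
  refine ⟨?_, ?_⟩
  · exact Complex.conjCLE.contDiff.comp h.1
  · exact h.2.comp_left (g := fun z : ℂ => conj z) (map_zero _)

theorem fd_conj (ψ : ℝ × ℝ → ℂ) (x v : ℝ × ℝ) :
    fderiv ℝ (fun y => conj (ψ y)) x v = conj (fderiv ℝ ψ x v) := by
  have h := Complex.conjCLE.comp_fderiv (f := ψ) (x := x)
  have h2 := congrArg (fun L : (ℝ × ℝ) →L[ℝ] ℂ => L v) h
  exact h2

theorem conj_int (f g ψ : ℝ × ℝ → ℂ) (h : ∀ᵐ x : ℝ × ℝ, g x = conj (f x)) :
    ∫ x, g x * ψ x = conj (∫ x, f x * conj (ψ x)) := by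
  rw [← integral_conj]
  apply integral_congr_ae
  filter_upwards [h] with x hx
  rw [hx, map_mul, Complex.conj_conj]

theorem uniq {F G : L2} (h : ∀ ψ : ℝ × ℝ → ℂ, Test ψ → ∫ x, F x * ψ x = ∫ x, G x * ψ x) :
    F = G := by
  apply Lp.ext
  have hF : LocallyIntegrable (fun x => F x) (volume : Measure (ℝ × ℝ)) :=
    (Lp.memLp F).locallyIntegrable (by norm_num)
  have hG : LocallyIntegrable (fun x => G x) (volume : Measure (ℝ × ℝ)) :=
    (Lp.memLp G).locallyIntegrable (by norm_num)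
  apply ae_eq_of_integral_contDiff_smul_eq hF hG
  intro g hg hs
  have ht : Test (fun x => ((g x : ℝ) : ℂ)) := by
    refine ⟨?_, ?_⟩
    · exact Complex.ofRealCLM.contDiff.comp hg
    · exact hs.comp_left (g := fun z : ℝ => (z : ℂ)) Complex.ofReal_zero
  have h1 := h _ ht
  have e : ∀ K : L2, ∫ x, g x • K x = ∫ x, K x * ((g x : ℝ) : ℂ) := by
    intro K
    apply integral_congr_ae
    filter_upwards with x
    rw [Complex.real_smul, mul_comm]
  rw [e, e]
  exact h1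

end LINM

open LINM in
/-- **LIN** -/
theorem specLIN : SpecLIN := by
  refine ⟨?_, ?_, ?_, ?_, ?_⟩
  · intro f F₁ F₂ g G₁ G₂ hf hg ψ hψ
    obtain ⟨w, hw⟩ := pair (memLp_test hψ)
    obtain ⟨w1, hw1⟩ := pair (memLp_d1 hψ)
    obtain ⟨w2, hw2⟩ := pair (memLp_d2 hψ)
    have h1 := hf ψ hψ
    have h2 := hg ψ hψ
    simp only [hw, hw1, hw2] at h1 h2 ⊢
    refine ⟨?_, ?_⟩
    · rw [inner_add_right, inner_add_right, h1.1, h2.1]; ring
    · rw [inner_add_right, inner_add_right, h1.2, h2.2]; ring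
  · intro c f F₁ F₂ hf ψ hψ
    obtain ⟨w, hw⟩ := pair (memLp_test hψ)
    obtain ⟨w1, hw1⟩ := pair (memLp_d1 hψ)
    obtain ⟨w2, hw2⟩ := pair (memLp_d2 hψ)
    have h1 := hf ψ hψ
    simp only [hw, hw1, hw2] at h1 ⊢
    refine ⟨?_, ?_⟩
    · rw [inner_smul_right, inner_smul_right, h1.1]; ring
    · rw [inner_smul_right, inner_smul_right, h1.2]; ring
  · intro f F₁ F₂ g G₁ G₂ hf hlf hlF hlG ψ hψ
    obtain ⟨w, hw⟩ := pair (memLp_test hψ)
    obtain ⟨w1, hw1⟩ := pair (memLp_d1 hψ)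
    obtain ⟨w2, hw2⟩ := pair (memLp_d2 hψ)
    have h1 := fun n => hf n ψ hψ
    simp only [hw, hw1, hw2] at h1 ⊢
    have t1 : Tendsto (fun n => inner ℂ w1 (f n)) atTop (𝓝 (inner ℂ w1 g)) :=
      tendsto_const_nhds.inner hlf
    have t2 : Tendsto (fun n => inner ℂ w2 (f n)) atTop (𝓝 (inner ℂ w2 g)) :=
      tendsto_const_nhds.inner hlf
    have t3 : Tendsto (fun n => -inner ℂ w (F₁ n)) atTop (𝓝 (-inner ℂ w G₁)) :=
      (tendsto_const_nhds.inner hlF).neg
    have t4 : Tendsto (fun n => -inner ℂ w (F₂ n)) atTop (𝓝 (-inner ℂ w G₂)) :=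
      (tendsto_const_nhds.inner hlG).neg
    refine ⟨?_, ?_⟩
    · exact tendsto_nhds_unique t1 (t3.congr fun n => (h1 n).1.symm)
    · exact tendsto_nhds_unique t2 (t4.congr fun n => (h1 n).2.symm)
  · intro f F₁ F₂ G₁ G₂ hf hg
    refine ⟨?_, ?_⟩
    · apply uniq
      intro ψ hψ
      have h1 := (hf ψ hψ).1
      have h2 := (hg ψ hψ).1
      rw [h1] at h2
      exact neg_injective h2
    · apply uniq
      intro ψ hψ
      have h1 := (hf ψ hψ).2
      have h2 := (hg ψ hψ).2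
      rw [h1] at h2
      exact neg_injective h2
  · intro f F₁ F₂ g G₁ G₂ hf hg h1 h2 ψ hψ
    have hc := hf _ (test_conj hψ)
    have e1 : ∀ x, d1 (fun x => conj (ψ x)) x = conj (d1 ψ x) := fun x => fd_conj ψ x _
    have e2 : ∀ x, d2 (fun x => conj (ψ x)) x = conj (d2 ψ x) := fun x => fd_conj ψ x _
    simp only [e1, e2] at hc
    refine ⟨?_, ?_⟩
    · rw [conj_int _ _ _ hg, conj_int _ _ _ h1, hc.1, map_neg]
    · rw [conj_int _ _ _ hg, conj_int _ _ _ h2, hc.2, map_neg]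

end Pool.Agent.Lib.MP424d38.TY
end
end

section
/-! # MUL: multiplication by a function of the first coordinate -/
set_option autoImplicit false

open MeasureTheory Filter Topology Set
open scoped ENNReal ContDiff ComplexConjugate

noncomputable section

namespace Pool.Agent.Lib.MP424d38.TY

namespace MULM

theorem memLp_cc {φ : ℝ × ℝ → ℂ} (h1 : Continuous φ) (h2 : HasCompactSupport φ) :
    MemLp φ 2 (volume : Measure (ℝ × ℝ)) := h1.memLp_of_hasCompactSupport h2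

theorem int_cc (f : L2) {φ : ℝ × ℝ → ℂ} (h1 : Continuous φ) (h2 : HasCompactSupport φ) :
    Integrable (fun x => f x * φ x) := (Lp.memLp f).integrable_mul (memLp_cc h1 h2)

end MULM

open MULM in
theorem specMUL (hTH1 : SpecTH1) (hBYP : SpecBYP) : SpecMUL := by
  intro β ⟨hβ, C, hC⟩ f F₁ F₂ g G₁ G₂ hf hg hG₁ hG₂ ψ ⟨hψ, hψc⟩
  have hβ1 : ContDiff ℝ 1 (fun x : ℝ × ℝ => ((β x.1 : ℝ) : ℂ)) :=
    Complex.ofRealCLM.contDiff.comp (hβ.comp contDiff_fst)
  have hψ1 : ContDiff ℝ 1 ψ := hψ.of_le (by exact_mod_cast le_top)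
  set φ : ℝ × ℝ → ℂ := fun x => ((β x.1 : ℝ) : ℂ) * ψ x with hφ
  have hφ1 : ContDiff ℝ 1 φ := hβ1.mul hψ1
  have hφc : HasCompactSupport φ := hψc.mul_left
  -- derivatives
  have hβd : ∀ x : ℝ × ℝ, HasFDerivAt (fun x : ℝ × ℝ => ((β x.1 : ℝ) : ℂ))
      (Complex.ofRealCLM.comp ((deriv β x.1) • (ContinuousLinearMap.fst ℝ ℝ ℝ))) x := by
    intro x
    have h1 : HasDerivAt β (deriv β x.1) x.1 :=
      (hβ.differentiable (by norm_num) x.1).hasDerivAt
    have h2 : HasFDerivAt (fun x : ℝ × ℝ => β x.1)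
        ((deriv β x.1) • (ContinuousLinearMap.fst ℝ ℝ ℝ)) x :=
      h1.comp_hasFDerivAt x hasFDerivAt_fst
    exact Complex.ofRealCLM.hasFDerivAt.comp x h2
  have hψd : ∀ x, HasFDerivAt ψ (fderiv ℝ ψ x) x := fun x =>
    (hψ1.differentiable (by norm_num) x).hasFDerivAt
  have hd1 : ∀ x, d1 φ x = ((β x.1 : ℝ) : ℂ) * d1 ψ x + ((deriv β x.1 : ℝ) : ℂ) * ψ x := by
    intro x
    have h := ((hβd x).mul (hψd x)).fderiv
    have h' : fderiv ℝ φ x = _ := h
    rw [d1, h']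
    simp [d1, mul_comm]
  have hd2 : ∀ x, d2 φ x = ((β x.1 : ℝ) : ℂ) * d2 ψ x := by
    intro x
    have h := ((hβd x).mul (hψd x)).fderiv
    have h' : fderiv ℝ φ x = _ := h
    rw [d2, h']
    simp [d2]
  have hcont : ∀ v : ℝ × ℝ, Continuous (fun x => fderiv ℝ φ x v) := fun v =>
    (hφ1.continuous_fderiv (by norm_num)).clm_apply continuous_const
  have hcontψ : ∀ v : ℝ × ℝ, Continuous (fun x => fderiv ℝ ψ x v) := fun v =>
    (hψ1.continuous_fderiv (by norm_num)).clm_apply continuous_const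
  have hcs : ∀ v : ℝ × ℝ, HasCompactSupport (fun x => fderiv ℝ φ x v) := fun v =>
    hφc.fderiv_apply ℝ v
  have hcsψ : ∀ v : ℝ × ℝ, HasCompactSupport (fun x => fderiv ℝ ψ x v) := fun v =>
    hψc.fderiv_apply ℝ v
  -- the elements of L2
  have m0 := memLp_cc hφ1.continuous hφc
  have m1 := memLp_cc (hcont (1, 0)) (hcs (1, 0))
  have m2 := memLp_cc (hcont (0, 1)) (hcs (0, 1))
  have hH := hTH1 φ hφ1 hφc (m0.toLp _) (m1.toLp _) (m2.toLp _) m0.coeFn_toLp m1.coeFn_toLp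
    m2.coeFn_toLp
  obtain ⟨b1, b2, -⟩ := hBYP f F₁ F₂ _ _ _ hf hH
  have e1 : ∫ x, f x * (m1.toLp (fun x => fderiv ℝ φ x (1, 0))) x = ∫ x, f x * d1 φ x := by
    refine integral_congr_ae ?_
    filter_upwards [m1.coeFn_toLp] with x hx
    rw [hx]
    rfl
  have e2 : ∫ x, f x * (m2.toLp (fun x => fderiv ℝ φ x (0, 1))) x = ∫ x, f x * d2 φ x := by
    refine integral_congr_ae ?_
    filter_upwards [m2.coeFn_toLp] with x hx
    rw [hx]
    rfl
  have e3 : ∀ F : L2, ∫ x, F x * (m0.toLp φ) x = ∫ x, F x * φ x := by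
    intro F
    refine integral_congr_ae ?_
    filter_upwards [m0.coeFn_toLp] with x hx
    rw [hx]
  rw [e1, e3] at b1
  rw [e2, e3] at b2
  have hβc : Continuous (fun x : ℝ × ℝ => ((β x.1 : ℝ) : ℂ)) := hβ1.continuous
  have hβ'c : Continuous (fun x : ℝ × ℝ => ((deriv β x.1 : ℝ) : ℂ)) :=
    Complex.continuous_ofReal.comp ((hβ.continuous_deriv (by norm_num)).comp continuous_fst)
  have i1 : Integrable (fun x => f x * (((β x.1 : ℝ) : ℂ) * d1 ψ x)) :=
    int_cc f (hβc.mul (hcontψ (1, 0))) (hcsψ (1, 0)).mul_left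
  have i2 : Integrable (fun x => f x * (((deriv β x.1 : ℝ) : ℂ) * ψ x)) :=
    int_cc f (hβ'c.mul hψ1.continuous) hψc.mul_left
  have i3 : Integrable (fun x => F₁ x * φ x) := int_cc F₁ hφ1.continuous hφc
  constructor
  · have h1 : ∫ x, g x * d1 ψ x = ∫ x, f x * (((β x.1 : ℝ) : ℂ) * d1 ψ x) := by
      refine integral_congr_ae ?_
      filter_upwards [hg] with x hx
      rw [hx]
      ring
    have h2 : ∫ x, G₁ x * ψ x = ∫ x, (F₁ x * φ x + f x * (((deriv β x.1 : ℝ) : ℂ) * ψ x)) := by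
      refine integral_congr_ae ?_
      filter_upwards [hG₁] with x hx
      rw [hx, hφ]
      ring
    have h3 : ∫ x, f x * d1 φ x = ∫ x, (f x * (((β x.1 : ℝ) : ℂ) * d1 ψ x) +
        f x * (((deriv β x.1 : ℝ) : ℂ) * ψ x)) := by
      refine integral_congr_ae (Eventually.of_forall fun x => ?_)
      simp only [hd1]
      ring
    rw [integral_add i3 i2] at h2
    rw [integral_add i1 i2, b1] at h3
    rw [h1, h2, neg_add, h3]
    ring
  · have h1 : ∫ x, g x * d2 ψ x = ∫ x, f x * d2 φ x := by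
      refine integral_congr_ae ?_
      filter_upwards [hg] with x hx
      rw [hx, hd2]
      ring
    have h2 : ∫ x, G₂ x * ψ x = ∫ x, F₂ x * φ x := by
      refine integral_congr_ae ?_
      filter_upwards [hG₂] with x hx
      rw [hx, hφ]
      ring
    rw [h1, h2, b2]

end Pool.Agent.Lib.MP424d38.TY
end
end

section
/-!
# MP_424d38_an, module RHB: the density is bounded by `‖f‖ ‖∂_a f‖`
-/
set_option autoImplicit false

open MeasureTheory Filter Topology Set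
open scoped ENNReal ContDiff ComplexConjugate

noncomputable section

namespace Pool.Agent.Lib.MP424d38.TY

namespace RHBM

theorem hasDeriv (ψ : ℝ × ℝ → ℂ) (hψ : Test ψ) (b a : ℝ) :
    HasDerivAt (fun a' : ℝ => ψ (a', b)) (d1 ψ (a, b)) a := by
  have h1 : HasFDerivAt ψ (fderiv ℝ ψ (a, b)) (a, b) :=
    (hψ.1.differentiable (by simp)).differentiableAt.hasFDerivAt
  have h2 : HasDerivAt (fun a' : ℝ => ((a', b) : ℝ × ℝ)) ((1 : ℝ), (0 : ℝ)) a :=
    (hasDerivAt_id a).prodMk (hasDerivAt_const a b)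
  exact h1.comp_hasDerivAt a h2

theorem cont_d1 (ψ : ℝ × ℝ → ℂ) (hψ : Test ψ) : Continuous (d1 ψ) := by
  have h1 : Continuous (fderiv ℝ ψ) := hψ.1.continuous_fderiv (by simp)
  exact h1.clm_apply continuous_const

theorem supp_prod (ψ : ℝ × ℝ → ℂ) (hψ : Test ψ) :
    HasCompactSupport (fun x : ℝ × ℝ => ‖ψ x‖ * ‖d1 ψ x‖) := by
  have : HasCompactSupport (fun x : ℝ × ℝ => ‖ψ x‖) := hψ.2.norm
  exact this.mul_right

theorem pointwise (ψ : ℝ × ℝ → ℂ) (hψ : Test ψ) (a b : ℝ) :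
    ‖ψ (a, b)‖ ^ 2 ≤ ∫ a', ‖ψ (a', b)‖ * ‖d1 ψ (a', b)‖ := by
  set g : ℝ → ℝ := fun a' => ‖ψ (a', b)‖ ^ 2 with hg
  have hc : Continuous fun a' : ℝ => ((a', b) : ℝ × ℝ) := by fun_prop
  have hemb : Topology.IsClosedEmbedding (fun a' : ℝ => ((a', b) : ℝ × ℝ)) := by
    refine ⟨⟨?_, ?_⟩, ?_⟩
    · have h0 : Topology.IsEmbedding ((Prod.fst : ℝ × ℝ → ℝ) ∘ fun a' : ℝ => ((a', b) : ℝ × ℝ)) :=
        Topology.IsEmbedding.id
      exact (Topology.IsEmbedding.of_comp hc continuous_fst h0).isInducing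
    · intro x y h
      exact (Prod.ext_iff.1 h).1
    · have : Set.range (fun a' : ℝ => ((a', b) : ℝ × ℝ)) = {x : ℝ × ℝ | x.2 = b} := by
        ext x
        constructor
        · rintro ⟨y, rfl⟩; rfl
        · intro hx
          exact ⟨x.1, Prod.ext rfl hx.symm⟩
      rw [this]
      exact isClosed_eq continuous_snd continuous_const
  have hcs0 : HasCompactSupport (fun a' : ℝ => ψ (a', b)) := hψ.2.comp_isClosedEmbedding hemb
  have hcd0 : ContDiff ℝ 1 (fun a' : ℝ => ψ (a', b)) :=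
    (hψ.1.of_le (by simp)).comp (contDiff_id.prodMk contDiff_const)
  have hgc : ContDiff ℝ 1 g := hcd0.norm_sq ℝ
  have hgs : HasCompactSupport g := by
    have h1 : HasCompactSupport (fun a' : ℝ => ‖ψ (a', b)‖) := hcs0.norm
    have h2 : HasCompactSupport (fun a' : ℝ => ‖ψ (a', b)‖ * ‖ψ (a', b)‖) := h1.mul_right
    simpa only [hg, pow_two] using h2
  have hder : ∀ a' : ℝ, |deriv g a'| ≤ 2 * (‖ψ (a', b)‖ * ‖d1 ψ (a', b)‖) := by
    intro a'
    have h1 := (hasDeriv ψ hψ b a').norm_sq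
    rw [show g = (fun a' => ‖ψ (a', b)‖ ^ 2) from rfl, h1.deriv, abs_mul, abs_of_pos (two_pos : (0 : ℝ) < 2)]
    exact mul_le_mul_of_nonneg_left (abs_real_inner_le_norm _ _) (by norm_num)
  have hcont : Continuous (deriv g) := hgc.continuous_deriv le_rfl
  have hint : Integrable (deriv g) := hcont.integrable_of_hasCompactSupport hgs.deriv
  have e1 := HasCompactSupport.integral_Iic_deriv_eq hgc hgs a
  have e2 := HasCompactSupport.integral_Ioi_deriv_eq hgc hgs a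
  have hga : 0 ≤ g a := by simp only [hg]; positivity
  have i1 : g a ≤ ∫ x in Iic a, |deriv g x| := by
    rw [← e1]
    exact (le_abs_self _).trans abs_integral_le_integral_abs
  have i2 : g a ≤ ∫ x in Ioi a, |deriv g x| := by
    have : g a = -∫ x in Ioi a, deriv g x := by rw [e2]; ring
    rw [this]
    exact (neg_le_abs _).trans abs_integral_le_integral_abs
  have i3 : (∫ x in Iic a, |deriv g x|) + ∫ x in Ioi a, |deriv g x| = ∫ x, |deriv g x| := by
    have := integral_add_compl (μ := volume) (s := Iic a) measurableSet_Iic hint.abs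
    rw [compl_Iic] at this
    exact this
  have hI2 : Integrable (fun a' : ℝ => 2 * (‖ψ (a', b)‖ * ‖d1 ψ (a', b)‖)) := by
    refine Integrable.const_mul ?_ 2
    refine Continuous.integrable_of_hasCompactSupport ?_ ?_
    · exact ((hψ.1.continuous.comp hc).norm).mul (((cont_d1 ψ hψ).comp hc).norm)
    · exact hcs0.norm.mul_right
  have i4 : ∫ x, |deriv g x| ≤ ∫ a', 2 * (‖ψ (a', b)‖ * ‖d1 ψ (a', b)‖) :=
    integral_mono hint.abs hI2 hder
  rw [integral_const_mul] at i4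
  have : g a = ‖ψ (a, b)‖ ^ 2 := rfl
  rw [← this]
  linarith

theorem test_bound (ψ : ℝ × ℝ → ℂ) (hψ : Test ψ) (a : ℝ) :
    (∫ b, ‖ψ (a, b)‖ ^ 2) ^ 2 ≤ (∫ x : ℝ × ℝ, ‖ψ x‖ ^ 2) * ∫ x : ℝ × ℝ, ‖d1 ψ x‖ ^ 2 := by
  have hc : Continuous fun b : ℝ => ((a, b) : ℝ × ℝ) := by fun_prop
  have hcψ : Continuous ψ := hψ.1.continuous
  have hcd : Continuous (d1 ψ) := cont_d1 ψ hψ
  have hsd : HasCompactSupport (d1 ψ) := by
    have h1 : HasCompactSupport (fderiv ℝ ψ) := hψ.2.fderiv ℝ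
    refine h1.mono ?_
    intro x hx
    rw [Function.mem_support] at hx ⊢
    intro h0
    apply hx
    unfold d1
    rw [h0]
    rfl
  have hI : Integrable (fun x : ℝ × ℝ => ‖ψ x‖ * ‖d1 ψ x‖) ((volume : Measure ℝ).prod volume) :=
    (hcψ.norm.mul hcd.norm).integrable_of_hasCompactSupport (supp_prod ψ hψ)
  have hq1 : Integrable (fun x : ℝ × ℝ => ‖ψ x‖ ^ 2) := by
    have hcn : Continuous (fun x : ℝ × ℝ => ‖ψ x‖ ^ 2) := hcψ.norm.pow 2
    refine hcn.integrable_of_hasCompactSupport ?_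
    have h1 : HasCompactSupport (fun x : ℝ × ℝ => ‖ψ x‖) := hψ.2.norm
    have h2 : HasCompactSupport (fun x : ℝ × ℝ => ‖ψ x‖ * ‖ψ x‖) := h1.mul_right
    simpa only [pow_two] using h2
  have hq2 : Integrable (fun x : ℝ × ℝ => ‖d1 ψ x‖ ^ 2) := by
    have hcn : Continuous (fun x : ℝ × ℝ => ‖d1 ψ x‖ ^ 2) := hcd.norm.pow 2
    refine hcn.integrable_of_hasCompactSupport ?_
    have h1 : HasCompactSupport (fun x : ℝ × ℝ => ‖d1 ψ x‖) := hsd.norm
    have h2 : HasCompactSupport (fun x : ℝ × ℝ => ‖d1 ψ x‖ * ‖d1 ψ x‖) := h1.mul_right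
    simpa only [pow_two] using h2
  have h1 : ∫ b, ‖ψ (a, b)‖ ^ 2 ≤ ∫ b : ℝ, ∫ a' : ℝ, ‖ψ (a', b)‖ * ‖d1 ψ (a', b)‖ := by
    refine integral_mono_of_nonneg (Eventually.of_forall fun b => by positivity) hI.integral_prod_right ?_
    exact Eventually.of_forall fun b => pointwise ψ hψ a b
  have h2 : ∫ b : ℝ, ∫ a' : ℝ, ‖ψ (a', b)‖ * ‖d1 ψ (a', b)‖ = ∫ x : ℝ × ℝ, ‖ψ x‖ * ‖d1 ψ x‖ :=
    (integral_prod_symm (μ := (volume : Measure ℝ)) (ν := (volume : Measure ℝ)) _ hI).symm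
  rw [h2] at h1
  have h3 := DNSM.CS (μ := (volume : Measure (ℝ × ℝ))) (fun x => ‖ψ x‖ ^ 2) (fun x => ‖d1 ψ x‖ ^ 2)
    (fun x => ‖ψ x‖ * ‖d1 ψ x‖) hq1 hq2 hI
    (Eventually.of_forall fun x => ⟨by positivity, by positivity, le_of_eq (by ring)⟩)
  refine le_trans ?_ h3
  exact pow_le_pow_left₀ (integral_nonneg fun b => by positivity) h1 2

end RHBM

open RHBM in
theorem specRHB (hSLC : SpecSLC) : SpecRHB := by
  intro f F₁ F₂ hf
  obtain ⟨ψ, hψ, -, h1, -, -, h2, h3, -⟩ := hSLC f F₁ F₂ hf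
  filter_upwards [h1] with a ha
  have hlim : Tendsto (fun n => (∫ b, ‖ψ n (a, b)‖ ^ 2) ^ 2) atTop (𝓝 (rhoD f a ^ 2)) := ha.pow 2
  have hlim2 := h2.mul h3
  have hle := le_of_tendsto_of_tendsto' hlim hlim2 (fun n => test_bound (ψ n) (hψ n) a)
  rw [← mul_pow] at hle
  exact abs_le_of_sq_le_sq' hle (by positivity) |>.2

end Pool.Agent.Lib.MP424d38.TY
end
end

section
/-!
# Module S4B: the slicewise bound `|f|⁴ ≤ ρe - p²`
-/
set_option autoImplicit false

open MeasureTheory Filter Topology Set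
open scoped ENNReal ContDiff ComplexConjugate

noncomputable section

namespace Pool.Agent.Lib.MP424d38.TY.S4BM

open Pool.Agent.Lib.MP424d38.TY

theorem slice_contDiff {ψ : ℝ × ℝ → ℂ} (hψ : Test ψ) (a : ℝ) :
    ContDiff ℝ ∞ (fun b : ℝ => ψ (a, b)) :=
  hψ.1.comp (contDiff_const.prodMk contDiff_id)

theorem slice_supp {ψ : ℝ × ℝ → ℂ} (hψ : Test ψ) (a : ℝ) :
    HasCompactSupport (fun b : ℝ => ψ (a, b)) := by
  refine HasCompactSupport.intro (K := Prod.snd '' tsupport ψ) (hψ.2.image continuous_snd) ?_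
  intro b hb
  by_contra h
  exact hb ⟨(a, b), subset_tsupport ψ h, rfl⟩

theorem slice_deriv {ψ : ℝ × ℝ → ℂ} (hψ : Test ψ) (a b : ℝ) :
    deriv (fun b : ℝ => ψ (a, b)) b = d2 ψ (a, b) := by
  have h1 : HasFDerivAt ψ (fderiv ℝ ψ (a, b)) (a, b) :=
    (hψ.1.differentiable (by simp)).differentiableAt.hasFDerivAt
  have h2 : HasDerivAt (fun b : ℝ => (a, b)) ((0 : ℝ), (1 : ℝ)) b :=
    (hasDerivAt_const b a).prodMk (hasDerivAt_id b)
  exact (h1.comp_hasDerivAt b h2).deriv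

end Pool.Agent.Lib.MP424d38.TY.S4BM

namespace Pool.Agent.Lib.MP424d38.TY

open Pool.Agent.Lib.MP424d38.TY.S4BM

theorem specS4B (hSLC : SpecSLC) (hGN1 : SpecGN1) : SpecS4B := by
  intro f F₁ F₂ hf
  obtain ⟨ψ, hψ, h1, h2, h3, h4, -⟩ := hSLC f F₁ F₂ hf
  have hq : ∀ {P : ℝ → Prop}, (∀ᵐ a : ℝ, P a) → ∀ᵐ x : ℝ × ℝ, P x.1 := by
    intro P hP
    exact (Measure.quasiMeasurePreserving_fst (μ := (volume : Measure ℝ))
      (ν := (volume : Measure ℝ))).ae hP
  filter_upwards [h1, hq h2, hq h3, hq h4] with x g1 g2 g3 g4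
  have hL : Tendsto (fun n => ‖ψ n x‖ ^ 4) atTop (𝓝 (‖f x‖ ^ 4)) := (g1.norm).pow 4
  have hR := (g2.mul g3).sub (g4.pow 2)
  refine le_of_tendsto_of_tendsto' hL hR ?_
  intro n
  have h5 := hGN1 (fun b => ψ n (x.1, b)) (slice_contDiff (hψ n) x.1) (slice_supp (hψ n) x.1) x.2
  simp only [slice_deriv (hψ n)] at h5
  exact h5

end Pool.Agent.Lib.MP424d38.TY
end
end

section
/-!
# SLC: slicewise approximation by test functions
-/
set_option autoImplicit false

open MeasureTheory Filter Topology Set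
open scoped ENNReal ContDiff ComplexConjugate

noncomputable section

namespace Pool.Agent.Lib.MP424d38.TY

namespace SLCM

lemma test_memLp {ψ : ℝ × ℝ → ℂ} (h : Test ψ) (p : ℝ≥0∞) : MemLp ψ p volume :=
  h.1.continuous.memLp_of_hasCompactSupport h.2

lemma test_fderiv {ψ : ℝ × ℝ → ℂ} (h : Test ψ) (v : ℝ × ℝ) :
    Test (fun x => fderiv ℝ ψ x v) := by
  refine ⟨?_, ?_⟩
  · have h1 : ContDiff ℝ ∞ (fderiv ℝ ψ) := h.1.fderiv_right (by simp)
    exact h1.clm_apply contDiff_const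
  · exact h.2.fderiv_apply ℝ v

lemma test_d1 {ψ : ℝ × ℝ → ℂ} (h : Test ψ) : Test (d1 ψ) := test_fderiv h _

lemma test_d2 {ψ : ℝ × ℝ → ℂ} (h : Test ψ) : Test (d2 ψ) := test_fderiv h _

/-- the class of a test function. -/
def tc {ψ : ℝ × ℝ → ℂ} (h : Test ψ) : L2 := (test_memLp h 2).toLp ψ

lemma tc_ae {ψ : ℝ × ℝ → ℂ} (h : Test ψ) : ∀ᵐ x : ℝ × ℝ, tc h x = ψ x :=
  (test_memLp h 2).coeFn_toLp

/-- a.e. equality on the plane gives a.e. equality on almost every line `a = const`. -/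
lemma slice_ae {p : ℝ × ℝ → Prop} (h : ∀ᵐ x : ℝ × ℝ, p x) :
    ∀ᵐ a : ℝ, ∀ᵐ b : ℝ, p (a, b) := by
  rw [Measure.volume_eq_prod] at h
  exact Measure.ae_ae_of_ae_prod h

lemma tendsto_tc {ψ : ℕ → ℝ × ℝ → ℂ} (h : ∀ n, Test (ψ n)) {f : L2}
    (hf : Tendsto (fun n => eLpNorm (fun x => ψ n x - f x) 2 volume) atTop (𝓝 0)) :
    Tendsto (fun n => tc (h n)) atTop (𝓝 f) := by
  rw [tendsto_iff_norm_sub_tendsto_zero]
  have h1 : ∀ n, ‖tc (h n) - f‖ = (eLpNorm (fun x => ψ n x - f x) 2 volume).toReal := by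
    intro n
    rw [Lp.norm_def]
    congr 1
    refine eLpNorm_congr_ae ?_
    filter_upwards [Lp.coeFn_sub (tc (h n)) f, tc_ae (h n)] with x h2 h3
    rw [h2, Pi.sub_apply, h3]
  simp only [h1]
  have := (ENNReal.tendsto_toReal ENNReal.zero_ne_top).comp hf
  simpa [Function.comp_def] using this

lemma norm_sq_eq (hD : SpecDNS) (f : L2) : ∫ x : ℝ × ℝ, ‖f x‖ ^ 2 = ‖f‖ ^ 2 := by
  have h1 := (hD.2.2.2.2.2 (fun _ => 1) f f continuous_const ⟨1, fun _ => by simp⟩).1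
  simp only [one_mul] at h1
  rw [← h1, (hD.1 f).2.2]

/-- extraction of an almost everywhere convergent subsequence. -/
lemma extract {α E : Type*} [MeasurableSpace α] {μ : Measure α} [NormedAddCommGroup E]
    {p : ℝ≥0∞} (hp : p ≠ 0) {g : ℕ → α → E} {g₀ : α → E} (hm : ∀ n, AEStronglyMeasurable (g n) μ)
    (hm0 : AEStronglyMeasurable g₀ μ)
    (h : Tendsto (fun n => eLpNorm (g n - g₀) p μ) atTop (𝓝 0)) {φ : ℕ → ℕ} (hφ : StrictMono φ) :
    ∃ σ : ℕ → ℕ, StrictMono σ ∧ ∀ᵐ x ∂μ, Tendsto (fun n => g (φ (σ n)) x) atTop (𝓝 (g₀ x)) := by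
  have h1 : Tendsto (fun n => eLpNorm (g (φ n) - g₀) p μ) atTop (𝓝 0) :=
    h.comp hφ.tendsto_atTop
  have h2 : TendstoInMeasure μ (fun n => g (φ n)) atTop g₀ :=
    tendstoInMeasure_of_tendsto_eLpNorm hp (fun n => hm (φ n)) hm0 h1
  obtain ⟨σ, hσ, h3⟩ := h2.exists_seq_tendsto_ae
  exact ⟨σ, hσ, h3⟩

lemma tendsto_eLpNorm_one {g : ℕ → ℝ → ℝ} {g₀ : ℝ → ℝ} (hi : ∀ n, Integrable (g n))
    (hi0 : Integrable g₀) {B : ℕ → ℝ} (hB : ∀ n, ∫ a, |g n a - g₀ a| ≤ B n)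
    (hB0 : Tendsto B atTop (𝓝 0)) :
    Tendsto (fun n => eLpNorm (g n - g₀) 1 volume) atTop (𝓝 0) := by
  have h1 : ∀ n, eLpNorm (g n - g₀) 1 volume = ENNReal.ofReal (∫ a, |g n a - g₀ a|) := by
    intro n
    rw [eLpNorm_one_eq_lintegral_enorm]
    have h2 := ofReal_integral_norm_eq_lintegral_enorm ((hi n).sub hi0)
    rw [← h2]
    rfl
  simp only [h1]
  rw [← ENNReal.ofReal_zero]
  refine (ENNReal.continuous_ofReal.tendsto 0).comp ?_
  exact squeeze_zero (fun n => integral_nonneg fun a => abs_nonneg _) hB hB0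

end SLCM

open SLCM in
theorem specSLC (hDEN : SpecDEN) (hDNS : SpecDNS) : SpecSLC := by
  intro f F₁ F₂ hf
  obtain ⟨ψ, hψ, t0, t1, t2⟩ := hDEN f F₁ F₂ hf
  have hψ1 : ∀ n, Test (d1 (ψ n)) := fun n => test_d1 (hψ n)
  have hψ2 : ∀ n, Test (d2 (ψ n)) := fun n => test_d2 (hψ n)
  have l0 := tendsto_tc hψ t0
  have l1 := tendsto_tc hψ1 t1
  have l2 := tendsto_tc hψ2 t2
  have n0 : Tendsto (fun n => ‖tc (hψ n) - f‖) atTop (𝓝 0) :=
    tendsto_iff_norm_sub_tendsto_zero.1 l0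
  have n2 : Tendsto (fun n => ‖tc (hψ2 n) - F₂‖) atTop (𝓝 0) :=
    tendsto_iff_norm_sub_tendsto_zero.1 l2
  -- convergence of the densities in `L¹`
  have r0 : Tendsto (fun n => eLpNorm (rhoD (tc (hψ n)) - rhoD f) 1 volume) atTop (𝓝 0) := by
    refine tendsto_eLpNorm_one (fun n => (hDNS.1 _).1) (hDNS.1 f).1
      (fun n => hDNS.2.2.2.1 (tc (hψ n)) f) ?_
    have := n0.mul (l0.norm.add (tendsto_const_nhds (x := ‖f‖)))
    simpa using this
  have r2 : Tendsto (fun n => eLpNorm (rhoD (tc (hψ2 n)) - rhoD F₂) 1 volume) atTop (𝓝 0) := by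
    refine tendsto_eLpNorm_one (fun n => (hDNS.1 _).1) (hDNS.1 F₂).1
      (fun n => hDNS.2.2.2.1 (tc (hψ2 n)) F₂) ?_
    have := n2.mul (l2.norm.add (tendsto_const_nhds (x := ‖F₂‖)))
    simpa using this
  have r3 : Tendsto (fun n => eLpNorm (momD (tc (hψ n)) (tc (hψ2 n)) - momD f F₂) 1 volume)
      atTop (𝓝 0) := by
    refine tendsto_eLpNorm_one (fun n => hDNS.2.1 _ _) (hDNS.2.1 f F₂)
      (fun n => hDNS.2.2.2.2.1 (tc (hψ n)) (tc (hψ2 n)) f F₂) ?_
    have := (n0.mul l2.norm).add ((tendsto_const_nhds (x := ‖f‖)).mul n2)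
    simpa using this
  -- extraction
  obtain ⟨σ₁, s₁, e₁⟩ := extract (p := 2) (by norm_num) (fun n => (hψ n).1.continuous.aestronglyMeasurable)
    (Lp.aestronglyMeasurable f) (h := t0) strictMono_id
  obtain ⟨σ₂, s₂, e₂⟩ := extract (p := 1) (by norm_num)
    (fun n => (hDNS.1 (tc (hψ n))).1.aestronglyMeasurable) (hDNS.1 f).1.aestronglyMeasurable r0
    (strictMono_id.comp s₁)
  obtain ⟨σ₃, s₃, e₃⟩ := extract (p := 1) (by norm_num)
    (fun n => (hDNS.1 (tc (hψ2 n))).1.aestronglyMeasurable) (hDNS.1 F₂).1.aestronglyMeasurable r2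
    ((strictMono_id.comp s₁).comp s₂)
  obtain ⟨σ₄, s₄, e₄⟩ := extract (p := 1) (by norm_num)
    (fun n => (hDNS.2.1 (tc (hψ n)) (tc (hψ2 n))).aestronglyMeasurable)
    (hDNS.2.1 f F₂).aestronglyMeasurable r3 (((strictMono_id.comp s₁).comp s₂).comp s₃)
  set σ : ℕ → ℕ := fun n => σ₁ (σ₂ (σ₃ (σ₄ n))) with hσ
  have hσm : StrictMono σ := s₁.comp (s₂.comp (s₃.comp s₄))
  have hσt := hσm.tendsto_atTop
  -- a.e. equalities on slices
  have q0 : ∀ᵐ a : ℝ, ∀ n, (∫ b, ‖ψ n (a, b)‖ ^ 2) = rhoD (tc (hψ n)) a := by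
    rw [ae_all_iff]
    intro n
    filter_upwards [slice_ae (tc_ae (hψ n))] with a ha
    unfold rhoD
    refine integral_congr_ae ?_
    filter_upwards [ha] with b hb
    rw [hb]
  have q2 : ∀ᵐ a : ℝ, ∀ n, (∫ b, ‖d2 (ψ n) (a, b)‖ ^ 2) = rhoD (tc (hψ2 n)) a := by
    rw [ae_all_iff]
    intro n
    filter_upwards [slice_ae (tc_ae (hψ2 n))] with a ha
    unfold rhoD
    refine integral_congr_ae ?_
    filter_upwards [ha] with b hb
    rw [hb]
  have q3 : ∀ᵐ a : ℝ, ∀ n, (∫ b, (conj (ψ n (a, b)) * d2 (ψ n) (a, b)).im)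
      = momD (tc (hψ n)) (tc (hψ2 n)) a := by
    rw [ae_all_iff]
    intro n
    filter_upwards [slice_ae (tc_ae (hψ n)), slice_ae (tc_ae (hψ2 n))] with a ha ha2
    unfold momD
    refine integral_congr_ae ?_
    filter_upwards [ha, ha2] with b hb hb2
    rw [hb, hb2]
  -- norms
  have m : ∀ {χ : ℝ × ℝ → ℂ} (h : Test χ), ∫ x : ℝ × ℝ, ‖χ x‖ ^ 2 = ‖tc h‖ ^ 2 := by
    intro χ h
    rw [← norm_sq_eq hDNS]
    refine integral_congr_ae ?_
    filter_upwards [tc_ae h] with x hx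
    rw [hx]
  refine ⟨fun n => ψ (σ n), fun n => hψ (σ n), ?_, ?_, ?_, ?_, ?_, ?_, ?_⟩
  · filter_upwards [e₁] with x hx
    exact hx.comp (s₂.comp (s₃.comp s₄)).tendsto_atTop
  · filter_upwards [e₂, q0] with a ha hq
    simp only [hq]
    exact ha.comp (s₃.comp s₄).tendsto_atTop
  · filter_upwards [e₃, q2] with a ha hq
    simp only [hq]
    exact ha.comp s₄.tendsto_atTop
  · filter_upwards [e₄, q3] with a ha hq
    simp only [hq]
    exact ha
  · simp only [m (hψ _)]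
    exact ((l0.comp hσt).norm).pow 2
  · simp only [m (hψ1 _)]
    exact ((l1.comp hσt).norm).pow 2
  · simp only [m (hψ2 _)]
    exact ((l2.comp hσt).norm).pow 2

end Pool.Agent.Lib.MP424d38.TY
end
end

section
/-!
# MP_424d38_an, block B, module SOB (Sobolev type inequalities)
-/
set_option autoImplicit false

open MeasureTheory Filter Topology Set
open scoped ENNReal ContDiff ComplexConjugate

noncomputable section

namespace Pool.Agent.Lib.MP424d38.TY
namespace SOBM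

lemma sq_int (f : L2) : Integrable (fun x => ‖f x‖ ^ 2) :=
  (Lp.memLp f).integrable_norm_pow (p := 2) two_ne_zero

lemma cs {α : Type*} [MeasurableSpace α] {μ : Measure α} (a b : α → ℝ)
    (ha : AEStronglyMeasurable a μ) (hb : AEStronglyMeasurable b μ)
    (hA : Integrable (fun x => a x ^ 2) μ) (hB : Integrable (fun x => b x ^ 2) μ) :
    Integrable (fun x => a x * b x) μ ∧
      (∫ x, a x * b x ∂μ) ^ 2 ≤ (∫ x, a x ^ 2 ∂μ) * ∫ x, b x ^ 2 ∂μ := by
  have hi : Integrable (fun x => a x * b x) μ := by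
    refine Integrable.mono' (hA.add hB) (ha.mul hb) (Eventually.of_forall fun x => ?_)
    rw [Real.norm_eq_abs, Pi.add_apply, abs_le]
    constructor <;> nlinarith [sq_nonneg (a x - b x), sq_nonneg (a x + b x)]
  refine ⟨hi, ?_⟩
  have h : ∀ t : ℝ, 0 ≤ (∫ x, a x ^ 2 ∂μ) * (t * t) + (-2 * ∫ x, a x * b x ∂μ) * t +
      ∫ x, b x ^ 2 ∂μ := by
    intro t
    have h1 : 0 ≤ ∫ x, (t * a x - b x) ^ 2 ∂μ := integral_nonneg fun x => sq_nonneg _
    have h2 : ∫ x, (t * a x - b x) ^ 2 ∂μ =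
        t ^ 2 * (∫ x, a x ^ 2 ∂μ) - 2 * t * (∫ x, a x * b x ∂μ) + ∫ x, b x ^ 2 ∂μ := by
      have i1 : Integrable (fun x => t ^ 2 * a x ^ 2) μ := hA.const_mul _
      have i2 : Integrable (fun x => 2 * t * (a x * b x)) μ := hi.const_mul _
      have i3 : Integrable (fun x => t ^ 2 * a x ^ 2 - 2 * t * (a x * b x)) μ := i1.sub i2
      rw [← integral_const_mul, ← integral_const_mul, ← integral_sub i1 i2,
        ← integral_add i3 hB]
      congr 1
      funext x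
      ring
    rw [h2] at h1
    linarith
  have h3 := discrim_le_zero h
  rw [discrim] at h3
  nlinarith

lemma prod_int (f : L2) (u : ℝ → ℝ) (hu : AEStronglyMeasurable u volume)
    (hi : Integrable (fun a => u a * rhoD f a)) :
    Integrable (fun x : ℝ × ℝ => u x.1 * ‖f x‖ ^ 2) ∧
      ∫ x : ℝ × ℝ, u x.1 * ‖f x‖ ^ 2 = ∫ a, u a * rhoD f a := by
  have h0 : Integrable (fun x => ‖f x‖ ^ 2) ((volume : Measure ℝ).prod (volume : Measure ℝ)) :=
    sq_int f
  have hm : AEStronglyMeasurable (fun x : ℝ × ℝ => u x.1 * ‖f x‖ ^ 2)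
      ((volume : Measure ℝ).prod (volume : Measure ℝ)) :=
    (hu.comp_fst).mul h0.1
  have h1 : Integrable (fun x : ℝ × ℝ => u x.1 * ‖f x‖ ^ 2)
      ((volume : Measure ℝ).prod (volume : Measure ℝ)) := by
    rw [integrable_prod_iff hm]
    refine ⟨?_, ?_⟩
    · filter_upwards [h0.prod_right_ae] with a ha
      exact ha.const_mul _
    · refine hi.norm.congr (Eventually.of_forall fun a => ?_)
      simp only [norm_mul, norm_pow, norm_norm]
      rw [integral_const_mul]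
      have h3 : 0 ≤ rhoD f a := integral_nonneg fun b => sq_nonneg ‖f (a, b)‖
      rw [Real.norm_of_nonneg h3]
      rfl
  refine ⟨h1, ?_⟩
  have h2 := integral_prod _ h1
  refine h2.trans ?_
  congr 1
  funext a
  show ∫ b, u a * ‖f (a, b)‖ ^ 2 = u a * ∫ b, ‖f (a, b)‖ ^ 2
  exact integral_const_mul _ _

end SOBM

open SOBM in
theorem specSOB (hDNS : SpecDNS) (hRHB : SpecRHB) (hS4B : SpecS4B) : SpecSOB := by
  intro f F₁ F₂ hH
  obtain ⟨d1, d2, d3, -, -, d6⟩ := hDNS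
  obtain ⟨hρ, hρ0, hρi⟩ := d1 f
  obtain ⟨he, he0, hei⟩ := d1 F₂
  have hp := d2 f F₂
  have hpe := d3 f F₂
  have hM := hRHB f F₁ F₂ hH
  have h4 := hS4B f F₁ F₂ hH
  set ρ := rhoD f with hρd
  set e := rhoD F₂ with hed
  set p := momD f F₂ with hpd
  set M : ℝ := ‖f‖ * ‖F₁‖ with hMd
  have hM0 : 0 ≤ M := by positivity
  set γ : ℝ → ℝ := fun a => ρ a * e a - p a ^ 2 with hγ
  have hγm : AEStronglyMeasurable γ volume := (hρ.1.mul he.1).sub (hp.1.pow 2)
  have hγ0 : ∀ᵐ a, 0 ≤ γ a := by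
    filter_upwards [hpe] with a ha
    simp only [hγ]
    linarith
  have hγe : ∀ᵐ a, γ a ≤ M * e a := by
    filter_upwards [hM] with a ha
    simp only [hγ]
    nlinarith [sq_nonneg (p a), he0 a]
  have hγi : Integrable γ := by
    refine Integrable.mono' (he.const_mul M) hγm ?_
    filter_upwards [hγ0, hγe] with a h1 h2
    rw [Real.norm_of_nonneg h1]
    exact h2
  have hg : gD f F₂ = ∫ a, γ a := rfl
  have hg0 : 0 ≤ gD f F₂ := by
    rw [hg]
    exact integral_nonneg_of_ae hγ0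
  have hgM : gD f F₂ ≤ M * ‖F₂‖ ^ 2 := by
    rw [hg, ← hei, ← integral_const_mul]
    exact integral_mono_ae hγi (he.const_mul M) hγe
  -- the sixth power
  have hγρ : Integrable (fun a => γ a * ρ a) := by
    refine Integrable.mono' (hγi.const_mul M) (hγm.mul hρ.1) ?_
    filter_upwards [hγ0, hM] with a h1 h2
    rw [Real.norm_of_nonneg (mul_nonneg h1 (hρ0 a))]
    nlinarith
  obtain ⟨i6, e6⟩ := prod_int f γ hγm hγρ
  have hf2 : AEStronglyMeasurable (fun x => f x) (volume : Measure (ℝ × ℝ)) := (Lp.memLp f).1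
  have b6 : ∀ᵐ x : ℝ × ℝ, ‖f x‖ ^ 6 ≤ γ x.1 * ‖f x‖ ^ 2 := by
    filter_upwards [h4] with x hx
    have h5 : ‖f x‖ ^ 6 = ‖f x‖ ^ 4 * ‖f x‖ ^ 2 := by ring
    rw [h5]
    exact mul_le_mul_of_nonneg_right hx (sq_nonneg _)
  have j6 : Integrable (fun x => ‖f x‖ ^ 6) := by
    refine Integrable.mono' i6 (hf2.norm.pow 6) ?_
    filter_upwards [b6] with x hx
    rw [Real.norm_of_nonneg (by positivity)]
    exact hx
  have k6 : (∫ x, ‖f x‖ ^ 6) ≤ M * gD f F₂ := by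
    calc (∫ x, ‖f x‖ ^ 6) ≤ ∫ x : ℝ × ℝ, γ x.1 * ‖f x‖ ^ 2 := integral_mono_ae j6 i6 b6
      _ = ∫ a, γ a * ρ a := e6
      _ ≤ ∫ a, M * γ a := by
        apply integral_mono_ae hγρ (hγi.const_mul M)
        filter_upwards [hγ0, hM] with a h1 h2
        nlinarith
      _ = M * gD f F₂ := by rw [integral_const_mul, hg]
  -- the fourth power
  have hsρ : AEStronglyMeasurable (fun a => Real.sqrt (ρ a)) volume :=
    Real.continuous_sqrt.comp_aestronglyMeasurable hρ.1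
  have hse : AEStronglyMeasurable (fun a => Real.sqrt (e a)) volume :=
    Real.continuous_sqrt.comp_aestronglyMeasurable he.1
  have hs1 : Integrable (fun a => Real.sqrt (ρ a) ^ 2) :=
    hρ.congr (Eventually.of_forall fun a => (Real.sq_sqrt (hρ0 a)).symm)
  have hs2 : Integrable (fun a => Real.sqrt (e a) ^ 2) :=
    he.congr (Eventually.of_forall fun a => (Real.sq_sqrt (he0 a)).symm)
  obtain ⟨c1, c2⟩ := cs _ _ hsρ hse hs1 hs2
  have c3 : ∫ a, Real.sqrt (ρ a) ^ 2 = ‖f‖ ^ 2 := by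
    rw [← hρi]
    congr 1
    funext a
    exact Real.sq_sqrt (hρ0 a)
  have c4 : ∫ a, Real.sqrt (e a) ^ 2 = ‖F₂‖ ^ 2 := by
    rw [← hei]
    congr 1
    funext a
    exact Real.sq_sqrt (he0 a)
  rw [c3, c4, ← mul_pow] at c2
  have c5 : ∫ a, Real.sqrt (ρ a) * Real.sqrt (e a) ≤ ‖f‖ * ‖F₂‖ := by
    exact (le_abs_self _).trans (abs_le_of_sq_le_sq c2 (by positivity))
  set u : ℝ → ℝ := fun a => Real.sqrt (ρ a) * Real.sqrt (e a) with hu
  have hum : AEStronglyMeasurable u volume := hsρ.mul hse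
  have hu0 : ∀ a, 0 ≤ u a := fun a => by positivity
  have huρ : Integrable (fun a => u a * ρ a) := by
    refine Integrable.mono' (c1.const_mul M) (hum.mul hρ.1) ?_
    filter_upwards [hM] with a h2
    rw [Real.norm_of_nonneg (mul_nonneg (hu0 a) (hρ0 a))]
    have := hu0 a
    nlinarith
  obtain ⟨i4, e4⟩ := prod_int f u hum huρ
  have b4 : ∀ᵐ x : ℝ × ℝ, ‖f x‖ ^ 4 ≤ u x.1 * ‖f x‖ ^ 2 := by
    filter_upwards [h4] with x hx
    have h5 : ‖f x‖ ^ 4 = ‖f x‖ ^ 2 * ‖f x‖ ^ 2 := by ring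
    rw [h5]
    apply mul_le_mul_of_nonneg_right _ (sq_nonneg _)
    have h6 : (‖f x‖ ^ 2) ^ 2 ≤ (u x.1) ^ 2 := by
      simp only [hu]
      rw [mul_pow, Real.sq_sqrt (hρ0 _), Real.sq_sqrt (he0 _)]
      have : (‖f x‖ ^ 2) ^ 2 = ‖f x‖ ^ 4 := by ring
      rw [this]
      have h7 := sq_nonneg (momD f F₂ x.1)
      linarith
    exact (le_abs_self _).trans (abs_le_of_sq_le_sq h6 (hu0 _))
  have j4 : Integrable (fun x => ‖f x‖ ^ 4) := by
    refine Integrable.mono' i4 (hf2.norm.pow 4) ?_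
    filter_upwards [b4] with x hx
    rw [Real.norm_of_nonneg (by positivity)]
    exact hx
  have k4 : (∫ x, ‖f x‖ ^ 4) ≤ ‖f‖ ^ 2 * ‖F₁‖ * ‖F₂‖ := by
    calc (∫ x, ‖f x‖ ^ 4) ≤ ∫ x : ℝ × ℝ, u x.1 * ‖f x‖ ^ 2 := integral_mono_ae j4 i4 b4
      _ = ∫ a, u a * ρ a := e4
      _ ≤ ∫ a, M * u a := by
        apply integral_mono_ae huρ (c1.const_mul M)
        filter_upwards [hM] with a h2
        have := hu0 a
        nlinarith
      _ = M * ∫ a, u a := by rw [integral_const_mul]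
      _ ≤ M * (‖f‖ * ‖F₂‖) := by gcongr
      _ = ‖f‖ ^ 2 * ‖F₁‖ * ‖F₂‖ := by rw [hMd]; ring
  have k2 : ∫ x, ‖f x‖ ^ 2 = ‖f‖ ^ 2 := by
    have := (d6 (fun _ => 1) f f continuous_const ⟨1, fun a => by simp⟩).1
    simp only [one_mul] at this
    rw [← this, hρi]
  have k5 : (∫ x, ‖f x‖ ^ 4) ^ 2 ≤ ‖f‖ ^ 2 * ∫ x, ‖f x‖ ^ 6 := by
    have h5 : Integrable (fun x => (‖f x‖ ^ 3) ^ 2) := by
      refine j6.congr (Eventually.of_forall fun x => ?_)
      ring
    have h6 := (cs (fun x => ‖f x‖) (fun x => ‖f x‖ ^ 3) hf2.norm (hf2.norm.pow 3) (sq_int f) h5).2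
    have e1 : ∫ x, ‖f x‖ * ‖f x‖ ^ 3 = ∫ x, ‖f x‖ ^ 4 := by
      congr 1
      funext x
      ring
    have e2 : ∫ x, (‖f x‖ ^ 3) ^ 2 = ∫ x, ‖f x‖ ^ 6 := by
      congr 1
      funext x
      ring
    rw [e1, e2, k2] at h6
    exact h6
  have m4 : MemLp f 4 volume := by
    rw [← integrable_norm_rpow_iff hf2 (by norm_num) (by norm_num)]
    refine j4.congr (Eventually.of_forall fun x => ?_)
    have : (4 : ℝ≥0∞).toReal = ((4 : ℕ) : ℝ) := by norm_num
    show ‖f x‖ ^ 4 = ‖f x‖ ^ ((4 : ℝ≥0∞).toReal)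
    rw [this, Real.rpow_natCast]
  have m6 : MemLp f 6 volume := by
    rw [← integrable_norm_rpow_iff hf2 (by norm_num) (by norm_num)]
    refine j6.congr (Eventually.of_forall fun x => ?_)
    have : (6 : ℝ≥0∞).toReal = ((6 : ℕ) : ℝ) := by norm_num
    show ‖f x‖ ^ 6 = ‖f x‖ ^ ((6 : ℝ≥0∞).toReal)
    rw [this, Real.rpow_natCast]
  exact ⟨m4, m6, hγi, hg0, hgM, k6, k4, k5⟩

end Pool.Agent.Lib.MP424d38.TY
end
end

section
set_option autoImplicit false

open MeasureTheory Filter Topology Set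
open scoped ENNReal ContDiff ComplexConjugate

noncomputable section

namespace Pool.Agent.Lib.MP424d38.TY

namespace TH1M

lemma ibp (ψ φ : ℝ × ℝ → ℂ) (hψ : ContDiff ℝ 1 ψ) (hcψ : HasCompactSupport ψ)
    (hφ : ContDiff ℝ 1 φ) (v : ℝ × ℝ) :
    ∫ x, ψ x * fderiv ℝ φ x v = - ∫ x, fderiv ℝ ψ x v * φ x := by
  have c1 : Continuous (fun x => fderiv ℝ φ x v) := (hφ.continuous_fderiv (by simp)).clm_apply continuous_const
  have c2 : Continuous (fun x => fderiv ℝ ψ x v) := (hψ.continuous_fderiv (by simp)).clm_apply continuous_const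
  have s2 : HasCompactSupport (fun x => fderiv ℝ ψ x v) := hcψ.fderiv_apply (𝕜 := ℝ) v
  refine integral_mul_fderiv_eq_neg_fderiv_mul_of_integrable ?_ ?_ ?_ ?_ ?_
  · exact (c2.mul hφ.continuous).integrable_of_hasCompactSupport s2.mul_right
  · exact (hψ.continuous.mul c1).integrable_of_hasCompactSupport hcψ.mul_right
  · exact (hψ.continuous.mul hφ.continuous).integrable_of_hasCompactSupport hcψ.mul_right
  · intro x _
    exact (hψ.differentiable (by simp)).differentiableAt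
  · intro x _
    exact (hφ.differentiable (by simp)).differentiableAt

end TH1M

open TH1M in
theorem specTH1 : SpecTH1 := by
  intro ψ hψ hcψ f F₁ F₂ hf h1 h2 φ hφ
  have hφ1 : ContDiff ℝ 1 φ := hφ.1.of_le (by exact_mod_cast le_top)
  refine ⟨?_, ?_⟩
  · have e1 : ∫ x, f x * d1 φ x = ∫ x, ψ x * fderiv ℝ φ x (1, 0) := by
      apply integral_congr_ae
      filter_upwards [hf] with x hx
      rw [hx]
      rfl
    have e2 : ∫ x, F₁ x * φ x = ∫ x, fderiv ℝ ψ x (1, 0) * φ x := by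
      apply integral_congr_ae
      filter_upwards [h1] with x hx
      rw [hx]
      rfl
    rw [e1, e2]
    exact ibp ψ φ hψ hcψ hφ1 (1, 0)
  · have e1 : ∫ x, f x * d2 φ x = ∫ x, ψ x * fderiv ℝ φ x (0, 1) := by
      apply integral_congr_ae
      filter_upwards [hf] with x hx
      rw [hx]
      rfl
    have e2 : ∫ x, F₂ x * φ x = ∫ x, fderiv ℝ ψ x (0, 1) * φ x := by
      apply integral_congr_ae
      filter_upwards [h2] with x hx
      rw [hx]
      rfl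
    rw [e1, e2]
    exact ibp ψ φ hψ hcψ hφ1 (0, 1)

end Pool.Agent.Lib.MP424d38.TY
end
end

section
/-! ZE2: no momentum from `∂_b |f|²`. -/
set_option autoImplicit false

open MeasureTheory Filter Topology Set
open scoped ENNReal ContDiff ComplexConjugate

noncomputable section

namespace Pool.Agent.Lib.MP424d38.TY

namespace ZE2M

/-- `∫ β(a) ∂_b G = 0` for `C¹` functions with compact support. -/
lemma int_zero (β : ℝ → ℝ) (hβ : Continuous β) (hC : ∃ C : ℝ, ∀ a, |β a| ≤ C)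
    (G : ℝ × ℝ → ℝ) (hG : ContDiff ℝ 1 G) (hc : HasCompactSupport G) :
    ∫ x : ℝ × ℝ, β x.1 * fderiv ℝ G x (0, 1) = 0 := by
  obtain ⟨C, hC⟩ := hC
  have hDc : Continuous (fun x => fderiv ℝ G x (0, 1)) :=
    (hG.continuous_fderiv (by norm_num)).clm_apply continuous_const
  have hDs : HasCompactSupport (fun x => fderiv ℝ G x (0, 1)) := by
    refine (hc.fderiv (𝕜 := ℝ)).mono ?_
    intro x hx
    simp only [Function.mem_support] at hx ⊢
    intro h
    exact hx (by rw [h]; rfl)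
  have hint : Integrable (fun x : ℝ × ℝ => β x.1 * fderiv ℝ G x (0, 1)) := by
    refine Continuous.integrable_of_hasCompactSupport ?_ ?_
    · exact (hβ.comp continuous_fst).mul hDc
    · exact hDs.mul_left
  rw [Measure.volume_eq_prod, integral_prod _ (by rwa [← Measure.volume_eq_prod])]
  have : ∀ a : ℝ, ∫ b : ℝ, β (a, b).1 * fderiv ℝ G (a, b) (0, 1) = 0 := by
    intro a
    simp only [integral_const_mul]
    have hder : ∀ b : ℝ, HasDerivAt (fun b => G (a, b)) (fderiv ℝ G (a, b) (0, 1)) b := by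
      intro b
      have h1 : HasFDerivAt G (fderiv ℝ G (a, b)) (a, b) :=
        (hG.differentiable (by norm_num)).differentiableAt.hasFDerivAt
      have h2 : HasDerivAt (fun b : ℝ => ((a, b) : ℝ × ℝ)) ((0 : ℝ), (1 : ℝ)) b :=
        (hasDerivAt_const b a).prodMk (hasDerivAt_id b)
      exact h1.comp_hasDerivAt b h2
    have hcl : IsClosedEmbedding (fun b : ℝ => ((a, b) : ℝ × ℝ)) := by
      refine ⟨isEmbedding_prodMkRight a, ?_⟩
      · have : range (fun b : ℝ => ((a, b) : ℝ × ℝ)) = {x | x.1 = a} := by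
          ext ⟨x, y⟩; simp [eq_comm]
        rw [this]; exact isClosed_eq continuous_fst continuous_const
    have i1 : Integrable (fun b => G (a, b)) :=
      (hG.continuous.comp (by fun_prop : Continuous fun b : ℝ => ((a, b) : ℝ × ℝ))).integrable_of_hasCompactSupport
        (hc.comp_isClosedEmbedding hcl)
    have i2 : Integrable (fun b => fderiv ℝ G (a, b) (0, 1)) :=
      (hDc.comp (by fun_prop : Continuous fun b : ℝ => ((a, b) : ℝ × ℝ))).integrable_of_hasCompactSupport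
        (hDs.comp_isClosedEmbedding hcl)
    rw [integral_eq_zero_of_hasDerivAt_of_integrable hder i2 i1, mul_zero]
  simp only [this, integral_zero]

/-- continuity of `(u, V) ↦ ∫ Re (conj u V)`. -/
lemma conv (f G : L2) (u V : ℕ → ℝ × ℝ → ℂ) (hu : ∀ n, MemLp (u n) 2 volume)
    (hV : ∀ n, MemLp (V n) 2 volume)
    (h1 : Tendsto (fun n => eLpNorm (fun x => u n x - f x) 2 volume) atTop (𝓝 0))
    (h2 : Tendsto (fun n => eLpNorm (fun x => V n x - G x) 2 volume) atTop (𝓝 0)) :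
    Tendsto (fun n => ∫ x, (conj (u n x) * V n x).re) atTop (𝓝 (∫ x, (conj (f x) * G x).re)) := by
  have key : ∀ (p q : L2), ∫ x, (conj (p x) * q x).re = (inner ℂ p q : ℂ).re := by
    intro p q
    rw [L2.inner_def]
    have hi := L2.integrable_inner (𝕜 := ℂ) p q
    have := integral_re (𝕜 := ℂ) hi
    simp only [RCLike.re_to_complex] at this
    rw [← this]
    refine integral_congr_ae (Eventually.of_forall fun x => ?_)
    simp [mul_comm]
  have e1 : ∀ n, ∫ x, (conj (u n x) * V n x).re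
      = (inner ℂ ((hu n).toLp (u n)) ((hV n).toLp (V n)) : ℂ).re := by
    intro n
    rw [← key]
    refine integral_congr_ae ?_
    filter_upwards [(hu n).coeFn_toLp, (hV n).coeFn_toLp] with x hx hy
    rw [hx, hy]
  have tt : ∀ (h : L2) (w : ℕ → ℝ × ℝ → ℂ) (hw : ∀ n, MemLp (w n) 2 volume),
      Tendsto (fun n => eLpNorm (fun x => w n x - h x) 2 volume) atTop (𝓝 0) →
      Tendsto (fun n => (hw n).toLp (w n)) atTop (𝓝 h) := by
    intro h w hw ht
    rw [Lp.tendsto_Lp_iff_tendsto_eLpNorm']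
    refine ht.congr fun n => ?_
    refine eLpNorm_congr_ae ?_
    filter_upwards [(hw n).coeFn_toLp] with x hx
    simp only [Pi.sub_apply, hx]
  rw [key]
  simp_rw [e1]
  exact (Complex.continuous_re.tendsto _).comp ((tt f u hu h1).inner (tt G V hV h2))

lemma memLp_test (ψ : ℝ × ℝ → ℂ) (h : Test ψ) (p : ℝ≥0∞) : MemLp ψ p volume :=
  h.1.continuous.memLp_of_hasCompactSupport h.2

lemma d2_cont (ψ : ℝ × ℝ → ℂ) (h : Test ψ) : Continuous (d2 ψ) :=
  (h.1.continuous_fderiv (by norm_num)).clm_apply continuous_const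

lemma d2_supp (ψ : ℝ × ℝ → ℂ) (h : Test ψ) : HasCompactSupport (d2 ψ) := by
  refine (h.2.fderiv (𝕜 := ℝ)).mono ?_
  intro x hx
  simp only [Function.mem_support, d2] at hx ⊢
  intro h
  exact hx (by rw [h]; rfl)

lemma d1_cont (ψ : ℝ × ℝ → ℂ) (h : Test ψ) : Continuous (d1 ψ) :=
  (h.1.continuous_fderiv (by norm_num)).clm_apply continuous_const

lemma d1_supp (ψ : ℝ × ℝ → ℂ) (h : Test ψ) : HasCompactSupport (d1 ψ) := by
  refine (h.2.fderiv (𝕜 := ℝ)).mono ?_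
  intro x hx
  simp only [Function.mem_support, d1] at hx ⊢
  intro h
  exact hx (by rw [h]; rfl)

/-- multiplication by `β(a)` -/
lemma beta_tendsto (β : ℝ → ℝ) (hC : ∃ C : ℝ, ∀ a, |β a| ≤ C)
    (G : ℝ × ℝ → ℂ) (V : ℕ → ℝ × ℝ → ℂ)
    (h2 : Tendsto (fun n => eLpNorm (fun x => V n x - G x) 2 (volume : Measure (ℝ × ℝ))) atTop (𝓝 0)) :
    Tendsto (fun n => eLpNorm (fun x => ((β x.1 : ℝ) : ℂ) * V n x - ((β x.1 : ℝ) : ℂ) * G x) 2
      (volume : Measure (ℝ × ℝ))) atTop (𝓝 0) := by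
  obtain ⟨C, hC⟩ := hC
  have hC0 : 0 ≤ C := (abs_nonneg _).trans (hC 0)
  have hb : ∀ n, eLpNorm (fun x => ((β x.1 : ℝ) : ℂ) * V n x - ((β x.1 : ℝ) : ℂ) * G x) 2
      (volume : Measure (ℝ × ℝ)) ≤ ENNReal.ofReal C * eLpNorm (fun x => V n x - G x) 2 volume := by
    intro n
    refine eLpNorm_le_mul_eLpNorm_of_ae_le_mul (Eventually.of_forall fun x => ?_) 2
    rw [← mul_sub, norm_mul, Complex.norm_real, Real.norm_eq_abs]
    exact mul_le_mul_of_nonneg_right (hC _) (norm_nonneg _)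
  refine tendsto_of_tendsto_of_tendsto_of_le_of_le tendsto_const_nhds ?_ (fun n => zero_le) hb
  have := ENNReal.Tendsto.const_mul (a := ENNReal.ofReal C) h2 (Or.inr ENNReal.ofReal_ne_top)
  simpa using this

lemma beta_memLp (β : ℝ → ℝ) (hβ : Continuous β) (hC : ∃ C : ℝ, ∀ a, |β a| ≤ C)
    (V : ℝ × ℝ → ℂ) (hV : MemLp V 2 (volume : Measure (ℝ × ℝ))) :
    MemLp (fun x : ℝ × ℝ => ((β x.1 : ℝ) : ℂ) * V x) 2 (volume : Measure (ℝ × ℝ)) := by
  obtain ⟨C, hC⟩ := hC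
  refine MemLp.of_le_mul (c := C) hV ?_ (Eventually.of_forall fun x => ?_)
  · exact (by fun_prop : Continuous fun x : ℝ × ℝ => ((β x.1 : ℝ) : ℂ)).aestronglyMeasurable.mul hV.1
  · rw [norm_mul, Complex.norm_real, Real.norm_eq_abs]
    exact mul_le_mul_of_nonneg_right (hC _) (norm_nonneg _)

/-- the general limit argument: `∫ β Re(conj u_n V_n) → ∫ β Re (conj f G)`. -/
lemma conv_beta (β : ℝ → ℝ) (hβ : Continuous β) (hC : ∃ C : ℝ, ∀ a, |β a| ≤ C)
    (f G : L2) (u V : ℕ → ℝ × ℝ → ℂ) (hu : ∀ n, MemLp (u n) 2 volume)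
    (hV : ∀ n, MemLp (V n) 2 volume)
    (h1 : Tendsto (fun n => eLpNorm (fun x => u n x - f x) 2 volume) atTop (𝓝 0))
    (h2 : Tendsto (fun n => eLpNorm (fun x => V n x - G x) 2 volume) atTop (𝓝 0)) :
    Tendsto (fun n => ∫ x : ℝ × ℝ, β x.1 * (conj (u n x) * V n x).re) atTop
      (𝓝 (∫ x : ℝ × ℝ, β x.1 * (conj (f x) * G x).re)) := by
  have hG' : MemLp (fun x : ℝ × ℝ => ((β x.1 : ℝ) : ℂ) * G x) 2 (volume : Measure (ℝ × ℝ)) :=
    beta_memLp β hβ hC _ (Lp.memLp G)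
  have h3 : Tendsto (fun n => eLpNorm (fun x => ((β x.1 : ℝ) : ℂ) * V n x - (hG'.toLp _ : L2) x) 2
      (volume : Measure (ℝ × ℝ))) atTop (𝓝 0) := by
    refine (beta_tendsto β hC G V h2).congr fun n => ?_
    refine eLpNorm_congr_ae ?_
    filter_upwards [hG'.coeFn_toLp] with x hx
    rw [hx]
  have := conv f (hG'.toLp _) u (fun n x => ((β x.1 : ℝ) : ℂ) * V n x) hu
    (fun n => beta_memLp β hβ hC _ (hV n)) h1 h3
  have e2 : ∀ (p q : ℝ × ℝ → ℂ) (x : ℝ × ℝ), (conj (p x) * (((β x.1 : ℝ) : ℂ) * q x)).re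
      = β x.1 * (conj (p x) * q x).re := by
    intro p q x
    rw [mul_left_comm, Complex.re_ofReal_mul]
  have e3 : ∫ x, (conj (f x) * (hG'.toLp _ : L2) x).re = ∫ x : ℝ × ℝ, β x.1 * (conj (f x) * G x).re := by
    refine integral_congr_ae ?_
    filter_upwards [hG'.coeFn_toLp] with x hx
    rw [hx, e2 (fun x => f x) (fun x => G x)]
  rw [e3] at this
  refine this.congr fun n => ?_
  refine integral_congr_ae (Eventually.of_forall fun x => ?_)
  exact e2 (u n) (V n) x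

end ZE2M

theorem specZE2 (hDEN : SpecDEN) : SpecZE2 := by
  intro β hβ hC f F₁ F₂ hf
  obtain ⟨ψ, hψ, t0, -, t2⟩ := hDEN f F₁ F₂ hf
  have ht := ZE2M.conv_beta β hβ hC f F₂ ψ (fun n => d2 (ψ n))
    (fun n => ZE2M.memLp_test _ (hψ n) 2)
    (fun n => (ZE2M.d2_cont _ (hψ n)).memLp_of_hasCompactSupport (ZE2M.d2_supp _ (hψ n))) t0 t2
  have hz : ∀ n, ∫ x : ℝ × ℝ, β x.1 * (conj (ψ n x) * d2 (ψ n) x).re = 0 := by
    intro n
    have hG : ContDiff ℝ 1 (fun x => ‖ψ n x‖ ^ 2) := ((hψ n).1.of_le (by norm_num)).norm_sq ℝ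
    have hs : HasCompactSupport (fun x => ‖ψ n x‖ ^ 2) := by
      refine (hψ n).2.mono ?_
      intro x hx
      simp only [Function.mem_support] at hx ⊢
      intro h; exact hx (by rw [h]; simp)
    have h0 := ZE2M.int_zero β hβ hC _ hG hs
    have e : ∀ x, fderiv ℝ (fun x => ‖ψ n x‖ ^ 2) x (0, 1) = 2 * (conj (ψ n x) * d2 (ψ n) x).re := by
      intro x
      have hd : HasFDerivAt (ψ n) (fderiv ℝ (ψ n) x) x :=
        ((hψ n).1.differentiable (by norm_num)).differentiableAt.hasFDerivAt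
      have := (hd.norm_sq).fderiv
      rw [this]
      simp only [FunLike.coe_smul, ContinuousLinearMap.coe_comp, Pi.smul_apply,
        Function.comp_apply, innerSL_apply_apply, d2]
      simp [mul_comm, real_inner_eq_re_inner (𝕜 := ℂ)]
      ring
    have e' : (fun x : ℝ × ℝ => β x.1 * fderiv ℝ (fun x => ‖ψ n x‖ ^ 2) x (0, 1))
        = fun x : ℝ × ℝ => 2 * (β x.1 * (conj (ψ n x) * d2 (ψ n) x).re) := by
      funext x; rw [e x]; ring
    rw [e', integral_const_mul] at h0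
    linarith
  simp only [hz] at ht
  exact (tendsto_nhds_unique ht tendsto_const_nhds)

end Pool.Agent.Lib.MP424d38.TY
end
end

section
/-! ZER: no momentum from the nonlinearity. -/
set_option autoImplicit false

open MeasureTheory Filter Topology Set
open scoped ENNReal ContDiff ComplexConjugate

noncomputable section

namespace Pool.Agent.Lib.MP424d38.TY

namespace ZERM

/-- the `L⁶` norm of an `H¹` function is controlled by its `H¹` norm. -/
lemma six (hSOB : SpecSOB) (f F₁ F₂ : L2) (h : IsH1 f F₁ F₂) :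
    eLpNorm f 6 volume ≤ ENNReal.ofReal ((‖f‖ ^ 2 * ‖F₁‖ ^ 2 * ‖F₂‖ ^ 2) ^ ((6 : ℝ)⁻¹)) := by
  obtain ⟨-, h6, -, -, hg, hs, -, -⟩ := hSOB f F₁ F₂ h
  rw [h6.eLpNorm_eq_integral_rpow_norm (by norm_num) (by norm_num)]
  have e6 : (6 : ℝ≥0∞).toReal = 6 := by norm_num
  rw [e6]
  refine ENNReal.ofReal_le_ofReal ?_
  have hI : 0 ≤ ∫ x, ‖f x‖ ^ (6 : ℝ) := integral_nonneg fun x => by positivity
  refine Real.rpow_le_rpow hI ?_ (by norm_num)
  have e : ∫ x, ‖f x‖ ^ (6 : ℝ) = ∫ x, ‖f x‖ ^ 6 := by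
    refine integral_congr_ae (Eventually.of_forall fun x => ?_)
    exact_mod_cast Real.rpow_natCast ‖f x‖ 6
  rw [e]
  calc ∫ x, ‖f x‖ ^ 6 ≤ ‖f‖ * ‖F₁‖ * gD f F₂ := hs
    _ ≤ ‖f‖ * ‖F₁‖ * (‖f‖ * ‖F₁‖ * ‖F₂‖ ^ 2) := by
        exact mul_le_mul_of_nonneg_left hg (by positivity)
    _ = ‖f‖ ^ 2 * ‖F₁‖ ^ 2 * ‖F₂‖ ^ 2 := by ring

end ZERM

theorem specZER (hDEN : SpecDEN) (hSOB : SpecSOB) (hCUB : SpecCUB) (hLIN : SpecLIN) (hTH1 : SpecTH1) :
    SpecZER := by
  intro β hβ hC f F₁ F₂ N hf hN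
  obtain ⟨ψ, hψ, t0, t1, t2⟩ := hDEN f F₁ F₂ hf
  obtain ⟨-, hcub2, hcub3⟩ := hCUB
  obtain ⟨hadd, hsmul, -, -, -⟩ := hLIN
  have m0 : ∀ n, MemLp (ψ n) 2 volume := fun n => ZE2M.memLp_test _ (hψ n) 2
  have m1 : ∀ n, MemLp (d1 (ψ n)) 2 volume := fun n =>
    (ZE2M.d1_cont _ (hψ n)).memLp_of_hasCompactSupport (ZE2M.d1_supp _ (hψ n))
  have m2 : ∀ n, MemLp (d2 (ψ n)) 2 volume := fun n =>
    (ZE2M.d2_cont _ (hψ n)).memLp_of_hasCompactSupport (ZE2M.d2_supp _ (hψ n))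
  -- the `L2` classes
  set P : ℕ → L2 := fun n => (m0 n).toLp (ψ n) with hP
  set D1 : ℕ → L2 := fun n => (m1 n).toLp (d1 (ψ n)) with hD1
  set D2 : ℕ → L2 := fun n => (m2 n).toLp (d2 (ψ n)) with hD2
  have aP : ∀ n, ∀ᵐ x : ℝ × ℝ, P n x = ψ n x := fun n => (m0 n).coeFn_toLp
  have hH : ∀ n, IsH1 (P n) (D1 n) (D2 n) := fun n =>
    hTH1 (ψ n) ((hψ n).1.of_le (by norm_num)) (hψ n).2 _ _ _ (aP n) (m1 n).coeFn_toLp (m2 n).coeFn_toLp
  have tt : ∀ (h : L2) (w : ℕ → ℝ × ℝ → ℂ) (hw : ∀ n, MemLp (w n) 2 volume),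
      Tendsto (fun n => eLpNorm (fun x => w n x - h x) 2 volume) atTop (𝓝 0) →
      Tendsto (fun n => ‖(hw n).toLp (w n) - h‖) atTop (𝓝 0) := by
    intro h w hw ht
    rw [← tendsto_iff_norm_sub_tendsto_zero, Lp.tendsto_Lp_iff_tendsto_eLpNorm']
    refine ht.congr fun n => ?_
    refine eLpNorm_congr_ae ?_
    filter_upwards [(hw n).coeFn_toLp] with x hx
    simp only [Pi.sub_apply, hx]
  have s0 := tt f ψ m0 t0
  have s1 := tt F₁ (fun n => d1 (ψ n)) m1 t1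
  have s2 := tt F₂ (fun n => d2 (ψ n)) m2 t2
  have hdiff : ∀ n, IsH1 (P n - f) (D1 n - F₁) (D2 n - F₂) := by
    intro n
    have := hadd _ _ _ _ _ _ (hH n) (hsmul (-1) _ _ _ hf)
    simpa only [neg_smul, one_smul, ← sub_eq_add_neg] using this
  -- convergence in `L⁶`
  have c6 : Tendsto (fun n => eLpNorm (P n - f : L2) 6 volume) atTop (𝓝 0) := by
    have hr : Tendsto (fun n => ENNReal.ofReal ((‖P n - f‖ ^ 2 * ‖D1 n - F₁‖ ^ 2 * ‖D2 n - F₂‖ ^ 2)
        ^ ((6 : ℝ)⁻¹))) atTop (𝓝 0) := by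
      have h1 : Tendsto (fun n => ‖P n - f‖ ^ 2 * ‖D1 n - F₁‖ ^ 2 * ‖D2 n - F₂‖ ^ 2) atTop (𝓝 0) := by
        simpa using ((s0.pow 2).mul (s1.pow 2)).mul (s2.pow 2)
      have h2 := h1.rpow_const (p := (6 : ℝ)⁻¹) (Or.inr (by norm_num))
      have h3 : (0 : ℝ) ^ ((6 : ℝ)⁻¹) = 0 := Real.zero_rpow (by norm_num)
      rw [h3] at h2
      have h4 := (ENNReal.continuous_ofReal.tendsto 0).comp h2
      rw [ENNReal.ofReal_zero] at h4
      exact h4
    exact tendsto_of_tendsto_of_tendsto_of_le_of_le tendsto_const_nhds hr (fun n => zero_le)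
      (fun n => ZERM.six hSOB _ _ _ (hdiff n))
  have f6 : MemLp f 6 volume := (hSOB f F₁ F₂ hf).2.1
  have P6 : ∀ n, MemLp (P n) 6 volume := fun n => (hSOB _ _ _ (hH n)).2.1
  -- convergence of the cubic terms
  have cN : Tendsto (fun n => eLpNorm (fun x => ((‖ψ n x‖ ^ 2 : ℝ) : ℂ) * ψ n x - N x) 2 volume)
      atTop (𝓝 0) := by
    have hb : ∀ n, eLpNorm (fun x => ((‖ψ n x‖ ^ 2 : ℝ) : ℂ) * ψ n x - N x) 2 volume
        ≤ 2 * ((eLpNorm (P n - f : L2) 6 volume + eLpNorm f 6 volume) + eLpNorm f 6 volume) ^ 2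
          * eLpNorm (P n - f : L2) 6 volume := by
      intro n
      obtain ⟨N', hN'⟩ := hcub2 (P n) (P6 n)
      have h3 := hcub3 (P n) f N' N (P6 n) f6 hN' hN
      have e1 : eLpNorm (fun x => N' x - N x) 2 volume
          = eLpNorm (fun x => ((‖ψ n x‖ ^ 2 : ℝ) : ℂ) * ψ n x - N x) 2 volume := by
        refine eLpNorm_congr_ae ?_
        filter_upwards [hN', aP n] with x hx hy
        rw [hx, hy]
      have e2 : eLpNorm (fun x => P n x - f x) 6 volume = eLpNorm (P n - f : L2) 6 volume := by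
        refine eLpNorm_congr_ae ?_
        filter_upwards [Lp.coeFn_sub (P n) f] with x hx
        rw [hx]; rfl
      have e3 : eLpNorm (P n) 6 volume ≤ eLpNorm (P n - f : L2) 6 volume + eLpNorm f 6 volume := by
        have : eLpNorm (P n) 6 volume = eLpNorm (fun x => (P n - f : L2) x + f x) 6 volume := by
          refine eLpNorm_congr_ae ?_
          filter_upwards [Lp.coeFn_sub (P n) f] with x hx
          rw [hx]; simp
        rw [this]
        exact eLpNorm_add_le (Lp.aestronglyMeasurable _) (Lp.aestronglyMeasurable _) (by norm_num)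
      rw [← e1]
      refine h3.trans ?_
      rw [e2]
      gcongr
    have hr : Tendsto (fun n => 2 * ((eLpNorm (P n - f : L2) 6 volume + eLpNorm f 6 volume)
        + eLpNorm f 6 volume) ^ 2 * eLpNorm (P n - f : L2) 6 volume) atTop (𝓝 0) := by
      have hfin : eLpNorm f 6 volume ≠ ⊤ := f6.2.ne
      have a1 : Tendsto (fun n => (eLpNorm (P n - f : L2) 6 volume + eLpNorm f 6 volume)
        + eLpNorm f 6 volume) atTop (𝓝 ((0 + eLpNorm f 6 volume) + eLpNorm f 6 volume)) :=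
        (c6.add tendsto_const_nhds).add tendsto_const_nhds
      have a2 := ENNReal.Tendsto.const_mul (a := 2) (ENNReal.Tendsto.pow (n := 2) a1)
        (Or.inr (by norm_num))
      have a3 := ENNReal.Tendsto.mul a2 (Or.inr (by simp)) c6 (Or.inr (by
        refine ENNReal.mul_ne_top (by norm_num) (ENNReal.pow_ne_top ?_)
        simp [hfin]))
      simpa using a3
    exact tendsto_of_tendsto_of_tendsto_of_le_of_le tendsto_const_nhds hr (fun n => zero_le) hb
  have hcont : ∀ n, Continuous (fun x => ((‖ψ n x‖ ^ 2 : ℝ) : ℂ) * ψ n x) := by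
    intro n
    have := (hψ n).1.continuous
    fun_prop
  have hsup : ∀ n, HasCompactSupport (fun x => ((‖ψ n x‖ ^ 2 : ℝ) : ℂ) * ψ n x) := fun n =>
    (hψ n).2.mul_left
  have ht := ZE2M.conv_beta β hβ hC N F₂ (fun n x => ((‖ψ n x‖ ^ 2 : ℝ) : ℂ) * ψ n x)
    (fun n => d2 (ψ n)) (fun n => (hcont n).memLp_of_hasCompactSupport (hsup n)) m2 cN t2
  have hz : ∀ n, ∫ x : ℝ × ℝ, β x.1 * (conj (((‖ψ n x‖ ^ 2 : ℝ) : ℂ) * ψ n x) * d2 (ψ n) x).re = 0 := by
    intro n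
    have hG1 : ContDiff ℝ 1 (fun x => ‖ψ n x‖ ^ 2) := ((hψ n).1.of_le (by norm_num)).norm_sq ℝ
    have hG : ContDiff ℝ 1 (fun x => (‖ψ n x‖ ^ 2) ^ 2) := hG1.pow 2
    have hs : HasCompactSupport (fun x => (‖ψ n x‖ ^ 2) ^ 2) := by
      refine (hψ n).2.mono ?_
      intro x hx
      simp only [Function.mem_support] at hx ⊢
      intro h; exact hx (by rw [h]; simp)
    have h0 := ZE2M.int_zero β hβ hC _ hG hs
    have e : ∀ x, fderiv ℝ (fun x => (‖ψ n x‖ ^ 2) ^ 2) x (0, 1)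
        = 4 * (conj (((‖ψ n x‖ ^ 2 : ℝ) : ℂ) * ψ n x) * d2 (ψ n) x).re := by
      intro x
      have hd : HasFDerivAt (ψ n) (fderiv ℝ (ψ n) x) x :=
        ((hψ n).1.differentiable (by norm_num)).differentiableAt.hasFDerivAt
      have := ((hd.norm_sq).pow 2).fderiv
      rw [this]
      have e1 : (conj (((‖ψ n x‖ ^ 2 : ℝ) : ℂ) * ψ n x) * d2 (ψ n) x).re
          = ‖ψ n x‖ ^ 2 * (conj (ψ n x) * d2 (ψ n) x).re := by
        rw [map_mul, Complex.conj_ofReal, mul_assoc, Complex.re_ofReal_mul]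
      rw [e1]
      simp only [FunLike.coe_smul, ContinuousLinearMap.coe_comp, Pi.smul_apply,
        Function.comp_apply, innerSL_apply_apply, d2]
      simp only [real_inner_eq_re_inner (𝕜 := ℂ), RCLike.inner_apply, RCLike.re_to_complex]
      simp [mul_comm]
      ring
    have e' : (fun x : ℝ × ℝ => β x.1 * fderiv ℝ (fun x => (‖ψ n x‖ ^ 2) ^ 2) x (0, 1))
        = fun x : ℝ × ℝ => 4 * (β x.1 * (conj (((‖ψ n x‖ ^ 2 : ℝ) : ℂ) * ψ n x) * d2 (ψ n) x).re) := by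
      funext x; rw [e x]; ring
    rw [e', integral_const_mul] at h0
    linarith
  simp only [hz] at ht
  exact (tendsto_nhds_unique ht tendsto_const_nhds)

end Pool.Agent.Lib.MP424d38.TY
end
end
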