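import Pool.Agent.Lib.MP_424d38_an.Defs

/-!
# Block D: one dimensional flows of densities (gas dynamics without the equation)

`ρ_t = -4p_a`, `p_t = -4e_a`, `p² ≤ ρe`, `∫ρ = m`, `∫e ≤ A(t)²`, `A` nondecreasing.
-/

set_option autoImplicit false

open MeasureTheory Filter Topology Set
open scoped ENNReal ContDiff ComplexConjugate

noncomputable section

namespace Pool.Agent.Lib.MP424d38.TY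

/-- the smoothed absolute value `∫_0^s κ_n`. -/
def sabs (n : ℕ) (s : ℝ) : ℝ := ∫ x in (0 : ℝ)..s, kap n x

/-- the smoothed kernel `|s|_n h(s/L)`. -/
def phin (L : ℝ) (n : ℕ) (s : ℝ) : ℝ := sabs n s * hc (s / L)

/-- the cut kernel `h(s/ℓ)`. -/
def hl (ℓ s : ℝ) : ℝ := hc (s / ℓ)

/-- HCF (facts on `hc`).  `σ = Real.smoothTransition` is smooth, monotone, `0` for `x ≤ 0`, `1` for `x ≥ 1`.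
For `0 ≤ s` the second factor is `1`, so `hc s = σ(2-s)`; `hc` is even.  Derivatives of a smooth compactly supported
function are bounded. -/
def SpecHCF : Prop := ContDiff ℝ ∞ hc ∧ (∀ s, 0 ≤ hc s ∧ hc s ≤ 1) ∧ (∀ s, |s| ≤ 1 → hc s = 1) ∧
  (∀ s, 2 ≤ |s| → hc s = 0) ∧ (∀ s, hc (-s) = hc s) ∧ (∀ s t, |s| ≤ |t| → hc t ≤ hc s) ∧
  (∃ C : ℝ, ∀ s, |deriv hc s| ≤ C ∧ |deriv (deriv hc) s| ≤ C)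

/-- KPF (facts on `kap n`, `n ≥ 1`).  `σ(1-x) = 1 - σ(x)` gives oddness; `kap n = 1` for `s ≥ 1/n`, `-1` for
`s ≤ -1/n`, so `∫ (kap n)' = 2`. -/
def SpecKPF : Prop := ∀ n : ℕ, 1 ≤ n → ContDiff ℝ ∞ (kap n) ∧ Cb1 (kap n) ∧ Cb1 (deriv (kap n)) ∧
  (∀ s, |kap n s| ≤ 1) ∧ (∀ s, 0 ≤ deriv (kap n) s) ∧ (∀ s, 1 / (n : ℝ) < |s| → deriv (kap n) s = 0) ∧
  (Integrable (deriv (kap n)) ∧ ∫ s, deriv (kap n) s = 2) ∧ (∀ s, kap n (-s) = - kap n s) ∧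
  (∀ s, 1 / (n : ℝ) ≤ s → kap n s = 1)

/-- PHF (facts on `phi`, `phin`).  Hypotheses HCF, KPF.
(1) `k = phi L - phi ℓ`, `ℓ ≤ L`: it vanishes for `|s| ≤ ℓ` and for `|s| ≥ 2L`, so it is smooth; for `s > 0`
`k' = h(s/L) - h(s/ℓ) + (s/L)h'(s/L) - (s/ℓ)h'(s/ℓ)`, bounded by `1 + 4 sup|h'|`; it is even, so `k'` is odd.
(2) `0 ≤ |s| - sabs n s ≤ 1/n` (`|kap n| ≤ 1`, `kap n = sgn` off `[-1/n,1/n]`), `sabs n` is even, smooth, with derivative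
`kap n`.  With `1/n ≤ L`: `(phin L n)' = kap n · h(s/L) + sabs n (1/L) h'(s/L)`, bounded by `1 + 2 sup|h'|`, and
`(phin L n)'' = (kap n)' h(s/L) + 2 kap n (1/L)h'(s/L) + sabs n (1/L²) h''(s/L)`, where `(kap n)' h(s/L) = (kap n)'` (its support
is in `|s| ≤ 1/n ≤ L`) and the other terms are `≤ (2 sup|h'| + 2 sup|h''|)/L`. -/
def SpecPHF : Prop := ∃ C : ℝ, 0 < C ∧
  (∀ ℓ L : ℝ, 0 < ℓ → ℓ ≤ L → Cb1 (fun s => phi L s - phi ℓ s) ∧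
    (∀ s, |deriv (fun s => phi L s - phi ℓ s) s| ≤ C) ∧
    (∀ s, |s| < ℓ ∨ 2 * L < |s| → deriv (fun s => phi L s - phi ℓ s) s = 0) ∧
    (∀ s, deriv (fun s => phi L s - phi ℓ s) (-s) = - deriv (fun s => phi L s - phi ℓ s) s)) ∧
  (∀ (L : ℝ) (n : ℕ), 0 < L → 1 ≤ n → 1 / (n : ℝ) ≤ L →
    Cb1 (phin L n) ∧ Cb1 (deriv (phin L n)) ∧ (∀ s, |phin L n s - phi L s| ≤ 1 / n) ∧
    (∀ s, |deriv (phin L n) s| ≤ C) ∧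
    (∀ s, |deriv (deriv (phin L n)) s - deriv (kap n) s| ≤ C / L) ∧
    (∀ s, deriv (phin L n) (-s) = - deriv (phin L n) s))

/-- DDB (the double integrals).  Tonelli for `L¹` functions, bounded continuous kernels.
(3) exchange the two variables. -/
def SpecDDB : Prop :=
  (∀ (κ : ℝ → ℝ) (C : ℝ), Continuous κ → (∀ s, |κ s| ≤ C) → ∀ f g : L1,
    Integrable (fun z : ℝ × ℝ => κ (z.1 - z.2) * (f z.1 * g z.2)) ∧ |DD κ f g| ≤ C * ‖f‖ * ‖g‖) ∧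
  (∀ (κ κ' : ℝ → ℝ) (C : ℝ), Continuous κ → Continuous κ' → (∀ s, |κ s| ≤ C) → (∀ s, |κ' s| ≤ C) →
    ∀ f g : L1, (∀ᵐ a : ℝ, 0 ≤ f a) → (∀ᵐ a : ℝ, 0 ≤ g a) → (∀ s, κ s ≤ κ' s) → DD κ f g ≤ DD κ' f g) ∧
  (∀ (κ : ℝ → ℝ) (C : ℝ), Continuous κ → (∀ s, |κ s| ≤ C) → ∀ f g : L1,
    DD κ f g = DD (fun s => κ (-s)) g f) ∧
  (∀ (κ κ' : ℝ → ℝ) (C : ℝ), Continuous κ → Continuous κ' → (∀ s, |κ s| ≤ C) → (∀ s, |κ' s| ≤ C) →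
    ∀ f g : L1, DD (fun s => κ s + κ' s) f g = DD κ f g + DD κ' f g ∧
      DD (fun s => κ s - κ' s) f g = DD κ f g - DD κ' f g) ∧
  (∀ (κ : ℝ → ℝ) (C c : ℝ), Continuous κ → (∀ s, |κ s| ≤ C) → ∀ f g h : L1,
    DD κ (f + h) g = DD κ f g + DD κ h g ∧ DD κ f (g + h) = DD κ f g + DD κ f h ∧
      DD κ (c • f) g = c * DD κ f g ∧ DD κ f (c • g) = c * DD κ f g)

/-- PAI (time derivative of a double integral).  Hypothesis DDB.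
Proof.  For `g ∈ L¹` and `κ ∈ Cb1` the function `β_g(a) = ∫κ(a-a')g(a')da'` is `Cb1` with derivative `∫κ'(a-a')g(a')da'`
(differentiation under the integral, `κ'` bounded continuous), and `DD κ f g = ∫ β_g f`; also
`γ_f(a') = ∫ κ(a-a')f(a)da`, `γ_f' = -∫κ'(a-a')f(a)da`, `DD κ f g = ∫ γ_f g`.
`Φ(t) = DD κ (f t)(g t)`: `Φ(t+k) - Φ(t) = [∫β_{g(t+k)}(f(t+k) - f(t))] + [∫γ_{f(t)}(g(t+k) - g(t))]`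
`= ∫_t^{t+k}∫β'_{g(t+k)}F_r da dr + ∫_t^{t+k}∫γ'_{f(t)}G_r da dr`; divide by `k → 0`, by continuity in `L¹` the limit is
`DD κ' (F t)(g t) - DD κ' (f t)(G t)`, continuous in `t`.  Fundamental theorem of calculus. -/
def SpecPAI : Prop := ∀ (T : ℝ) (f F g G : ℝ → L1), Law T f F → Law T g G → ∀ κ : ℝ → ℝ, Cb1 κ →
  ∀ s t : ℝ, 0 ≤ s → s ≤ t → t < T →
    DD κ (f t) (g t) - DD κ (f s) (g s)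
      = ∫ r in s..t, (DD (deriv κ) (F r) (g r) - DD (deriv κ) (f r) (G r))

/-- GLM (the limit of the mollified interaction).  Hypotheses KPF, DDB.
Proof.  `p² ≤ ρe ≤ Re`, so `p ∈ L²`, `ρe - p² ∈ L¹`, `≥ 0`.  With `z = a - a'`,
`DD κ' e ρ - DD κ' p p = ∫ κ'(z) Γ(z) dz`, `Γ(z) = ∫ [e(a)ρ(a-z) - p(a)p(a-z)] da` (Fubini).  `Γ` is continuous: for the
first term substitute `a → a + z` and use `‖e(·+z) - e(·+z')‖_{L¹} → 0` and `|ρ| ≤ R`; for the second use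
continuity of translations in `L²` (Mathlib: `Lp.instContinuousSMulDomMulAct`, or continuity of translations from
density of `C_c`).  As `κ_n' ≥ 0`, `∫κ_n' = 2`, support in `[-1/n,1/n]`: `∫κ_n'Γ → 2Γ(0)`.
Bound: `|DD κ' e ρ| ≤ R∬κ'(a-a')e(a) = 2R∫e`, `|DD κ' p p| ≤ ∬κ'(a-a')(p(a)²+p(a')²)/2 = 2∫p² ≤ 2R∫e`.
(If `n = 0` nothing is claimed.) -/
def SpecGLM : Prop := ∀ (ρ p e : L1) (R : ℝ),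
  (∀ᵐ a : ℝ, 0 ≤ ρ a ∧ 0 ≤ e a ∧ (p a) ^ 2 ≤ ρ a * e a ∧ ρ a ≤ R) →
  Integrable (fun a => ρ a * e a - p a ^ 2) ∧ 0 ≤ ∫ a, (ρ a * e a - p a ^ 2) ∧
  Tendsto (fun n : ℕ => DD (deriv (kap n)) e ρ - DD (deriv (kap n)) p p) atTop
    (𝓝 (2 * ∫ a, (ρ a * e a - p a ^ 2))) ∧
  ∀ n : ℕ, 1 ≤ n → |DD (deriv (kap n)) e ρ - DD (deriv (kap n)) p p| ≤ 4 * R * ∫ a, e a

/-- FLB (basic bounds for a flow).  `∫|p| ≤ ∫(ρe)^{1/2} ≤ (∫ρ)^{1/2}(∫e)^{1/2}`; in `L1` norms. -/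
def SpecFLB : Prop := ∀ (T m : ℝ) (R : ℝ → ℝ) (ρ p e : ℝ → L1), Flow T m R ρ p e → ∀ t ∈ Ico 0 T,
  0 ≤ m ∧ ‖ρ t‖ = m ∧ ‖e t‖ = ∫ a, e t a ∧ 0 ≤ (∫ a, e t a) ∧
    ‖p t‖ ≤ Real.sqrt m * Real.sqrt (∫ a, e t a)

/-- UGB (`∫_0^t g ≤ (1/4) m^{3/2} A(t)`).  Hypotheses KPF, PAI, GLM, FLB, DDB.
Proof.  `J_n(t) = DD (kap n)(p t)(ρ t)`; PAI with the laws of `p` (flux `4e`) and `ρ` (flux `4p`):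
`J_n(t) - J_n(0) = 4∫_0^t (DD κ_n' (e r)(ρ r) - DD κ_n' (p r)(p r)) dr`.  `|J_n| ≤ ‖p‖‖ρ‖ ≤ m·m^{1/2}A(t)` (DDB, FLB, `A` monotone).
`n → ∞`: dominated convergence with GLM (dominating function `4R(r)∫e(r)`, continuous, so integrable on `[0,t]`):
`8∫_0^t g ≤ 2m^{3/2}A(t)`.  In particular `g` is the pointwise limit of continuous functions on `[0,T)`, so measurable
there, and integrable on `[0,t]`. -/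
def SpecUGB : Prop := ∀ (T m : ℝ) (R : ℝ → ℝ) (ρ p e : ℝ → L1), Flow T m R ρ p e →
  (∀ t ∈ Ico 0 T, 0 ≤ gF ρ p e t ∧ IntegrableOn (gF ρ p e) (Icc 0 t)) ∧
  ∀ A : ℝ → ℝ, MonotoneOn A (Ico 0 T) → (∀ t ∈ Ico 0 T, 0 ≤ A t ∧ (∫ a, e t a) ≤ A t ^ 2) →
    ∀ t ∈ Ico 0 T, 4 * (∫ r in (0 : ℝ)..t, gF ρ p e r) ≤ m * Real.sqrt m * A t

/-- LBD (lower bound for the increase of `D_L = ∬ φ_L ρρ'`).  Hypotheses KPF, PHF, PAI, GLM, UGB, FLB, DDB.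
Proof.  `φ_n = phin L n`, `a_n = φ_n'`, `1/n ≤ L`.  PAI (both densities `ρ`, flux `4p`; `a_n` odd):
`DD φ_n (ρ t')(ρ t') - DD φ_n (ρ t)(ρ t) = 8∫_t^{t'} J_n(s)ds`, `J_n(s) = DD a_n (p s)(ρ s)`, and PAI again:
`J_n(s) = J_n(t0) + 4∫_{t0}^s (DD a_n' (e)(ρ) - DD a_n' (p)(p))dr`, `a_n' = κ_n' + O(C/L)`, so (FLB)
`J_n(s) ≥ -C m^{3/2}A(t0) + 4∫_{t0}^s(DD κ_n' e ρ - DD κ_n' p p) - (4C/L)∫_{t0}^s (m‖e‖ + ‖p‖²)dr`, and `m‖e‖+‖p‖² ≤ 2mA²`.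
Let `n → ∞` for fixed `t0 ≤ t ≤ t'`: `DD φ_n → DD φ_L` (`|φ_n - φ_L| ≤ 1/n`), and the double time integral converges by
dominated convergence (GLM). -/
def SpecLBD : Prop := ∃ C : ℝ, 0 < C ∧
  ∀ (T m : ℝ) (R : ℝ → ℝ) (ρ p e : ℝ → L1), Flow T m R ρ p e →
  ∀ A : ℝ → ℝ, MonotoneOn A (Ico 0 T) → (∀ t ∈ Ico 0 T, 0 ≤ A t ∧ (∫ a, e t a) ≤ A t ^ 2) →
  ∀ L : ℝ, 0 < L → ∀ t0 t t' : ℝ, 0 ≤ t0 → t0 ≤ t → t ≤ t' → t' < T →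
    (∫ s in t..t', (64 * (∫ r in t0..s, gF ρ p e r) - C * m * Real.sqrt m * A t0
        - C * m / L * ∫ r in t0..s, A r ^ 2))
      ≤ DD (phi L) (ρ t') (ρ t') - DD (phi L) (ρ t) (ρ t)

/-- CLL (pair mass at distance `≤ ℓ`).  Hypotheses HCF, PAI, FLB, DDB.
Proof.  PAI with `κ = hl ℓ`, `|κ'| ≤ C/ℓ`: the increment is bounded by `∫_t^{t'} 8(C/ℓ)‖p‖‖ρ‖ ≤ 8(C/ℓ)m^{3/2}∫A`.
Monotonicity: `hl ℓ ≤ hl ℓ'` for `ℓ ≤ ℓ'` (HCF) and positivity of the densities; `0 ≤ hl ≤ 1`. -/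
def SpecCLL : Prop := ∃ C : ℝ, 0 < C ∧
  ∀ (T m : ℝ) (R : ℝ → ℝ) (ρ p e : ℝ → L1), Flow T m R ρ p e →
  (∀ t ∈ Ico 0 T, ∀ ℓ ℓ' : ℝ, 0 < ℓ → ℓ ≤ ℓ' →
    0 ≤ DD (hl ℓ) (ρ t) (ρ t) ∧ DD (hl ℓ) (ρ t) (ρ t) ≤ DD (hl ℓ') (ρ t) (ρ t) ∧
      DD (hl ℓ') (ρ t) (ρ t) ≤ m ^ 2) ∧
  ∀ A : ℝ → ℝ, MonotoneOn A (Ico 0 T) → (∀ t ∈ Ico 0 T, 0 ≤ A t ∧ (∫ a, e t a) ≤ A t ^ 2) →
  ∀ ℓ : ℝ, 0 < ℓ → ∀ t t' : ℝ, 0 ≤ t → t ≤ t' → t' < T →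
    |DD (hl ℓ) (ρ t') (ρ t') - DD (hl ℓ) (ρ t) (ρ t)| ≤ C / ℓ * (m * Real.sqrt m) * ∫ s in t..t', A s

/-- ANN (the far part).  Hypotheses HCF, PHF, PAI, FLB, DDB.
Proof.  `k = phi L - phi ℓ`, `k'` odd, `|k'| ≤ C`, supported in `ℓ ≤ |s| ≤ 2L`, where `1 ≤ χ(s) := hl(2L) - hl(ℓ/2)`, and
`χ ≥ 0` everywhere.  PAI: the increment of `DD k ρ ρ` is `8∫_t^{t'}DD k' p ρ`.  For fixed time
`|DD k' p ρ| ≤ C∬χ(a-a')|p(a)|ρ(a') ≤ C∬ χ ρ(a)^{1/2}e(a)^{1/2}ρ(a') ≤ C (∬χρρ')^{1/2}(∬ χ e(a)ρ(a'))^{1/2}`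
`≤ C (DD(hl 2L)ρρ - DD(hl ℓ/2)ρρ)^{1/2} m^{1/2} A`  (Cauchy-Schwarz with respect to `χ(a-a')ρ(a')da da'`, `χ ≤ 1`). -/
def SpecANN : Prop := ∃ C : ℝ, 0 < C ∧
  ∀ (T m : ℝ) (R : ℝ → ℝ) (ρ p e : ℝ → L1), Flow T m R ρ p e →
  ∀ A : ℝ → ℝ, MonotoneOn A (Ico 0 T) → (∀ t ∈ Ico 0 T, 0 ≤ A t ∧ (∫ a, e t a) ≤ A t ^ 2) →
  ∀ ℓ L : ℝ, 0 < ℓ → ℓ ≤ L → ∀ (η t t' : ℝ), 0 ≤ t → t ≤ t' → t' < T → 0 ≤ η →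
    (∀ s ∈ Icc t t', DD (hl (2 * L)) (ρ s) (ρ s) - DD (hl (ℓ / 2)) (ρ s) (ρ s) ≤ η ^ 2) →
    (DD (phi L) (ρ t') (ρ t') - DD (phi ℓ) (ρ t') (ρ t'))
      - (DD (phi L) (ρ t) (ρ t) - DD (phi ℓ) (ρ t) (ρ t)) ≤ C * Real.sqrt m * η * ∫ s in t..t', A s

/-- PHI (the near part).  Hypotheses HCF, DDB.
Proof.  `0 ≤ phi ℓ`.  If `|s| ≤ εℓ` then `phi ℓ s ≤ εℓ`; if `εℓ ≤ |s| ≤ 2ℓ` then `phi ℓ s ≤ 2ℓ` and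
`hl(2ℓ)(s) - hl(εℓ/2)(s) = 1 - 0`; if `|s| ≥ 2ℓ` then `phi ℓ s = 0`.  So
`phi ℓ ≤ εℓ + 2ℓ(hl(2ℓ) - hl(εℓ/2))` pointwise; integrate against `ρρ' ≥ 0`, `∬ρρ' = m²`. -/
def SpecPHI : Prop := ∀ (ρ : L1) (m ε ℓ : ℝ), (∀ᵐ a : ℝ, 0 ≤ ρ a) → (∫ a, ρ a = m) → 0 < ε → ε ≤ 1 →
  0 < ℓ → 0 ≤ DD (phi ℓ) ρ ρ ∧
    DD (phi ℓ) ρ ρ ≤ ε * ℓ * m ^ 2 + 2 * ℓ * (DD (hl (2 * ℓ)) ρ ρ - DD (hl (ε * ℓ / 2)) ρ ρ)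

/-- UPB (upper bound for the increase of `D_L`).  Hypotheses CLL, ANN, PHI, HCF, DDB (PHF for continuity of `phi`).
Proof.  `r(t) = ∫_t^T A → 0` as `t → T`.  `c_ℓ(t) = DD (hl ℓ)(ρ t)(ρ t)`; by CLL `|c_ℓ(t') - c_ℓ(t)| ≤ (C/ℓ)m^{3/2}r(t)` for
`t ≤ t'`; so `c_ℓ(t)` converges to `c(ℓ)` as `t → T` (or put `c(ℓ) = limsup`), `c` is nondecreasing in `ℓ`, `0 ≤ c ≤ m²`, and
`|c_ℓ(t) - c(ℓ)| ≤ (C/ℓ)m^{3/2}r(t)` (*).  Let `c₀ = inf_{ℓ>0} c(ℓ)`.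
Given `δ`, choose `Rr ≥ 1` and then `L` such that `C_ANN m^{1/2}(c(2L) - c₀ + 3C m^{3/2}/Rr)^{1/2} ≤ δ/2`: first `Rr` large, then
`L` small.  Choose `ε ∈ (0,1]` with `Rr ε m² ≤ δ/6`.  Let `ℓ = Rr·r(t)`; for `t` near `T`: `ℓ ≤ L`,
`2Rr(c(2Rr r(t)) - c₀) ≤ δ/6`.
Far part (ANN with this `ℓ`): for `s ∈ [t,t']`, by (*), `c_{2L}(s) - c_{ℓ/2}(s) ≤ c(2L) - c(ℓ/2) + (C/(2L) + 2C/ℓ)m^{3/2}r(t)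
≤ c(2L) - c₀ + 3Cm^{3/2}/Rr` (as `L ≥ ℓ = Rr r(t)`), so the far part is `≤ (δ/2) r(t)`.
Near part: `DD (phi ℓ)(ρ t')(ρ t') - DD(phi ℓ)(ρ t)(ρ t) ≤ DD (phi ℓ)(ρ t')(ρ t') ≤ εℓm² + 2ℓ(c_{2ℓ}(t') - c_{εℓ/2}(t'))`; this is
not yet small because `t' ` is arbitrary: by (*) at `t'` it is `≤ εℓm² + 2ℓ(c(2ℓ) - c(εℓ/2)) + 2ℓ(C/(2ℓ) + 2C/(εℓ))m^{3/2}r(t')`.
So for fixed `t` one has the bound with the additional error `C_ε r(t')`, which tends to `0` as `t' → T`.  Since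
`D_L(t'') - D_L(t) ` for `t'' > t'` and `|D_L(t'') - D_L(t')| ≤ C_L r(t')` it is enough to state the result for the limit
`t' → T`: the statement below has `limsup`-form: for every `t ≥ t0` and every `η > 0`, for all `t'` close to `T`,
`D_L(t') - D_L(t) ≤ δ r(t) + η`. -/
def SpecUPB : Prop := ∀ (T m : ℝ) (R : ℝ → ℝ) (ρ p e : ℝ → L1), 0 < T → Flow T m R ρ p e →
  ∀ A : ℝ → ℝ, MonotoneOn A (Ico 0 T) → (∀ t ∈ Ico 0 T, 0 < A t ∧ (∫ a, e t a) ≤ A t ^ 2) →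
  IntegrableOn A (Ico 0 T) → ∀ δ : ℝ, 0 < δ → ∃ L : ℝ, 0 < L ∧ ∃ t0 ∈ Ico 0 T, ∀ t ∈ Ico t0 T,
    ∀ η : ℝ, 0 < η → ∀ᶠ t' in 𝓝[<] T,
      DD (phi L) (ρ t') (ρ t') - DD (phi L) (ρ t) (ρ t) ≤ δ * (∫ s in t..T, A s) + η

/-- GAS (the gas theorem).  Hypotheses LBD, UPB, UGB.
Proof.  Suppose `c A(t) ≤ ∫_0^t g` on `[t₁,T)`.  Take `δ = 8c` in UPB, with `L`, and `t0` there; enlarge `t0` such that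
`t0 ≥ t₁` and `(C m/L) r(t0) ≤ 16c`, `r(t) = ∫_t^TA`.  In LBD for `s ≥ t ≥ t0`: `∫_{t0}^s A² ≤ A(s)∫_{t0}^sA ≤ A(s)r(t0)`, and
`64∫_{t0}^s g ≥ 64cA(s) - 64∫_0^{t0}g`; so the integrand is `≥ 48cA(s) - K₀` with a constant `K₀`, hence `≥ 16cA(s)` for `s` near
`T` as `A → ∞`.  So for `t` near `T` and `t ≤ t' < T`: `D_L(t') - D_L(t) ≥ 16c∫_t^{t'}A`.  Let `t' → T` and use UPB:
`16c r(t) ≤ 8c r(t) + η` for all `η > 0`, and `r(t) > 0`: contradiction. -/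
def SpecGAS : Prop := ∀ (T m : ℝ) (R : ℝ → ℝ) (ρ p e : ℝ → L1), 0 < T → Flow T m R ρ p e →
  ∀ A : ℝ → ℝ, MonotoneOn A (Ico 0 T) → (∀ t ∈ Ico 0 T, 0 < A t ∧ (∫ a, e t a) ≤ A t ^ 2) →
  IntegrableOn A (Ico 0 T) → Tendsto A (𝓝[<] T) atTop → ∀ c t₁ : ℝ, 0 < c → t₁ ∈ Ico 0 T →
    (∀ t ∈ Ico t₁ T, c * A t ≤ ∫ r in (0 : ℝ)..t, gF ρ p e r) → False

end Pool.Agent.Lib.MP424d38.TY
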