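import Pool.Agent.Lib.MP_424d38_an.DefsE

/-!
# Block E: the free group, an elementary local Strichartz estimate, control of the gradient
-/

set_option autoImplicit false

open MeasureTheory Filter Topology Set
open scoped ENNReal ContDiff ComplexConjugate FourierTransform SchwartzMap

noncomputable section

namespace Pool.Agent.Lib.MP424d38.TY

/-- YNG (trilinear Young inequality, on `ℝ` and on `E2`).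
Proof (any abelian group with an invariant measure, also invariant under `x ↦ -x`).  With
`1/p + 1/q + 1/r = 2`, `p' ,q',r'` the conjugate exponents, `1/p'+1/q'+1/r' = 1` and
`f(x)k(y-x)g(y) = (f^p k^q)^{1/r'} (k^q g^r)^{1/p'} (f^p g^r)^{1/q'}` (exponent of `f`: `p(1/r'+1/q') = p(1 - 1/p') = 1`, etc.).
Generalised Hölder with three functions on the product space (`ENNReal.lintegral_prod_norm_pow_le`, or Hölder twice) and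
Tonelli: `∬ f(x)^p k(y-x)^q = ∫f^p ∫k^q` etc. (translation invariance), which gives
`(∫f^p∫k^q)^{1/r'}(∫k^q∫g^r)^{1/p'}(∫f^p∫g^r)^{1/q'} = ‖f‖_p‖k‖_q‖g‖_r`. -/
def SpecYNG : Prop := ∀ p q r : ℝ, 1 < p → 1 < q → 1 < r → 1 / p + 1 / q + 1 / r = 2 →
  (∀ f k g : ℝ → ℝ≥0∞, Measurable f → Measurable k → Measurable g →
    ∫⁻ x, ∫⁻ y, f x * k (y - x) * g y
      ≤ (∫⁻ x, f x ^ p) ^ (1 / p) * (∫⁻ x, k x ^ q) ^ (1 / q) * (∫⁻ x, g x ^ r) ^ (1 / r)) ∧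
  (∀ f k g : E2 → ℝ≥0∞, Measurable f → Measurable k → Measurable g →
    ∫⁻ x, ∫⁻ y, f x * k (y - x) * g y
      ≤ (∫⁻ x, f x ^ p) ^ (1 / p) * (∫⁻ x, k x ^ q) ^ (1 / q) * (∫⁻ x, g x ^ r) ^ (1 / r))

/-- HYG (Hausdorff-Young `4/3 → 4` for Schwartz functions).  Hypothesis YNG.
Proof.  `H = g ⋆ g` is Schwartz, `𝓕H = (𝓕g)²` (Mathlib: `SchwartzMap.fourier_convolution`, `convolution_apply`,
or `Real.fourier_mul_convolution_eq`); Plancherel `‖𝓕g‖₄² = ‖(𝓕g)²‖₂ = ‖𝓕H‖₂ = ‖H‖₂`; and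
`‖H‖₂² ≤ ∫∫|g(x)||g(y-x)||H(y)| ≤ ‖g‖²_{4/3}‖H‖₂` (YNG with `p = q = 4/3`, `r = 2`), so `‖H‖₂ ≤ ‖g‖²_{4/3}`. -/
def SpecHYG : Prop := ∀ g : 𝓢(E2, ℂ),
  eLpNorm (fun k => (𝓕 g : 𝓢(E2, ℂ)) k) 4 volume ≤ eLpNorm (fun x => g x) (4 / 3) volume

/-- KDS (dispersive estimate for the kernel operator on test functions).  Hypothesis HYG.
Proof.  `(a-a')(b-b') = ab - (ab'+a'b) + a'b'`, so
`KK t ψ(a,b) = (8π|t|)⁻¹ e^{iab/4t} ∬ e^{-i(ab'+a'b)/4t} G(a',b')`, `G = e^{ia'b'/4t}ψ` smooth with compact support, i.e.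
`|KK t ψ(a,b)| = (8π|t|)⁻¹ |𝓕G((b,a)/(8πt))|` with Mathlib's normalisation `𝓕G(k) = ∫e^{-2πi⟨x,k⟩}G(x)`.
Scaling and swap: `‖KK t ψ‖₄ = (8π|t|)⁻¹(8π|t|)^{1/2}‖𝓕G‖₄ ≤ (8π|t|)^{-1/2}‖ψ‖_{4/3} ≤ |t|^{-1/2}‖ψ‖_{4/3}`. -/
def SpecKDS : Prop := ∀ (t : ℝ) (ψ : ℝ × ℝ → ℂ), t ≠ 0 → Test ψ →
  eLpNorm (KK t ψ) 4 volume ≤ ENNReal.ofReal (|t| ^ (-(1 / 2) : ℝ)) * eLpNorm ψ (4 / 3) volume

/-- FUX (existence of the multiplier group).  `U t = ofE ∘ 𝓕⁻¹ ∘ (multiplication by sym t) ∘ 𝓕 ∘ toE`; multiplication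
by a continuous function of modulus one is a continuous linear map of `L²` (e.g. `(ContinuousLinearMap ..).compLp`
does not apply because the symbol depends on `k`; use `MemLp.toLp` and `LinearMap.mkContinuous`, or
`BoundedContinuousFunction`/`MemLp.smul`).  `toE` and `ofE` are inverse to each other. -/
def SpecFUX : Prop := ∃ U : ℝ → L2 →L[ℂ] L2, IsFree U

/-- FUG (group properties).  Plancherel (`Lp.norm_fourier_eq`), `|sym| = 1`, `sym (s+t) = sym s · sym t`, `sym 0 = 1`;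
strong continuity: `‖U t f - U s f‖² = ∫|sym t - sym s|²|𝓕f|²`, dominated convergence. -/
def SpecFUG : Prop := ∀ U : ℝ → L2 →L[ℂ] L2, IsFree U →
  (∀ (t : ℝ) (f : L2), ‖U t f‖ = ‖f‖) ∧ (∀ f : L2, U 0 f = f) ∧
  (∀ (s t : ℝ) (f : L2), U (s + t) f = U s (U t f)) ∧ (∀ f : L2, Continuous fun t => U t f)

/-- FWD (Fourier characterisation of `H¹`).  Hypotheses DEN, LIN, TH1 (and BYP).
Proof.  For a test function `ψ` (Schwartz) `𝓕(∂_jψ) = 2πi k_j 𝓕ψ` (Mathlib: `SchwartzMap.fourier_lineDerivOp_eq`,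
or `Real.fourier_fderiv`, ..).  (→) `f_n = ψ_n → f`, `d1 ψ_n → F₁` in `L²`: the Fourier transforms converge in `L²`, a.e. along a
subsequence.  (←) For a test function `ψ`: `∫ f d1ψ = ⟪conj d1ψ.., f⟫`, i.e. with `φ = conj ψ`,
`∫ f conj(d1φ) = ⟪d1φ, f⟫ = ⟪𝓕d1φ, 𝓕f⟫ = ∫ conj(2πik₁φ̂) f̂ = -∫ conj(φ̂) 2πik₁f̂ = -∫conj(φ̂)F̂₁ = -⟪φ, F₁⟫ = -∫F₁ψ`. -/
def SpecFWD : Prop := ∀ f F₁ F₂ : L2, IsH1 f F₁ F₂ ↔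
  ((∀ᵐ k : E2, (𝓕 (toE F₁) : L2E) k = 2 * Real.pi * Complex.I * ((prE k).1 : ℂ) * (𝓕 (toE f) : L2E) k) ∧
   (∀ᵐ k : E2, (𝓕 (toE F₂) : L2E) k = 2 * Real.pi * Complex.I * ((prE k).2 : ℂ) * (𝓕 (toE f) : L2E) k))

/-- FUH.  Hypothesis FWD: multiplication by `sym t` commutes with multiplication by `2πik_j`. -/
def SpecFUH : Prop := ∀ U : ℝ → L2 →L[ℂ] L2, IsFree U → ∀ (t : ℝ) (f F₁ F₂ : L2), IsH1 f F₁ F₂ →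
  IsH1 (U t f) (U t F₁) (U t F₂)

/-- FUE (the free equation).  Hypotheses FWD, TH1, FUG.
Proof.  With `φ = conj ψ`, Parseval: `∫(U t f)ψ = ⟪φ, U t f⟫ = ∫ conj(φ̂) sym t f̂`.  As
`sym t - sym s = ∫_s^t (-16π²ik₁k₂) sym r dr` and `k₁φ̂ ∈ L²`, `k₂f̂ ∈ L²` (FWD), Fubini gives
`∫conj(φ̂)(sym t - sym s)f̂ = ∫_s^t∫ conj(φ̂)(-16π²ik₁k₂)sym r f̂ dk dr`, and
`-16π²i k₁k₂ conj(φ̂) f̂ = 4i · (2πik₁)(2πik₂) conj(φ̂)f̂ = -4i conj(2πik₁φ̂)(2πik₂f̂)`, which integrates (Parseval) to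
`-4i ∫ d1ψ · U r F₂`. -/
def SpecFUE : Prop := ∀ U : ℝ → L2 →L[ℂ] L2, IsFree U → ∀ f F₁ F₂ : L2, IsH1 f F₁ F₂ →
  ∀ ψ : ℝ × ℝ → ℂ, Test ψ → ∀ s t : ℝ, s ≤ t →
    (∫ x, U t f x * ψ x) - ∫ x, U s f x * ψ x
      = ∫ r in s..t, Complex.I * (-4 * ∫ x, U r F₂ x * d1 ψ x)

/-- FUK (kernel representation).  Proof.  `ψ̂` is Schwartz and `U t f = 𝓕⁻¹(sym t ψ̂)` is the absolutely convergent integral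
`∬ e^{2πi(k₁a+k₂b)}e^{-16π²itk₁k₂}ψ̂(k₁,k₂)dk₁dk₂` (for `f = ψ` a.e.; the `L²` inverse transform of the `L¹ ∩ L²` function
`sym t ψ̂`, which is again Schwartz because `sym t` has temperate growth).  `ψ̂(k₁,k₂) = ∫e^{-2πik₁a'}ψ̃(a',k₂)da'`,
`ψ̃(a',k₂) = ∫e^{-2πik₂b'}ψ(a',b')db'`; one dimensional Fourier inversion in the first variable (for fixed `k₂`,
`ψ̃(·,k₂)` is smooth with compact support) gives `∫dk₂ e^{2πik₂b}ψ̃(a-8πtk₂,k₂)`.  Insert `ψ̃` and substitute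
`a' = a - 8πtk₂` (`k₂ = (a-a')/(8πt)`, `dk₂ = da'/(8π|t|)`; Fubini for a bounded function with compact support):
`(8π|t|)⁻¹∬e^{2πi(a-a')(b-b')/(8πt)}ψ(a',b')`. -/
def SpecFUK : Prop := ∀ U : ℝ → L2 →L[ℂ] L2, IsFree U → ∀ (t : ℝ) (ψ : ℝ × ℝ → ℂ) (f : L2), t ≠ 0 →
  Test ψ → (∀ᵐ x : ℝ × ℝ, f x = ψ x) → ∀ᵐ x : ℝ × ℝ, U t f x = KK t ψ x

/-- DSP (dispersive estimate for all `f ∈ L² ∩ L^{4/3}`).  Hypotheses KDS, FUK, FUG (continuity).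
Proof.  If `‖f‖_{4/3} = ∞` nothing to prove (`|t|^{-1/2} > 0`).  Otherwise there are test functions `ψ_n → f` both in
`L²` and in `L^{4/3}` (truncate `f` to a bounded function with bounded support, which is in `L²` and `L^{4/3}` and close in both
norms; then mollify: convergence in `L²` on a fixed bounded set implies convergence in `L^{4/3}`).  `U t ψ_n → U t f` in `L²`, a.e.
along a subsequence, and Fatou: `‖U t f‖₄ ≤ liminf‖U t ψ_n‖₄ ≤ |t|^{-1/2}lim‖ψ_n‖_{4/3}`. -/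
def SpecDSP : Prop := ∀ U : ℝ → L2 →L[ℂ] L2, IsFree U → ∀ (t : ℝ) (f : L2), t ≠ 0 →
  eLpNorm (U t f) 4 volume ≤ ENNReal.ofReal (|t| ^ (-(1 / 2) : ℝ)) * eLpNorm f (4 / 3) volume

/-- PRP.  Hypotheses FUX, FUG, FUH, FUE, DSP.  Immediate. -/
def SpecPRP : Prop := ∃ U : ℝ → L2 →L[ℂ] L2, IsProp U

/-- DUH (Duhamel formula).  Hypotheses BIL, DEN (density of `H¹`), TH1.
Proof.  Let `f ∈ H¹`.  `w(t) = U t f` is a `Lin` solution on `[0,T)` with `N' = 0` (`IsProp`).  BIL with `β = 1`: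
`⟪v t, U t f⟫ - ⟪v 0, f⟫ = -i∫_0^t ⟪N s, U s f⟫ ds` (`⟪g,f⟫ = ∫ ḡ f`).  `U` is unitary with inverse `U(-t)`, so
`⟪U(-t)v t - v 0, f⟫ = ⟪i∫_0^tU(-s)N s ds, f⟫`; `H¹` is dense in `L²` (test functions). -/
def SpecDUH : Prop := ∀ U : ℝ → L2 →L[ℂ] L2, IsProp U → ∀ (T : ℝ) (v v₁ v₂ N : ℝ → L2),
  Lin T v v₁ v₂ N → ∀ t ∈ Ico 0 T,
    U (-t) (v t) = v 0 + Complex.I • ∫ s in (0 : ℝ)..t, U (-s) (N s)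

/-- HYT (the time part: trilinear Young on `[0,τ]` with the kernel `|t-s|^{-1/2}`).  Hypothesis YNG.
`p = r = 8/5`, `q = 4/3`, `k(t) = |t|^{-1/2}` on `|t| ≤ τ`: `∫k^{4/3} = 2∫_0^τ t^{-2/3} = 6τ^{1/3}`, so `‖k‖_{4/3} = (6τ^{1/3})^{3/4}
≤ 6τ^{1/4}`. -/
def SpecHYT : Prop := ∀ (τ : ℝ) (f g : ℝ → ℝ≥0∞), 0 < τ → Measurable f → Measurable g →
  ∫⁻ t in Icc 0 τ, ∫⁻ s in Icc 0 τ, f t * ENNReal.ofReal (|t - s| ^ (-(1 / 2) : ℝ)) * g s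
    ≤ ENNReal.ofReal (6 * τ ^ (1 / 4 : ℝ)) * (∫⁻ t in Icc 0 τ, f t ^ (8 / 5 : ℝ)) ^ (5 / 8 : ℝ) *
      (∫⁻ t in Icc 0 τ, g t ^ (8 / 5 : ℝ)) ^ (5 / 8 : ℝ)

/-- PAR (pairing through the dispersive estimate).  For `f, g ∈ L²`, `⟪U(-t)f, U(-s)g⟫ = ⟪f, U(t-s)g⟫` (unitary group) and Hölder
`4/3, 4`: `|⟪f, U(t-s)g⟫| ≤ ‖f‖_{4/3}‖U(t-s)g‖₄ ≤ |t-s|^{-1/2}‖f‖_{4/3}‖g‖_{4/3}`.  (`inner` = Mathlib's `inner ℂ f g = ∫ f̄ g`.) -/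
def SpecPAR : Prop := ∀ U : ℝ → L2 →L[ℂ] L2, IsProp U → ∀ (t s : ℝ) (f g : L2), t ≠ s →
  ENNReal.ofReal ‖inner ℂ (U (-t) f) (U (-s) g)‖ ≤
    ENNReal.ofReal (|t - s| ^ (-(1 / 2) : ℝ)) * eLpNorm f (4 / 3) volume * eLpNorm g (4 / 3) volume

/-- STR (local Strichartz inequality).  Hypotheses DUH, HYT, PAR, CUB (or CTN for the continuity of `|v|²v`), LIN, SOB.
Proof.  `y(t) = U(-t)v(t) = v(0) + i∫_0^tU(-s)N(s)ds`.  For a continuous `θ : [0,τ] → [0,∞)` let `Ψ(t) = θ(t)|v(t)|²v(t)`,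
continuous in `L²` (CTN), `‖Ψ(t)‖_{4/3} = θ n³`, `⟪Ψ(t), v(t)⟫ = θ n⁴`.  Then
`∫_0^τθn⁴ = ∫⟪U(-t)Ψ(t), y(t)⟫dt = ⟪∫_0^τU(-t)Ψ(t)dt, v(0)⟫ + i∫_0^τ∫_0^t⟪U(-t)Ψ(t), U(-s)N(s)⟫ds dt`.
By PAR and HYT the second term is at most `6τ^{1/4}(∫(θn³)^{8/5})^{5/8}(∫q^{8/5})^{5/8}`, and
`‖∫U(-t)Ψ(t)dt‖² = ∬⟪U(-t)Ψ(t),U(-s)Ψ(s)⟫ ≤ 6τ^{1/4}(∫(θn³)^{8/5})^{5/4}`.  So
`∫θn⁴ ≤ (3τ^{1/8}‖v 0‖ + 6τ^{1/4}‖q‖_{8/5})·(∫(θn³)^{8/5})^{5/8}`.  Take `θ = (n+ε)^{-4/3}`, so `θn⁴ → n^{8/3}` and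
`(θn³)^{8/5} ≤ n^{8/3}`; `ε → 0` (dominated convergence): `X ≤ K X^{5/8}`, `X = ∫n^{8/3} < ∞`. -/
def SpecSTR : Prop := ∀ U : ℝ → L2 →L[ℂ] L2, IsProp U → ∀ (T : ℝ) (v v₁ v₂ N : ℝ → L2),
  Lin T v v₁ v₂ N → ∀ τ : ℝ, 0 < τ → τ < T → ∀ q : ℝ → ℝ, ContinuousOn q (Icc 0 τ) →
  (∀ t ∈ Icc 0 τ, 0 ≤ q t ∧ eLpNorm (N t) (4 / 3) volume ≤ ENNReal.ofReal (q t)) →
    (∫ t in (0 : ℝ)..τ, n4 (v t) ^ (8 / 3 : ℝ)) ^ (3 / 8 : ℝ) ≤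
      3 * τ ^ (1 / 8 : ℝ) * ‖v 0‖ + 6 * τ ^ (1 / 4 : ℝ) * (∫ t in (0 : ℝ)..τ, q t ^ (8 / 5 : ℝ)) ^ (5 / 8 : ℝ)

/-- N4F (facts on `n4`).  Hypotheses SOB, LIN, TRN.  `n4` is a seminorm on `{f ∈ L2 : MemLp f 4}`; (1),(2) from SOB;
(3) continuity in time as in CTN; (4) translation invariance. -/
def SpecN4F : Prop :=
  (∀ f F₁ F₂ : L2, IsH1 f F₁ F₂ → MemLp f 4 volume ∧ n4 f ^ 4 = ∫ x, ‖f x‖ ^ 4) ∧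
  (∀ f F₁ F₂ : L2, IsH1 f F₁ F₂ → n4 f ^ 4 ≤ ‖f‖ ^ 2 * ‖F₁‖ * ‖F₂‖) ∧
  (∀ (T : ℝ) (v v₁ v₂ N : ℝ → L2), Lin T v v₁ v₂ N → ContinuousOn (fun t => n4 (v t)) (Ico 0 T)) ∧
  (∀ (h : ℝ) (f : L2), n4 (trn h f) = n4 f ∧ (MemLp f 4 volume → MemLp (trn h f) 4 volume))

/-- NWB (bounds for the difference quotient of the nonlinearity).  Hypotheses CUB, TRN, N4F, SOB.
`|dq_h N| ≤ (3/2)(|trn_h f|² + |f|²)|dq_h f|` a.e.; Hölder `3/4 = 1/2 + 1/4` and `1 = 1/2+1/4+1/4`. -/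
def SpecNWB : Prop := ∀ f F₁ F₂ N : L2, IsH1 f F₁ F₂ →
  (∀ᵐ x : ℝ × ℝ, N x = ((‖f x‖ ^ 2 : ℝ) : ℂ) * f x) → ∀ h : ℝ,
  eLpNorm (dq h N) (4 / 3) volume ≤ ENNReal.ofReal (3 * n4 f ^ 2 * n4 (dq h f)) ∧
  |(∫ x, (conj (dq h f x) * dq h N x).im)| ≤ 3 * n4 f ^ 2 * n4 (dq h f) ^ 2

/-- GCW (growth of `‖dq_h v‖` on an interval where the potential is small).  Hypotheses STR, NWB, DQL, SHF, BIL, N4F, TRN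
(`dq h` of `H¹` is `H¹`), PRP.
Proof.  After a time shift `t₁ = 0`, `τ = t₂ - t₁`, `w = dq_h v` solves `Lin` with `N^h = dq_h N` (DQL).
`X = ∫n4(w)^{8/3}`, `Y = ∫n4(v)⁸`, `ε = τY`.  STR for `w` with `q = 3n4(v)²n4(w)` (NWB), Hölder in time with exponents `5/2, 5/3`:
`(∫q^{8/5})^{5/8} ≤ 3Y^{1/4}X^{3/8}`; so `X^{3/8} ≤ 3τ^{1/8}‖w0‖ + 18ε^{1/4}X^{3/8}`; if `18ε^{1/4} ≤ 1/2` then
`X^{3/8} ≤ 6τ^{1/8}‖w0‖`.  Energy: BIL with `v = w = dq_hv`, `β = 1`, real part: `‖w(t)‖² - ‖w(0)‖² = -2∫Im∫w̄N^h`, so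
`≤ 6∫n4(v)²n4(w)² ≤ 6Y^{1/4}X^{3/4} ≤ 6·36 (τY)^{1/4}‖w0‖²` (Hölder `1/4 + 3/4`). -/
def SpecGCW : Prop := ∃ c C : ℝ, 0 < c ∧ 0 < C ∧ ∀ (T : ℝ) (v v₁ v₂ N : ℝ → L2), Nls T v v₁ v₂ N →
  ∀ t₁ t₂ h : ℝ, 0 ≤ t₁ → t₁ < t₂ → t₂ < T → (t₂ - t₁) * (∫ t in t₁..t₂, n4 (v t) ^ 8) ≤ c →
    ‖dq h (v t₂)‖ ^ 2 ≤
      (1 + C * ((t₂ - t₁) * (∫ t in t₁..t₂, n4 (v t) ^ 8)) ^ (1 / 4 : ℝ)) * ‖dq h (v t₁)‖ ^ 2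

/-- GRC (gradient control, both directions).  Hypotheses GCW, TRN, SWP, N4F.
Proof.  `h → 0` in GCW (TRN (3)) on `[t₁,t]` (the small quantity for `[t₁,t]` is at most that for `[t₁,t₂]`), then the same for the
swapped solution (SWP; `n4 (swp f) = n4 f`). -/
def SpecGRC : Prop := ∃ c C : ℝ, 0 < c ∧ 0 < C ∧ ∀ (T : ℝ) (v v₁ v₂ N : ℝ → L2), Nls T v v₁ v₂ N →
  ∀ t₁ t₂ : ℝ, 0 ≤ t₁ → t₁ ≤ t₂ → t₂ < T → (t₂ - t₁) * (∫ t in t₁..t₂, n4 (v t) ^ 8) ≤ c →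
    ∀ t ∈ Icc t₁ t₂,
    ‖v₁ t‖ ^ 2 ≤ (1 + C * ((t₂ - t₁) * (∫ t in t₁..t₂, n4 (v t) ^ 8)) ^ (1 / 4 : ℝ)) * ‖v₁ t₁‖ ^ 2 ∧
    ‖v₂ t‖ ^ 2 ≤ (1 + C * ((t₂ - t₁) * (∫ t in t₁..t₂, n4 (v t) ^ 8)) ^ (1 / 4 : ℝ)) * ‖v₂ t₁‖ ^ 2

end Pool.Agent.Lib.MP424d38.TY
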