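import Pool.Agent.Lib.MP_424d38_an.DefsA
import Pool.Agent.Lib.MP_424d38_an.SpecD
import Pool.Agent.Lib.MP_424d38_an.SpecE

/-!
# Block A (transfer to null coordinates) and block F (real analysis, assembly)
-/

set_option autoImplicit false

open MeasureTheory Filter Topology Set
open scoped ENNReal ContDiff ComplexConjugate

noncomputable section

namespace Pool.Agent.Lib.MP424d38.TY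

/-! ## Block A -/

/-- CHV (change of variables).  `PhiN` is a linear isomorphism `ℝ × ℝ → EE` of determinant `1/2` (up to the measure
preserving identifications), so `map PhiN volume = 2 • volume`. -/
def SpecCHV : Prop :=
  (Measure.map PhiN (volume : Measure (ℝ × ℝ)) = (2 : ℝ≥0∞) • (volume : Measure EE)) ∧
  Measurable PhiN ∧
  (∀ f : EE → ℂ, ∫ x, f (PhiN x) = 2 * ∫ y, f y) ∧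
  (∀ (f : EE → ℂ) (p : ℝ≥0∞), MemLp f p volume → MemLp (fun x => f (PhiN x)) p volume) ∧
  (∀ f : EE → ℂ, AEStronglyMeasurable f volume → eLpNorm (fun x => f (PhiN x)) 2 volume
    = ENNReal.ofReal (Real.sqrt 2) * eLpNorm f 2 volume) ∧
  (∀ f : EE → ℂ, ∫ x, ‖f (PhiN x)‖ ^ 4 = 2 * ∫ y, ‖f y‖ ^ 4)

/-- WKD (weak derivatives in null coordinates).  Hypothesis CHV.
Proof.  `ψ ∘ PhiN⁻¹` is a test function on `EE` for a test function `ψ`; with `χ = ψ ∘ PhiN⁻¹` the chain rule gives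
`d1 ψ = ((∂_xχ - ∂_zχ)/2) ∘ PhiN`, `d2 ψ = ((∂_xχ + ∂_zχ)/2) ∘ PhiN`. -/
def SpecWKD : Prop := ∀ (u : EE → ℂ) (G : Fin 2 → EE → ℂ), MemLp u 2 volume → (∀ j, MemLp (G j) 2 volume) →
  (∀ j, ∀ ψ : EE → ℂ, ContDiff ℝ ∞ ψ → HasCompactSupport ψ →
    ∫ x, u x * fderiv ℝ ψ x (EuclideanSpace.single j (1 : ℝ)) = -∫ x, G j x * ψ x) →
  ∀ f F₁ F₂ : L2, (∀ᵐ x : ℝ × ℝ, f x = u (PhiN x)) →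
    (∀ᵐ x : ℝ × ℝ, F₁ x = (1 / 2 : ℂ) * (G 0 (PhiN x) - G 1 (PhiN x))) →
    (∀ᵐ x : ℝ × ℝ, F₂ x = (1 / 2 : ℂ) * (G 0 (PhiN x) + G 1 (PhiN x))) → IsH1 f F₁ F₂

/-- DBR (du Bois-Reymond in time).
Proof.  Let `P(t) = ∫_0^t n`, continuous on `[0,T)`, `C¹` inside.  For `θ` supported in `(0,T)` integration by parts gives
`∫θ n = -∫θ'P`, so `∫ θ'(M - P) = 0` for all `θ`.  Fix `θ₀ ∈ C_c^∞(0,T)` with `∫θ₀ = 1`; for any `η ∈ C_c^∞(0,T)`,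
`η - (∫η)θ₀ = θ'` with `θ(t) = ∫_0^t(η - (∫η)θ₀) ∈ C_c^∞(0,T)`; so `∫η(M-P) = (∫η)∫θ₀(M-P)`, i.e. `M - P` is a.e. constant
on `(0,T)`, hence constant by continuity, also at `0`. -/
def SpecDBR : Prop := ∀ (T : ℝ) (M n : ℝ → ℂ), ContinuousOn M (Ico 0 T) → ContinuousOn n (Ico 0 T) →
  (∀ θ : ℝ → ℝ, ContDiff ℝ ∞ θ → HasCompactSupport θ → tsupport θ ⊆ Ioo 0 T →
    (∫ t, ((deriv θ t : ℝ) : ℂ) * M t) + ∫ t, ((θ t : ℝ) : ℂ) * n t = 0) →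
  ∀ s t : ℝ, 0 ≤ s → s ≤ t → t < T → M t - M s = ∫ r in s..t, n r

/-- TRF (transfer).  Hypotheses CHV, WKD, DBR, CTN.
Proof.  `v t`, `v₁ t`, `v₂ t` = classes of `u t ∘ PhiN`, `½(G t 0 - G t 1)∘PhiN`, `½(G t 0 + G t 1)∘PhiN` (zero for `t ∉ [0,T)`);
continuous by CHV; `IsH1` by WKD; `N` from CTN.  Equation: test `H1Sol.eq` with `φ(t,x) = θ(t)ψ(PhiN⁻¹x)`; since
`(∂_x²-∂_z²)(ψ∘PhiN⁻¹) = 4(d1 (d2 ψ))∘PhiN⁻¹`, CHV and the definition of `v₂` (`∫ v d2 (d1 ψ) = -∫ v₂ d1ψ`) give (both sides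
multiplied by 2) `-i∫θ'M + ∫θ(-4∫v₂ d1ψ + ∫Nψ) = 0`, `M(t) = ∫v(t)ψ`; DBR with `n = i(-4∫v₂ d1ψ + ∫Nψ)` (multiply by `i`). -/
def SpecTRF : Prop := ∀ (T : ℝ) (u : ℝ → EE → ℂ) (G : ℝ → Fin 2 → EE → ℂ), H1Sol T u G →
  ∃ v v₁ v₂ N : ℝ → L2, Nls T v v₁ v₂ N ∧ ∀ t ∈ Ico 0 T,
    (∀ᵐ x : ℝ × ℝ, v t x = u t (PhiN x)) ∧
    (∀ᵐ x : ℝ × ℝ, v₁ t x = (1 / 2 : ℂ) * (G t 0 (PhiN x) - G t 1 (PhiN x))) ∧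
    (∀ᵐ x : ℝ × ℝ, v₂ t x = (1 / 2 : ℂ) * (G t 0 (PhiN x) + G t 1 (PhiN x)))

/-! ## Block F -/

/-- running supremum `sup_{[0,t]} α`. -/
def supT (α : ℝ → ℝ) (t : ℝ) : ℝ := sSup (α '' Icc 0 t)

/-- the abstract data of a nonzero solution: `α = ‖v₂‖`, `β = ‖v₁‖`, `y = ‖v‖₄⁸`, `g`, `gs`. -/
structure Dat (T m c C : ℝ) (α β y g gs : ℝ → ℝ) : Prop where
  m0 : 0 < m
  c0 : 0 < c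
  C0 : 0 < C
  cα : ContinuousOn α (Ico 0 T)
  cβ : ContinuousOn β (Ico 0 T)
  cy : ContinuousOn y (Ico 0 T)
  pos : ∀ t ∈ Ico 0 T, 0 < α t ∧ 0 < β t ∧ 0 ≤ y t ∧ 0 ≤ g t ∧ 0 ≤ gs t
  yg : ∀ t ∈ Ico 0 T, y t ≤ m * Real.sqrt m * β t * g t
  ygs : ∀ t ∈ Ico 0 T, y t ≤ m * Real.sqrt m * α t * gs t
  yab : ∀ t ∈ Ico 0 T, y t ≤ (m * α t * β t) ^ 2
  ig : ∀ t ∈ Ico 0 T, IntegrableOn g (Icc 0 t)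
  igs : ∀ t ∈ Ico 0 T, IntegrableOn gs (Icc 0 t)
  bg : ∀ t ∈ Ico 0 T, 4 * (∫ r in (0 : ℝ)..t, g r) ≤ m * Real.sqrt m * supT α t
  bgs : ∀ t ∈ Ico 0 T, 4 * (∫ r in (0 : ℝ)..t, gs r) ≤ m * Real.sqrt m * supT β t
  gc : ∀ t₁ t₂ : ℝ, 0 ≤ t₁ → t₁ ≤ t₂ → t₂ < T → (t₂ - t₁) * (∫ t in t₁..t₂, y t) ≤ c →
    ∀ t ∈ Icc t₁ t₂,
      β t ^ 2 ≤ (1 + C * ((t₂ - t₁) * (∫ t in t₁..t₂, y t)) ^ (1 / 4 : ℝ)) * β t₁ ^ 2 ∧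
      α t ^ 2 ≤ (1 + C * ((t₂ - t₁) * (∫ t in t₁..t₂, y t)) ^ (1 / 4 : ℝ)) * α t₁ ^ 2
  gas : IntegrableOn (supT α) (Ico 0 T) → Tendsto (supT α) (𝓝[<] T) atTop → ∀ c' t₁ : ℝ, 0 < c' →
    t₁ ∈ Ico 0 T → (∀ t ∈ Ico t₁ T, c' * supT α t ≤ ∫ r in (0 : ℝ)..t, g r) → False

/-- SUP (facts on the running supremum).  `α` is continuous on the compact interval `[0,t]`. -/
def SpecSUP : Prop := ∀ (T : ℝ) (α : ℝ → ℝ), ContinuousOn α (Ico 0 T) →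
  MonotoneOn (supT α) (Ico 0 T) ∧ ContinuousOn (supT α) (Ico 0 T) ∧
  (∀ t ∈ Ico 0 T, ∀ s ∈ Icc 0 t, α s ≤ supT α t) ∧ (∀ t ∈ Ico 0 T, ∃ s ∈ Icc 0 t, supT α t = α s)

/-- DAT (a solution gives data).  Hypotheses FLO, UGB, GAS, GRC, SOB, N4F, SWP, RHL, SUP, RHB, S4B.
Proof.  `α = ‖v₂‖`, `β = ‖v₁‖`, `y = n4(v)⁸`, `g = gD (v)(v₂)`, `gs = gD (swp v)(swp v₁)`, `m = ‖v 0‖² = ‖v t‖²`.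
Positivity of `α, β`: if `‖v₂ t‖ = 0` then `rhoD (v₂ t) = 0` a.e. and S4B gives `v t = 0`, contradicting conservation of mass;
for `β` use the swap.  `yg`: SOB `n4⁸ = (∫|v|⁴)² ≤ ‖v‖²∫|v|⁶ ≤ ‖v‖³‖v₁‖ g` and `‖v‖³ = m√m`.  `bg`: FLO + UGB with `A = supT α`.
`gas`: FLO + GAS (`gF = gD` on `[0,T)`).  `gc`: GRC.  Everything mirrored through `swp`. -/
def SpecDAT : Prop := ∃ c C : ℝ, ∀ (T : ℝ) (v v₁ v₂ N : ℝ → L2), 0 < T → Nls T v v₁ v₂ N → ‖v 0‖ ≠ 0 →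
  Dat T (‖v 0‖ ^ 2) c C (fun t => ‖v₂ t‖) (fun t => ‖v₁ t‖) (fun t => n4 (v t) ^ 8)
    (fun t => gD (v t) (v₂ t)) (fun t => gD (swp (v t)) (swp (v₁ t)))

/-- RLB (lower bound of the blow-up rate).  Hypothesis SUP.
Proof.  Let `c₁ > 0` with `16m²c₁² ≤ c`, `C(16m²c₁²)^{1/4} ≤ 1`.  Suppose `Λ(t₁)(T-t₁) < c₁` for some `t₁`, `Λ = supT α · supT β`,
`a₁ = supT α t₁`, `b₁ = supT β t₁`.  Claim: `α ≤ 2a₁`, `β ≤ 2b₁` on `[t₁,T)` (so `α,β` are bounded).  Otherwise let `t₂` be the infimum of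
the `t > t₁` where the claim fails; on `[t₁,t₂]` `α ≤ 2a₁`, `β ≤ 2b₁`, and `y ≤ (m·2a₁·2b₁)²`, so
`(t₂-t₁)∫y ≤ (T-t₁)²·16m²Λ(t₁)² ≤ 16m²c₁²` and `gc` gives `α(t₂)² ≤ 2α(t₁)² ≤ 2a₁² < 4a₁²` and the same for `β`; by
continuity the claim holds slightly beyond `t₂`: contradiction. -/
def SpecRLB : Prop := ∀ (T m c C : ℝ) (α β y g gs : ℝ → ℝ), 0 < T → Dat T m c C α β y g gs →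
  (¬ ∃ D : ℝ, ∀ t ∈ Ico 0 T, α t ≤ D ∧ β t ≤ D) →
  ∃ c₁ : ℝ, 0 < c₁ ∧ ∀ t ∈ Ico 0 T, c₁ ≤ supT α t * supT β t * (T - t)

/-- RA1 (Theorem I, real analysis).  Hypotheses RLB, SUP.
Proof.  Suppose `α, β` are not both bounded; `c₁` from RLB; `A = supT α`, `B = supT β`, `Λ = AB`.  We may take `K ≥ c₁`.
`θ = c₁/(4K) ≤ 1/4`, `t_k = T(1-θ^k)`, `I_k = [t_k,t_{k+1}]`, `A_k = A(t_k)`, `B_k = B(t_k)`, `T - t_{k+1} = θ(T-t_k)`.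
(a) `ε_k := |I_k|∫_{I_k}y ≥ ε₁ := min(c, C^{-4})`: otherwise `gc` gives `α² ≤ 2α(t_k)²`, `β² ≤ 2β(t_k)²` on `I_k`, so `A_{k+1}² ≤ 2A_k²`,
`B_{k+1}² ≤ 2B_k²`, `Λ_{k+1} ≤ 2Λ_k ≤ 2K/(T-t_k) = 2Kθ/(T-t_{k+1}) = (c₁/2)/(T-t_{k+1})`, contradiction to RLB.
(b) `γ_k = ∫_{I_k}g`: by `yg`, `∫_{I_k}y ≤ m^{3/2}B_{k+1}γ_k`, so `γ_k ≥ ε₁/(m^{3/2}B_{k+1}|I_k|) ≥ ε₁θ/(m^{3/2}B_{k+1}(T-t_{k+1})) ≥ c₂A_{k+1}`,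
`c₂ = ε₁θ/(m^{3/2}K)` (as `1/(B_{k+1}(T-t_{k+1})) ≥ A_{k+1}/K`).  Mirrored: `∫_{I_k}gs ≥ c₂B_{k+1}`.
(c) `bg`, `bgs`: `c₂Σ_{j≤k}A_{j+1} ≤ (m^{3/2}/4)A_{k+1}`, the same for `B`.  So `A_{k+1} ≥ c(k+1)A_0 → ∞`, hence `A → ∞`; and
`S_k = Σ_{j≤k}B_{j+1}` satisfies `S_k ≤ C'(S_k - S_{k-1})`, so `S_k` grows geometrically, `B_{k+1} ≥ S_k/C'` and `Σ 1/B_{k+1} < ∞`.
(d) `∫_0^TA ≤ Σ|I_k|A_{k+1} ≤ Σ(T-t_k)K/((T-t_{k+1})B_{k+1}) = (K/θ)Σ1/B_{k+1} < ∞`.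
(e) `A_{k+2} ≤ K/((T-t_{k+2})B_{k+1}) ≤ (K/(θc₁))A_{k+1}` (RLB: `1/B_{k+1} ≤ A_{k+1}(T-t_{k+1})/c₁`); for `t ∈ I_{k+1}`:
`∫_0^tg ≥ γ_k ≥ c₂A_{k+1} ≥ (c₂θc₁/K)A_{k+2} ≥ c₃A(t)`.  (f) `gas` gives a contradiction. -/
def SpecRA1 : Prop := ∀ (T m c C : ℝ) (α β y g gs : ℝ → ℝ), 0 < T → Dat T m c C α β y g gs →
  ∀ K : ℝ, (∀ t ∈ Ico 0 T, supT α t * supT β t ≤ K / (T - t)) →
  ∃ D : ℝ, ∀ t ∈ Ico 0 T, α t ≤ D ∧ β t ≤ D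

/-- RZ (a differential inequality).
Proof.  `Z(t) = ∫_{t₀}^tΛ^{3/2}` is `C¹` with `Z' = Λ^{3/2} ≥ (Z/C₁)³`, `Z > 0` for `t > t₀`.  `-1/(2Z²)` has derivative
`Z'/Z³ ≥ C₁^{-3}`, so `1/(2Z(t)²) ≥ (T'-t)/C₁³` for `t₀ < t < T'`.  `Λ` monotone: with `t' = (t+T')/2`,
`((T'-t)/2)Λ(t)^{3/2} ≤ Z(t') ≤ (C₁³/2)^{1/2}((T'-t)/2)^{-1/2}`; so `Λ(t)(T'-t) ≤ 2(C₁³/2)^{1/3} =: K`. -/
def SpecRZ : Prop := ∀ C₁ : ℝ, 0 < C₁ → ∃ K : ℝ, ∀ (t₀ T' : ℝ) (Λ : ℝ → ℝ), t₀ < T' →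
  ContinuousOn Λ (Icc t₀ T') → MonotoneOn Λ (Icc t₀ T') → (∀ t ∈ Icc t₀ T', 0 < Λ t) →
  (∀ t ∈ Icc t₀ T', (∫ s in t₀..t, Λ s ^ (3 / 2 : ℝ)) ≤ C₁ * Λ t ^ (1 / 2 : ℝ)) →
  ∀ t ∈ Ico t₀ T', Λ t * (T' - t) ≤ K

/-- RA2 (Theorem N, real analysis).  Hypotheses RA1, RZ, SUP.
Proof.  `κΛ ≤ √y` on `[t₀,T)`.  `y ≥ κ²Λ²` and `yg` (with `β ≤ B`) give `g ≥ κ²m^{-3/2}AΛ` on `[t₀,T)`, so by `bg`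
`∫_{t₀}^tAΛ ≤ C₁A(t)`, `C₁ = m³/(4κ²)`, and mirrored `∫_{t₀}^tBΛ ≤ C₁B(t)`; Cauchy-Schwarz: `∫_{t₀}^tΛ^{3/2} ≤ C₁Λ(t)^{1/2}`.
RZ with all `T' < T`: `Λ(t)(T'-t) ≤ K`.  First part: `T' → T`, `Λ(t) ≤ K/(T-t)` on `[t₀,T)`, hence on `[0,T)` with a larger constant
(`Λ` is nondecreasing), and RA1.  Second part: `T' → ∞` gives `Λ(t) ≤ 0`, contradiction. -/
def SpecRA2 : Prop :=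
  (∀ (T m c C : ℝ) (α β y g gs : ℝ → ℝ), 0 < T → Dat T m c C α β y g gs →
    ∀ κ t₀ : ℝ, 0 < κ → t₀ ∈ Ico 0 T →
    (∀ t ∈ Ico t₀ T, κ * (supT α t * supT β t) ≤ Real.sqrt (y t)) →
    ∃ D : ℝ, ∀ t ∈ Ico 0 T, α t ≤ D ∧ β t ≤ D) ∧
  (∀ (m c C : ℝ) (α β y g gs : ℝ → ℝ), (∀ T : ℝ, 0 < T → Dat T m c C α β y g gs) →
    ∀ κ t₀ : ℝ, 0 < κ → 0 ≤ t₀ →
    (∀ t : ℝ, t₀ ≤ t → κ * (supT α t * supT β t) ≤ Real.sqrt (y t)) → False)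

/-- NUL (both theorems in null coordinates).  Hypotheses DAT, RA1, RA2, SUP, RHL (mass, for the zero solution), N4F. -/
def SpecNUL : Prop :=
  (∀ (T K : ℝ) (v v₁ v₂ N : ℝ → L2), 0 < T → Nls T v v₁ v₂ N →
    (∀ t ∈ Ico 0 T, ∀ s ∈ Icc 0 t, ∀ s' ∈ Icc 0 t, ‖v₂ s‖ * ‖v₁ s'‖ ≤ K / (T - t)) →
    ∃ D : ℝ, ∀ t ∈ Ico 0 T, ‖v₁ t‖ ≤ D ∧ ‖v₂ t‖ ≤ D) ∧
  (∀ (T : ℝ) (v v₁ v₂ N : ℝ → L2), 0 < T → Nls T v v₁ v₂ N → ‖v 0‖ ≠ 0 →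
    (¬ ∃ D : ℝ, ∀ t ∈ Ico 0 T, ‖v₁ t‖ ≤ D ∧ ‖v₂ t‖ ≤ D) → ∀ κ t₀ : ℝ, 0 < κ → t₀ < T →
    ∃ t ∈ Ico 0 T, t₀ < t ∧ ∃ s ∈ Icc 0 t, ∃ s' ∈ Icc 0 t,
      (∫ x, ‖v t x‖ ^ 4) < κ * (‖v₂ s‖ * ‖v₁ s'‖)) ∧
  (∀ (v v₁ v₂ N : ℝ → L2), (∀ T : ℝ, 0 < T → Nls T v v₁ v₂ N) → ‖v 0‖ ≠ 0 →
    ∀ κ t₀ : ℝ, 0 < κ → ∃ t : ℝ, 0 ≤ t ∧ t₀ < t ∧ ∃ s ∈ Icc 0 t, ∃ s' ∈ Icc 0 t,
      (∫ x, ‖v t x‖ ^ 4) < κ * (‖v₂ s‖ * ‖v₁ s'‖))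

/-- FIN (the hand-in).  Hypotheses TRF, NUL, CHV.
Part 1: no type I blow-up, in the strong form (product of the two null derivatives).
Part 2: the same for `‖∇u(t)‖² ≤ K/(T-t)`.
Part 3, 4: `liminf ‖u(t)‖₄⁴/(sup‖∂_b u‖ sup‖∂_a u‖) = 0` at a blow-up time, and for global solutions at infinity.
Proof.  `‖v₂ t‖ = (√2/2) nrm (G t 0 + G t 1)`, `‖v₁ t‖ = (√2/2) nrm (G t 0 - G t 1)` (CHV); `∫‖v‖⁴ = 2∫‖u‖⁴`; parallelogram law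
`nrm(G0+G1)² + nrm(G0-G1)² = 2(nrm G0² + nrm G1²)`; for part 2 `‖v₂ s‖‖v₁ s'‖ ≤ √(K/(T-s))√(K/(T-s')) ≤ K/(T-t)`.
Part 4: the functions `v, v₁, v₂, N` of TRF depend on `T`, but are a.e. determined by `u, G` (`Nls` for all `T` holds for the
functions built once and for all `t ≥ 0`: `Lin.eq`, `Nls` on `[0,T)` only involve times `< T`; redo TRF with a family of classes
independent of `T`, or glue using a.e. equality, i.e. equality in `L2`). -/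
def SpecFIN : Prop :=
  (∀ (T : ℝ) (u : ℝ → EE → ℂ) (G : ℝ → Fin 2 → EE → ℂ), 0 < T → H1Sol T u G → ∀ K : ℝ,
    (∀ t ∈ Ico 0 T, ∀ s ∈ Icc 0 t, ∀ s' ∈ Icc 0 t,
      nrm (G s 0 + G s 1) * nrm (G s' 0 - G s' 1) ≤ K / (T - t)) →
    ∃ D : ℝ, ∀ t ∈ Ico 0 T, nrm (G t 0) ≤ D ∧ nrm (G t 1) ≤ D) ∧
  (∀ (T : ℝ) (u : ℝ → EE → ℂ) (G : ℝ → Fin 2 → EE → ℂ), 0 < T → H1Sol T u G → ∀ K : ℝ,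
    (∀ t ∈ Ico 0 T, nrm (G t 0) ^ 2 + nrm (G t 1) ^ 2 ≤ K / (T - t)) →
    ∃ D : ℝ, ∀ t ∈ Ico 0 T, nrm (G t 0) ≤ D ∧ nrm (G t 1) ≤ D) ∧
  (∀ (T : ℝ) (u : ℝ → EE → ℂ) (G : ℝ → Fin 2 → EE → ℂ), 0 < T → H1Sol T u G → nrm (u 0) ≠ 0 →
    (¬ ∃ D : ℝ, ∀ t ∈ Ico 0 T, nrm (G t 0) ≤ D ∧ nrm (G t 1) ≤ D) → ∀ κ t₀ : ℝ, 0 < κ → t₀ < T →
    ∃ t ∈ Ico 0 T, t₀ < t ∧ ∃ s ∈ Icc 0 t, ∃ s' ∈ Icc 0 t,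
      (∫ x, ‖u t x‖ ^ 4) < κ * (nrm (G s 0 + G s 1) * nrm (G s' 0 - G s' 1))) ∧
  (∀ (u : ℝ → EE → ℂ) (G : ℝ → Fin 2 → EE → ℂ), (∀ T : ℝ, 0 < T → H1Sol T u G) → nrm (u 0) ≠ 0 →
    ∀ κ t₀ : ℝ, 0 < κ → ∃ t : ℝ, 0 ≤ t ∧ t₀ < t ∧ ∃ s ∈ Icc 0 t, ∃ s' ∈ Icc 0 t,
      (∫ x, ‖u t x‖ ^ 4) < κ * (nrm (G s 0 + G s 1) * nrm (G s' 0 - G s' 1)))

end Pool.Agent.Lib.MP424d38.TY
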