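import Pool.Agent.Lib.MP_424d38_an.SpecE

/-!
# FUG: group properties of the free propagator
-/

set_option autoImplicit false

open MeasureTheory Filter Topology Set
open scoped ENNReal ContDiff ComplexConjugate FourierTransform

noncomputable section

namespace Pool.Agent.Lib.MP424d38.TY

namespace FUGM

theorem norm_toE (f : L2) : ‖toE f‖ = ‖f‖ := Lp.norm_compMeasurePreserving f prE_mp

theorem toE_sub (f g : L2) : toE (f - g) = toE f - toE g :=
  (Lp.compMeasurePreservingₗᵢ ℂ prE prE_mp : L2 →ₗᵢ[ℂ] L2E).map_sub f g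

theorem norm_F (f : L2E) : ‖(𝓕 f : L2E)‖ = ‖f‖ := Lp.norm_fourier_eq f

theorem F_sub (f g : L2E) : (𝓕 (f - g) : L2E) = 𝓕 f - 𝓕 g :=
  (Lp.fourierTransformₗᵢ E2 ℂ).map_sub f g

/-- `G f = 𝓕 (toE f)`. -/
def G (f : L2) : L2E := 𝓕 (toE f)

theorem norm_G (f : L2) : ‖G f‖ = ‖f‖ := by
  rw [G, norm_F, norm_toE]

theorem G_sub (f g : L2) : G (f - g) = G f - G g := by
  rw [G, toE_sub, F_sub]; rfl

theorem G_inj {f g : L2} (h : G f = G g) : f = g := by
  have h1 : ‖f - g‖ = 0 := by rw [← norm_G, G_sub, h, sub_self, norm_zero]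
  exact sub_eq_zero.1 (norm_eq_zero.1 h1)

theorem norm_sym (t : ℝ) (k : E2) : ‖sym t k‖ = 1 := by
  unfold sym
  exact Complex.norm_exp_ofReal_mul_I _

theorem sym_zero (k : E2) : sym 0 k = 1 := by
  unfold sym
  simp

theorem sym_add (s t : ℝ) (k : E2) : sym (s + t) k = sym s k * sym t k := by
  unfold sym
  rw [← Complex.exp_add]
  congr 1
  push_cast
  ring

theorem sym_cont (k : E2) : Continuous fun t => sym t k := by
  unfold sym
  fun_prop

theorem norm_sq (f : L2E) : ‖f‖ ^ 2 = ∫ k, ‖f k‖ ^ 2 := by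
  have h := L2.inner_def (𝕜 := ℂ) f f
  rw [inner_self_eq_norm_sq_to_K] at h
  have h2 : (fun a => inner ℂ (f a) (f a)) = fun a => ((‖f a‖ ^ 2 : ℝ) : ℂ) := by
    funext a
    rw [inner_self_eq_norm_sq_to_K]
    simp
  rw [h2, integral_complex_ofReal] at h
  have h3 : ((‖f‖ ^ 2 : ℝ) : ℂ) = ((∫ k, ‖f k‖ ^ 2 : ℝ) : ℂ) := by
    rw [← h]
    push_cast
    rfl
  exact Complex.ofReal_injective h3

theorem int_sq (f : L2E) : Integrable fun k => ‖f k‖ ^ 2 :=
  (memLp_two_iff_integrable_sq_norm (Lp.aestronglyMeasurable f)).1 (Lp.memLp f)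

end FUGM

open FUGM

theorem specFUG : SpecFUG := by
  intro U hU
  have hG : ∀ (t : ℝ) (f : L2), ∀ᵐ k : E2, G (U t f) k = sym t k * G f k := hU
  refine ⟨?_, ?_, ?_, ?_⟩
  · intro t f
    have h1 : ‖U t f‖ ^ 2 = ‖f‖ ^ 2 := by
      rw [← norm_G, ← norm_G f, norm_sq, norm_sq]
      apply integral_congr_ae
      filter_upwards [hG t f] with k hk
      rw [hk, norm_mul, norm_sym, one_mul]
    exact (sq_eq_sq₀ (norm_nonneg _) (norm_nonneg _)).1 h1
  · intro f
    apply G_inj
    apply Lp.ext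
    filter_upwards [hG 0 f] with k hk
    rw [hk, sym_zero, one_mul]
  · intro s t f
    apply G_inj
    apply Lp.ext
    filter_upwards [hG (s + t) f, hG s (U t f), hG t f] with k h1 h2 h3
    rw [h1, h2, h3, sym_add, mul_assoc]
  · intro f
    rw [continuous_iff_continuousAt]
    intro s
    have key : Tendsto (fun t => ‖U t f - U s f‖ ^ 2) (𝓝 s) (𝓝 0) := by
      have e : ∀ t, ‖U t f - U s f‖ ^ 2 = ∫ k, ‖(sym t k - sym s k) * G f k‖ ^ 2 := by
        intro t
        rw [← norm_G, norm_sq, G_sub]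
        apply integral_congr_ae
        filter_upwards [hG t f, hG s f, Lp.coeFn_sub (G (U t f)) (G (U s f))] with k h1 h2 h3
        rw [h3, Pi.sub_apply, h1, h2, sub_mul]
      simp_rw [e]
      have h0 : (0 : ℝ) = ∫ k : E2, ‖(sym s k - sym s k) * G f k‖ ^ 2 := by simp
      rw [h0]
      apply tendsto_integral_filter_of_dominated_convergence (fun k => 4 * ‖G f k‖ ^ 2)
      · refine Eventually.of_forall fun t => ?_
        have h1 : Continuous fun k : E2 => sym t k - sym s k := by
          unfold sym prE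
          fun_prop
        exact ((h1.aestronglyMeasurable.mul (Lp.aestronglyMeasurable (G f))).norm).pow 2
      · refine Eventually.of_forall fun t => Eventually.of_forall fun k => ?_
        rw [Real.norm_eq_abs, abs_of_nonneg (by positivity), norm_mul, mul_pow]
        have h1 : ‖sym t k - sym s k‖ ≤ 2 := by
          calc ‖sym t k - sym s k‖ ≤ ‖sym t k‖ + ‖sym s k‖ := norm_sub_le _ _
            _ = 2 := by rw [norm_sym, norm_sym]; norm_num
        have h2 : ‖sym t k - sym s k‖ ^ 2 ≤ 4 := by nlinarith [norm_nonneg (sym t k - sym s k)]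
        exact mul_le_mul_of_nonneg_right h2 (by positivity)
      · exact (int_sq (G f)).const_mul 4
      · refine Eventually.of_forall fun k => ?_
        have h1 : Continuous fun t => ‖(sym t k - sym s k) * G f k‖ ^ 2 :=
          (((sym_cont k).sub continuous_const).mul continuous_const).norm.pow 2
        exact h1.tendsto s
    rw [ContinuousAt, tendsto_iff_norm_sub_tendsto_zero]
    have h2 := key.sqrt
    simpa [Real.sqrt_sq (norm_nonneg _)] using h2

end Pool.Agent.Lib.MP424d38.TY
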