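import Pool.Agent.Lib.MP_424d38_an.SpecD

/-!
# MP_424d38_an, block D, module UGB (`∫_0^t g ≤ (1/4) m^{3/2} A(t)`)
-/

set_option autoImplicit false

open MeasureTheory Filter Topology Set
open scoped ENNReal ContDiff ComplexConjugate

noncomputable section

namespace Pool.Agent.Lib.MP424d38.TY

namespace UGBM

/-- `DD κ` as a continuous bilinear map. -/
lemma DD_cont (hDDB : SpecDDB) {κ : ℝ → ℝ} {C : ℝ} (hκ : Continuous κ) (hC : ∀ s, |κ s| ≤ C) :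
    Continuous fun z : L1 × L1 => DD κ z.1 z.2 := by
  obtain ⟨h1, -, -, -, h5⟩ := hDDB
  let B : L1 →ₗ[ℝ] L1 →ₗ[ℝ] ℝ := LinearMap.mk₂ ℝ (DD κ)
    (fun f h g => (h5 κ C 0 hκ hC f g h).1)
    (fun c f g => (h5 κ C c hκ hC f g 0).2.2.1)
    (fun f g h => (h5 κ C 0 hκ hC f g h).2.1)
    (fun c f g => (h5 κ C c hκ hC f g 0).2.2.2)
  let B' : L1 →L[ℝ] L1 →L[ℝ] ℝ := LinearMap.mkContinuous₂ B C (fun f g => by
    rw [Real.norm_eq_abs]
    exact (h1 κ C hκ hC f g).2)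
  exact B'.isBoundedBilinearMap.continuous

lemma DD_contOn (hDDB : SpecDDB) {κ : ℝ → ℝ} {C : ℝ} (hκ : Continuous κ) (hC : ∀ s, |κ s| ≤ C)
    {f g : ℝ → L1} {S : Set ℝ} (hf : ContinuousOn f S) (hg : ContinuousOn g S) :
    ContinuousOn (fun t => DD κ (f t) (g t)) S :=
  (DD_cont hDDB hκ hC).comp_continuousOn (hf.prodMk hg)

lemma cb1_cont {κ : ℝ → ℝ} (h : Cb1 κ) : Continuous κ := h.1.continuous

lemma cb1_bd {κ : ℝ → ℝ} (h : Cb1 κ) : ∃ C : ℝ, ∀ s, |κ s| ≤ C :=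
  ⟨h.2.choose, fun s => (h.2.choose_spec s).1⟩

variable {T m : ℝ} {R : ℝ → ℝ} {ρ p e : ℝ → L1}

lemma cp (hF : Flow T m R ρ p e) : ContinuousOn p (Ico 0 T) := hF.lawp.cf

lemma ce (hF : Flow T m R ρ p e) : ContinuousOn e (Ico 0 T) := by
  have h := hF.lawp.cF
  have h2 : ContinuousOn (fun t => (4⁻¹ : ℝ) • ((4 : ℝ) • e t)) (Ico 0 T) :=
    h.const_smul (4⁻¹ : ℝ)
  refine h2.congr fun t _ => ?_
  show e t = (4⁻¹ : ℝ) • ((4 : ℝ) • e t)
  rw [smul_smul, inv_mul_cancel₀ (by norm_num : (4:ℝ) ≠ 0), one_smul]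

lemma cρ (hF : Flow T m R ρ p e) : ContinuousOn ρ (Ico 0 T) := hF.lawρ.cf

/-- the approximation of `2g`. -/
def G (ρ p e : ℝ → L1) (n : ℕ) (t : ℝ) : ℝ :=
  DD (deriv (kap n)) (e t) (ρ t) - DD (deriv (kap n)) (p t) (p t)

lemma G_cont (hKPF : SpecKPF) (hDDB : SpecDDB) (hF : Flow T m R ρ p e) {n : ℕ} (hn : 1 ≤ n) :
    ContinuousOn (G ρ p e n) (Ico 0 T) := by
  obtain ⟨-, -, h2, -⟩ := hKPF n hn
  obtain ⟨C, hC⟩ := cb1_bd h2
  exact (DD_contOn hDDB (cb1_cont h2) hC (ce hF) (cρ hF)).sub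
    (DD_contOn hDDB (cb1_cont h2) hC (cp hF) (cp hF))

lemma inte_cont (hF : Flow T m R ρ p e) : ContinuousOn (fun t => ∫ a, e t a) (Ico 0 T) :=
  continuous_integral.comp_continuousOn (ce hF)

/-- the dominating function is continuous -/
lemma dom_cont (hF : Flow T m R ρ p e) :
    ContinuousOn (fun t => 4 * R t * ∫ a, e t a) (Ico 0 T) :=
  (continuousOn_const.mul hF.cR).mul (inte_cont hF)

lemma Icc_sub {s t : ℝ} (hs : 0 ≤ s) (ht : t < T) : Icc s t ⊆ Ico 0 T := fun _ hx =>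
  ⟨hs.trans hx.1, lt_of_le_of_lt hx.2 ht⟩

lemma G_int (hKPF : SpecKPF) (hDDB : SpecDDB) (hF : Flow T m R ρ p e) {n : ℕ} (hn : 1 ≤ n)
    {s t : ℝ} (hs : 0 ≤ s) (hst : s ≤ t) (ht : t < T) :
    IntervalIntegrable (G ρ p e n) volume s t := by
  apply ContinuousOn.intervalIntegrable
  rw [uIcc_of_le hst]
  exact (G_cont hKPF hDDB hF hn).mono (Icc_sub hs ht)

/-- convergence of the time integrals -/
lemma G_tendsto (hKPF : SpecKPF) (hDDB : SpecDDB) (hGLM : SpecGLM) (hF : Flow T m R ρ p e)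
    {s t : ℝ} (hs : 0 ≤ s) (hst : s ≤ t) (ht : t < T) :
    IntegrableOn (gF ρ p e) (Icc s t) ∧
    Tendsto (fun n : ℕ => ∫ r in s..t, G ρ p e (n + 1) r) atTop
      (𝓝 (2 * ∫ r in s..t, gF ρ p e r)) := by
  have hglm := fun r (hr : r ∈ Ico 0 T) => hGLM (ρ r) (p r) (e r) (R r) (hF.pos r hr)
  have hsub : Ioc s t ⊆ Ico 0 T := fun x hx => Icc_sub hs ht ⟨hx.1.le, hx.2⟩
  have hlim : ∀ r ∈ Ico 0 T, Tendsto (fun n : ℕ => G ρ p e (n + 1) r) atTop
      (𝓝 (2 * gF ρ p e r)) := fun r hr =>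
    (tendsto_add_atTop_iff_nat (f := fun n : ℕ => G ρ p e n r) 1).2 (hglm r hr).2.2.1
  have hbd : ∀ (n : ℕ), ∀ r ∈ Ico 0 T, ‖G ρ p e (n + 1) r‖ ≤ 4 * R r * ∫ a, e r a :=
    fun n r hr => (hglm r hr).2.2.2 (n + 1) (by omega)
  have hdomI : IntegrableOn (fun t => 4 * R t * ∫ a, e t a) (Icc s t) :=
    ((dom_cont hF).mono (Icc_sub hs ht)).integrableOn_Icc
  have hmeas : ∀ n : ℕ, AEStronglyMeasurable (G ρ p e (n + 1)) (volume.restrict (Icc s t)) :=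
    fun n => ((G_cont hKPF hDDB hF (by omega)).mono (Icc_sub hs ht)).aestronglyMeasurable
      measurableSet_Icc
  have hae : ∀ᵐ r ∂(volume.restrict (Icc s t)), r ∈ Icc s t := ae_restrict_mem measurableSet_Icc
  have hint2 : IntegrableOn (fun r => 2 * gF ρ p e r) (Icc s t) := by
    refine Integrable.mono' hdomI (aestronglyMeasurable_of_tendsto_ae atTop hmeas ?_) ?_
    · filter_upwards [hae] with r hr
      exact hlim r (Icc_sub hs ht hr)
    · filter_upwards [hae] with r hr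
      have hr' := Icc_sub hs ht hr
      exact le_of_tendsto (hlim r hr').norm (Eventually.of_forall fun n => hbd n r hr')
  have hint : IntegrableOn (gF ρ p e) (Icc s t) := by
    have h3 : IntegrableOn (fun r => 2⁻¹ * (2 * gF ρ p e r)) (Icc s t) := hint2.const_mul 2⁻¹
    refine h3.congr_fun (fun r _ => ?_) measurableSet_Icc
    show 2⁻¹ * (2 * gF ρ p e r) = gF ρ p e r
    ring
  refine ⟨hint, ?_⟩
  rw [← intervalIntegral.integral_const_mul]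
  apply intervalIntegral.tendsto_integral_filter_of_dominated_convergence
    (fun t => 4 * R t * ∫ a, e t a)
  · apply Eventually.of_forall
    intro n
    rw [uIoc_of_le hst]
    exact (hmeas n).mono_measure (Measure.restrict_mono Ioc_subset_Icc_self le_rfl)
  · apply Eventually.of_forall
    intro n
    apply Eventually.of_forall
    intro r hr
    rw [uIoc_of_le hst] at hr
    exact hbd n r (hsub hr)
  · rw [intervalIntegrable_iff_integrableOn_Icc_of_le hst]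
    exact hdomI
  · apply Eventually.of_forall
    intro r hr
    rw [uIoc_of_le hst] at hr
    exact hlim r (hsub hr)

/-- bounds with `A` -/
lemma p_bound (hFLB : SpecFLB) (hF : Flow T m R ρ p e) {A : ℝ → ℝ}
    (hA : ∀ t ∈ Ico 0 T, 0 ≤ A t ∧ (∫ a, e t a) ≤ A t ^ 2) {t : ℝ} (ht : t ∈ Ico 0 T) :
    0 ≤ m ∧ ‖ρ t‖ = m ∧ ‖e t‖ ≤ A t ^ 2 ∧ ‖p t‖ ≤ Real.sqrt m * A t := by
  obtain ⟨h0, h1, h2, h3, h4⟩ := hFLB T m R ρ p e hF t ht
  refine ⟨h0, h1, h2 ▸ (hA t ht).2, h4.trans ?_⟩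
  apply mul_le_mul_of_nonneg_left _ (Real.sqrt_nonneg _)
  calc Real.sqrt (∫ a, e t a) ≤ Real.sqrt (A t ^ 2) := Real.sqrt_le_sqrt (hA t ht).2
    _ = A t := Real.sqrt_sq (hA t ht).1

end UGBM

open UGBM

theorem specUGB (hKPF : SpecKPF) (hPAI : SpecPAI) (hGLM : SpecGLM) (hFLB : SpecFLB)
    (hDDB : SpecDDB) : SpecUGB := by
  intro T m R ρ p e hF
  refine ⟨fun t ht => ⟨(hGLM (ρ t) (p t) (e t) (R t) (hF.pos t ht)).2.1,
    (G_tendsto hKPF hDDB hGLM hF le_rfl ht.1 ht.2).1⟩, ?_⟩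
  intro A hmono hA t ht
  have hlim := (G_tendsto hKPF hDDB hGLM hF le_rfl ht.1 ht.2).2
  have h0T : (0:ℝ) ∈ Ico 0 T := ⟨le_rfl, lt_of_le_of_lt ht.1 ht.2⟩
  have hJ : ∀ n : ℕ, 4 * ∫ r in (0:ℝ)..t, G ρ p e (n + 1) r ≤ 2 * (m * Real.sqrt m * A t) := by
    intro n
    obtain ⟨-, h1, h2, h3, -⟩ := hKPF (n + 1) (by omega)
    obtain ⟨C', hC'⟩ := cb1_bd h2
    have hpai := hPAI T p (fun t => (4:ℝ) • e t) ρ (fun t => (4:ℝ) • p t) hF.lawp hF.lawρ
      (kap (n + 1)) h1 0 t le_rfl ht.1 ht.2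
    have h5 := hDDB.2.2.2.2 (deriv (kap (n + 1))) C' 4 (cb1_cont h2) hC'
    have e1 : (∫ r in (0:ℝ)..t, (DD (deriv (kap (n + 1))) ((4:ℝ) • e r) (ρ r)
        - DD (deriv (kap (n + 1))) (p r) ((4:ℝ) • p r)))
        = 4 * ∫ r in (0:ℝ)..t, G ρ p e (n + 1) r := by
      rw [← intervalIntegral.integral_const_mul]
      apply intervalIntegral.integral_congr
      intro r _
      show DD (deriv (kap (n + 1))) ((4:ℝ) • e r) (ρ r)
        - DD (deriv (kap (n + 1))) (p r) ((4:ℝ) • p r) = 4 * G ρ p e (n + 1) r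
      rw [(h5 (e r) (ρ r) 0).2.2.1, (h5 (p r) (p r) 0).2.2.2]
      unfold G
      ring
    rw [e1] at hpai
    rw [← hpai]
    have hb : ∀ r ∈ Ico 0 T, |DD (kap (n + 1)) (p r) (ρ r)| ≤ m * Real.sqrt m * A r := by
      intro r hr
      obtain ⟨b0, b1, b2, b3⟩ := p_bound hFLB hF hA hr
      have b4 := (hDDB.1 (kap (n + 1)) 1 (cb1_cont h1) h3 (p r) (ρ r)).2
      rw [b1, one_mul] at b4
      calc _ ≤ ‖p r‖ * m := b4
        _ ≤ (Real.sqrt m * A r) * m := mul_le_mul_of_nonneg_right b3 b0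
        _ = m * Real.sqrt m * A r := by ring
    have c1 := abs_le.1 (hb t ht)
    have c2 := abs_le.1 (hb 0 h0T)
    have c3 : m * Real.sqrt m * A 0 ≤ m * Real.sqrt m * A t := by
      apply mul_le_mul_of_nonneg_left (hmono h0T ht ht.1)
      obtain ⟨b0, -⟩ := p_bound hFLB hF hA ht
      positivity
    linarith
  have h6 : 4 * (2 * ∫ r in (0:ℝ)..t, gF ρ p e r) ≤ 2 * (m * Real.sqrt m * A t) :=
    le_of_tendsto (hlim.const_mul 4) (Eventually.of_forall hJ)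
  linarith

end Pool.Agent.Lib.MP424d38.TY
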