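import Pool.Agent.Lib.MP_424d38_an.Defs

/-!
# Block B: calculus in `H¹(ℝ × ℝ)`

Conventions.  Module `XXX` = file `Pool/Agent/Lib/MP_424d38_an/XXX.lean`, theorem
`specXXX (hYYY : SpecYYY) .. : SpecXXX` in namespace `Pool.Agent.Lib.MP424d38.TY` (own lemmas in
`..TY.XXXM`).  Any other Spec may be taken as a hypothesis as long as no circle arises (the docstring
names the intended ones).
-/

set_option autoImplicit false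

open MeasureTheory Filter Topology Set
open scoped ENNReal ContDiff ComplexConjugate

noncomputable section

namespace Pool.Agent.Lib.MP424d38.TY

/-- CUT (cutoffs).  Every `H¹` function is the `H¹` limit of `H¹` functions with bounded support.
Proof.  Let `χ : ℝ × ℝ → ℝ` be a smooth bump, `χ = 1` on the unit ball, compact support, `0 ≤ χ ≤ 1`, and
`χ_R(x) = χ(x/R)`, `R ≥ 1`; `|∂_i χ_R| ≤ C/R`.  Put `g = χ_R f`, `G_i = χ_R F_i + (∂_i χ_R) f`.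
For a test function `ψ`, `χ_R ψ` is a test function and `∂_i(χ_R ψ) = χ_R ∂_iψ + (∂_iχ_R)ψ`, so
`∫ g ∂_iψ = ∫ f ∂_i(χ_Rψ) - ∫ f (∂_iχ_R) ψ = -∫ (χ_R F_i + (∂_iχ_R) f) ψ`.  Dominated convergence
(`R = n → ∞`): `‖χ_R f - f‖ → 0`, `‖χ_R F_i - F_i‖ → 0`, `‖(∂_iχ_R)f‖ ≤ (C/R)‖f‖ → 0`. -/
def SpecCUT : Prop := ∀ f F₁ F₂ : L2, IsH1 f F₁ F₂ → ∀ ε : ℝ, 0 < ε →
  ∃ (g G₁ G₂ : L2) (R : ℝ), IsH1 g G₁ G₂ ∧ (∀ᵐ x : ℝ × ℝ, R < ‖x‖ → g x = 0) ∧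
    ‖g - f‖ < ε ∧ ‖G₁ - F₁‖ < ε ∧ ‖G₂ - F₂‖ < ε

/-- MOL (mollification).  An `H¹` function with bounded support is an `H¹` limit of test functions.
Proof.  Let `φ_n` be a normed bump (`ContDiffBump`, `∫ φ_n = 1`, support in the ball of radius `1/n`,
`ContDiffBump.normed`), `ψ_n = φ_n ⋆ f` (`f` is locally integrable).  `ψ_n` is smooth
(`HasCompactSupport.contDiff_convolution_left`) with compact support (support of `f` bounded), and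
`∂_iψ_n(x) = ∫ (∂_iφ_n)(x-y) f(y) dy = -∫ ∂_{y_i}[φ_n(x-y)] f(y) dy = ∫ φ_n(x-y) F_i(y) dy` by the definition of
the weak derivative.  Finally `φ_n ⋆ h → h` in `L²` for `h ∈ L²` (Pool/Agent/Lib/MP_fa0334_an/MolBase.lean,
RegMol.lean has this in `L^r`; or: `‖φ_n ⋆ h - h‖₂ ≤ ∫ φ_n(y) ‖h(· - y) - h‖₂ dy` and continuity of translations in
`L²`, or density of continuous compactly supported functions together with `‖φ_n ⋆ h‖₂ ≤ ‖h‖₂`). -/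
def SpecMOL : Prop := ∀ (f F₁ F₂ : L2) (R : ℝ), IsH1 f F₁ F₂ → (∀ᵐ x : ℝ × ℝ, R < ‖x‖ → f x = 0) →
  ∀ ε : ℝ, 0 < ε → ∃ ψ : ℝ × ℝ → ℂ, Test ψ ∧
    eLpNorm (fun x => ψ x - f x) 2 volume ≤ ENNReal.ofReal ε ∧
    eLpNorm (fun x => d1 ψ x - F₁ x) 2 volume ≤ ENNReal.ofReal ε ∧
    eLpNorm (fun x => d2 ψ x - F₂ x) 2 volume ≤ ENNReal.ofReal ε

/-- DEN (density of test functions in `H¹`).  Hypotheses CUT, MOL.  Immediate. -/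
def SpecDEN : Prop := ∀ f F₁ F₂ : L2, IsH1 f F₁ F₂ →
  ∃ ψ : ℕ → ℝ × ℝ → ℂ, (∀ n, Test (ψ n)) ∧
    Tendsto (fun n => eLpNorm (fun x => ψ n x - f x) 2 volume) atTop (𝓝 0) ∧
    Tendsto (fun n => eLpNorm (fun x => d1 (ψ n) x - F₁ x) 2 volume) atTop (𝓝 0) ∧
    Tendsto (fun n => eLpNorm (fun x => d2 (ψ n) x - F₂ x) 2 volume) atTop (𝓝 0)

/-- TH1 (`C¹` functions with compact support are in `H¹`, with their classical derivatives).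
Proof: integration by parts, `integral_mul_fderiv_eq_neg_fderiv_mul_of_integrable`. -/
def SpecTH1 : Prop := ∀ ψ : ℝ × ℝ → ℂ, ContDiff ℝ 1 ψ → HasCompactSupport ψ →
  ∀ f F₁ F₂ : L2, (∀ᵐ x : ℝ × ℝ, f x = ψ x) → (∀ᵐ x : ℝ × ℝ, F₁ x = d1 ψ x) →
    (∀ᵐ x : ℝ × ℝ, F₂ x = d2 ψ x) → IsH1 f F₁ F₂

/-- BYP (integration by parts between `H¹` functions).  Hypothesis DEN.
Proof.  Let `ψ_n → g` as in DEN.  The definition of `IsH1 f F₁ F₂` gives `∫ f d1ψ_n = -∫ F₁ψ_n`; both sides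
converge (Cauchy-Schwarz).  For the last identity: for a test function `ψ`, `d2 ψ` and `d1 ψ` are test functions and
`d1 (d2 ψ) = d2 (d1 ψ)`, so `∫ F₁ d2ψ = -∫ f d1 d2 ψ = -∫ f d2 d1 ψ = ∫ F₂ d1ψ`; then `ψ = ψ_n`, `n → ∞`. -/
def SpecBYP : Prop := ∀ f F₁ F₂ g G₁ G₂ : L2, IsH1 f F₁ F₂ → IsH1 g G₁ G₂ →
  (∫ x, f x * G₁ x = - ∫ x, F₁ x * g x) ∧ (∫ x, f x * G₂ x = - ∫ x, F₂ x * g x) ∧
    (∫ x, F₁ x * G₂ x = ∫ x, F₂ x * G₁ x)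

/-- LIN (linearity, closedness, uniqueness, conjugation).
Proof.  (1),(2) linearity of the integral (all products of an `L2` function with a test function are integrable).
(3) pass to the limit in the definition.  (4) `∫ (F₁ - F₁')ψ = 0` for all test functions, so `F₁ = F₁'`
(`ae_eq_zero_of_integral_contDiff_smul_eq_zero`, test functions real valued smooth compactly supported).
(5) take the conjugate of the definition with `conj ψ` (a test function, `d1 (conj ψ) = conj (d1 ψ)`). -/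
def SpecLIN : Prop :=
  (∀ f F₁ F₂ g G₁ G₂ : L2, IsH1 f F₁ F₂ → IsH1 g G₁ G₂ → IsH1 (f + g) (F₁ + G₁) (F₂ + G₂)) ∧
  (∀ (c : ℂ) (f F₁ F₂ : L2), IsH1 f F₁ F₂ → IsH1 (c • f) (c • F₁) (c • F₂)) ∧
  (∀ (f F₁ F₂ : ℕ → L2) (g G₁ G₂ : L2), (∀ n, IsH1 (f n) (F₁ n) (F₂ n)) →
    Tendsto f atTop (𝓝 g) → Tendsto F₁ atTop (𝓝 G₁) → Tendsto F₂ atTop (𝓝 G₂) → IsH1 g G₁ G₂) ∧
  (∀ f F₁ F₂ G₁ G₂ : L2, IsH1 f F₁ F₂ → IsH1 f G₁ G₂ → F₁ = G₁ ∧ F₂ = G₂) ∧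
  (∀ f F₁ F₂ g G₁ G₂ : L2, IsH1 f F₁ F₂ → (∀ᵐ x : ℝ × ℝ, g x = conj (f x)) →
    (∀ᵐ x : ℝ × ℝ, G₁ x = conj (F₁ x)) → (∀ᵐ x : ℝ × ℝ, G₂ x = conj (F₂ x)) → IsH1 g G₁ G₂)

/-- MUL (multiplication by a `C¹_b` function of the first coordinate).  Hypotheses TH1, BYP.
Proof.  For a test function `ψ`, `ψ' (x) = β(x.1)ψ(x)` is `C¹` with compact support, so it is in `H¹` by TH1
with `d1 ψ' = β d1ψ + β'ψ`, `d2 ψ' = β d2 ψ`; BYP for `f` and `ψ'`: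
`∫ f (β d1ψ + β'ψ) = -∫ F₁βψ`, i.e. `∫ (βf) d1ψ = -∫ (βF₁ + β'f)ψ`; the same for `d2`. -/
def SpecMUL : Prop := ∀ β : ℝ → ℝ, Cb1 β → ∀ f F₁ F₂ g G₁ G₂ : L2, IsH1 f F₁ F₂ →
  (∀ᵐ x : ℝ × ℝ, g x = ((β x.1 : ℝ) : ℂ) * f x) →
  (∀ᵐ x : ℝ × ℝ, G₁ x = ((β x.1 : ℝ) : ℂ) * F₁ x + ((deriv β x.1 : ℝ) : ℂ) * f x) →
  (∀ᵐ x : ℝ × ℝ, G₂ x = ((β x.1 : ℝ) : ℂ) * F₂ x) → IsH1 g G₁ G₂

/-- TRN (translations).  Hypotheses DEN, LIN.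
Proof.  (1) `∫ f(x+(0,h)) d1ψ(x) dx = ∫ f(y) (d1ψ)(y-(0,h)) dy` and `ψ(· - (0,h))` is a test function.
(2) for a test function `ψ`, `ψ(x+(0,h)) - ψ(x) = ∫_0^1 h (d2ψ)(x+(0,θh)) dθ` and Minkowski / Cauchy-Schwarz and
Fubini give `‖trn h ψ - ψ‖ ≤ |h| ‖d2 ψ‖`; density.
(3) by (2) for `ψ - f` it is enough to prove this for test functions, where
`(ψ(x+(0,h)) - ψ(x))/h - d2ψ(x) → 0` uniformly with support in a fixed compact set.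
(4) continuity of translations in `L²` (Mathlib: `Lp.instContinuousSMulDomMulAct`, or (2) + density).
(5) measure preserving; (6) coordinates. -/
def SpecTRN : Prop :=
  (∀ (h : ℝ) (f F₁ F₂ : L2), IsH1 f F₁ F₂ → IsH1 (trn h f) (trn h F₁) (trn h F₂)) ∧
  (∀ (h : ℝ) (f F₁ F₂ : L2), IsH1 f F₁ F₂ → ‖trn h f - f‖ ≤ |h| * ‖F₂‖) ∧
  (∀ f F₁ F₂ : L2, IsH1 f F₁ F₂ → Tendsto (fun h : ℝ => dq h f) (𝓝[≠] 0) (𝓝 F₂)) ∧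
  (∀ f : L2, Continuous fun h : ℝ => trn h f) ∧
  (∀ (h : ℝ) (f : L2), ‖trn h f‖ = ‖f‖) ∧
  (∀ (h : ℝ) (f g : L2), trn h (f + g) = trn h f + trn h g) ∧
  (∀ (h : ℝ) (c : ℂ) (f : L2), trn h (c • f) = c • trn h f) ∧
  (∀ (h : ℝ) (f : L2), ∀ᵐ x : ℝ × ℝ, trn h f x = f (x.1, x.2 + h))

/-- SWP (exchange of the coordinates).  Hypothesis BYP for the last part.
Proof.  Change of variables; `ψ ∘ swap` is a test function with `d1 (ψ∘swap) = (d2 ψ)∘swap`.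
For `Lin`: `eq` for the swapped functions tested with `ψ` is `eq` for `v` tested with `ψ∘swap` except that
`∫ (swp v₁) d1ψ = ∫ v₁ · d2(ψ∘swap)` is needed instead of `∫ v₂ · d1(ψ∘swap)`; both are equal by BYP
(third identity, with the `H¹` function `ψ∘swap`; use TH1). -/
def SpecSWP : Prop :=
  (∀ f F₁ F₂ : L2, IsH1 f F₁ F₂ → IsH1 (swp f) (swp F₂) (swp F₁)) ∧
  (∀ f : L2, ‖swp f‖ = ‖f‖ ∧ ∀ᵐ x : ℝ × ℝ, swp f x = f x.swap) ∧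
  (∀ (T : ℝ) (v v₁ v₂ N : ℝ → L2), Lin T v v₁ v₂ N →
    Lin T (fun t => swp (v t)) (fun t => swp (v₂ t)) (fun t => swp (v₁ t)) (fun t => swp (N t))) ∧
  (∀ (T : ℝ) (v v₁ v₂ N : ℝ → L2), Nls T v v₁ v₂ N →
    Nls T (fun t => swp (v t)) (fun t => swp (v₂ t)) (fun t => swp (v₁ t)) (fun t => swp (N t)))

/-- DNS (densities).  Fubini (`Integrable.integral_prod_left`, `integral_prod`) and Cauchy-Schwarz on a.e. slice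
`b ↦ f(a,b) ∈ L²(ℝ)`.  (4): `|rhoD f - rhoD g| ≤ ∫ (|f|+|g|)||f|-|g|| db ≤ ∫ (|f|+|g|)|f-g|`;
(5): `|conj f F - conj g G| ≤ |f-g||F| + |g||F-G|`. -/
def SpecDNS : Prop :=
  (∀ f : L2, Integrable (rhoD f) ∧ (∀ a, 0 ≤ rhoD f a) ∧ ∫ a, rhoD f a = ‖f‖ ^ 2) ∧
  (∀ f F : L2, Integrable (momD f F)) ∧
  (∀ f F : L2, ∀ᵐ a : ℝ, momD f F a ^ 2 ≤ rhoD f a * rhoD F a) ∧
  (∀ f g : L2, ∫ a, |rhoD f a - rhoD g a| ≤ ‖f - g‖ * (‖f‖ + ‖g‖)) ∧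
  (∀ f F g G : L2, ∫ a, |momD f F a - momD g G a| ≤ ‖f - g‖ * ‖F‖ + ‖g‖ * ‖F - G‖) ∧
  (∀ (β : ℝ → ℝ) (f F : L2), Continuous β → (∃ C : ℝ, ∀ a, |β a| ≤ C) →
    (∫ a, β a * rhoD f a = ∫ x : ℝ × ℝ, β x.1 * ‖f x‖ ^ 2) ∧
    (∫ a, β a * momD f F a = ∫ x : ℝ × ℝ, β x.1 * (conj (f x) * F x).im))

/-- SLC (slicewise approximation by test functions).  Hypotheses DEN, DNS.
Proof.  Take `ψ_n` from DEN.  By DNS (4),(5) (applied to the `L2` classes of `ψ_n`, `d2 ψ_n`) the functions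
`a ↦ ∫|ψ_n(a,b)|²db` etc. converge in `L¹(ℝ)`, so a subsequence converges a.e.; also
`ψ_n → f` in measure, so a.e. along a subsequence (`TendstoInMeasure.exists_seq_tendsto_ae`,
`tendstoInMeasure_of_tendsto_eLpNorm`).  The norms converge. -/
def SpecSLC : Prop := ∀ f F₁ F₂ : L2, IsH1 f F₁ F₂ →
  ∃ ψ : ℕ → ℝ × ℝ → ℂ, (∀ n, Test (ψ n)) ∧
    (∀ᵐ x : ℝ × ℝ, Tendsto (fun n => ψ n x) atTop (𝓝 (f x))) ∧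
    (∀ᵐ a : ℝ, Tendsto (fun n => ∫ b, ‖ψ n (a, b)‖ ^ 2) atTop (𝓝 (rhoD f a))) ∧
    (∀ᵐ a : ℝ, Tendsto (fun n => ∫ b, ‖d2 (ψ n) (a, b)‖ ^ 2) atTop (𝓝 (rhoD F₂ a))) ∧
    (∀ᵐ a : ℝ, Tendsto (fun n => ∫ b, (conj (ψ n (a, b)) * d2 (ψ n) (a, b)).im) atTop
      (𝓝 (momD f F₂ a))) ∧
    Tendsto (fun n => ∫ x : ℝ × ℝ, ‖ψ n x‖ ^ 2) atTop (𝓝 (‖f‖ ^ 2)) ∧
    Tendsto (fun n => ∫ x : ℝ × ℝ, ‖d1 (ψ n) x‖ ^ 2) atTop (𝓝 (‖F₁‖ ^ 2)) ∧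
    Tendsto (fun n => ∫ x : ℝ × ℝ, ‖d2 (ψ n) x‖ ^ 2) atTop (𝓝 (‖F₂‖ ^ 2))

/-- RHB (`sup_a ρ ≤ ‖f‖‖∂_a f‖`).  Hypothesis SLC.
Proof.  For a test function `ψ` and all `(a,b)`, by the fundamental theorem of calculus in the first variable,
`|ψ(a,b)|² = ∫_{-∞}^a 2Re(conj ψ d1ψ)(a',b)da' = -∫_a^∞ 2Re(conj ψ d1ψ)(a',b)da'`, and the half sum gives
`|ψ(a,b)|² ≤ ∫_ℝ |ψ||d1ψ|(a',b) da'`.  Integrate in `b`: `∫|ψ(a,b)|²db ≤ ∬|ψ||d1ψ| ≤ ‖ψ‖‖d1ψ‖`.  Pass to the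
limit along `ψ_n` of SLC for a.e. `a`. -/
def SpecRHB : Prop := ∀ f F₁ F₂ : L2, IsH1 f F₁ F₂ → ∀ᵐ a : ℝ, rhoD f a ≤ ‖f‖ * ‖F₁‖

/-- GN1 (one dimensional Gagliardo-Nirenberg inequality with momentum).
Proof.  `ρ = ∫|h|²`, `e = ∫|h'|²`, `p = ∫ Im(conj h h')`.  If `ρ = 0` then `h = 0`.  Otherwise put `c = p/ρ`,
`k(b) = exp(-icb)h(b)`, also smooth with compact support, `|k| = |h|`, `k' = exp(-icb)(h' - ich)` and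
`∫|k'|² = e - 2cp + c²ρ = e - p²/ρ`.  As in RHB, `|k(b)|² ≤ ∫|k||k'| ≤ ρ^{1/2}(e - p²/ρ)^{1/2}`; square. -/
def SpecGN1 : Prop := ∀ h : ℝ → ℂ, ContDiff ℝ ∞ h → HasCompactSupport h → ∀ b : ℝ,
  ‖h b‖ ^ 4 ≤ (∫ s, ‖h s‖ ^ 2) * (∫ s, ‖deriv h s‖ ^ 2) - (∫ s, (conj (h s) * deriv h s).im) ^ 2

/-- S4B (slicewise bound `|f|⁴ ≤ ρe - p²`).  Hypotheses SLC, GN1.
Proof.  GN1 for `b ↦ ψ_n(a,b)`, derivative `d2 ψ_n(a,b)`; pass to the limit (a.e. `x`; the exceptional set of `a`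
gives a null set of `x`). -/
def SpecS4B : Prop := ∀ f F₁ F₂ : L2, IsH1 f F₁ F₂ → ∀ᵐ x : ℝ × ℝ,
  ‖f x‖ ^ 4 ≤ rhoD f x.1 * rhoD F₂ x.1 - momD f F₂ x.1 ^ 2

/-- SOB (Sobolev type inequalities).  Hypotheses DNS, RHB, S4B.
Proof.  By DNS (3) and RHB `0 ≤ ρe - p² ≤ ρe ≤ ‖f‖‖F₁‖ e` a.e., `e ∈ L¹`, so `ρe - p²` is integrable and
`0 ≤ gD ≤ ‖f‖‖F₁‖‖F₂‖²`.  `∫|f|⁶ = ∫da∫db |f|⁴|f|² ≤ ∫ (ρe-p²)ρ da ≤ ‖f‖‖F₁‖ gD`.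
`|f|² ≤ (ρe)^{1/2}`, so `∫|f|⁴ ≤ ∫ (ρe)^{1/2}ρ da ≤ ‖f‖‖F₁‖ ∫(ρe)^{1/2} da ≤ ‖f‖‖F₁‖‖f‖‖F₂‖`.
`(∫|f|⁴)² = (∫|f||f|³)² ≤ ∫|f|²∫|f|⁶`.  (`lintegral` versions first, which also give `MemLp`.) -/
def SpecSOB : Prop := ∀ f F₁ F₂ : L2, IsH1 f F₁ F₂ →
  MemLp f 4 volume ∧ MemLp f 6 volume ∧
  Integrable (fun a => rhoD f a * rhoD F₂ a - momD f F₂ a ^ 2) ∧ 0 ≤ gD f F₂ ∧
  gD f F₂ ≤ ‖f‖ * ‖F₁‖ * ‖F₂‖ ^ 2 ∧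
  (∫ x, ‖f x‖ ^ 6) ≤ ‖f‖ * ‖F₁‖ * gD f F₂ ∧
  (∫ x, ‖f x‖ ^ 4) ≤ ‖f‖ ^ 2 * ‖F₁‖ * ‖F₂‖ ∧
  (∫ x, ‖f x‖ ^ 4) ^ 2 ≤ ‖f‖ ^ 2 * ∫ x, ‖f x‖ ^ 6

/-- CUB (the cubic map `f ↦ |f|²f`).  Pointwise `||x|²x - |y|²y| ≤ (3/2)(|x|²+|y|²)|x-y|`
(`|x|²x-|y|²y = |x|²(x-y) + (|x|-|y|)(|x|+|y|)y`, so `≤ (|x|²+|x||y|+|y|²)|x-y|`).
(1) `|f|³ ∈ L²` as `f ∈ L⁶`.  (2) Hölder `1/2 = 1/3 + 1/6`, `‖ |f|²+|g|² ‖₃ ≤ ‖f‖₆²+‖g‖₆²`. -/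
def SpecCUB : Prop :=
  (∀ x y : ℂ, ‖((‖x‖ ^ 2 : ℝ) : ℂ) * x - ((‖y‖ ^ 2 : ℝ) : ℂ) * y‖
    ≤ 3 / 2 * (‖x‖ ^ 2 + ‖y‖ ^ 2) * ‖x - y‖) ∧
  (∀ f : L2, MemLp f 6 volume → ∃ N : L2, ∀ᵐ x : ℝ × ℝ, N x = ((‖f x‖ ^ 2 : ℝ) : ℂ) * f x) ∧
  (∀ f g N N' : L2, MemLp f 6 volume → MemLp g 6 volume →
    (∀ᵐ x : ℝ × ℝ, N x = ((‖f x‖ ^ 2 : ℝ) : ℂ) * f x) →
    (∀ᵐ x : ℝ × ℝ, N' x = ((‖g x‖ ^ 2 : ℝ) : ℂ) * g x) →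
    eLpNorm (fun x => N x - N' x) 2 volume ≤
      2 * (eLpNorm f 6 volume + eLpNorm g 6 volume) ^ 2 * eLpNorm (fun x => f x - g x) 6 volume)

/-- CTN (continuity in time of nonlinear quantities).  Hypotheses SOB, CUB, LIN.
Proof.  For `s,t ∈ [0,T)`, `v t - v s ∈ H¹` with derivatives `v₁ t - v₁ s`, .. (LIN), so by SOB
`‖v t - v s‖₄⁴ ≤ ‖v t - v s‖²‖v₁ t - v₁ s‖‖v₂ t - v₂ s‖ → 0` and
`‖v t - v s‖₆⁶ ≤ ‖v t - v s‖²‖v₁ t - v₁ s‖²‖v₂ t-v₂ s‖² → 0` as `s → t`.  Hence `t ↦ ‖v t‖₄` is continuous, and by CUB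
`t ↦ N t` is continuous in `L²`. -/
def SpecCTN : Prop := ∀ (T : ℝ) (v v₁ v₂ : ℝ → L2), (∀ t ∈ Ico 0 T, IsH1 (v t) (v₁ t) (v₂ t)) →
  ContinuousOn v (Ico 0 T) → ContinuousOn v₁ (Ico 0 T) → ContinuousOn v₂ (Ico 0 T) →
  (∃ N : ℝ → L2, ContinuousOn N (Ico 0 T) ∧
    ∀ t ∈ Ico 0 T, ∀ᵐ x : ℝ × ℝ, N t x = ((‖v t x‖ ^ 2 : ℝ) : ℂ) * v t x) ∧
  ContinuousOn (fun t => ∫ x, ‖v t x‖ ^ 4) (Ico 0 T)

/-- ZER (no momentum from the nonlinearity).  Hypotheses DEN, SOB, CUB, LIN (TH1).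
Proof.  If `ψ` is a test function, `Re(conj(|ψ|²ψ) d2ψ) = |ψ|² Re(conj ψ d2ψ) = d2(|ψ|⁴)/4`, so
`∫ β(a)∫ d2(|ψ|⁴)/4 db da = 0` (integral of a derivative of a compactly supported `C¹` function in `b`).
For `ψ_n → f` as in DEN: `ψ_n → f` in `L⁶` (SOB for the `H¹` function `ψ_n - f`), so `N(ψ_n) → N` in `L²` (CUB) and
`d2ψ_n → F₂` in `L²`; `β` is bounded. -/
def SpecZER : Prop := ∀ (β : ℝ → ℝ), Continuous β → (∃ C : ℝ, ∀ a, |β a| ≤ C) →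
  ∀ f F₁ F₂ N : L2, IsH1 f F₁ F₂ → (∀ᵐ x : ℝ × ℝ, N x = ((‖f x‖ ^ 2 : ℝ) : ℂ) * f x) →
    ∫ x : ℝ × ℝ, β x.1 * (conj (N x) * F₂ x).re = 0

/-- ZE2 (no momentum from `∂_b|f|²`).  Hypotheses DEN (TH1).  `∫ β(a) Re(conj f F₂) = 0`: for test functions
`2Re(conj ψ d2ψ) = d2(|ψ|²)`; density. -/
def SpecZE2 : Prop := ∀ (β : ℝ → ℝ), Continuous β → (∃ C : ℝ, ∀ a, |β a| ≤ C) →
  ∀ f F₁ F₂ : L2, IsH1 f F₁ F₂ → ∫ x : ℝ × ℝ, β x.1 * (conj (f x) * F₂ x).re = 0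

end Pool.Agent.Lib.MP424d38.TY
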