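import Pool.Agent.Lib.MP_424d38_an.SpecF
import Pool.Agent.Lib.MP_424d38_an.SpecB

section
/-!
# Module CHV: change of variables to null coordinates
-/
set_option autoImplicit false

open MeasureTheory Filter Topology Set
open scoped ENNReal ContDiff ComplexConjugate

noncomputable section

namespace Pool.Agent.Lib.MP424d38.TY

namespace CHVM

/-- the matrix of `PhiN` -/
def MM : Matrix (Fin 2) (Fin 2) ℝ := !![1 / 2, 1 / 2; -(1 / 2), 1 / 2]

theorem det_MM : MM.det = 1 / 2 := by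
  rw [MM, Matrix.det_fin_two_of]
  norm_num

theorem PhiN_eq (x : ℝ × ℝ) :
    PhiN x = WithLp.toLp 2 (Matrix.toLin' MM ((MeasurableEquiv.finTwoArrow (α := ℝ)).symm x)) := by
  ext i
  fin_cases i
  · simp [PhiN, MM, Matrix.toLin'_apply, Matrix.mulVec, dotProduct, Fin.sum_univ_two,
      MeasurableEquiv.finTwoArrow]
    ring
  · simp [PhiN, MM, Matrix.toLin'_apply, Matrix.mulVec, dotProduct, Fin.sum_univ_two,
      MeasurableEquiv.finTwoArrow]
    ring

theorem map_PhiN :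
    Measure.map PhiN (volume : Measure (ℝ × ℝ)) = (2 : ℝ≥0∞) • (volume : Measure EE) := by
  have h1 : MeasurePreserving ((MeasurableEquiv.finTwoArrow (α := ℝ)).symm)
      (volume : Measure (ℝ × ℝ)) (volume : Measure (Fin 2 → ℝ)) :=
    (volume_preserving_finTwoArrow ℝ).symm
  have h2 : Measure.map (Matrix.toLin' MM) (volume : Measure (Fin 2 → ℝ))
      = ENNReal.ofReal |(MM.det)⁻¹| • volume :=
    Real.map_matrix_volume_pi_eq_smul_volume_pi (by rw [det_MM]; norm_num)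
  have h3 : MeasurePreserving (WithLp.toLp 2 : (Fin 2 → ℝ) → EE)
      (volume : Measure (Fin 2 → ℝ)) (volume : Measure EE) := by
    exact PiLp.volume_preserving_toLp (Fin 2)
  have hf : PhiN = (WithLp.toLp 2 : (Fin 2 → ℝ) → EE) ∘ (Matrix.toLin' MM) ∘
      ((MeasurableEquiv.finTwoArrow (α := ℝ)).symm) := by
    funext x
    exact PhiN_eq x
  have hm : Measurable (Matrix.toLin' MM) :=
    (LinearMap.continuous_of_finiteDimensional (Matrix.toLin' MM)).measurable
  rw [hf, ← Measure.map_map h3.measurable (hm.comp h1.measurable), ← Measure.map_map hm h1.measurable,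
    h1.map_eq, h2, Measure.map_smul, h3.map_eq, det_MM]
  norm_num

theorem cont_PhiN : Continuous PhiN := by
  have hf : PhiN = (WithLp.toLp 2 : (Fin 2 → ℝ) → EE) ∘
      fun x : ℝ × ℝ => ![(x.1 + x.2) / 2, (x.2 - x.1) / 2] := by
    funext x
    rfl
  rw [hf]
  refine (PiLp.continuous_toLp 2 _).comp ?_
  refine continuous_pi fun i => ?_
  fin_cases i
  · simpa using (continuous_fst.add continuous_snd).div_const 2
  · simpa using (continuous_snd.sub continuous_fst).div_const 2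

theorem inj_PhiN : Function.Injective PhiN := by
  intro x y h
  have h0 : (x.1 + x.2) / 2 = (y.1 + y.2) / 2 := by
    have := congrArg (fun z : EE => z 0) h
    simpa [PhiN] using this
  have h1 : (x.2 - x.1) / 2 = (y.2 - y.1) / 2 := by
    have := congrArg (fun z : EE => z 1) h
    simpa [PhiN] using this
  ext <;> linarith

theorem emb : MeasurableEmbedding PhiN := cont_PhiN.measurableEmbedding inj_PhiN

end CHVM

theorem specCHV : SpecCHV := by
  refine ⟨CHVM.map_PhiN, CHVM.cont_PhiN.measurable, ?_, ?_, ?_, ?_⟩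
  · intro f
    rw [← CHVM.emb.integral_map, CHVM.map_PhiN, integral_smul_measure]
    simp
  · intro f p hf
    have h1 : MemLp f p (Measure.map PhiN (volume : Measure (ℝ × ℝ))) := by
      rw [CHVM.map_PhiN]
      exact hf.smul_measure (by norm_num)
    exact (CHVM.emb.memLp_map_measure_iff).1 h1
  · intro f hf
    have h1 : eLpNorm (fun x => f (PhiN x)) 2 volume
        = eLpNorm f 2 (Measure.map PhiN (volume : Measure (ℝ × ℝ))) :=
      (CHVM.emb.eLpNorm_map_measure).symm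
    rw [h1, CHVM.map_PhiN, eLpNorm_smul_measure_of_ne_zero (by norm_num)]
    have h2 : ((2 : ℝ≥0∞) ^ (1 / (2 : ℝ≥0∞)).toReal) = ENNReal.ofReal (Real.sqrt 2) := by
      rw [Real.sqrt_eq_rpow, ← ENNReal.ofReal_rpow_of_nonneg (by norm_num) (by norm_num)]
      norm_num
    rw [h2, smul_eq_mul]
  · intro f
    have h1 : ∫ x, ‖f (PhiN x)‖ ^ 4 = ∫ y, ‖f y‖ ^ 4 ∂(Measure.map PhiN volume) :=
      (CHVM.emb.integral_map (fun y => ‖f y‖ ^ 4)).symm
    rw [h1, CHVM.map_PhiN, integral_smul_measure]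
    simp

end Pool.Agent.Lib.MP424d38.TY
end
end

section
set_option autoImplicit false

open MeasureTheory Filter Topology Set
open scoped ENNReal ContDiff ComplexConjugate

noncomputable section

namespace Pool.Agent.Lib.MP424d38.TY

namespace DBRM

/-- a smooth monotone step from `0` (for `r ≤ c`) to `1` (for `r ≥ c + δ`). -/
def stp (c δ r : ℝ) : ℝ := Real.smoothTransition ((r - c) / δ)

lemma stp_cd (c δ : ℝ) : ContDiff ℝ ∞ (stp c δ) := by
  unfold stp
  exact Real.smoothTransition.contDiff.comp ((contDiff_id.sub contDiff_const).div_const δ)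

lemma stp_mono (c : ℝ) {δ : ℝ} (hδ : 0 < δ) : Monotone (stp c δ) := by
  intro x y hxy
  unfold stp
  apply Real.smoothTransition.monotone
  gcongr

lemma stp_zero (c : ℝ) {δ : ℝ} (hδ : 0 < δ) {r : ℝ} (hr : r ≤ c) : stp c δ r = 0 := by
  unfold stp
  apply Real.smoothTransition.zero_of_nonpos
  exact div_nonpos_of_nonpos_of_nonneg (by linarith) hδ.le

lemma stp_one (c : ℝ) {δ : ℝ} (hδ : 0 < δ) {r : ℝ} (hr : c + δ ≤ r) : stp c δ r = 1 := by
  unfold stp
  apply Real.smoothTransition.one_of_one_le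
  rw [le_div_iff₀ hδ]
  linarith

lemma stp_nonneg (c δ r : ℝ) : 0 ≤ stp c δ r := Real.smoothTransition.nonneg _

lemma stp_le_one (c δ r : ℝ) : stp c δ r ≤ 1 := Real.smoothTransition.le_one _

lemma stp_deriv_nonneg (c : ℝ) {δ : ℝ} (hδ : 0 < δ) (r : ℝ) : 0 ≤ deriv (stp c δ) r :=
  (stp_mono c hδ).deriv_nonneg

lemma stp_deriv_zero (c : ℝ) {δ : ℝ} (hδ : 0 < δ) {r : ℝ} (hr : r < c ∨ c + δ < r) :
    deriv (stp c δ) r = 0 := by
  rcases hr with hr | hr
  · have : stp c δ =ᶠ[𝓝 r] fun _ => (0 : ℝ) := by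
      filter_upwards [Iio_mem_nhds hr] with x hx using stp_zero c hδ (le_of_lt hx)
    rw [this.deriv_eq]
    simp
  · have : stp c δ =ᶠ[𝓝 r] fun _ => (1 : ℝ) := by
      filter_upwards [Ioi_mem_nhds hr] with x hx using stp_one c hδ (le_of_lt hx)
    rw [this.deriv_eq]
    simp

lemma stp_deriv_cont (c δ : ℝ) : Continuous (deriv (stp c δ)) :=
  (stp_cd c δ).continuous_deriv (by simp)

lemma stp_deriv_int (s t c : ℝ) {δ : ℝ} (hδ : 0 < δ) (hs : s ≤ c) (ht : c + δ ≤ t) :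
    ∫ r in s..t, deriv (stp c δ) r = 1 := by
  have h := intervalIntegral.integral_deriv_eq_sub' (stp c δ) (a := s) (b := t) rfl
    (fun x _ => ((stp_cd c δ).differentiable (by simp)).differentiableAt)
    (stp_deriv_cont c δ).continuousOn
  rw [h, stp_zero c hδ hs, stp_one c hδ ht]
  simp

lemma step_bound (s t c : ℝ) {δ : ℝ} (hδ : 0 < δ) (M : ℝ → ℂ) (L : ℂ) (ε : ℝ)
    (hs : s ≤ c) (ht : c + δ ≤ t) (hM : ContinuousOn M (Icc s t))
    (hb : ∀ r ∈ Icc c (c + δ), ‖M r - L‖ ≤ ε) :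
    ‖(∫ r in s..t, ((deriv (stp c δ) r : ℝ) : ℂ) * M r) - L‖ ≤ ε := by
  have hst : s ≤ t := by linarith
  have hu : uIcc s t = Icc s t := uIcc_of_le hst
  have hdc : Continuous (fun r => ((deriv (stp c δ) r : ℝ) : ℂ)) :=
    Complex.continuous_ofReal.comp (stp_deriv_cont c δ)
  have i1 : IntervalIntegrable (fun r => ((deriv (stp c δ) r : ℝ) : ℂ) * M r) volume s t := by
    apply ContinuousOn.intervalIntegrable
    rw [hu]
    exact hdc.continuousOn.mul hM
  have i2 : IntervalIntegrable (fun r => ((deriv (stp c δ) r : ℝ) : ℂ) * L) volume s t :=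
    (hdc.mul continuous_const).intervalIntegrable _ _
  have e1 : ∫ r in s..t, ((deriv (stp c δ) r : ℝ) : ℂ) * L = L := by
    rw [intervalIntegral.integral_mul_const, intervalIntegral.integral_ofReal,
      stp_deriv_int s t c hδ hs ht]
    simp
  have e2 : (∫ r in s..t, ((deriv (stp c δ) r : ℝ) : ℂ) * M r) - L
      = ∫ r in s..t, ((deriv (stp c δ) r : ℝ) : ℂ) * (M r - L) := by
    conv_lhs => rw [← e1]
    rw [← intervalIntegral.integral_sub i1 i2]
    apply intervalIntegral.integral_congr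
    intro r _
    simp only
    ring
  have h0 : 0 ≤ ε := le_trans (norm_nonneg _) (hb c ⟨le_rfl, by linarith⟩)
  rw [e2]
  have h1 := intervalIntegral.norm_integral_le_of_norm_le (f := fun r =>
      ((deriv (stp c δ) r : ℝ) : ℂ) * (M r - L)) (g := fun r => deriv (stp c δ) r * ε) hst
    (μ := volume) (Filter.Eventually.of_forall fun r _ => by
      rw [norm_mul, Complex.norm_real, Real.norm_eq_abs, abs_of_nonneg (stp_deriv_nonneg c hδ r)]
      by_cases hr : r ∈ Icc c (c + δ)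
      · exact mul_le_mul_of_nonneg_left (hb r hr) (stp_deriv_nonneg c hδ r)
      · rw [stp_deriv_zero c hδ (by
          rw [mem_Icc, not_and_or, not_le, not_le] at hr
          exact hr)]
        simp)
    (((stp_deriv_cont c δ).mul continuous_const).intervalIntegrable _ _)
  refine h1.trans ?_
  rw [intervalIntegral.integral_mul_const, stp_deriv_int s t c hδ hs ht, one_mul]

lemma main (T : ℝ) (M n : ℝ → ℂ) (hM : ContinuousOn M (Ico 0 T)) (hn : ContinuousOn n (Ico 0 T))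
    (h : ∀ θ : ℝ → ℝ, ContDiff ℝ ∞ θ → HasCompactSupport θ → tsupport θ ⊆ Ioo 0 T →
      (∫ t, ((deriv θ t : ℝ) : ℂ) * M t) + ∫ t, ((θ t : ℝ) : ℂ) * n t = 0)
    (s t : ℝ) (hs : 0 < s) (hst : s < t) (ht : t < T) : M t - M s = ∫ r in s..t, n r := by
  have hsub : Icc s t ⊆ Ico 0 T := fun x hx => ⟨hs.le.trans hx.1, lt_of_le_of_lt hx.2 ht⟩
  have hM' : ContinuousOn M (Icc s t) := hM.mono hsub
  have hn' : ContinuousOn n (Icc s t) := hn.mono hsub
  have hu : uIcc s t = Icc s t := uIcc_of_le hst.le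
  obtain ⟨C, hC⟩ := isCompact_Icc.exists_bound_of_continuousOn hn'
  have hC0 : 0 ≤ C := le_trans (norm_nonneg _) (hC s ⟨le_rfl, hst.le⟩)
  suffices hsuff : ∀ ε > 0, ‖(M t - M s) - ∫ r in s..t, n r‖ ≤ ε by
    have : ‖(M t - M s) - ∫ r in s..t, n r‖ ≤ 0 := le_of_forall_pos_le_add (by simpa using hsuff)
    exact sub_eq_zero.1 (norm_le_zero_iff.1 this)
  intro ε hε
  -- choose δ
  obtain ⟨δ₁, hδ₁, hb₁⟩ := Metric.continuousOn_iff.1 hM' s ⟨le_rfl, hst.le⟩ (ε / 4) (by positivity)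
  obtain ⟨δ₂, hδ₂, hb₂⟩ := Metric.continuousOn_iff.1 hM' t ⟨hst.le, le_rfl⟩ (ε / 4) (by positivity)
  obtain ⟨δ, hδ, h1, h2, h3, h4⟩ : ∃ δ : ℝ, 0 < δ ∧ δ < δ₁ ∧ δ < δ₂ ∧ 2 * δ ≤ t - s ∧
      2 * (C * δ) ≤ ε / 2 := by
    refine ⟨min (min (δ₁ / 2) (δ₂ / 2)) (min ((t - s) / 2) (ε / (4 * (C + 1)))), ?_, ?_, ?_, ?_, ?_⟩
    · have : 0 < t - s := by linarith
      positivity
    · have : min (min (δ₁ / 2) (δ₂ / 2)) (min ((t - s) / 2) (ε / (4 * (C + 1)))) ≤ δ₁ / 2 :=
        (min_le_left _ _).trans (min_le_left _ _)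
      linarith
    · have : min (min (δ₁ / 2) (δ₂ / 2)) (min ((t - s) / 2) (ε / (4 * (C + 1)))) ≤ δ₂ / 2 :=
        (min_le_left _ _).trans (min_le_right _ _)
      linarith
    · have : min (min (δ₁ / 2) (δ₂ / 2)) (min ((t - s) / 2) (ε / (4 * (C + 1)))) ≤ (t - s) / 2 :=
        (min_le_right _ _).trans (min_le_left _ _)
      linarith
    · have h5 : min (min (δ₁ / 2) (δ₂ / 2)) (min ((t - s) / 2) (ε / (4 * (C + 1))))
          ≤ ε / (4 * (C + 1)) := (min_le_right _ _).trans (min_le_right _ _)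
      have h6 : C * (ε / (4 * (C + 1))) ≤ ε / 4 := by
        rw [mul_div_assoc', div_le_div_iff₀ (by positivity) (by norm_num)]
        nlinarith
      have h7 := mul_le_mul_of_nonneg_left h5 hC0
      linarith
  -- the test function
  set θ : ℝ → ℝ := fun r => stp s δ r - stp (t - δ) δ r with hθ
  have hθcd : ContDiff ℝ ∞ θ := (stp_cd s δ).sub (stp_cd (t - δ) δ)
  have hθ0 : ∀ r, r ∉ Icc s t → θ r = 0 := by
    intro r hr
    rw [mem_Icc, not_and_or, not_le, not_le] at hr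
    simp only [hθ]
    rcases hr with hr | hr
    · rw [stp_zero s hδ hr.le, stp_zero (t - δ) hδ (by linarith)]
      simp
    · rw [stp_one s hδ (by linarith), stp_one (t - δ) hδ (by linarith)]
      simp
  have hθs : θ s = 0 := by
    simp only [hθ]
    rw [stp_zero s hδ le_rfl, stp_zero (t - δ) hδ (by linarith)]
    simp
  have hsupp : Function.support θ ⊆ Icc s t := by
    intro r hr
    by_contra hc
    exact hr (hθ0 r hc)
  have htsupp : tsupport θ ⊆ Icc s t := closure_minimal hsupp isClosed_Icc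
  have hcs : HasCompactSupport θ := isCompact_Icc.of_isClosed_subset (isClosed_tsupport θ) htsupp
  have hH := h θ hθcd hcs (htsupp.trans fun x hx => ⟨lt_of_lt_of_le hs hx.1, lt_of_le_of_lt hx.2 ht⟩)
  have hdθ : ∀ r, deriv θ r = deriv (stp s δ) r - deriv (stp (t - δ) δ) r := by
    intro r
    exact deriv_fun_sub ((stp_cd s δ).differentiable (by simp)).differentiableAt
      ((stp_cd (t - δ) δ).differentiable (by simp)).differentiableAt
  have hdθ0 : ∀ r, r ∉ Ioc s t → deriv θ r = 0 := by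
    intro r hr
    by_cases hrs : r = s
    · -- derivative at a minimum
      have hmin : IsLocalMin θ r := by
        have : ∀ᶠ x in 𝓝 r, θ r ≤ θ x := by
          filter_upwards [Iio_mem_nhds (show r < t - δ by rw [hrs]; linarith)] with x hx
          rw [hrs, hθs]
          simp only [hθ]
          rw [stp_zero (t - δ) hδ (le_of_lt hx)]
          simpa using stp_nonneg s δ x
        exact this
      exact hmin.deriv_eq_zero
    · apply image_eq_zero_of_notMem_tsupport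
      intro hc
      have := htsupp (tsupport_deriv_subset hc)
      exact hr ⟨lt_of_le_of_ne this.1 (Ne.symm hrs), this.2⟩
  have eM : ∫ r, ((deriv θ r : ℝ) : ℂ) * M r = ∫ r in s..t, ((deriv θ r : ℝ) : ℂ) * M r := by
    rw [intervalIntegral.integral_eq_integral_of_support_subset]
    intro r hr
    by_contra hc
    apply hr
    simp [hdθ0 r hc]
  have en : ∫ r, ((θ r : ℝ) : ℂ) * n r = ∫ r in s..t, ((θ r : ℝ) : ℂ) * n r := by
    rw [intervalIntegral.integral_eq_integral_of_support_subset]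
    intro r hr
    by_contra hc
    apply hr
    by_cases hrs : r = s
    · simp [hrs, hθs]
    · have : r ∉ Icc s t := fun hx => hc ⟨lt_of_le_of_ne hx.1 (Ne.symm hrs), hx.2⟩
      simp [hθ0 r this]
  have eM2 : ∫ r in s..t, ((deriv θ r : ℝ) : ℂ) * M r
      = (∫ r in s..t, ((deriv (stp s δ) r : ℝ) : ℂ) * M r)
        - ∫ r in s..t, ((deriv (stp (t - δ) δ) r : ℝ) : ℂ) * M r := by
    rw [← intervalIntegral.integral_sub]
    · apply intervalIntegral.integral_congr
      intro r _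
      simp only [hdθ]
      push_cast
      ring
    · apply ContinuousOn.intervalIntegrable
      rw [hu]
      exact (Complex.continuous_ofReal.comp (stp_deriv_cont s δ)).continuousOn.mul hM'
    · apply ContinuousOn.intervalIntegrable
      rw [hu]
      exact (Complex.continuous_ofReal.comp (stp_deriv_cont (t - δ) δ)).continuousOn.mul hM'
  have b1 := step_bound s t s hδ M (M s) (ε / 4) le_rfl (by linarith) hM' (by
    intro r hr
    have := hb₁ r ⟨hr.1, by linarith [hr.2]⟩ (by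
      rw [Real.dist_eq, abs_of_nonneg (by linarith [hr.1])]
      linarith [hr.2])
    rw [dist_eq_norm] at this
    exact this.le)
  have b2 := step_bound s t (t - δ) hδ M (M t) (ε / 4) (by linarith) (by linarith) hM' (by
    intro r hr
    have := hb₂ r ⟨by linarith [hr.1], by linarith [hr.2]⟩ (by
      rw [Real.dist_eq, abs_of_nonpos (by linarith [hr.2])]
      linarith [hr.1])
    rw [dist_eq_norm] at this
    exact this.le)
  -- the second integral
  have i1 : IntervalIntegrable n volume s t := by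
    apply ContinuousOn.intervalIntegrable
    rw [hu]
    exact hn'
  have i2 : IntervalIntegrable (fun r => ((θ r : ℝ) : ℂ) * n r) volume s t := by
    apply ContinuousOn.intervalIntegrable
    rw [hu]
    exact (Complex.continuous_ofReal.comp hθcd.continuous).continuousOn.mul hn'
  have b3 : ‖(∫ r in s..t, n r) - ∫ r in s..t, ((θ r : ℝ) : ℂ) * n r‖ ≤ 2 * (C * δ) := by
    rw [← intervalIntegral.integral_sub i1 i2]
    set F : ℝ → ℂ := fun r => n r - ((θ r : ℝ) : ℂ) * n r with hF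
    have iF : IntervalIntegrable F volume s t := i1.sub i2
    have hFb : ∀ r ∈ Icc s t, ‖F r‖ ≤ C := by
      intro r hr
      have e : F r = ((1 - θ r : ℝ) : ℂ) * n r := by
        simp only [hF]
        push_cast
        ring
      rw [e, norm_mul, Complex.norm_real, Real.norm_eq_abs]
      have h5 : |1 - θ r| ≤ 1 := by
        rw [abs_le]
        simp only [hθ]
        have a1 := stp_nonneg s δ r
        have a2 := stp_le_one s δ r
        have a3 := stp_nonneg (t - δ) δ r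
        have a4 := stp_le_one (t - δ) δ r
        by_cases hr2 : r ≤ t - δ
        · rw [stp_zero (t - δ) hδ hr2]
          constructor <;> linarith
        · push Not at hr2
          rw [stp_one s hδ (by linarith)]
          constructor <;> linarith
      calc |1 - θ r| * ‖n r‖ ≤ 1 * C := mul_le_mul h5 (hC r hr) (norm_nonneg _) (by norm_num)
        _ = C := one_mul _
    have j1 : IntervalIntegrable F volume s (s + δ) := iF.mono_set (by
      rw [hu, uIcc_of_le (by linarith)]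
      exact Icc_subset_Icc le_rfl (by linarith))
    have j2 : IntervalIntegrable F volume (s + δ) (t - δ) := iF.mono_set (by
      rw [hu, uIcc_of_le (by linarith)]
      exact Icc_subset_Icc (by linarith) (by linarith))
    have j3 : IntervalIntegrable F volume (t - δ) t := iF.mono_set (by
      rw [hu, uIcc_of_le (by linarith)]
      exact Icc_subset_Icc (by linarith) le_rfl)
    rw [← intervalIntegral.integral_add_adjacent_intervals (j1.trans j2) j3,
      ← intervalIntegral.integral_add_adjacent_intervals j1 j2]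
    have z : ∫ r in (s + δ)..(t - δ), F r = 0 := by
      have : ∫ r in (s + δ)..(t - δ), F r = ∫ r in (s + δ)..(t - δ), (0 : ℂ) := by
        apply intervalIntegral.integral_congr
        intro r hr
        rw [uIcc_of_le (by linarith)] at hr
        simp only [hF, hθ]
        rw [stp_one s hδ hr.1, stp_zero (t - δ) hδ hr.2]
        simp
      rw [this]
      simp
    rw [z, add_zero]
    have k1 : ‖∫ r in s..(s + δ), F r‖ ≤ C * |s + δ - s| := by
      apply intervalIntegral.norm_integral_le_of_norm_le_const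
      intro r hr
      rw [uIoc_of_le (by linarith)] at hr
      exact hFb r ⟨hr.1.le, by linarith [hr.2]⟩
    have k2 : ‖∫ r in (t - δ)..t, F r‖ ≤ C * |t - (t - δ)| := by
      apply intervalIntegral.norm_integral_le_of_norm_le_const
      intro r hr
      rw [uIoc_of_le (by linarith)] at hr
      exact hFb r ⟨by linarith [hr.1], hr.2⟩
    rw [show s + δ - s = δ by ring, abs_of_pos hδ] at k1
    rw [show t - (t - δ) = δ by ring, abs_of_pos hδ] at k2
    calc _ ≤ ‖∫ r in s..(s + δ), F r‖ + ‖∫ r in (t - δ)..t, F r‖ := norm_add_le _ _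
      _ ≤ 2 * (C * δ) := by linarith
  rw [eM, en, eM2] at hH
  have fin : (M t - M s) - ∫ r in s..t, n r
      = ((∫ r in s..t, ((deriv (stp s δ) r : ℝ) : ℂ) * M r) - M s)
        - ((∫ r in s..t, ((deriv (stp (t - δ) δ) r : ℝ) : ℂ) * M r) - M t)
        - ((∫ r in s..t, n r) - ∫ r in s..t, ((θ r : ℝ) : ℂ) * n r) := by
    linear_combination (-1 : ℂ) * hH
  rw [fin]
  calc _ ≤ ‖((∫ r in s..t, ((deriv (stp s δ) r : ℝ) : ℂ) * M r) - M s)
        - ((∫ r in s..t, ((deriv (stp (t - δ) δ) r : ℝ) : ℂ) * M r) - M t)‖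
        + ‖((∫ r in s..t, n r) - ∫ r in s..t, ((θ r : ℝ) : ℂ) * n r)‖ := norm_sub_le _ _
    _ ≤ (‖((∫ r in s..t, ((deriv (stp s δ) r : ℝ) : ℂ) * M r) - M s)‖
        + ‖((∫ r in s..t, ((deriv (stp (t - δ) δ) r : ℝ) : ℂ) * M r) - M t)‖)
        + ‖((∫ r in s..t, n r) - ∫ r in s..t, ((θ r : ℝ) : ℂ) * n r)‖ := by
        gcongr
        exact norm_sub_le _ _
    _ ≤ ε := by linarith

end DBRM

open DBRM in
theorem specDBR : SpecDBR := by
  intro T M n hM hn h s t hs hst ht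
  rcases eq_or_lt_of_le hst with rfl | hst'
  · simp
  rcases eq_or_lt_of_le hs with rfl | hs'
  · -- limit s' → 0
    have hsub : Icc 0 t ⊆ Ico 0 T := fun x hx => ⟨hx.1, lt_of_le_of_lt hx.2 ht⟩
    have hu : uIcc 0 t = Icc 0 t := uIcc_of_le hst
    have hcont : ContinuousOn (fun b => ∫ x in t..b, n x) (uIcc 0 t) := by
      apply intervalIntegral.continuousOn_primitive_interval' _ right_mem_uIcc
      apply ContinuousOn.intervalIntegrable
      rw [hu]
      exact hn.mono hsub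
    have hmem : (0 : ℝ) ∈ closure (Ioo 0 t) := by
      rw [closure_Ioo hst'.ne]
      exact ⟨le_rfl, hst⟩
    have hnb : (𝓝[Ioo 0 t] (0 : ℝ)).NeBot := mem_closure_iff_nhdsWithin_neBot.1 hmem
    have l1 : Tendsto (fun b => M t - M b) (𝓝[Ioo 0 t] 0) (𝓝 (M t - M 0)) := by
      apply Tendsto.sub tendsto_const_nhds
      have := (hM.mono hsub) 0 ⟨le_rfl, hst⟩
      exact this.mono_left (nhdsWithin_mono _ Ioo_subset_Icc_self)
    have l2 : Tendsto (fun b => - ∫ x in t..b, n x) (𝓝[Ioo 0 t] 0) (𝓝 (- ∫ x in t..0, n x)) := by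
      apply Tendsto.neg
      have := hcont 0 (by rw [hu]; exact ⟨le_rfl, hst⟩)
      rw [hu] at this
      exact this.mono_left (nhdsWithin_mono _ Ioo_subset_Icc_self)
    have l3 : (fun b => M t - M b) =ᶠ[𝓝[Ioo 0 t] 0] (fun b => - ∫ x in t..b, n x) := by
      filter_upwards [self_mem_nhdsWithin] with b hb
      rw [← intervalIntegral.integral_symm]
      exact main T M n hM hn h b t hb.1 hb.2 ht
    have := tendsto_nhds_unique (l1.congr' l3) l2
    rw [this, ← intervalIntegral.integral_symm]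
  · exact main T M n hM hn h s t hs' hst' ht

end Pool.Agent.Lib.MP424d38.TY
end
end

section
/-!
# MP_424d38_an: NUL (both theorems in null coordinates)
-/
set_option autoImplicit false

open MeasureTheory Filter Topology Set
open scoped ENNReal ContDiff ComplexConjugate

noncomputable section

namespace Pool.Agent.Lib.MP424d38.TY

namespace NULM

theorem sqrt_n4 (f : L2) : Real.sqrt (n4 f ^ 8) = n4 f ^ 4 := by
  have h : n4 f ^ 8 = (n4 f ^ 4) ^ 2 := by ring
  have h0 : 0 ≤ n4 f := ENNReal.toReal_nonneg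
  rw [h, Real.sqrt_sq (pow_nonneg h0 4)]

end NULM

open NULM in
theorem specNUL (hDAT : SpecDAT) (hRA1 : SpecRA1) (hRA2 : SpecRA2) (hSUP : SpecSUP)
    (hRHL : SpecRHL) (hN4F : SpecN4F) (hLIN : SpecLIN) : SpecNUL := by
  obtain ⟨c, C, hD⟩ := hDAT
  refine ⟨?_, ?_, ?_⟩
  · intro T K v v₁ v₂ N hT hv hK
    by_cases h0 : ‖v 0‖ = 0
    · refine ⟨0, fun t ht => ?_⟩
      have hmass := (hRHL T v v₁ v₂ N hv).2 t ht
      have hz : v t = 0 := norm_eq_zero.1 (hmass.trans h0)
      have h1 := hv.h1 t ht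
      have h2 : IsH1 (0 : L2) (0 : L2) (0 : L2) := by
        have := hLIN.2.1 0 _ _ _ h1
        simpa using this
      rw [hz] at h1
      obtain ⟨e1, e2⟩ := hLIN.2.2.2.1 _ _ _ _ _ h1 h2
      rw [e1, e2]
      simp
    · have hd := hD T v v₁ v₂ N hT hv h0
      have key := hRA1 T _ c C _ _ _ _ _ hT hd K (fun t ht => ?_)
      · obtain ⟨D, hDD⟩ := key
        exact ⟨D, fun t ht => ⟨(hDD t ht).2, (hDD t ht).1⟩⟩
      · obtain ⟨s, hs, e1⟩ := (hSUP T _ hd.cα).2.2.2 t ht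
        obtain ⟨s', hs', e2⟩ := (hSUP T _ hd.cβ).2.2.2 t ht
        rw [e1, e2]
        exact hK t ht s hs s' hs'
  · intro T v v₁ v₂ N hT hv h0 hun κ t₀ hκ ht₀
    by_contra hcon
    push Not at hcon
    have hd := hD T v v₁ v₂ N hT hv h0
    apply hun
    set t₁ := (max t₀ 0 + T) / 2 with ht₁
    have hm : max t₀ 0 < T := max_lt ht₀ hT
    have h1 : t₀ < t₁ := by
      have := le_max_left t₀ 0
      linarith
    have h2 : t₁ ∈ Ico 0 T := by
      have := le_max_right t₀ 0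
      constructor <;> linarith
    have key := hRA2.1 T _ c C _ _ _ _ _ hT hd κ t₁ hκ h2 (fun t ht => ?_)
    · obtain ⟨D, hDD⟩ := key
      exact ⟨D, fun t ht => ⟨(hDD t ht).2, (hDD t ht).1⟩⟩
    · have ht' : t ∈ Ico 0 T := ⟨h2.1.trans ht.1, ht.2⟩
      obtain ⟨s, hs, e1⟩ := (hSUP T _ hd.cα).2.2.2 t ht'
      obtain ⟨s', hs', e2⟩ := (hSUP T _ hd.cβ).2.2.2 t ht'
      rw [e1, e2, sqrt_n4, (hN4F.1 _ _ _ (hv.h1 t ht')).2]
      exact hcon t ht' (lt_of_lt_of_le h1 ht.1) s hs s' hs'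
  · intro v v₁ v₂ N hv h0 κ t₀ hκ
    by_contra hcon
    push Not at hcon
    have hd : ∀ T : ℝ, 0 < T → Dat T (‖v 0‖ ^ 2) c C (fun t => ‖v₂ t‖) (fun t => ‖v₁ t‖)
        (fun t => n4 (v t) ^ 8) (fun t => gD (v t) (v₂ t)) (fun t => gD (swp (v t)) (swp (v₁ t))) :=
      fun T hT => hD T v v₁ v₂ N hT (hv T hT) h0
    refine hRA2.2 _ c C _ _ _ _ _ hd κ (max (t₀ + 1) 0) hκ (le_max_right _ _) (fun t ht => ?_)
    have h0t : 0 ≤ t := (le_max_right _ _).trans ht
    have h1t : t₀ < t := by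
      have := (le_max_left (t₀ + 1) 0).trans ht
      linarith
    have hT : 0 < t + 1 := by linarith
    have ht' : t ∈ Ico 0 (t + 1) := ⟨h0t, by linarith⟩
    obtain ⟨s, hs, e1⟩ := (hSUP (t + 1) _ (hd _ hT).cα).2.2.2 t ht'
    obtain ⟨s', hs', e2⟩ := (hSUP (t + 1) _ (hd _ hT).cβ).2.2.2 t ht'
    rw [e1, e2, sqrt_n4, (hN4F.1 _ _ _ ((hv _ hT).h1 t ht')).2]
    exact hcon t h0t h1t s hs s' hs'

end Pool.Agent.Lib.MP424d38.TY
end
end

section
/-!
# RA1: Theorem I, real analysis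
-/
set_option autoImplicit false

open MeasureTheory Filter Topology Set
open scoped ENNReal ContDiff ComplexConjugate

noncomputable section

namespace Pool.Agent.Lib.MP424d38.TY

namespace RA1M

/-- the times `t_k = T(1 - θ^k)`. -/
def tk (T θ : ℝ) (k : ℕ) : ℝ := T * (1 - θ ^ k)

theorem tk_zero (T θ : ℝ) : tk T θ 0 = 0 := by simp [tk]

theorem tk_sub (T θ : ℝ) (k : ℕ) : T - tk T θ k = T * θ ^ k := by unfold tk; ring

theorem tk_mono {T θ : ℝ} (hT : 0 < T) (h0 : 0 < θ) (h1 : θ < 1) : Monotone (tk T θ) := by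
  intro i j hij
  have h2 : θ ^ j ≤ θ ^ i := pow_le_pow_of_le_one h0.le h1.le hij
  unfold tk
  nlinarith

theorem tk_mem {T θ : ℝ} (hT : 0 < T) (h0 : 0 < θ) (h1 : θ < 1) (k : ℕ) : tk T θ k ∈ Ico 0 T := by
  constructor
  · rw [← tk_zero T θ]; exact tk_mono hT h0 h1 (Nat.zero_le k)
  · have : 0 < T * θ ^ k := by positivity
    have h2 := tk_sub T θ k
    linarith

theorem tk_tend {T θ : ℝ} (h0 : 0 < θ) (h1 : θ < 1) : Tendsto (tk T θ) atTop (𝓝 T) := by
  have h2 : Tendsto (fun k : ℕ => θ ^ k) atTop (𝓝 0) := tendsto_pow_atTop_nhds_zero_of_lt_one h0.le h1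
  have h3 : Tendsto (fun k : ℕ => T * (1 - θ ^ k)) atTop (𝓝 (T * (1 - 0))) :=
    (h2.const_sub 1).const_mul T
  rw [sub_zero, mul_one] at h3
  exact h3

theorem geo (q : ℝ) (hq : 0 < q) (b : ℕ → ℝ) (hb : ∀ k, 0 < b (k + 1))
    (h : ∀ k, q * ∑ j ∈ Finset.range (k + 1), b (j + 1) ≤ b (k + 1)) (k : ℕ) :
    q * (1 + q) ^ k * b 1 ≤ b (k + 1) := by
  have h1 : ∀ k, (1 + q) ^ k * b 1 ≤ ∑ j ∈ Finset.range (k + 1), b (j + 1) := by
    intro k
    induction k with
    | zero => simp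
    | succ k ih =>
      have h2 := h (k + 1)
      rw [Finset.sum_range_succ] at h2 ⊢
      have h3 := hb (k + 1)
      have h4 : q * ∑ j ∈ Finset.range (k + 1), b (j + 1) ≤ b (k + 1 + 1) := by
        nlinarith
      calc (1 + q) ^ (k + 1) * b 1 = (1 + q) * ((1 + q) ^ k * b 1) := by ring
        _ ≤ (1 + q) * ∑ j ∈ Finset.range (k + 1), b (j + 1) :=
            mul_le_mul_of_nonneg_left ih (by linarith)
        _ ≤ _ := by linarith
  calc q * (1 + q) ^ k * b 1 = q * ((1 + q) ^ k * b 1) := by ring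
    _ ≤ q * ∑ j ∈ Finset.range (k + 1), b (j + 1) := mul_le_mul_of_nonneg_left (h1 k) hq.le
    _ ≤ _ := h k

theorem low {y β g : ℝ → ℝ} {B' M t₁ t₂ : ℝ} (hM : 0 ≤ M) (h12 : t₁ ≤ t₂)
    (hyi : IntervalIntegrable y volume t₁ t₂) (hgi : IntervalIntegrable g volume t₁ t₂)
    (h : ∀ t ∈ Icc t₁ t₂, y t ≤ M * β t * g t) (hβ : ∀ t ∈ Icc t₁ t₂, β t ≤ B')
    (hg : ∀ t ∈ Icc t₁ t₂, 0 ≤ g t) :
    (∫ t in t₁..t₂, y t) ≤ M * B' * ∫ t in t₁..t₂, g t := by
  rw [← intervalIntegral.integral_const_mul]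
  refine intervalIntegral.integral_mono_on h12 hyi (hgi.const_mul _) fun t ht => ?_
  refine (h t ht).trans ?_
  exact mul_le_mul_of_nonneg_right (mul_le_mul_of_nonneg_left (hβ t ht) hM) (hg t ht)

/-- the upper bound `A(t₂) ≤ √2 A(t₁)`. -/
theorem supb (hSUP : SpecSUP) {T : ℝ} {α : ℝ → ℝ} (hα : ContinuousOn α (Ico 0 T))
    (hp : ∀ t ∈ Ico 0 T, 0 < α t) {t₁ t₂ : ℝ} (h0 : 0 ≤ t₁) (h12 : t₁ ≤ t₂) (h2 : t₂ < T)
    (hb : ∀ t ∈ Icc t₁ t₂, α t ^ 2 ≤ 2 * α t₁ ^ 2) :
    0 < supT α t₁ ∧ 0 < supT α t₂ ∧ supT α t₂ ^ 2 ≤ 2 * supT α t₁ ^ 2 := by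
  obtain ⟨hm, -, hub, hatt⟩ := hSUP T α hα
  have m1 : t₁ ∈ Ico 0 T := ⟨h0, h12.trans_lt h2⟩
  have m2 : t₂ ∈ Ico 0 T := ⟨h0.trans h12, h2⟩
  have p1 : 0 < supT α t₁ := (hp t₁ m1).trans_le (hub t₁ m1 t₁ ⟨h0, le_rfl⟩)
  have p2 : 0 < supT α t₂ := (hp t₂ m2).trans_le (hub t₂ m2 t₂ ⟨m2.1, le_rfl⟩)
  refine ⟨p1, p2, ?_⟩
  obtain ⟨s, hs, hs2⟩ := hatt t₂ m2
  rw [hs2]
  have ps : 0 < α s := hp s ⟨hs.1, hs.2.trans_lt h2⟩
  rcases le_total s t₁ with hc | hc
  · have h3 := hub t₁ m1 s ⟨hs.1, hc⟩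
    nlinarith [pow_le_pow_left₀ ps.le h3 2, sq_nonneg (supT α t₁)]
  · have h3 := hb s ⟨hc, hs.2⟩
    have h4 := hub t₁ m1 t₁ ⟨h0, le_rfl⟩
    have h5 := pow_le_pow_left₀ (hp t₁ m1).le h4 2
    linarith

theorem dbl (hSUP : SpecSUP) {T m c C : ℝ} {α β y g gs : ℝ → ℝ} (hD : Dat T m c C α β y g gs)
    {t₁ t₂ : ℝ} (h0 : 0 ≤ t₁) (h12 : t₁ ≤ t₂) (h2 : t₂ < T)
    (hs : (t₂ - t₁) * (∫ t in t₁..t₂, y t) < min c (C⁻¹ ^ 4)) :
    supT α t₂ * supT β t₂ ≤ 2 * (supT α t₁ * supT β t₁) := by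
  have hC := hD.C0
  set X := (t₂ - t₁) * (∫ t in t₁..t₂, y t) with hX
  have hX0 : 0 ≤ X := by
    apply mul_nonneg (by linarith)
    apply intervalIntegral.integral_nonneg h12
    intro t ht
    exact (hD.pos t ⟨h0.trans ht.1, ht.2.trans_lt h2⟩).2.2.1
  have h3 := hD.gc t₁ t₂ h0 h12 h2 (hs.le.trans (min_le_left _ _))
  have h4 : C * X ^ (1 / 4 : ℝ) ≤ 1 := by
    have h5 : X ^ (1 / 4 : ℝ) ≤ (C⁻¹ ^ 4) ^ (1 / 4 : ℝ) :=
      Real.rpow_le_rpow hX0 (hs.le.trans (min_le_right _ _)) (by norm_num)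
    have h6 : (C⁻¹ ^ 4) ^ (1 / 4 : ℝ) = C⁻¹ := by
      rw [← Real.rpow_natCast, ← Real.rpow_mul (by positivity)]
      norm_num
    rw [h6] at h5
    calc C * X ^ (1 / 4 : ℝ) ≤ C * C⁻¹ := mul_le_mul_of_nonneg_left h5 hC.le
      _ = 1 := mul_inv_cancel₀ hC.ne'
  have hα := supb hSUP hD.cα (fun t ht => (hD.pos t ht).1) h0 h12 h2 (fun t ht => by
    refine (h3 t ht).2.trans ?_
    exact mul_le_mul_of_nonneg_right (by linarith) (sq_nonneg _))
  have hβ := supb hSUP hD.cβ (fun t ht => (hD.pos t ht).2.1) h0 h12 h2 (fun t ht => by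
    refine (h3 t ht).1.trans ?_
    exact mul_le_mul_of_nonneg_right (by linarith) (sq_nonneg _))
  obtain ⟨pa1, pa2, ha⟩ := hα
  obtain ⟨pb1, pb2, hb⟩ := hβ
  have h7 : (supT α t₂ * supT β t₂) ^ 2 ≤ (2 * (supT α t₁ * supT β t₁)) ^ 2 := by
    calc (supT α t₂ * supT β t₂) ^ 2 = supT α t₂ ^ 2 * supT β t₂ ^ 2 := by ring
      _ ≤ (2 * supT α t₁ ^ 2) * (2 * supT β t₁ ^ 2) :=
          mul_le_mul ha hb (sq_nonneg _) (by positivity)
      _ = _ := by ring
  exact (pow_le_pow_iff_left₀ (by positivity) (by positivity) two_ne_zero).1 h7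

end RA1M

open RA1M

theorem specRA1 (hRLB : SpecRLB) (hSUP : SpecSUP) : SpecRA1 := by
  intro T m c C α β y g gs hT hD K hK
  by_contra hcon
  obtain ⟨c₁, hc₁, hlow⟩ := hRLB T m c C α β y g gs hT hD hcon
  obtain ⟨Amono, Acont, Aub, -⟩ := hSUP T α hD.cα
  obtain ⟨Bmono, Bcont, Bub, -⟩ := hSUP T β hD.cβ
  have Apos : ∀ t ∈ Ico 0 T, 0 < supT α t := fun t ht =>
    (hD.pos t ht).1.trans_le (Aub t ht t ⟨ht.1, le_rfl⟩)
  have Bpos : ∀ t ∈ Ico 0 T, 0 < supT β t := fun t ht =>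
    (hD.pos t ht).2.1.trans_le (Bub t ht t ⟨ht.1, le_rfl⟩)
  have hK' : ∀ t ∈ Ico 0 T, supT α t * supT β t * (T - t) ≤ K := fun t ht => by
    have h1 : 0 < T - t := by linarith [ht.2]
    exact (le_div_iff₀ h1).1 (hK t ht)
  have m0 : (0 : ℝ) ∈ Ico 0 T := ⟨le_rfl, hT⟩
  have hKc : c₁ ≤ K := (hlow 0 m0).trans (hK' 0 m0)
  have hK0 : 0 < K := hc₁.trans_le hKc
  set θ : ℝ := c₁ / (4 * K) with hθ
  have hθ0 : 0 < θ := by positivity
  have hθ1 : θ ≤ 1 / 4 := by
    rw [hθ, div_le_div_iff₀ (by positivity) (by norm_num)]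
    linarith
  have hθ2 : θ < 1 := by linarith
  set t : ℕ → ℝ := tk T θ with ht
  have tm : ∀ k, t k ∈ Ico 0 T := tk_mem hT hθ0 hθ2
  have tmono : Monotone t := tk_mono hT hθ0 hθ2
  have tle : ∀ k, t k ≤ t (k + 1) := fun k => tmono (Nat.le_succ k)
  have t0 : t 0 = 0 := tk_zero T θ
  have tsub : ∀ k, T - t (k + 1) = θ * (T - t k) := by
    intro k
    rw [ht, tk_sub, tk_sub, pow_succ]; ring
  have tpos : ∀ k, 0 < T - t k := fun k => by linarith [(tm k).2]
  have tlen : ∀ k, (t (k + 1) - t k) * θ ≤ T - t (k + 1) := by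
    intro k
    have h1 := tsub k
    have h2 := tpos (k + 1)
    nlinarith
  set M : ℝ := m * Real.sqrt m with hM
  have hM0 : 0 < M := mul_pos hD.m0 (Real.sqrt_pos.2 hD.m0)
  set ε : ℝ := min c (C⁻¹ ^ 4) with hε
  have hε0 : 0 < ε := lt_min hD.c0 (by have := hD.C0; positivity)
  -- interval integrability
  have yint : ∀ k, IntervalIntegrable y volume (t k) (t (k + 1)) := by
    intro k
    apply ContinuousOn.intervalIntegrable
    rw [uIcc_of_le (tle k)]
    exact hD.cy.mono fun s hs => ⟨(tm k).1.trans hs.1, hs.2.trans_lt (tm (k + 1)).2⟩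
  have Aint : ∀ k, IntervalIntegrable (supT α) volume (t k) (t (k + 1)) := by
    intro k
    apply ContinuousOn.intervalIntegrable
    rw [uIcc_of_le (tle k)]
    exact Acont.mono fun s hs => ⟨(tm k).1.trans hs.1, hs.2.trans_lt (tm (k + 1)).2⟩
  have gint : ∀ f : ℝ → ℝ, (∀ t ∈ Ico 0 T, IntegrableOn f (Icc 0 t)) →
      ∀ a b : ℝ, 0 ≤ a → a ≤ b → b < T → IntervalIntegrable f volume a b := by
    intro f hf a b ha hab hb
    rw [intervalIntegrable_iff_integrableOn_Icc_of_le hab]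
    exact (hf b ⟨ha.trans hab, hb⟩).mono_set (Icc_subset_Icc_left ha)
  have gk : ∀ k, IntervalIntegrable g volume (t k) (t (k + 1)) := fun k =>
    gint g hD.ig _ _ (tm k).1 (tle k) (tm (k + 1)).2
  have gsk : ∀ k, IntervalIntegrable gs volume (t k) (t (k + 1)) := fun k =>
    gint gs hD.igs _ _ (tm k).1 (tle k) (tm (k + 1)).2
  have Ik : ∀ k, ∀ s ∈ Icc (t k) (t (k + 1)), s ∈ Ico 0 T := fun k s hs =>
    ⟨(tm k).1.trans hs.1, hs.2.trans_lt (tm (k + 1)).2⟩
  -- (a)
  have ha : ∀ k, ε ≤ (t (k + 1) - t k) * ∫ s in (t k)..(t (k + 1)), y s := by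
    intro k
    by_contra hlt
    rw [not_le] at hlt
    have h1 := dbl hSUP hD (tm k).1 (tle k) (tm (k + 1)).2 hlt
    have h2 := hlow (t (k + 1)) (tm (k + 1))
    have h3 := hK' (t k) (tm k)
    have h4 := tpos (k + 1)
    have h5 : supT α (t (k + 1)) * supT β (t (k + 1)) * (T - t (k + 1)) ≤ 2 * θ * K := by
      calc supT α (t (k + 1)) * supT β (t (k + 1)) * (T - t (k + 1))
          ≤ 2 * (supT α (t k) * supT β (t k)) * (T - t (k + 1)) :=
            mul_le_mul_of_nonneg_right h1 h4.le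
        _ = 2 * θ * (supT α (t k) * supT β (t k) * (T - t k)) := by rw [tsub k]; ring
        _ ≤ 2 * θ * K := mul_le_mul_of_nonneg_left h3 (by positivity)
    have h6 : 2 * θ * K = c₁ / 2 := by rw [hθ]; field_simp; ring
    linarith
  -- (b)
  have hb0 : ∀ (B' G : ℝ) (k : ℕ), 0 ≤ G → 0 ≤ B' →
      (∫ s in (t k)..(t (k + 1)), y s) ≤ M * B' * G → ∀ A' : ℝ, 0 ≤ A' →
      A' * B' * (T - t (k + 1)) ≤ K → ε * θ * A' ≤ M * K * G := by
    intro B' G k hG hB' hy A' hA' hAB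
    have h1 := ha k
    have h2 : 0 ≤ t (k + 1) - t k := by linarith [tle k]
    calc ε * θ * A' ≤ ((t (k + 1) - t k) * ∫ s in (t k)..(t (k + 1)), y s) * θ * A' := by gcongr
      _ ≤ ((t (k + 1) - t k) * (M * B' * G)) * θ * A' := by gcongr
      _ = ((t (k + 1) - t k) * θ) * (M * (A' * B') * G) := by ring
      _ ≤ (T - t (k + 1)) * (M * (A' * B') * G) :=
          mul_le_mul_of_nonneg_right (tlen k) (by positivity)
      _ = M * (A' * B' * (T - t (k + 1))) * G := by ring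
      _ ≤ M * K * G := by gcongr
  have gnn : ∀ k, 0 ≤ ∫ s in (t k)..(t (k + 1)), g s := fun k =>
    intervalIntegral.integral_nonneg (tle k) fun s hs => (hD.pos s (Ik k s hs)).2.2.2.1
  have gsnn : ∀ k, 0 ≤ ∫ s in (t k)..(t (k + 1)), gs s := fun k =>
    intervalIntegral.integral_nonneg (tle k) fun s hs => (hD.pos s (Ik k s hs)).2.2.2.2
  set c₂ : ℝ := ε * θ / (M * K) with hc₂
  have hc₂0 : 0 < c₂ := by positivity
  have hbA : ∀ k, c₂ * supT α (t (k + 1)) ≤ ∫ s in (t k)..(t (k + 1)), g s := by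
    intro k
    have h1 := low (y := y) (β := β) (g := g) (B' := supT β (t (k + 1))) hM0.le (tle k) (yint k)
      (gk k) (fun s hs => hD.yg s (Ik k s hs))
      (fun s hs => Bub (t (k + 1)) (tm (k + 1)) s ⟨(tm k).1.trans hs.1, hs.2⟩)
      (fun s hs => (hD.pos s (Ik k s hs)).2.2.2.1)
    have h2 := hb0 _ _ k (gnn k) (Bpos _ (tm (k + 1))).le h1 _ (Apos _ (tm (k + 1))).le
      (hK' _ (tm (k + 1)))
    rw [hc₂, div_mul_eq_mul_div, div_le_iff₀ (by positivity)]
    linarith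
  have hbB : ∀ k, c₂ * supT β (t (k + 1)) ≤ ∫ s in (t k)..(t (k + 1)), gs s := by
    intro k
    have h1 := low (y := y) (β := α) (g := gs) (B' := supT α (t (k + 1))) hM0.le (tle k) (yint k)
      (gsk k) (fun s hs => hD.ygs s (Ik k s hs))
      (fun s hs => Aub (t (k + 1)) (tm (k + 1)) s ⟨(tm k).1.trans hs.1, hs.2⟩)
      (fun s hs => (hD.pos s (Ik k s hs)).2.2.2.2)
    have h3 := hK' _ (tm (k + 1))
    have h2 := hb0 _ _ k (gsnn k) (Apos _ (tm (k + 1))).le h1 _ (Bpos _ (tm (k + 1))).le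
      (by rwa [mul_comm (supT β (t (k + 1)))])
    rw [hc₂, div_mul_eq_mul_div, div_le_iff₀ (by positivity)]
    linarith
  -- (c)
  have hsum : ∀ f : ℝ → ℝ, (∀ k, IntervalIntegrable f volume (t k) (t (k + 1))) → ∀ n : ℕ,
      ∑ j ∈ Finset.range n, ∫ s in (t j)..(t (j + 1)), f s = ∫ s in (0 : ℝ)..(t n), f s := by
    intro f hf n
    have h1 := intervalIntegral.sum_integral_adjacent_intervals (f := f) (a := t) (n := n)
      (μ := volume) (fun k _ => hf k)
    rw [h1, t0]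
  set q : ℝ := 4 * c₂ / M with hq
  have hq0 : 0 < q := by positivity
  have hqA : ∀ k, q * ∑ j ∈ Finset.range (k + 1), supT α (t (j + 1)) ≤ supT α (t (k + 1)) := by
    intro k
    have h1 := hD.bg (t (k + 1)) (tm (k + 1))
    rw [← hsum g gk (k + 1)] at h1
    have h2 : c₂ * ∑ j ∈ Finset.range (k + 1), supT α (t (j + 1)) ≤
        ∑ j ∈ Finset.range (k + 1), ∫ s in (t j)..(t (j + 1)), g s := by
      rw [Finset.mul_sum]
      exact Finset.sum_le_sum fun j _ => hbA j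
    rw [hq, div_mul_eq_mul_div, div_le_iff₀ hM0]
    linarith
  have hqB : ∀ k, q * ∑ j ∈ Finset.range (k + 1), supT β (t (j + 1)) ≤ supT β (t (k + 1)) := by
    intro k
    have h1 := hD.bgs (t (k + 1)) (tm (k + 1))
    rw [← hsum gs gsk (k + 1)] at h1
    have h2 : c₂ * ∑ j ∈ Finset.range (k + 1), supT β (t (j + 1)) ≤
        ∑ j ∈ Finset.range (k + 1), ∫ s in (t j)..(t (j + 1)), gs s := by
      rw [Finset.mul_sum]
      exact Finset.sum_le_sum fun j _ => hbB j
    rw [hq, div_mul_eq_mul_div, div_le_iff₀ hM0]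
    linarith
  have geoA := geo q hq0 (fun k => supT α (t k)) (fun k => Apos _ (tm (k + 1))) hqA
  have geoB := geo q hq0 (fun k => supT β (t k)) (fun k => Bpos _ (tm (k + 1))) hqB
  -- A tends to infinity
  have Atend : Tendsto (supT α) (𝓝[<] T) atTop := by
    rw [tendsto_atTop]
    intro R
    have h1 : Tendsto (fun k : ℕ => q * (1 + q) ^ k * supT α (t 1)) atTop atTop := by
      have h2 : Tendsto (fun k : ℕ => (1 + q) ^ k) atTop atTop :=
        tendsto_pow_atTop_atTop_of_one_lt (by linarith)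
      have h3 := h2.const_mul_atTop (mul_pos hq0 (Apos _ (tm 1)))
      refine h3.congr fun k => by ring
    obtain ⟨k, hk⟩ := (h1.eventually (eventually_ge_atTop R)).exists
    have h4 : R ≤ supT α (t (k + 1)) := hk.trans (geoA k)
    filter_upwards [Ioo_mem_nhdsLT (tm (k + 1)).2] with s hs
    exact h4.trans (Amono (tm (k + 1)) ⟨(tm (k + 1)).1.trans hs.1.le, hs.2⟩ hs.1.le)
  -- (d) A is integrable
  have Aon : IntegrableOn (supT α) (Ico 0 T) := by
    rw [integrableOn_Ico_iff_integrableOn_Ioo, ← integrableOn_Ioc_iff_integrableOn_Ioo]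
    set r : ℝ := (1 + q)⁻¹ with hr
    have hr0 : 0 < r := by positivity
    have hr1 : r < 1 := inv_lt_one_of_one_lt₀ (by linarith)
    have b1 : 0 < supT β (t 1) := Bpos _ (tm 1)
    have hstep : ∀ j, (∫ s in (t j)..(t (j + 1)), supT α s) ≤
        K / (θ * q * supT β (t 1)) * r ^ j := by
      intro j
      have h1 : (∫ s in (t j)..(t (j + 1)), supT α s) ≤
          ∫ s in (t j)..(t (j + 1)), supT α (t (j + 1)) := by
        refine intervalIntegral.integral_mono_on (tle j) (Aint j) (by simp) fun s hs => ?_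
        exact Amono (Ik j s hs) (tm (j + 1)) hs.2
      rw [intervalIntegral.integral_const, smul_eq_mul] at h1
      have h2 := geoB j
      have h3 := hK' _ (tm (j + 1))
      have h4 := tlen j
      have h5 : 0 < supT α (t (j + 1)) := Apos _ (tm (j + 1))
      have h6 : 0 < supT β (t (j + 1)) := Bpos _ (tm (j + 1))
      have h7 : 0 < (1 + q) ^ j := by positivity
      have h8 : 0 ≤ t (j + 1) - t j := by linarith [tle j]
      have h9 : (t (j + 1) - t j) * supT α (t (j + 1)) * (θ * q * supT β (t 1)) ≤ K * r ^ j := by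
        have h10 : ((t (j + 1) - t j) * θ) * (supT α (t (j + 1)) * (q * (1 + q) ^ j * supT β (t 1)))
            ≤ K := by
          calc ((t (j + 1) - t j) * θ) * (supT α (t (j + 1)) * (q * (1 + q) ^ j * supT β (t 1)))
              ≤ (T - t (j + 1)) * (supT α (t (j + 1)) * supT β (t (j + 1))) := by
                apply mul_le_mul h4 _ (by positivity) (tpos _).le
                exact mul_le_mul_of_nonneg_left h2 h5.le
            _ = supT α (t (j + 1)) * supT β (t (j + 1)) * (T - t (j + 1)) := by ring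
            _ ≤ K := h3
        have h11 : r ^ j * (1 + q) ^ j = 1 := by
          rw [← mul_pow, hr, inv_mul_cancel₀ (by positivity), one_pow]
        calc (t (j + 1) - t j) * supT α (t (j + 1)) * (θ * q * supT β (t 1))
            = (((t (j + 1) - t j) * θ) * (supT α (t (j + 1)) * (q * (1 + q) ^ j * supT β (t 1))))
              * r ^ j := by
              linear_combination (-((t (j + 1) - t j) * θ * supT α (t (j + 1)) * q * supT β (t 1))) * h11
          _ ≤ K * r ^ j := mul_le_mul_of_nonneg_right h10 (by positivity)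
      rw [div_mul_eq_mul_div, le_div_iff₀ (by positivity)]
      exact (mul_le_mul_of_nonneg_right h1 (by positivity)).trans h9
    refine integrableOn_Ioc_of_intervalIntegral_norm_bounded_right (l := atTop) (b := t)
      (I := K / (θ * q * supT β (t 1)) * ∑' j, r ^ j) ?_ (tk_tend hθ0 hθ2) ?_
    · intro k
      have h1 : ContinuousOn (supT α) (Icc 0 (t k)) :=
        Acont.mono fun s hs => ⟨hs.1, hs.2.trans_lt (tm k).2⟩
      exact (h1.integrableOn_Icc).mono_set Ioc_subset_Icc_self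
    · refine Eventually.of_forall fun k => ?_
      have h1 : (∫ x in Ioc 0 (t k), ‖supT α x‖) = ∫ s in (0 : ℝ)..(t k), supT α s := by
        rw [intervalIntegral.integral_of_le (tm k).1]
        refine setIntegral_congr_fun measurableSet_Ioc fun s hs => ?_
        have h2 : s ∈ Ico 0 T := ⟨hs.1.le, hs.2.trans_lt (tm k).2⟩
        simp only [Real.norm_eq_abs]
        exact abs_of_pos (Apos s h2)
      rw [h1, ← hsum _ Aint k]
      calc ∑ j ∈ Finset.range k, ∫ s in (t j)..(t (j + 1)), supT α s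
          ≤ ∑ j ∈ Finset.range k, K / (θ * q * supT β (t 1)) * r ^ j :=
            Finset.sum_le_sum fun j _ => hstep j
        _ = K / (θ * q * supT β (t 1)) * ∑ j ∈ Finset.range k, r ^ j := by rw [Finset.mul_sum]
        _ ≤ K / (θ * q * supT β (t 1)) * ∑' j, r ^ j := by
            apply mul_le_mul_of_nonneg_left _ (by positivity)
            exact (summable_geometric_of_lt_one hr0.le hr1).sum_le_tsum _
              (fun j _ => by positivity)
  -- (e)
  refine hD.gas Aon Atend (c₂ * (θ * c₁ / K)) (t 1) (by positivity) (tm 1) fun s hs => ?_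
  have hsT : s ∈ Ico 0 T := ⟨(tm 1).1.trans hs.1, hs.2⟩
  have hex : ∃ k, s < t k :=
    ((tk_tend (T := T) hθ0 hθ2).eventually (eventually_gt_nhds hs.2)).exists
  classical
  set n := Nat.find hex with hn
  have hn1 : s < t n := Nat.find_spec hex
  have hn2 : 2 ≤ n := by
    by_contra hlt
    have h1 : n ≤ 1 := by omega
    exact absurd (hs.1.trans_lt hn1) (not_lt.2 (tmono h1))
  obtain ⟨k, hk⟩ : ∃ k, n = k + 2 := ⟨n - 2, by omega⟩
  have hk1 : t (k + 1) ≤ s := by
    have := Nat.find_min hex (m := k + 1) (by omega)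
    exact not_lt.1 this
  rw [hk] at hn1
  have h1 : supT α s ≤ supT α (t (k + 2)) := Amono hsT (tm (k + 2)) hn1.le
  have h2 : supT α (t (k + 2)) * (θ * c₁) ≤ K * supT α (t (k + 1)) := by
    have h3 := hK' _ (tm (k + 2))
    have h4 := hlow _ (tm (k + 1))
    have h5 := tsub (k + 1)
    have h6 : supT β (t (k + 1)) ≤ supT β (t (k + 2)) := Bmono (tm (k + 1)) (tm (k + 2)) (tle (k + 1))
    have p1 := Apos _ (tm (k + 1))
    have p2 := Apos _ (tm (k + 2))
    have p3 := Bpos _ (tm (k + 1))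
    have p4 := tpos (k + 1)
    calc supT α (t (k + 2)) * (θ * c₁)
        ≤ supT α (t (k + 2)) * (θ * (supT α (t (k + 1)) * supT β (t (k + 1)) * (T - t (k + 1)))) := by
          gcongr
      _ = (supT α (t (k + 2)) * supT β (t (k + 1)) * (T - t (k + 2))) * supT α (t (k + 1)) := by
          have : t (k + 1 + 1) = t (k + 2) := rfl
          rw [this] at h5
          rw [h5]; ring
      _ ≤ (supT α (t (k + 2)) * supT β (t (k + 2)) * (T - t (k + 2))) * supT α (t (k + 1)) := by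
          have := tpos (k + 2)
          gcongr
      _ ≤ K * supT α (t (k + 1)) := mul_le_mul_of_nonneg_right h3 p1.le
  have h7 : (∫ r in (t k)..(t (k + 1)), g r) ≤ ∫ r in (0 : ℝ)..s, g r := by
    have e1 := gint g hD.ig 0 (t k) le_rfl (tm k).1 (tm k).2
    have e2 := gint g hD.ig (t (k + 1)) s (tm (k + 1)).1 hk1 hs.2
    have e3 := intervalIntegral.integral_add_adjacent_intervals e1 (gk k)
    have e4 := intervalIntegral.integral_add_adjacent_intervals (e1.trans (gk k)) e2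
    have e5 : 0 ≤ ∫ r in (0 : ℝ)..(t k), g r := intervalIntegral.integral_nonneg (tm k).1
      fun r hr => (hD.pos r ⟨hr.1, hr.2.trans_lt (tm k).2⟩).2.2.2.1
    have e6 : 0 ≤ ∫ r in (t (k + 1))..s, g r := intervalIntegral.integral_nonneg hk1
      fun r hr => (hD.pos r ⟨(tm (k + 1)).1.trans hr.1, hr.2.trans_lt hs.2⟩).2.2.2.1
    linarith
  have h8 := hbA k
  calc c₂ * (θ * c₁ / K) * supT α s ≤ c₂ * (θ * c₁ / K) * supT α (t (k + 2)) := by gcongr
    _ = c₂ * (supT α (t (k + 2)) * (θ * c₁) / K) := by ring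
    _ ≤ c₂ * supT α (t (k + 1)) := by
        apply mul_le_mul_of_nonneg_left _ hc₂0.le
        rw [div_le_iff₀ hK0]
        linarith
    _ ≤ _ := h8.trans h7

end Pool.Agent.Lib.MP424d38.TY
end
end

section
set_option autoImplicit false

open MeasureTheory Filter Topology Set

namespace Pool.Agent.Lib.MP424d38.TY

namespace SUPM

theorem exists_eq {T : ℝ} {α : ℝ → ℝ} (h : ContinuousOn α (Ico 0 T)) {t : ℝ} (ht : t ∈ Ico 0 T) :
    ∃ s ∈ Icc 0 t, supT α t = α s ∧ ∀ r ∈ Icc 0 t, α r ≤ α s := by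
  have hsub : Icc 0 t ⊆ Ico 0 T := fun s hs => ⟨hs.1, lt_of_le_of_lt hs.2 ht.2⟩
  obtain ⟨s, hs, hmax⟩ := (isCompact_Icc (a := (0 : ℝ)) (b := t)).exists_isMaxOn
    (Set.nonempty_Icc.2 ht.1) (h.mono hsub)
  refine ⟨s, hs, ?_, fun r hr => hmax hr⟩
  unfold supT
  apply le_antisymm
  · apply csSup_le ((Set.nonempty_Icc.2 ht.1).image α)
    rintro _ ⟨r, hr, rfl⟩
    exact hmax hr
  · apply le_csSup
    · refine ⟨α s, ?_⟩
      rintro _ ⟨r, hr, rfl⟩
      exact hmax hr
    · exact ⟨s, hs, rfl⟩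

theorem le_supT {T : ℝ} {α : ℝ → ℝ} (h : ContinuousOn α (Ico 0 T)) {t : ℝ} (ht : t ∈ Ico 0 T)
    {r : ℝ} (hr : r ∈ Icc 0 t) : α r ≤ supT α t := by
  obtain ⟨s, hs, h1, h2⟩ := exists_eq h ht
  rw [h1]; exact h2 r hr

theorem mono {T : ℝ} {α : ℝ → ℝ} (h : ContinuousOn α (Ico 0 T)) :
    MonotoneOn (supT α) (Ico 0 T) := by
  intro a ha b hb hab
  obtain ⟨s, hs, h1, h2⟩ := exists_eq h ha
  rw [h1]
  exact le_supT h hb ⟨hs.1, hs.2.trans hab⟩

theorem cont {T : ℝ} {α : ℝ → ℝ} (h : ContinuousOn α (Ico 0 T)) :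
    ContinuousOn (supT α) (Ico 0 T) := by
  intro t₀ ht₀
  rw [Metric.continuousWithinAt_iff]
  intro ε hε
  set b := (t₀ + T) / 2 with hb
  have hb1 : t₀ < b := by have := ht₀.2; rw [hb]; linarith
  have hb2 : b < T := by have := ht₀.2; rw [hb]; linarith
  have hsub : Icc 0 b ⊆ Ico 0 T := fun s hs => ⟨hs.1, lt_of_le_of_lt hs.2 hb2⟩
  have hu : UniformContinuousOn α (Icc 0 b) :=
    isCompact_Icc.uniformContinuousOn_of_continuous (h.mono hsub)
  obtain ⟨δ, hδ, hd⟩ := Metric.uniformContinuousOn_iff.1 hu (ε / 2) (half_pos hε)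
  have key : ∀ t t' : ℝ, t ∈ Ico 0 T → t' ∈ Ico 0 T → t ≤ t' → t' ≤ b → t' - t < δ →
      supT α t' ≤ supT α t + ε / 2 := by
    intro t t' ht ht' htt htb hlt
    obtain ⟨s, hs, h1, h2⟩ := exists_eq h ht'
    rw [h1]
    rcases le_total s t with hst | hst
    · have := le_supT h ht ⟨hs.1, hst⟩
      linarith
    · have h3 := le_supT h ht (r := t) ⟨ht.1, le_rfl⟩
      have h4 : dist (α s) (α t) < ε / 2 := by
        apply hd s ⟨hs.1, hs.2.trans htb⟩ t ⟨ht.1, htt.trans htb⟩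
        rw [Real.dist_eq, abs_of_nonneg (by linarith)]
        linarith [hs.2]
      rw [Real.dist_eq] at h4
      linarith [(abs_lt.1 h4).2]
  refine ⟨min δ (b - t₀), lt_min hδ (by linarith), fun t ht hdist => ?_⟩
  rw [Real.dist_eq] at hdist ⊢
  have hd1 := lt_of_lt_of_le hdist (min_le_left _ _)
  have hd2 := lt_of_lt_of_le hdist (min_le_right _ _)
  have hm := mono h
  rcases le_total t t₀ with hle | hle
  · have h1 := hm ht ht₀ hle
    have h2 := key t t₀ ht ht₀ hle hb1.le (by rw [abs_of_nonpos (by linarith)] at hd1; linarith)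
    rw [abs_lt]; constructor <;> linarith
  · have h1 := hm ht₀ ht hle
    have h2 := key t₀ t ht₀ ht hle (by rw [abs_of_nonneg (by linarith)] at hd2; linarith)
      (by rw [abs_of_nonneg (by linarith)] at hd1; linarith)
    rw [abs_lt]; constructor <;> linarith

end SUPM

theorem specSUP : SpecSUP := by
  intro T α h
  refine ⟨SUPM.mono h, SUPM.cont h, fun t ht s hs => SUPM.le_supT h ht hs, fun t ht => ?_⟩
  obtain ⟨s, hs, h1, _⟩ := SUPM.exists_eq h ht
  exact ⟨s, hs, h1⟩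

end Pool.Agent.Lib.MP424d38.TY
end

section
/-!
# TRF: transfer of `H¹` solutions to null coordinates
-/
set_option autoImplicit false

open MeasureTheory Filter Topology Set
open scoped ENNReal ContDiff ComplexConjugate

noncomputable section

namespace Pool.Agent.Lib.MP424d38.TY

namespace TRFM

/-! ### test functions -/

lemma test_memLp {ψ : ℝ × ℝ → ℂ} (h : Test ψ) (p : ℝ≥0∞) : MemLp ψ p volume :=
  h.1.continuous.memLp_of_hasCompactSupport h.2

lemma test_fderiv {ψ : ℝ × ℝ → ℂ} (h : Test ψ) (v : ℝ × ℝ) :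
    Test (fun x => fderiv ℝ ψ x v) := by
  refine ⟨?_, ?_⟩
  · have h1 : ContDiff ℝ ∞ (fderiv ℝ ψ) := h.1.fderiv_right (by simp)
    exact h1.clm_apply contDiff_const
  · exact h.2.fderiv_apply ℝ v

lemma test_d1 {ψ : ℝ × ℝ → ℂ} (h : Test ψ) : Test (d1 ψ) := test_fderiv h _

lemma test_d2 {ψ : ℝ × ℝ → ℂ} (h : Test ψ) : Test (d2 ψ) := test_fderiv h _

lemma integrable_mul_test (f : L2) {ψ : ℝ × ℝ → ℂ} (h : Test ψ) :
    Integrable (fun x => f x * ψ x) :=
  MemLp.integrable_mul (Lp.memLp f) (test_memLp h 2)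

lemma test_conj {ψ : ℝ × ℝ → ℂ} (h : Test ψ) : MemLp (fun x => conj (ψ x)) 2 volume :=
  (test_memLp h 2).star

lemma integral_mul_eq_inner (f : L2) {ψ : ℝ × ℝ → ℂ} (h : Test ψ) :
    ∫ x, f x * ψ x = inner ℂ (test_conj h).toLp f := by
  rw [L2.inner_def]
  refine integral_congr_ae ?_
  filter_upwards [(test_conj h).coeFn_toLp] with x hx
  rw [hx]
  simp [mul_comm]

lemma continuous_integral_mul {ψ : ℝ × ℝ → ℂ} (h : Test ψ) :
    Continuous (fun f : L2 => ∫ x, f x * ψ x) := by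
  have : (fun f : L2 => ∫ x, f x * ψ x) = fun f => inner ℂ (test_conj h).toLp f := by
    funext f
    exact integral_mul_eq_inner f h
  rw [this]
  exact continuous_const.inner continuous_id

lemma d1_d2 {ψ : ℝ × ℝ → ℂ} (h : Test ψ) (x : ℝ × ℝ) : d1 (d2 ψ) x = d2 (d1 ψ) x := by
  have h1 : ContDiff ℝ ∞ (fderiv ℝ ψ) := h.1.fderiv_right (by simp)
  have h2 : DifferentiableAt ℝ (fderiv ℝ ψ) x := (h1.differentiable (by simp)) x
  have e1 : ∀ v w : ℝ × ℝ, fderiv ℝ (fun y => fderiv ℝ ψ y v) x w = fderiv ℝ (fderiv ℝ ψ) x w v := by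
    intro v w
    rw [fderiv_clm_apply h2 (differentiableAt_const _)]
    simp
  have h3 : IsSymmSndFDerivAt ℝ ψ x :=
    (h.1.contDiffAt (x := x)).isSymmSndFDerivAt (by
      simp only [minSmoothness_of_isRCLikeNormedField]
      exact WithTop.coe_le_coe.2 (le_top : (2 : ℕ∞) ≤ ⊤))
  unfold d1 d2
  rw [e1, e1]
  exact h3 _ _

/-! ### the linear isomorphism -/

/-- the inverse of `PhiN`. -/
def Psi : EE →L[ℝ] ℝ × ℝ :=
  ((EuclideanSpace.proj 0 : EE →L[ℝ] ℝ) - (EuclideanSpace.proj 1 : EE →L[ℝ] ℝ)).prod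
    ((EuclideanSpace.proj 0 : EE →L[ℝ] ℝ) + (EuclideanSpace.proj 1 : EE →L[ℝ] ℝ))

lemma Psi_apply (y : EE) : Psi y = (y 0 - y 1, y 0 + y 1) := rfl

lemma Psi_PhiN (x : ℝ × ℝ) : Psi (PhiN x) = x := by
  rw [Psi_apply]
  ext
  · simp [PhiN]; ring
  · simp [PhiN]; ring

lemma PhiN_Psi (y : EE) : PhiN (Psi y) = y := by
  rw [Psi_apply]
  ext i
  fin_cases i
  · simp [PhiN]
  · simp [PhiN]

lemma continuous_PhiN : Continuous PhiN := by
  unfold PhiN
  fun_prop

/-- `PhiN⁻¹` as a homeomorphism. -/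
def PsiH : EE ≃ₜ ℝ × ℝ where
  toFun := Psi
  invFun := PhiN
  left_inv := PhiN_Psi
  right_inv := Psi_PhiN
  continuous_toFun := Psi.continuous
  continuous_invFun := continuous_PhiN

lemma fderiv_comp_Psi {ψ : ℝ × ℝ → ℂ} (h : ContDiff ℝ ∞ ψ) (y v : EE) :
    fderiv ℝ (fun z => ψ (Psi z)) y v = fderiv ℝ ψ (Psi y) (Psi v) := by
  have h1 : HasFDerivAt (fun z => ψ (Psi z)) ((fderiv ℝ ψ (Psi y)).comp Psi) y :=
    ((h.differentiable (by simp)) (Psi y)).hasFDerivAt.comp y Psi.hasFDerivAt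
  rw [h1.fderiv]
  rfl

lemma Psi_e0 : Psi (EuclideanSpace.single 0 (1 : ℝ)) = (1, 1) := by
  rw [Psi_apply]; simp

lemma Psi_e1 : Psi (EuclideanSpace.single 1 (1 : ℝ)) = (-1, 1) := by
  rw [Psi_apply]; simp

lemma dir0 {ψ : ℝ × ℝ → ℂ} (z : ℝ × ℝ) : fderiv ℝ ψ z (1, 1) = d1 ψ z + d2 ψ z := by
  have : ((1 : ℝ), (1 : ℝ)) = ((1 : ℝ), (0 : ℝ)) + ((0 : ℝ), (1 : ℝ)) := by simp
  rw [this, map_add]; rfl

lemma dir1 {ψ : ℝ × ℝ → ℂ} (z : ℝ × ℝ) : fderiv ℝ ψ z (-1, 1) = -d1 ψ z + d2 ψ z := by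
  have : ((-1 : ℝ), (1 : ℝ)) = -((1 : ℝ), (0 : ℝ)) + ((0 : ℝ), (1 : ℝ)) := by simp
  rw [this, map_add, map_neg]; rfl

lemma d_add {f g : ℝ × ℝ → ℂ} (hf : Test f) (hg : Test g) (z v : ℝ × ℝ) :
    fderiv ℝ (fun x => f x + g x) z v = fderiv ℝ f z v + fderiv ℝ g z v := by
  have h1 : fderiv ℝ (fun x => f x + g x) z = fderiv ℝ f z + fderiv ℝ g z :=
    fderiv_add ((hf.1.differentiable (by simp)) z) ((hg.1.differentiable (by simp)) z)
  rw [h1]; rfl

lemma d_negadd {f g : ℝ × ℝ → ℂ} (hf : Test f) (hg : Test g) (z v : ℝ × ℝ) :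
    fderiv ℝ (fun x => -f x + g x) z v = -fderiv ℝ f z v + fderiv ℝ g z v := by
  have h1 : fderiv ℝ (fun x => -f x + g x) z = -fderiv ℝ f z + fderiv ℝ g z := by
    have h2 := fderiv_add (f := fun x => -f x) (g := g) (x := z)
      ((hf.1.differentiable (by simp)) z).neg ((hg.1.differentiable (by simp)) z)
    have h3 : fderiv ℝ (fun x => -f x) z = -fderiv ℝ f z := fderiv_neg
    rw [← h3]
    exact h2
  rw [h1]; rfl

lemma test_add {f g : ℝ × ℝ → ℂ} (hf : Test f) (hg : Test g) : Test (fun x => f x + g x) :=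
  ⟨hf.1.add hg.1, hf.2.add hg.2⟩

lemma test_neg {f : ℝ × ℝ → ℂ} (hf : Test f) : Test (fun x => -f x) := by
  refine ⟨hf.1.neg, ?_⟩
  have : (fun x => -f x) = fun x => (-1 : ℂ) * f x := by funext x; ring
  rw [this]
  exact hf.2.mul_left

lemma box {ψ : ℝ × ℝ → ℂ} (h : Test ψ) (y : EE) :
    (∑ j : Fin 2, (if (j : ℕ) + 1 = 2 then (-1 : ℂ) else 1) *
      fderiv ℝ (fun z => fderiv ℝ (fun w => ψ (Psi w)) z (EuclideanSpace.single j (1 : ℝ))) y
        (EuclideanSpace.single j (1 : ℝ))) = 4 * d2 (d1 ψ) (Psi y) := by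
  rw [Fin.sum_univ_two]
  have e0 : (fun z => fderiv ℝ (fun w => ψ (Psi w)) z (EuclideanSpace.single 0 (1 : ℝ)))
      = fun z => (fun x => d1 ψ x + d2 ψ x) (Psi z) := by
    funext z
    rw [fderiv_comp_Psi h.1, Psi_e0, dir0]
  have e1 : (fun z => fderiv ℝ (fun w => ψ (Psi w)) z (EuclideanSpace.single 1 (1 : ℝ)))
      = fun z => (fun x => -d1 ψ x + d2 ψ x) (Psi z) := by
    funext z
    rw [fderiv_comp_Psi h.1, Psi_e1, dir1]
  have t1 : Test (fun x => d1 ψ x + d2 ψ x) := test_add (test_d1 h) (test_d2 h)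
  have t2 : Test (fun x => -d1 ψ x + d2 ψ x) := test_add (test_neg (test_d1 h)) (test_d2 h)
  rw [e0, e1, fderiv_comp_Psi t1.1, fderiv_comp_Psi t2.1, Psi_e0, Psi_e1]
  rw [d_add (test_d1 h) (test_d2 h), d_negadd (test_d1 h) (test_d2 h)]
  rw [dir0, dir0, dir1, dir1, d1_d2 h]
  simp
  ring

/-! ### classes -/

open Classical in
/-- the `L2` class of `g ∘ PhiN` (zero if this is not in `L²`). -/
def cls (g : EE → ℂ) : L2 :=
  if h : MemLp (fun x => g (PhiN x)) 2 (volume : Measure (ℝ × ℝ)) then h.toLp _ else 0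

lemma cls_ae (hC : SpecCHV) {g : EE → ℂ} (hg : MemLp g 2 volume) :
    ∀ᵐ x : ℝ × ℝ, cls g x = g (PhiN x) := by
  have h : MemLp (fun x => g (PhiN x)) 2 (volume : Measure (ℝ × ℝ)) := hC.2.2.2.1 g 2 hg
  unfold cls
  rw [dif_pos h]
  exact h.coeFn_toLp

lemma norm_cls_sub (hC : SpecCHV) {g g' : EE → ℂ} (hg : MemLp g 2 volume) (hg' : MemLp g' 2 volume) :
    ‖cls g - cls g'‖ = Real.sqrt 2 * (eLpNorm (g - g') 2 volume).toReal := by
  rw [Lp.norm_def]
  have h1 : eLpNorm (cls g - cls g' : L2) 2 volume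
      = eLpNorm (fun x => (g - g') (PhiN x)) 2 volume := by
    refine eLpNorm_congr_ae ?_
    filter_upwards [Lp.coeFn_sub (cls g) (cls g'), cls_ae hC hg, cls_ae hC hg'] with x h1 h2 h3
    rw [h1, Pi.sub_apply, h2, h3]
    rfl
  rw [h1, hC.2.2.2.2.1 (g - g') (hg.sub hg').1, ENNReal.toReal_mul,
    ENNReal.toReal_ofReal (Real.sqrt_nonneg 2)]

lemma continuousOn_cls (hC : SpecCHV) {T : ℝ} {w : ℝ → EE → ℂ}
    (hw : ∀ t ∈ Ico 0 T, MemLp (w t) 2 volume)
    (hc : ∀ t ∈ Ico 0 T,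
      Tendsto (fun s : ℝ => eLpNorm (w s - w t) 2 volume) (𝓝[Ico 0 T] t) (𝓝 0)) :
    ContinuousOn (fun t => cls (w t)) (Ico 0 T) := by
  intro t ht
  rw [ContinuousWithinAt, tendsto_iff_norm_sub_tendsto_zero]
  have h1 := hc t ht
  have h2 : Tendsto (fun s : ℝ => (eLpNorm (w s - w t) 2 volume).toReal) (𝓝[Ico 0 T] t) (𝓝 0) := by
    have := (ENNReal.tendsto_toReal ENNReal.zero_ne_top).comp h1
    simpa [Function.comp_def] using this
  have h3 := h2.const_mul (Real.sqrt 2)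
  rw [mul_zero] at h3
  refine h3.congr' ?_
  filter_upwards [self_mem_nhdsWithin] with s hs
  exact (norm_cls_sub hC (hw s hs) (hw t ht)).symm

lemma integrable_of_cont {T : ℝ} {θ : ℝ → ℝ} {M : ℝ → ℂ} (hθ : Continuous θ)
    (hs : HasCompactSupport θ) (hs' : tsupport θ ⊆ Ioo 0 T) (hM : ContinuousOn M (Ico 0 T)) :
    Integrable (fun t => ((θ t : ℝ) : ℂ) * M t) := by
  have h1 : ContinuousOn (fun t => ((θ t : ℝ) : ℂ) * M t) (tsupport θ) := by
    refine ContinuousOn.mul ?_ (hM.mono (hs'.trans Ioo_subset_Ico_self))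
    exact (Complex.continuous_ofReal.comp hθ).continuousOn
  have h2 : IntegrableOn (fun t => ((θ t : ℝ) : ℂ) * M t) (tsupport θ) volume :=
    h1.integrableOn_compact hs
  refine (integrableOn_iff_integrable_of_support_subset ?_).1 h2
  intro t ht
  by_contra hcon
  have : θ t = 0 := image_eq_zero_of_notMem_tsupport hcon
  exact ht (by simp [this])

end TRFM

open TRFM in
theorem specTRF (hCHV : SpecCHV) (hWKD : SpecWKD) (hDBR : SpecDBR) (hCTN : SpecCTN) : SpecTRF := by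
  intro T u G hS
  -- the functions
  set w1 : ℝ → EE → ℂ := fun t y => (1 / 2 : ℂ) * (G t 0 y - G t 1 y) with hw1
  set w2 : ℝ → EE → ℂ := fun t y => (1 / 2 : ℂ) * (G t 0 y + G t 1 y) with hw2
  have mw1 : ∀ t ∈ Ico 0 T, MemLp (w1 t) 2 volume := fun t ht =>
    ((hS.memG t ht 0).sub (hS.memG t ht 1)).const_mul _
  have mw2 : ∀ t ∈ Ico 0 T, MemLp (w2 t) 2 volume := fun t ht =>
    ((hS.memG t ht 0).add (hS.memG t ht 1)).const_mul _
  have key : ∀ t ∈ Ico 0 T, ∀ s ∈ Ico 0 T,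
      eLpNorm (w1 s - w1 t) 2 volume ≤
        eLpNorm (G s 0 - G t 0) 2 volume + eLpNorm (G s 1 - G t 1) 2 volume ∧
      eLpNorm (w2 s - w2 t) 2 volume ≤
        eLpNorm (G s 0 - G t 0) 2 volume + eLpNorm (G s 1 - G t 1) 2 volume := by
    intro t ht s hs
    have m0 := (hS.memG s hs 0).sub (hS.memG t ht 0)
    have m1 := (hS.memG s hs 1).sub (hS.memG t ht 1)
    have hle : ∀ f : EE → ℂ, eLpNorm (fun y => (1 / 2 : ℂ) * f y) 2 volume ≤ eLpNorm f 2 volume := by
      intro f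
      refine eLpNorm_mono fun y => ?_
      rw [norm_mul]
      have : ‖(1 / 2 : ℂ)‖ ≤ 1 := by norm_num
      nlinarith [norm_nonneg (f y)]
    refine ⟨?_, ?_⟩
    · have e : w1 s - w1 t = fun y => (1 / 2 : ℂ) * ((G s 0 - G t 0) - (G s 1 - G t 1)) y := by
        funext y
        simp only [hw1, Pi.sub_apply]
        ring
      rw [e]
      exact (hle _).trans (eLpNorm_sub_le m0.1 m1.1 (by norm_num))
    · have e : w2 s - w2 t = fun y => (1 / 2 : ℂ) * ((G s 0 - G t 0) + (G s 1 - G t 1)) y := by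
        funext y
        simp only [hw2, Pi.sub_apply, Pi.add_apply]
        ring
      rw [e]
      exact (hle _).trans (eLpNorm_add_le m0.1 m1.1 (by norm_num))
  have cG : ∀ t ∈ Ico 0 T, Tendsto (fun s => eLpNorm (G s 0 - G t 0) 2 volume
      + eLpNorm (G s 1 - G t 1) 2 volume) (𝓝[Ico 0 T] t) (𝓝 0) := by
    intro t ht
    have := (hS.contG t ht 0).add (hS.contG t ht 1)
    simpa using this
  have cw1 : ∀ t ∈ Ico 0 T,
      Tendsto (fun s : ℝ => eLpNorm (w1 s - w1 t) 2 volume) (𝓝[Ico 0 T] t) (𝓝 0) := by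
    intro t ht
    refine tendsto_of_tendsto_of_tendsto_of_le_of_le' tendsto_const_nhds (cG t ht)
      (Eventually.of_forall fun _ => zero_le) ?_
    filter_upwards [self_mem_nhdsWithin] with s hs using (key t ht s hs).1
  have cw2 : ∀ t ∈ Ico 0 T,
      Tendsto (fun s : ℝ => eLpNorm (w2 s - w2 t) 2 volume) (𝓝[Ico 0 T] t) (𝓝 0) := by
    intro t ht
    refine tendsto_of_tendsto_of_tendsto_of_le_of_le' tendsto_const_nhds (cG t ht)
      (Eventually.of_forall fun _ => zero_le) ?_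
    filter_upwards [self_mem_nhdsWithin] with s hs using (key t ht s hs).2
  set v : ℝ → L2 := fun t => cls (u t) with hv
  set v₁ : ℝ → L2 := fun t => cls (w1 t) with hv₁
  set v₂ : ℝ → L2 := fun t => cls (w2 t) with hv₂
  have av : ∀ t ∈ Ico 0 T, ∀ᵐ x : ℝ × ℝ, v t x = u t (PhiN x) :=
    fun t ht => cls_ae hCHV (hS.memu t ht)
  have av₁ : ∀ t ∈ Ico 0 T, ∀ᵐ x : ℝ × ℝ,
      v₁ t x = (1 / 2 : ℂ) * (G t 0 (PhiN x) - G t 1 (PhiN x)) :=
    fun t ht => cls_ae hCHV (mw1 t ht)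
  have av₂ : ∀ t ∈ Ico 0 T, ∀ᵐ x : ℝ × ℝ,
      v₂ t x = (1 / 2 : ℂ) * (G t 0 (PhiN x) + G t 1 (PhiN x)) :=
    fun t ht => cls_ae hCHV (mw2 t ht)
  have cv : ContinuousOn v (Ico 0 T) := continuousOn_cls hCHV hS.memu hS.contu
  have c1 : ContinuousOn v₁ (Ico 0 T) := continuousOn_cls hCHV mw1 cw1
  have c2 : ContinuousOn v₂ (Ico 0 T) := continuousOn_cls hCHV mw2 cw2
  have h1 : ∀ t ∈ Ico 0 T, IsH1 (v t) (v₁ t) (v₂ t) := fun t ht =>
    hWKD (u t) (G t) (hS.memu t ht) (hS.memG t ht) (hS.weak t ht) _ _ _ (av t ht) (av₁ t ht)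
      (av₂ t ht)
  obtain ⟨⟨N, cN, nl⟩, _⟩ := hCTN T v v₁ v₂ h1 cv c1 c2
  refine ⟨v, v₁, v₂, N, ⟨⟨h1, cv, c1, c2, cN, ?_⟩, nl⟩, fun t ht => ⟨av t ht, av₁ t ht, av₂ t ht⟩⟩
  intro ψ hψ
  have cM : ContinuousOn (fun t => ∫ x, v t x * ψ x) (Ico 0 T) :=
    (continuous_integral_mul hψ).comp_continuousOn cv
  have cA : ContinuousOn (fun t => ∫ x, v₂ t x * d1 ψ x) (Ico 0 T) :=
    (continuous_integral_mul (test_d1 hψ)).comp_continuousOn c2
  have cB : ContinuousOn (fun t => ∫ x, N t x * ψ x) (Ico 0 T) :=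
    (continuous_integral_mul hψ).comp_continuousOn cN
  have cn : ContinuousOn (fun r => Complex.I * (-4 * (∫ x, v₂ r x * d1 ψ x) + ∫ x, N r x * ψ x))
      (Ico 0 T) := continuousOn_const.mul ((continuousOn_const.mul cA).add cB)
  refine hDBR T (fun t => ∫ x, v t x * ψ x)
    (fun r => Complex.I * (-4 * (∫ x, v₂ r x * d1 ψ x) + ∫ x, N r x * ψ x)) cM cn ?_
  intro θ hθ hθc hθT
  -- the test function in the original coordinates
  set φ : ℝ → EE → ℂ := fun t y => ((θ t : ℝ) : ℂ) * ψ (Psi y) with hφ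
  have hθC : ContDiff ℝ ∞ (fun t => ((θ t : ℝ) : ℂ)) := Complex.ofRealCLM.contDiff.comp hθ
  have hχ : ContDiff ℝ ∞ (fun y : EE => ψ (Psi y)) := hψ.1.comp Psi.contDiff
  have hχc : HasCompactSupport (fun y : EE => ψ (Psi y)) := hψ.2.comp_homeomorph PsiH
  have hφ1 : ContDiff ℝ ∞ (Function.uncurry φ) := by
    have : Function.uncurry φ = fun p : ℝ × EE => ((θ p.1 : ℝ) : ℂ) * ψ (Psi p.2) := rfl
    rw [this]
    exact (hθC.comp contDiff_fst).mul (hχ.comp contDiff_snd)
  have hsub : tsupport (Function.uncurry φ)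
      ⊆ tsupport θ ×ˢ tsupport (fun y : EE => ψ (Psi y)) := by
    refine closure_minimal ?_ ((isClosed_tsupport _).prod (isClosed_tsupport _))
    rintro ⟨t, y⟩ hp
    have hne : ((θ t : ℝ) : ℂ) * ψ (Psi y) ≠ 0 := hp
    refine ⟨subset_tsupport _ ?_, subset_tsupport _ ?_⟩
    · intro h0
      exact hne (by simp [h0])
    · intro h0
      have h0' : ψ (Psi y) = 0 := h0
      exact hne (by simp [h0'])
  have hφ2 : HasCompactSupport (Function.uncurry φ) :=
    IsCompact.of_isClosed_subset (hθc.prod hχc) (isClosed_tsupport _) hsub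
  have hφ3 : tsupport (Function.uncurry φ) ⊆ Ioo 0 T ×ˢ univ :=
    hsub.trans (prod_mono hθT (subset_univ _))
  have heq := hS.eq φ hφ1 hφ2 hφ3
  -- the inner integral
  have hinner : ∀ t : ℝ, (∫ y, (-Complex.I * u t y * deriv (fun s : ℝ => φ s y) t
       + u t y * ∑ j : Fin 2, (if (j : ℕ) + 1 = 2 then (-1 : ℂ) else 1) *
           fderiv ℝ (fun z => fderiv ℝ (φ t) z (EuclideanSpace.single j (1 : ℝ))) y
             (EuclideanSpace.single j (1 : ℝ))
       + ((‖u t y‖ ^ 2 : ℝ) : ℂ) * u t y * φ t y))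
      = (1 / 2 : ℂ) * (-Complex.I * (((deriv θ t : ℝ) : ℂ) * ∫ x, v t x * ψ x)
        + -Complex.I * (((θ t : ℝ) : ℂ) *
          (Complex.I * (-4 * (∫ x, v₂ t x * d1 ψ x) + ∫ x, N t x * ψ x)))) := by
    intro t
    have hder : ∀ y, deriv (fun s : ℝ => φ s y) t = ((deriv θ t : ℝ) : ℂ) * ψ (Psi y) := by
      intro y
      have h2 : HasDerivAt θ (deriv θ t) t :=
        ((hθ.differentiable (by simp)) t).hasDerivAt
      have h3 : HasDerivAt (fun s : ℝ => φ s y) (((deriv θ t : ℝ) : ℂ) * ψ (Psi y)) t :=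
        h2.ofReal_comp.mul_const _
      exact h3.deriv
    have hsnd : ∀ y, (∑ j : Fin 2, (if (j : ℕ) + 1 = 2 then (-1 : ℂ) else 1) *
           fderiv ℝ (fun z => fderiv ℝ (φ t) z (EuclideanSpace.single j (1 : ℝ))) y
             (EuclideanSpace.single j (1 : ℝ))) = ((θ t : ℝ) : ℂ) * (4 * d2 (d1 ψ) (Psi y)) := by
      intro y
      rw [← box hψ y, Finset.mul_sum]
      refine Finset.sum_congr rfl fun j _ => ?_
      have e1 : (fun z => fderiv ℝ (φ t) z (EuclideanSpace.single j (1 : ℝ)))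
          = fun z => ((θ t : ℝ) : ℂ) *
            fderiv ℝ (fun w => ψ (Psi w)) z (EuclideanSpace.single j (1 : ℝ)) := by
        funext z
        have hd : DifferentiableAt ℝ (fun w => ψ (Psi w)) z := (hχ.differentiable (by simp)) z
        have : fderiv ℝ (φ t) z = ((θ t : ℝ) : ℂ) • fderiv ℝ (fun w => ψ (Psi w)) z :=
          fderiv_const_mul hd _
        rw [this]
        rfl
      have hd2 : DifferentiableAt ℝ (fun z => fderiv ℝ (fun w => ψ (Psi w)) z
          (EuclideanSpace.single j (1 : ℝ))) y := by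
        have h4 : ContDiff ℝ ∞ (fderiv ℝ (fun w : EE => ψ (Psi w))) := hχ.fderiv_right (by simp)
        exact ((h4.clm_apply contDiff_const).differentiable (by simp)) y
      rw [e1, fderiv_const_mul hd2]
      simp only [smul_apply, smul_eq_mul]
      ring
    by_cases ht : t ∈ Ico 0 T
    · have hch := hCHV.2.2.1 (fun y => -Complex.I * u t y * deriv (fun s : ℝ => φ s y) t
       + u t y * ∑ j : Fin 2, (if (j : ℕ) + 1 = 2 then (-1 : ℂ) else 1) *
           fderiv ℝ (fun z => fderiv ℝ (φ t) z (EuclideanSpace.single j (1 : ℝ))) y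
             (EuclideanSpace.single j (1 : ℝ))
       + ((‖u t y‖ ^ 2 : ℝ) : ℂ) * u t y * φ t y)
      have hlhs : (∫ y, (-Complex.I * u t y * deriv (fun s : ℝ => φ s y) t
       + u t y * ∑ j : Fin 2, (if (j : ℕ) + 1 = 2 then (-1 : ℂ) else 1) *
           fderiv ℝ (fun z => fderiv ℝ (φ t) z (EuclideanSpace.single j (1 : ℝ))) y
             (EuclideanSpace.single j (1 : ℝ))
       + ((‖u t y‖ ^ 2 : ℝ) : ℂ) * u t y * φ t y))
        = (1 / 2 : ℂ) * ∫ x : ℝ × ℝ, (-Complex.I * ((deriv θ t : ℝ) : ℂ)) * (v t x * ψ x)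
          + (4 * ((θ t : ℝ) : ℂ)) * (v t x * d2 (d1 ψ) x) + ((θ t : ℝ) : ℂ) * (N t x * ψ x) := by
        have h5 : (∫ x : ℝ × ℝ, (-Complex.I * ((deriv θ t : ℝ) : ℂ)) * (v t x * ψ x)
          + (4 * ((θ t : ℝ) : ℂ)) * (v t x * d2 (d1 ψ) x) + ((θ t : ℝ) : ℂ) * (N t x * ψ x))
          = ∫ x : ℝ × ℝ, (fun y => -Complex.I * u t y * deriv (fun s : ℝ => φ s y) t
            + u t y * ∑ j : Fin 2, (if (j : ℕ) + 1 = 2 then (-1 : ℂ) else 1) *
             fderiv ℝ (fun z => fderiv ℝ (φ t) z (EuclideanSpace.single j (1 : ℝ))) y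
             (EuclideanSpace.single j (1 : ℝ))
            + ((‖u t y‖ ^ 2 : ℝ) : ℂ) * u t y * φ t y) (PhiN x) := by
          refine integral_congr_ae ?_
          filter_upwards [av t ht, nl t ht] with x hx hN
          rw [hder, hsnd, hN, hx, hφ]
          simp only
          rw [Psi_PhiN]
          ring
        rw [h5, hch]
        ring
      rw [hlhs]
      have i1 : Integrable (fun x : ℝ × ℝ => (-Complex.I * ((deriv θ t : ℝ) : ℂ)) * (v t x * ψ x)) :=
        (integrable_mul_test (v t) hψ).const_mul _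
      have i2 : Integrable (fun x : ℝ × ℝ => (4 * ((θ t : ℝ) : ℂ)) * (v t x * d2 (d1 ψ) x)) :=
        (integrable_mul_test (v t) (test_d2 (test_d1 hψ))).const_mul _
      have i3 : Integrable (fun x : ℝ × ℝ => ((θ t : ℝ) : ℂ) * (N t x * ψ x)) :=
        (integrable_mul_test (N t) hψ).const_mul _
      have a1 := integral_add (i1.add i2) i3
      have a2 := integral_add i1 i2
      simp only [Pi.add_apply] at a1 a2
      rw [a1, a2, integral_const_mul, integral_const_mul,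
        integral_const_mul, (h1 t ht (d1 ψ) (test_d1 hψ)).2]
      have hI : Complex.I * Complex.I = -1 := Complex.I_mul_I
      linear_combination (1 / 2 : ℂ) * ((θ t : ℝ) : ℂ) *
        (-4 * (∫ x, v₂ t x * d1 ψ x) + ∫ x, N t x * ψ x) * hI
    · have hnt : t ∉ tsupport θ := fun h => ht (Ioo_subset_Ico_self (hθT h))
      have h0 : θ t = 0 := image_eq_zero_of_notMem_tsupport hnt
      have h0' : deriv θ t = 0 := by
        have : t ∉ tsupport (deriv θ) := fun h => hnt (tsupport_deriv_subset h)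
        exact image_eq_zero_of_notMem_tsupport this
      have hφ0 : ∀ y, φ t y = 0 := fun y => by simp [hφ, h0]
      rw [h0, h0']
      simp only [hder, hsnd, hφ0, h0, h0']
      simp
  rw [integral_congr_ae (Eventually.of_forall hinner), integral_const_mul] at heq
  have hdθ : ContDiff ℝ ∞ (deriv θ) := by
    exact ((contDiff_infty_iff_deriv).1 hθ).2
  have j1 : Integrable (fun t => ((deriv θ t : ℝ) : ℂ) * ∫ x, v t x * ψ x) :=
    integrable_of_cont hdθ.continuous hθc.deriv (tsupport_deriv_subset.trans hθT) cM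
  have j2 : Integrable (fun t => ((θ t : ℝ) : ℂ) *
      (Complex.I * (-4 * (∫ x, v₂ t x * d1 ψ x) + ∫ x, N t x * ψ x))) :=
    integrable_of_cont hθ.continuous hθc hθT cn
  rw [integral_add (j1.const_mul _) (j2.const_mul _), integral_const_mul, integral_const_mul] at heq
  have hI : Complex.I ≠ 0 := Complex.I_ne_zero
  have hh : (1 / 2 : ℂ) * -Complex.I ≠ 0 := by
    simp [hI]
  have h6 : ((1 / 2 : ℂ) * -Complex.I) * ((∫ t, ((deriv θ t : ℝ) : ℂ) * ∫ x, v t x * ψ x) +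
      ∫ t, ((θ t : ℝ) : ℂ) *
        (Complex.I * (-4 * (∫ x, v₂ t x * d1 ψ x) + ∫ x, N t x * ψ x))) = 0 := by
    rw [← heq]
    ring
  exact (mul_eq_zero.1 h6).resolve_left hh

end Pool.Agent.Lib.MP424d38.TY
end
end
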