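import Pool.Agent.Lib.MP_424d38_an.SpecB
import Pool.Agent.Lib.MP_fa0334_an.Bump
import Pool.Agent.Lib.MP_424d38_an.ES.NEA
import Pool.Agent.Lib.MP_424d38_an.ES.MTC
import Pool.Agent.Lib.MP_424d38_an.ZER
import Pool.Agent.Lib.MP_424d38_an.TRF
import Pool.Agent.Lib.MP_424d38_an.TH.FTH
import Pool.Agent.Lib.MP_424d38_an.ES.LOW
import Pool.Agent.Lib.MP_424d38_an.FUG
import Pool.Agent.Lib.MP_424d38_an.ES.MOR
import Pool.Agent.Lib.MP_424d38_an.UGB

section
/-!
# MP_424d38_an, block B, module MOL (mollification)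
-/
set_option autoImplicit false

open MeasureTheory Filter Topology Set
open scoped ENNReal ContDiff ComplexConjugate

noncomputable section

namespace Pool.Agent.Lib.MP424d38.TY
namespace MOLM

open MPfa.Mol

/-- the identification of the plane with the complex numbers -/
def ee : (ℝ × ℝ) ≃L[ℝ] ℂ := Complex.equivRealProdCLM.symm

lemma ee_apply (x : ℝ × ℝ) : ee x = ⟨x.1, x.2⟩ := rfl

lemma ee_10 : ee (1, 0) = 1 := rfl

lemma ee_01 : ee (0, 1) = Complex.I := rfl

lemma ee_mp : MeasurePreserving (ee : ℝ × ℝ → ℂ) volume volume :=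
  Complex.volume_preserving_equiv_real_prod.symm

lemma ee_me : MeasurableEmbedding (ee : ℝ × ℝ → ℂ) :=
  Complex.measurableEquivRealProd.symm.measurableEmbedding

/-- the transported function -/
def tr (f : ℝ × ℝ → ℂ) (z : ℂ) : ℂ := f (z.re, z.im)

lemma tr_ee (f : ℝ × ℝ → ℂ) (x : ℝ × ℝ) : tr f (ee x) = f x := rfl

lemma tr_memLp {f : ℝ × ℝ → ℂ} (hf : MemLp f 2 volume) : MemLp (tr f) 2 volume :=
  hf.comp_measurePreserving Complex.volume_preserving_equiv_real_prod

lemma tr_loc {f : ℝ × ℝ → ℂ} (hf : MemLp f 2 volume) : LocallyIntegrable (tr f) :=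
  (tr_memLp hf).locallyIntegrable (by norm_num)

/-- the mollification on the plane -/
def pm (n : ℕ) (f : ℝ × ℝ → ℂ) (x : ℝ × ℝ) : ℂ := mol n (tr f) (ee x)

lemma pm_conv {f : ℝ × ℝ → ℂ} (hf : MemLp f 2 volume) :
    Tendsto (fun n => eLpNorm (fun x => pm n f x - f x) 2 volume) atTop (𝓝 0) := by
  have h := tendsto_mol' (p := 2) (Or.inr rfl) (F := tr f) (by exact_mod_cast tr_memLp hf)
  refine h.congr fun n => ?_
  have h1 : (fun x => pm n f x - f x) = (mol n (tr f) - tr f) ∘ ee := by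
    funext x
    simp only [Function.comp_apply, Pi.sub_apply, tr_ee]
    rfl
  rw [h1]
  have h2 : AEStronglyMeasurable (mol n (tr f) - tr f) volume :=
    ((mol_sm n (tr_loc hf)).continuous.aestronglyMeasurable).sub (tr_memLp hf).1
  rw [eLpNorm_comp_measurePreserving h2 ee_mp]
  norm_cast

lemma pm_smooth (n : ℕ) {f : ℝ × ℝ → ℂ} (hf : MemLp f 2 volume) : ContDiff ℝ ∞ (pm n f) :=
  (mol_sm n (tr_loc hf)).comp ee.contDiff

lemma norm_ee (x : ℝ × ℝ) : ‖ee x‖ ≤ 2 * ‖x‖ := by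
  have h1 : ‖ee x‖ ≤ |x.1| + |x.2| := Complex.norm_le_abs_re_add_abs_im (ee x)
  have h2 : |x.1| ≤ ‖x‖ := norm_fst_le x
  have h3 : |x.2| ≤ ‖x‖ := norm_snd_le x
  linarith

lemma pm_supp (n : ℕ) {f : ℝ × ℝ → ℂ} {R : ℝ} (h : ∀ᵐ x : ℝ × ℝ, R < ‖x‖ → f x = 0) :
    HasCompactSupport (pm n f) := by
  have h0 : ∀ᵐ y : ℂ, R < ‖ee.symm y‖ → tr f y = 0 := by
    have h1 := Complex.volume_preserving_equiv_real_prod.quasiMeasurePreserving.ae h
    filter_upwards [h1] with y hy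
    exact hy
  have h2 : HasCompactSupport (mol n (tr f)) := by
    refine HasCompactSupport.intro (isCompact_closedBall (0 : ℂ) (2 * R + 1)) fun z hz => ?_
    rw [mem_closedBall_zero_iff, not_le] at hz
    unfold mol
    rw [integral_eq_zero_of_ae]
    filter_upwards [h0] with y hy
    by_cases h3 : wd n ≤ ‖z - y‖
    · rw [rho_zero h3]
      simp
    · rw [not_le] at h3
      have h4 : ‖z‖ ≤ ‖z - y‖ + ‖y‖ := by
        have := norm_add_le (z - y) y
        rwa [sub_add_cancel] at this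
      have h5 : ‖y‖ ≤ 2 * ‖ee.symm y‖ := by
        have := norm_ee (ee.symm y)
        rwa [ContinuousLinearEquiv.apply_symm_apply] at this
      have h6 := wd_le_one n
      rw [hy (by linarith)]
      simp
  exact h2.comp_homeomorph ee.toHomeomorph

lemma pm_deriv (n : ℕ) {f g : ℝ × ℝ → ℂ} (hf : MemLp f 2 volume) (v : ℝ × ℝ)
    (hw : ∀ ψ : ℝ × ℝ → ℂ, Test ψ → ∫ x, f x * fderiv ℝ ψ x v = - ∫ x, g x * ψ x) (x : ℝ × ℝ) :
    fderiv ℝ (pm n f) x v = pm n g x := by
  have e1 : fderiv ℝ (pm n f) x v = fderiv ℝ (mol n (tr f)) (ee x) (ee v) := by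
    have : pm n f = mol n (tr f) ∘ ee := rfl
    rw [this, ContinuousLinearEquiv.comp_right_fderiv]
    rfl
  rw [e1, mol_fderiv n (tr_loc hf)]
  let χ : ℝ × ℝ → ℂ := fun y => ((rho n (ee x - ee y) : ℝ) : ℂ)
  have hχs : ContDiff ℝ ∞ χ :=
    Complex.ofRealCLM.contDiff.comp ((rho_sm n).comp (contDiff_const.sub ee.contDiff))
  have hχ : Test χ := by
    refine ⟨hχs, ?_⟩
    have h1 : HasCompactSupport (fun z : ℂ => rho n (ee x - z)) := by
      refine HasCompactSupport.intro (isCompact_closedBall (ee x) (wd n)) fun z hz => ?_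
      rw [Metric.mem_closedBall, dist_comm, dist_eq_norm, not_le] at hz
      exact rho_zero hz.le
    have h2 := h1.comp_homeomorph ee.toHomeomorph
    exact h2.comp_left (g := fun r : ℝ => (r : ℂ)) (by simp)
  have e2 : ∀ y, fderiv ℝ χ y v = ((-(fderiv ℝ (rho n) (ee x - ee y) (ee v)) : ℝ) : ℂ) := by
    intro y
    have h1 : HasFDerivAt (fun t : ℝ × ℝ => ee x - ee t) (-(ee : (ℝ × ℝ) →L[ℝ] ℂ)) y := by
      simpa using (ee.hasFDerivAt (x := y)).const_sub (ee x)
    have h2 := (((rho_sm n).differentiable (by simp)) (ee x - ee y)).hasFDerivAt.comp y h1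
    have h3 := Complex.ofRealCLM.hasFDerivAt.comp y h2
    have h4 : fderiv ℝ χ y = _ := h3.fderiv
    rw [h4]
    simp
  have h3 := hw χ hχ
  have e3 : ∫ y, (fderiv ℝ (rho n) (ee x - y) (ee v)) • tr f y =
      ∫ y : ℝ × ℝ, (fderiv ℝ (rho n) (ee x - ee y) (ee v)) • f y := by
    rw [← ee_mp.integral_comp ee_me]
    rfl
  have e4 : pm n g x = ∫ y : ℝ × ℝ, rho n (ee x - ee y) • g y := by
    unfold pm mol
    rw [← ee_mp.integral_comp ee_me]
    rfl
  rw [e3, e4]
  have e5 : ∫ y : ℝ × ℝ, (fderiv ℝ (rho n) (ee x - ee y) (ee v)) • f y =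
      - ∫ y, f y * fderiv ℝ χ y v := by
    rw [← integral_neg]
    congr 1
    funext y
    rw [e2 y, Complex.real_smul]
    push_cast
    ring
  rw [e5, h3, neg_neg]
  congr 1
  funext y
  rw [Complex.real_smul, mul_comm]

end MOLM

open MOLM in
theorem specMOL : SpecMOL := by
  intro f F₁ F₂ R hH hR ε hε
  have hf : MemLp (fun x => f x) 2 volume := Lp.memLp f
  have h1 : MemLp (fun x => F₁ x) 2 volume := Lp.memLp F₁
  have h2 : MemLp (fun x => F₂ x) 2 volume := Lp.memLp F₂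
  have hε' : (0 : ℝ≥0∞) < ENNReal.ofReal ε := ENNReal.ofReal_pos.2 hε
  have a0 := (pm_conv hf).eventually_le_const hε'
  have a1 := (pm_conv h1).eventually_le_const hε'
  have a2 := (pm_conv h2).eventually_le_const hε'
  obtain ⟨n, b0, b1, b2⟩ := (a0.and (a1.and a2)).exists
  refine ⟨pm n f, ⟨pm_smooth n hf, pm_supp n hR⟩, b0, ?_, ?_⟩
  · have : (fun x => d1 (pm n f) x - F₁ x) = fun x => pm n F₁ x - F₁ x := by
      funext x
      rw [d1, pm_deriv n hf (1, 0) (fun ψ hψ => (hH ψ hψ).1)]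
    rw [this]
    exact b1
  · have : (fun x => d2 (pm n f) x - F₂ x) = fun x => pm n F₂ x - F₂ x := by
      funext x
      rw [d2, pm_deriv n hf (0, 1) (fun ψ hψ => (hH ψ hψ).2)]
    rw [this]
    exact b2

end Pool.Agent.Lib.MP424d38.TY
end
end

section
/-!
# MP_424d38_an: all modules together
-/
set_option autoImplicit false

namespace Pool.Agent.Lib.MP424d38.TY

theorem aCUT : SpecCUT := specCUT 
theorem aMOL : SpecMOL := specMOL 
theorem aDEN : SpecDEN := specDEN aCUT aMOL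
theorem aTH1 : SpecTH1 := specTH1 
theorem aBYP : SpecBYP := specBYP aDEN
theorem aLIN : SpecLIN := specLIN 
theorem aMUL : SpecMUL := specMUL aTH1 aBYP
theorem aTRN : SpecTRN := specTRN 
theorem aSWP : SpecSWP := specSWP 
theorem aDNS : SpecDNS := specDNS 
theorem aSLC : SpecSLC := specSLC aDEN aDNS
theorem aRHB : SpecRHB := specRHB aSLC
theorem aGN1 : SpecGN1 := specGN1 
theorem aS4B : SpecS4B := specS4B aSLC aGN1
theorem aSOB : SpecSOB := specSOB aDNS aRHB aS4B
theorem aCUB : SpecCUB := specCUB 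
theorem aCTN : SpecCTN := specCTN aSOB aCUB aLIN
theorem aZER : SpecZER := specZER aDEN aSOB aCUB aLIN aTH1
theorem aZE2 : SpecZE2 := specZE2 aDEN
theorem aEXT : SpecEXT := specEXT aDEN aBYP
theorem aBIL : SpecBIL := specBIL aEXT aMUL aLIN
theorem aDQL : SpecDQL := specDQL aTRN aLIN
theorem aSHF : SpecSHF := specSHF 
theorem aRHL : SpecRHL := specRHL aBIL aDNS aZE2
theorem aMML : SpecMML := specMML aBIL aDQL aZER aDNS
theorem aFLO : SpecFLO := specFLO aRHL aMML aDNS aRHB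
theorem aHCF : SpecHCF := specHCF 
theorem aKPF : SpecKPF := specKPF 
theorem aPHF : SpecPHF := specPHF aHCF aKPF
theorem aDDB : SpecDDB := specDDB 
theorem aPAI : SpecPAI := specPAI aDDB
theorem aGLM : SpecGLM := specGLM aKPF
theorem aFLB : SpecFLB := specFLB 
theorem aUGB : SpecUGB := specUGB aKPF aPAI aGLM aFLB aDDB
theorem aLBD : SpecLBD := specLBD aHCF aKPF aPHF aPAI aGLM aFLB aDDB
theorem aCLL : SpecCLL := specCLL aHCF aPAI aFLB aDDB
theorem aANN : SpecANN := specANN aHCF aPHF aPAI aFLB aDDB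
theorem aPHI : SpecPHI := specPHI aHCF aDDB
theorem aUPB : SpecUPB := specUPB aCLL aANN aPHI
theorem aGAS : SpecGAS := specGAS aLBD aUPB aUGB
theorem aYNG : SpecYNG := specYNG 
theorem aHYG : SpecHYG := specHYG aYNG
theorem aKDS : SpecKDS := specKDS aHYG
theorem aFUX : SpecFUX := specFUX 
theorem aFUG : SpecFUG := specFUG 
theorem aFWD : SpecFWD := specFWD aDEN
theorem aFUH : SpecFUH := specFUH aFWD
theorem aFUE : SpecFUE := specFUE aFWD aTH1 aFUG
theorem aFUK : SpecFUK := specFUK 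
theorem aDSP : SpecDSP := specDSP aKDS aFUK
theorem aPRP : SpecPRP := specPRP aFUX aFUG aFUH aFUE aDSP
theorem aDUH : SpecDUH := specDUH aBIL aTH1
theorem aHYT : SpecHYT := specHYT aYNG
theorem aPAR : SpecPAR := specPAR 
theorem aN4F : SpecN4F := specN4F aSOB aLIN
theorem aNWB : SpecNWB := specNWB aCUB aTRN aN4F
theorem aCHV : SpecCHV := specCHV 
theorem aWKD : SpecWKD := specWKD aCHV
theorem aDBR : SpecDBR := specDBR 
theorem aTRF : SpecTRF := specTRF aCHV aWKD aDBR aCTN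
theorem aSUP : SpecSUP := specSUP 
theorem aRLB : SpecRLB := specRLB aSUP
theorem aRA1 : SpecRA1 := specRA1 aRLB aSUP
theorem aRZ : SpecRZ := specRZ 
theorem aRA2 : SpecRA2 := specRA2 aRA1 aRZ aSUP
theorem aSTR : SpecSTR := specSTR aDUH aHYT aPAR aCTN aN4F
theorem aGCW : SpecGCW := specGCW aSTR aNWB aDQL aSHF aBIL aN4F aPRP
theorem aGRC : SpecGRC := specGRC aGCW aTRN aSWP aN4F
theorem aDAT : SpecDAT := specDAT aFLO aUGB aGAS aGRC aSOB aN4F aSWP aRHL aSUP
theorem aNUL : SpecNUL := specNUL aDAT aRA1 aRA2 aSUP aRHL aN4F aLIN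
theorem aFIN : SpecFIN := specFIN aTRF aNUL aCHV

end Pool.Agent.Lib.MP424d38.TY
end
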