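import Mathlib

/-!
# MP_424d38_an, block TY (no type I blow-up for the hyperbolic cubic NLS, d = 2): definitions

Null coordinates: points `x = (a, b) : ℝ × ℝ`.  The equation is `i v_t + 4 v_{ab} + N = 0`.
`v₁ = ∂_a v`, `v₂ = ∂_b v`.  All time dependent objects are maps `ℝ → L2` continuous on `[0,T)`.
-/

set_option autoImplicit false

open MeasureTheory Filter Topology Set
open scoped ENNReal ContDiff ComplexConjugate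

noncomputable section

namespace Pool.Agent.Lib.MP424d38.TY

/-- `L²(ℝ × ℝ; ℂ)` -/
abbrev L2 := Lp ℂ 2 (volume : Measure (ℝ × ℝ))

/-- `L¹(ℝ; ℝ)` -/
abbrev L1 := Lp ℝ 1 (volume : Measure ℝ)

/-- test functions `C_c^∞(ℝ × ℝ; ℂ)` -/
def Test (ψ : ℝ × ℝ → ℂ) : Prop := ContDiff ℝ ∞ ψ ∧ HasCompactSupport ψ

/-- `∂_a ψ` (first coordinate) -/
def d1 (ψ : ℝ × ℝ → ℂ) : ℝ × ℝ → ℂ := fun x => fderiv ℝ ψ x (1, 0)

/-- `∂_b ψ` (second coordinate) -/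
def d2 (ψ : ℝ × ℝ → ℂ) : ℝ × ℝ → ℂ := fun x => fderiv ℝ ψ x (0, 1)

/-- `f ∈ H¹(ℝ × ℝ)` with weak derivatives `F₁ = ∂_a f`, `F₂ = ∂_b f`. -/
def IsH1 (f F₁ F₂ : L2) : Prop :=
  ∀ ψ : ℝ × ℝ → ℂ, Test ψ →
    (∫ x, f x * d1 ψ x = - ∫ x, F₁ x * ψ x) ∧ (∫ x, f x * d2 ψ x = - ∫ x, F₂ x * ψ x)

/-- `Lin T v v₁ v₂ N`: `v ∈ C([0,T); H¹)` is a weak solution of `i v_t + 4 v_{ab} + N = 0`,
with `N ∈ C([0,T); L²)`. -/
structure Lin (T : ℝ) (v v₁ v₂ N : ℝ → L2) : Prop where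
  h1 : ∀ t ∈ Ico 0 T, IsH1 (v t) (v₁ t) (v₂ t)
  cv : ContinuousOn v (Ico 0 T)
  c1 : ContinuousOn v₁ (Ico 0 T)
  c2 : ContinuousOn v₂ (Ico 0 T)
  cN : ContinuousOn N (Ico 0 T)
  eq : ∀ ψ : ℝ × ℝ → ℂ, Test ψ → ∀ s t : ℝ, 0 ≤ s → s ≤ t → t < T →
    (∫ x, v t x * ψ x) - ∫ x, v s x * ψ x
      = ∫ r in s..t, Complex.I * (-4 * (∫ x, v₂ r x * d1 ψ x) + ∫ x, N r x * ψ x)

/-- solutions of the cubic equation on `[0,T)`: `Lin` with `N = |v|² v`. -/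
structure Nls (T : ℝ) (v v₁ v₂ N : ℝ → L2) : Prop extends Lin T v v₁ v₂ N where
  nl : ∀ t ∈ Ico 0 T, ∀ᵐ x : ℝ × ℝ, N t x = ((‖v t x‖ ^ 2 : ℝ) : ℂ) * v t x

/-- translation by `h` in the second coordinate: `(trn h f)(a,b) = f(a, b+h)`. -/
def trn (h : ℝ) (f : L2) : L2 :=
  Lp.compMeasurePreserving (fun x : ℝ × ℝ => x + ((0 : ℝ), h))
    (measurePreserving_add_right volume ((0 : ℝ), h)) f

/-- exchange of the coordinates: `(swp f)(a,b) = f(b,a)`. -/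
def swp (f : L2) : L2 :=
  Lp.compMeasurePreserving (fun x : ℝ × ℝ => x.swap)
    (Measure.measurePreserving_swap (μ := (volume : Measure ℝ)) (ν := (volume : Measure ℝ))) f

/-- the difference quotient `(trn h f - f)/h`. -/
def dq (h : ℝ) (f : L2) : L2 := ((h⁻¹ : ℝ) : ℂ) • (trn h f - f)

/-- mass density on the lines `a = const`: `∫ |f(a,b)|² db`. -/
def rhoD (f : L2) (a : ℝ) : ℝ := ∫ b, ‖f (a, b)‖ ^ 2

/-- momentum density: `∫ Im (conj f F)(a,b) db`. -/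
def momD (f F : L2) (a : ℝ) : ℝ := ∫ b, (conj (f (a, b)) * F (a, b)).im

/-- `g(f) = ∫ (ρ e - p²) da`, `ρ = rhoD f`, `e = rhoD F₂`, `p = momD f F₂`. -/
def gD (f F₂ : L2) : ℝ := ∫ a, (rhoD f a * rhoD F₂ a - momD f F₂ a ^ 2)

/-- bounded `C¹` functions with bounded derivative. -/
def Cb1 (β : ℝ → ℝ) : Prop :=
  ContDiff ℝ 1 β ∧ ∃ C : ℝ, ∀ a, |β a| ≤ C ∧ |deriv β a| ≤ C

/-- a scalar conservation law on the line, tested against `Cb1` functions: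
`f_t = - F_a` on `[0,T)`, in the form `d/dt ∫ β f = ∫ β' F`. -/
structure Law (T : ℝ) (f F : ℝ → L1) : Prop where
  cf : ContinuousOn f (Ico 0 T)
  cF : ContinuousOn F (Ico 0 T)
  law : ∀ β : ℝ → ℝ, Cb1 β → ∀ s t : ℝ, 0 ≤ s → s ≤ t → t < T →
    (∫ a, β a * f t a) - ∫ a, β a * f s a = ∫ r in s..t, ∫ a, deriv β a * F r a

/-- The one dimensional flow of densities: `ρ_t = -4 p_a`, `p_t = -4 e_a`, `p² ≤ ρ e`,
`0 ≤ ρ ≤ R(t)`, total mass `m`. -/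
structure Flow (T m : ℝ) (R : ℝ → ℝ) (ρ p e : ℝ → L1) : Prop where
  lawρ : Law T ρ (fun t => (4 : ℝ) • p t)
  lawp : Law T p (fun t => (4 : ℝ) • e t)
  cR : ContinuousOn R (Ico 0 T)
  pos : ∀ t ∈ Ico 0 T, ∀ᵐ a : ℝ, 0 ≤ ρ t a ∧ 0 ≤ e t a ∧ (p t a) ^ 2 ≤ ρ t a * e t a ∧ ρ t a ≤ R t
  mass : ∀ t ∈ Ico 0 T, ∫ a, ρ t a = m

/-- `g(t) = ∫ (ρ e - p²) da`. -/
def gF (ρ p e : ℝ → L1) (t : ℝ) : ℝ := ∫ a, (ρ t a * e t a - p t a ^ 2)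

/-- smooth cutoff: `1` on `[-1,1]`, `0` outside `[-2,2]`, even. -/
def hc (s : ℝ) : ℝ := Real.smoothTransition (2 - s) * Real.smoothTransition (2 + s)

/-- the kernel `|s| h(s/ℓ)`. -/
def phi (ℓ s : ℝ) : ℝ := |s| * hc (s / ℓ)

/-- smooth odd approximation of the sign: `κ_n(s) = 2 σ((n s + 1)/2) - 1`,
`σ` the smooth transition; equal to `sgn s` for `|s| ≥ 1/n`. -/
def kap (n : ℕ) (s : ℝ) : ℝ := 2 * Real.smoothTransition (((n : ℝ) * s + 1) / 2) - 1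

/-- `D_κ(t) = ∬ κ(a-a') f(a) g(a') da da'`. -/
def DD (κ : ℝ → ℝ) (f g : L1) : ℝ := ∫ z : ℝ × ℝ, κ (z.1 - z.2) * (f z.1 * g z.2)

/-- the free group: a strongly continuous unitary group on `L2` which preserves `H¹`, solves the
linear equation, and satisfies the dispersive estimate. -/
structure IsProp (U : ℝ → L2 →L[ℂ] L2) : Prop where
  norm : ∀ (t : ℝ) (f : L2), ‖U t f‖ = ‖f‖
  zero : ∀ f : L2, U 0 f = f
  add : ∀ (s t : ℝ) (f : L2), U (s + t) f = U s (U t f)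
  cont : ∀ f : L2, Continuous fun t => U t f
  h1 : ∀ (t : ℝ) (f F₁ F₂ : L2), IsH1 f F₁ F₂ → IsH1 (U t f) (U t F₁) (U t F₂)
  eq : ∀ f F₁ F₂ : L2, IsH1 f F₁ F₂ → ∀ ψ : ℝ × ℝ → ℂ, Test ψ → ∀ s t : ℝ, s ≤ t →
    (∫ x, U t f x * ψ x) - ∫ x, U s f x * ψ x
      = ∫ r in s..t, Complex.I * (-4 * ∫ x, U r F₂ x * d1 ψ x)
  disp : ∀ (t : ℝ) (f : L2), t ≠ 0 →
    eLpNorm (U t f) 4 volume ≤ ENNReal.ofReal (|t| ^ (-(1 / 2) : ℝ)) * eLpNorm f (4 / 3) volume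

end Pool.Agent.Lib.MP424d38.TY
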