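import Mathlib

/-!
# MP_424d38_an: `H¹` solutions of the hyperbolic cubic Schrödinger equation on `[0,T) × ℝ²`

The solution concept is the one of the frozen statement S04479 (weak derivatives, continuity in `H¹`, weak
equation), on the time interval `[0,T)`, in dimension `d = 2`; coordinate `0` is `x`, coordinate `1` is `z`.
-/

set_option autoImplicit false

open MeasureTheory Filter Topology Set
open scoped ENNReal ContDiff

noncomputable section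

namespace Pool.Agent.Lib.MP424d38.TY

abbrev EE := EuclideanSpace ℝ (Fin 2)

/-- `u ∈ C([0,T); H¹(ℝ²))`, with weak partial derivatives `G t 0 = ∂_x u(t)`, `G t 1 = ∂_z u(t)`, is a weak solution of
`i u_t + (∂_x² - ∂_z²) u + |u|² u = 0` on `(0,T) × ℝ²`. -/
structure H1Sol (T : ℝ) (u : ℝ → EE → ℂ) (G : ℝ → Fin 2 → EE → ℂ) : Prop where
  memu : ∀ t ∈ Ico 0 T, MemLp (u t) 2 volume
  memG : ∀ t ∈ Ico 0 T, ∀ j, MemLp (G t j) 2 volume
  weak : ∀ t ∈ Ico 0 T, ∀ j, ∀ ψ : EE → ℂ, ContDiff ℝ ∞ ψ → HasCompactSupport ψ →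
    ∫ x, u t x * fderiv ℝ ψ x (EuclideanSpace.single j (1 : ℝ)) = -∫ x, G t j x * ψ x
  contu : ∀ t ∈ Ico 0 T, Tendsto (fun s : ℝ => eLpNorm (u s - u t) 2 volume) (𝓝[Ico 0 T] t) (𝓝 0)
  contG : ∀ t ∈ Ico 0 T, ∀ j,
    Tendsto (fun s : ℝ => eLpNorm (G s j - G t j) 2 volume) (𝓝[Ico 0 T] t) (𝓝 0)
  eq : ∀ φ : ℝ → EE → ℂ, ContDiff ℝ ∞ (Function.uncurry φ) → HasCompactSupport (Function.uncurry φ) →
    tsupport (Function.uncurry φ) ⊆ Ioo 0 T ×ˢ univ →
    ∫ t, ∫ x,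
      (-Complex.I * u t x * deriv (fun s : ℝ => φ s x) t
       + u t x * ∑ j : Fin 2, (if (j : ℕ) + 1 = 2 then (-1 : ℂ) else 1) *
           fderiv ℝ (fun y => fderiv ℝ (φ t) y (EuclideanSpace.single j (1 : ℝ))) x
             (EuclideanSpace.single j (1 : ℝ))
       + ((‖u t x‖ ^ 2 : ℝ) : ℂ) * u t x * φ t x) = 0

/-- the `L²` norm of a function on the plane. -/
def nrm (f : EE → ℂ) : ℝ := (eLpNorm f 2 volume).toReal

/-- the null coordinates `(a,b) ↦ (x,z) = ((a+b)/2, (b-a)/2)`, i.e. `a = x - z`, `b = x + z`. -/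
def PhiN (x : ℝ × ℝ) : EE := !₂[(x.1 + x.2) / 2, (x.2 - x.1) / 2]

end Pool.Agent.Lib.MP424d38.TY
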