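import Pool.Agent.Lib.MP_424d38_an.SpecC

/-!
# Definitions for block E (Fourier transform, kernel of the free group)
-/

set_option autoImplicit false

open MeasureTheory Filter Topology Set
open scoped ENNReal ContDiff ComplexConjugate FourierTransform

noncomputable section

namespace Pool.Agent.Lib.MP424d38.TY

/-- `ℝ × ℝ` with the euclidean norm (Mathlib's Fourier transform needs an inner product space). -/
abbrev E2 := WithLp 2 (ℝ × ℝ)

abbrev L2E := Lp ℂ 2 (volume : Measure E2)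

/-- coordinates `E2 → ℝ × ℝ`. -/
def prE (x : E2) : ℝ × ℝ := WithLp.ofLp x

/-- inverse coordinates. -/
def inE (x : ℝ × ℝ) : E2 := WithLp.toLp 2 x

theorem prE_mp : MeasurePreserving prE (volume : Measure E2) (volume : Measure (ℝ × ℝ)) :=
  WithLp.volume_preserving_ofLp ℝ ℝ

theorem inE_mp : MeasurePreserving inE (volume : Measure (ℝ × ℝ)) (volume : Measure E2) :=
  WithLp.volume_preserving_toLp ℝ ℝ

/-- transport `L²(ℝ × ℝ) → L²(E2)`. -/
def toE (f : L2) : L2E := Lp.compMeasurePreserving prE prE_mp f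

/-- transport `L²(E2) → L²(ℝ × ℝ)`. -/
def ofE (f : L2E) : L2 := Lp.compMeasurePreserving inE inE_mp f

/-- the symbol of `exp(4it∂_a∂_b)`: `exp(-16π² i t k₁ k₂)`. -/
def sym (t : ℝ) (k : E2) : ℂ :=
  Complex.exp (((-(16 * Real.pi ^ 2 * t * (prE k).1 * (prE k).2) : ℝ) : ℂ) * Complex.I)

/-- `U t` is the Fourier multiplier with symbol `sym t`. -/
def IsFree (U : ℝ → L2 →L[ℂ] L2) : Prop := ∀ (t : ℝ) (f : L2),
  ∀ᵐ k : E2, (𝓕 (toE (U t f)) : L2E) k = sym t k * (𝓕 (toE f) : L2E) k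

/-- the kernel operator `(8π|t|)⁻¹ ∬ exp(i(a-a')(b-b')/(4t)) ψ(a',b')`. -/
def KK (t : ℝ) (ψ : ℝ × ℝ → ℂ) (x : ℝ × ℝ) : ℂ :=
  ((8 * Real.pi * |t|)⁻¹ : ℝ) *
    ∫ y : ℝ × ℝ, Complex.exp ((((x.1 - y.1) * (x.2 - y.2) / (4 * t) : ℝ) : ℂ) * Complex.I) * ψ y

/-- `‖f‖₄` as a real number. -/
def n4 (f : L2) : ℝ := (eLpNorm f 4 volume).toReal

end Pool.Agent.Lib.MP424d38.TY
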